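import Pool.Agent.Work.MP_2b4d3b_al.Fred

/-!
MODULE AlmRep. Almost representations and the index of matrices. τ is a representation of the free
algebra on Γ, μ an algebra homomorphism from it (in the application onto a Leavitt path algebra).
opM τ x is the operator of the matrix x on T → P, multiplicative.
frk_of_rel: if r-related elements have FRk difference under τ, then elements killed by the quotient
map are FRk under τ: the relation FRk (f - g) on Module.End K P is a ring congruence (FRk is a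
two-sided ideal); factor τ through RingQuot (liftAlgHom into the quotient by this congruence, or
RingQuot.mkAlgHom equality via RingQuot.Rel / EqvGen induction).
idx_fred: x y and y x are 1 modulo ker μ entrywise, so opM x, opM y are parametrices of each other.
idx_exact: opM τ x is bijective. idx_congr: opM τ x - opM τ y is FRk; ind_add.
idx_sum: the hypothesis on generators extends to all a in the free algebra (scalars are fine) as
FRk (pr_i e τ(a) - σ_i(a) pr_i e). Any map into F is FRk. So, after reindexing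
(T → F × Π i, Q i) ≃ (T → F) × Π i, (T → Q i), opM τ x differs by FRk from id × Π i, opM (σ i) x. Use
ind_add, ind_conj, ind_prod, ind_pi, ind_bij.
-/

set_option linter.unusedVariables false
set_option linter.style.longLine false

namespace Pool.Agent.Work.MP_2b4d3b_al

open Matrix

universe u v w u' v' w'

section
variable {K : Type u} [Field K] {V : Type v} {W : Type w} [AddCommGroup V] [Module K V]
  [AddCommGroup W] [Module K W]

private theorem AlmRep_sum {ι : Type u'} (s : Finset ι) (f : ι → V →ₗ[K] W)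
    (h : ∀ i ∈ s, FRk (f i)) : FRk (∑ i ∈ s, f i) := by
  classical
  induction s using Finset.induction_on with
  | empty => simpa using FRk.zero
  | insert a s ha ih =>
    rw [Finset.sum_insert ha]
    exact (h a (Finset.mem_insert_self _ _)).add
      (ih fun i hi => h i (Finset.mem_insert_of_mem hi))

private theorem AlmRep_pi {ι : Type u'} [Fintype ι] {Q : ι → Type v'} [∀ i, AddCommGroup (Q i)]
    [∀ i, Module K (Q i)] (f : V →ₗ[K] (∀ i, Q i))
    (h : ∀ i, FRk ((LinearMap.proj i : (∀ i, Q i) →ₗ[K] Q i) ∘ₗ f)) : FRk f := by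
  classical
  have e : f = ∑ i, (LinearMap.single K Q i) ∘ₗ
      ((LinearMap.proj i : (∀ i, Q i) →ₗ[K] Q i) ∘ₗ f) := by
    ext v j
    simp [LinearMap.sum_apply, Finset.sum_apply, Pi.single_apply]
  rw [e]
  exact AlmRep_sum _ _ fun i _ => (h i).comp_left _

private theorem AlmRep_prod {W' : Type w'} [AddCommGroup W'] [Module K W']
    (f : V →ₗ[K] W × W') (h1 : FRk (LinearMap.fst K W W' ∘ₗ f))
    (h2 : FRk (LinearMap.snd K W W' ∘ₗ f)) : FRk f := by
  have e : f = LinearMap.inl K W W' ∘ₗ (LinearMap.fst K W W' ∘ₗ f) +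
      LinearMap.inr K W W' ∘ₗ (LinearMap.snd K W W' ∘ₗ f) := by
    ext v <;> simp
  rw [e]
  exact (h1.comp_left _).add (h2.comp_left _)

/-- the congruence of finite rank differences -/
private def AlmRep_con (K : Type u) [Field K] (P : Type w) [AddCommGroup P] [Module K P] :
    RingCon (Module.End K P) where
  r f g := FRk (f - g)
  iseqv := by
    refine ⟨fun f => ?_, fun {f g} h => ?_, fun {f g k} h h' => ?_⟩
    · rw [sub_self]; exact FRk.zero
    · have : g - f = -(f - g) := by abel
      rw [this]; exact h.neg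
    · have : f - k = (f - g) + (g - k) := by abel
      rw [this]; exact h.add h'
  add' := by
    intro f g k l h h'
    have : f + k - (g + l) = (f - g) + (k - l) := by abel
    rw [this]; exact h.add h'
  mul' := by
    intro f g k l h h'
    have e : f * k - g * l = (f - g) * k + g * (k - l) := by
      rw [sub_mul, mul_sub]; abel
    rw [e]
    exact (h.comp_right k).add (h'.comp_left g)

end

section
variable {K : Type u} [Field K] {Γ : Type v}

noncomputable def opM {P : Type w} [AddCommGroup P] [Module K P]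
    (τ : FreeAlgebra K Γ →ₐ[K] Module.End K P) {T : Type} [Fintype T]
    (x : Matrix T T (FreeAlgebra K Γ)) : (T → P) →ₗ[K] (T → P) :=
  LinearMap.pi fun i => ∑ j, (τ (x i j)) ∘ₗ LinearMap.proj j

theorem opM_mul {P : Type w} [AddCommGroup P] [Module K P]
    (τ : FreeAlgebra K Γ →ₐ[K] Module.End K P) {T : Type} [Fintype T]
    (x y : Matrix T T (FreeAlgebra K Γ)) : opM τ (x * y) = opM τ x ∘ₗ opM τ y := by
  ext v i
  simp only [opM, LinearMap.pi_apply, LinearMap.sum_apply, LinearMap.comp_apply,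
    LinearMap.proj_apply, Matrix.mul_apply, map_sum, map_mul, Module.End.mul_apply]
  rw [Finset.sum_comm]

theorem opM_one {P : Type w} [AddCommGroup P] [Module K P]
    (τ : FreeAlgebra K Γ →ₐ[K] Module.End K P) {T : Type} [Fintype T] [DecidableEq T] :
    opM τ (1 : Matrix T T (FreeAlgebra K Γ)) = LinearMap.id := by
  apply LinearMap.ext
  intro v
  funext i
  have h : opM τ (1 : Matrix T T (FreeAlgebra K Γ)) v i =
      ∑ j, τ ((1 : Matrix T T (FreeAlgebra K Γ)) i j) (v j) := by
    simp [opM, LinearMap.sum_apply]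
  rw [h, LinearMap.id_apply, Finset.sum_eq_single i]
  · rw [Matrix.one_apply_eq, map_one, Module.End.one_apply]
  · intro j _ hj
    rw [Matrix.one_apply_ne hj.symm, map_zero, LinearMap.zero_apply]
  · intro h
    exact absurd (Finset.mem_univ i) h

theorem opM_add {P : Type w} [AddCommGroup P] [Module K P]
    (τ : FreeAlgebra K Γ →ₐ[K] Module.End K P) {T : Type} [Fintype T]
    (x y : Matrix T T (FreeAlgebra K Γ)) : opM τ (x + y) = opM τ x + opM τ y := by
  ext v i
  simp [opM, LinearMap.sum_apply, Finset.sum_add_distrib]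

theorem opM_sub {P : Type w} [AddCommGroup P] [Module K P]
    (τ : FreeAlgebra K Γ →ₐ[K] Module.End K P) {T : Type} [Fintype T]
    (x y : Matrix T T (FreeAlgebra K Γ)) : opM τ (x - y) = opM τ x - opM τ y := by
  ext v i
  simp [opM, LinearMap.sum_apply, Finset.sum_sub_distrib]

theorem frk_of_rel {r : FreeAlgebra K Γ → FreeAlgebra K Γ → Prop} {P : Type w} [AddCommGroup P]
    [Module K P] (τ : FreeAlgebra K Γ →ₐ[K] Module.End K P)
    (hτ : ∀ a b, r a b → FRk (τ a - τ b)) (a : FreeAlgebra K Γ)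
    (h : RingQuot.mkAlgHom K r a = 0) : FRk (τ a) := by
  have h1 : RingQuot.mkRingHom r a = 0 := by
    rw [← RingQuot.mkAlgHom_coe K r]
    exact h
  set c := AlmRep_con K P with hc
  have h2 : ∀ ⦃x y⦄, r x y → (c.mk'.comp (τ : FreeAlgebra K Γ →+* Module.End K P)) x =
      (c.mk'.comp (τ : FreeAlgebra K Γ →+* Module.End K P)) y := by
    intro x y hxy
    exact (RingCon.eq c).2 (hτ x y hxy)
  have h3 := RingQuot.lift_mkRingHom_apply (c.mk'.comp (τ : FreeAlgebra K Γ →+* Module.End K P))
    h2 a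
  rw [h1, map_zero] at h3
  have h4 : c (τ a) 0 := (RingCon.eq c).1 h3.symm
  have h5 : FRk (τ a - 0) := h4
  rwa [sub_zero] at h5

private theorem AlmRep_opM {P : Type w} [AddCommGroup P] [Module K P]
    (τ : FreeAlgebra K Γ →ₐ[K] Module.End K P) {T : Type} [Fintype T]
    (x : Matrix T T (FreeAlgebra K Γ)) (h : ∀ i j, FRk (τ (x i j))) : FRk (opM τ x) := by
  refine AlmRep_pi _ fun i => ?_
  have e : (LinearMap.proj i : (T → P) →ₗ[K] P) ∘ₗ opM τ x =
      ∑ j, (τ (x i j)) ∘ₗ (LinearMap.proj j : (T → P) →ₗ[K] P) := by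
    ext v
    simp [opM, LinearMap.sum_apply]
  rw [e]
  exact AlmRep_sum _ _ fun j _ => (h i j).comp_right _

private theorem AlmRep_opM0 {P : Type w} [AddCommGroup P] [Module K P]
    (τ : FreeAlgebra K Γ →ₐ[K] Module.End K P) {T : Type} [Fintype T]
    (x : Matrix T T (FreeAlgebra K Γ)) (h : ∀ i j, τ (x i j) = 0) : opM τ x = 0 := by
  ext v i
  simp [opM, LinearMap.sum_apply, h]

variable {L : Type u'} [Ring L] [Algebra K L] (μ : FreeAlgebra K Γ →ₐ[K] L)

theorem idx_fred {P : Type w} [AddCommGroup P] [Module K P]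
    (τ : FreeAlgebra K Γ →ₐ[K] Module.End K P) (hτ : ∀ a, μ a = 0 → FRk (τ a))
    {T : Type} [Fintype T] [DecidableEq T] (x y : Matrix T T (FreeAlgebra K Γ))
    (h1 : (x * y).map μ = 1) (h2 : (y * x).map μ = 1) : Fredh (opM τ x) := by
  refine fred_of_param _ (opM τ y) ?_ ?_
  · rw [← opM_mul, ← opM_one τ, ← opM_sub]
    refine AlmRep_opM τ _ fun i j => hτ _ ?_
    have := congrFun (congrFun h2 i) j
    rw [Matrix.map_apply] at this
    rw [Matrix.sub_apply, map_sub, this, Matrix.one_apply, Matrix.one_apply]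
    split_ifs <;> simp
  · rw [← opM_mul, ← opM_one τ, ← opM_sub]
    refine AlmRep_opM τ _ fun i j => hτ _ ?_
    have := congrFun (congrFun h1 i) j
    rw [Matrix.map_apply] at this
    rw [Matrix.sub_apply, map_sub, this, Matrix.one_apply, Matrix.one_apply]
    split_ifs <;> simp

theorem idx_exact {P : Type w} [AddCommGroup P] [Module K P]
    (τ : FreeAlgebra K Γ →ₐ[K] Module.End K P) (hτ : ∀ a, μ a = 0 → τ a = 0)
    {T : Type} [Fintype T] [DecidableEq T] (x y : Matrix T T (FreeAlgebra K Γ))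
    (h1 : (x * y).map μ = 1) (h2 : (y * x).map μ = 1) : ind (opM τ x) = 0 := by
  have e1 : opM τ y ∘ₗ opM τ x = LinearMap.id := by
    rw [← sub_eq_zero, ← opM_mul, ← opM_one τ, ← opM_sub]
    refine AlmRep_opM0 τ _ fun i j => hτ _ ?_
    have := congrFun (congrFun h2 i) j
    rw [Matrix.map_apply] at this
    rw [Matrix.sub_apply, map_sub, this, Matrix.one_apply, Matrix.one_apply]
    split_ifs <;> simp
  have e2 : opM τ x ∘ₗ opM τ y = LinearMap.id := by
    rw [← sub_eq_zero, ← opM_mul, ← opM_one τ, ← opM_sub]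
    refine AlmRep_opM0 τ _ fun i j => hτ _ ?_
    have := congrFun (congrFun h1 i) j
    rw [Matrix.map_apply] at this
    rw [Matrix.sub_apply, map_sub, this, Matrix.one_apply, Matrix.one_apply]
    split_ifs <;> simp
  refine (ind_bij _ ?_).2
  refine Function.bijective_iff_has_inverse.2 ⟨opM τ y, fun v => ?_, fun v => ?_⟩
  · exact LinearMap.congr_fun e1 v
  · exact LinearMap.congr_fun e2 v

theorem idx_congr {P : Type w} [AddCommGroup P] [Module K P]
    (τ : FreeAlgebra K Γ →ₐ[K] Module.End K P) (hτ : ∀ a, μ a = 0 → FRk (τ a))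
    {T : Type} [Fintype T] [DecidableEq T] (x y : Matrix T T (FreeAlgebra K Γ))
    (h : x.map μ = y.map μ) (hx : Fredh (opM τ x)) : ind (opM τ x) = ind (opM τ y) := by
  have e : opM τ y = opM τ x + opM τ (y - x) := by
    rw [opM_sub]; abel
  rw [e]
  refine ((ind_add _ _ hx ?_).2).symm
  refine AlmRep_opM τ _ fun i j => hτ _ ?_
  have := congrFun (congrFun h i) j
  rw [Matrix.map_apply, Matrix.map_apply] at this
  rw [Matrix.sub_apply, map_sub, this, sub_self]

theorem idx_sum {P : Type w} [AddCommGroup P] [Module K P] {F : Type w'} [AddCommGroup F]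
    [Module K F] [FiniteDimensional K F] {ι : Type} [Fintype ι] {Q : ι → Type w}
    [∀ i, AddCommGroup (Q i)] [∀ i, Module K (Q i)]
    (τ : FreeAlgebra K Γ →ₐ[K] Module.End K P) (σ : ∀ i, FreeAlgebra K Γ →ₐ[K] Module.End K (Q i))
    (e : P ≃ₗ[K] F × (∀ i, Q i))
    (he : ∀ (g : Γ) (i : ι), FRk ((LinearMap.proj i ∘ₗ LinearMap.snd K F (∀ i, Q i) ∘ₗ
      e.toLinearMap ∘ₗ τ (FreeAlgebra.ι K g)) - (σ i (FreeAlgebra.ι K g)) ∘ₗ LinearMap.proj i ∘ₗ
      LinearMap.snd K F (∀ i, Q i) ∘ₗ e.toLinearMap))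
    {T : Type} [Fintype T] [DecidableEq T] (x : Matrix T T (FreeAlgebra K Γ))
    (hx : ∀ i, Fredh (opM (σ i) x)) :
    Fredh (opM τ x) ∧ ind (opM τ x) = ∑ i, ind (opM (σ i) x) := by
  classical
  -- the projections
  set q : ∀ i, P →ₗ[K] Q i := fun i => LinearMap.proj i ∘ₗ LinearMap.snd K F (∀ i, Q i) ∘ₗ
    e.toLinearMap with hq
  have hall : ∀ (i : ι) (a : FreeAlgebra K Γ), FRk (q i ∘ₗ τ a - (σ i a) ∘ₗ q i) := by
    intro i a
    induction a using FreeAlgebra.induction with
    | grade0 r =>
      have : q i ∘ₗ τ (algebraMap K _ r) - (σ i (algebraMap K _ r)) ∘ₗ q i = 0 := by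
        ext v
        simp [AlgHom.commutes, Module.algebraMap_end_apply]
      rw [this]
      exact FRk.zero
    | grade1 g => exact he g i
    | mul a b ha hb =>
      have : q i ∘ₗ τ (a * b) - (σ i (a * b)) ∘ₗ q i =
          (q i ∘ₗ τ a - (σ i a) ∘ₗ q i) ∘ₗ τ b + (σ i a) ∘ₗ (q i ∘ₗ τ b - (σ i b) ∘ₗ q i) := by
        ext v
        simp [map_mul, Module.End.mul_apply]
      rw [this]
      exact (ha.comp_right _).add (hb.comp_left _)
    | add a b ha hb =>
      have : q i ∘ₗ τ (a + b) - (σ i (a + b)) ∘ₗ q i =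
          (q i ∘ₗ τ a - (σ i a) ∘ₗ q i) + (q i ∘ₗ τ b - (σ i b) ∘ₗ q i) := by
        ext v
        simp only [map_add, LinearMap.sub_apply, LinearMap.comp_apply, LinearMap.add_apply]
        abel
      rw [this]
      exact ha.add hb
  -- reindexing
  let E : (T → P) ≃ₗ[K] (T → F) × (∀ i, T → Q i) :=
    { toFun := fun v => (fun t => (e (v t)).1, fun i t => (e (v t)).2 i)
      map_add' := by
        intro v w
        ext <;> simp
      map_smul' := by
        intro c v
        ext <;> simp
      invFun := fun fg => fun t => e.symm (fg.1 t, fun i => fg.2 i t)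
      left_inv := by
        intro v
        funext t
        simp
      right_inv := by
        intro fg
        ext <;> simp }
  have hE1 : ∀ v t, (E v).1 t = (e (v t)).1 := fun v t => rfl
  have hE2 : ∀ v i t, (E v).2 i t = q i (v t) := fun v i t => rfl
  set B : ((T → F) × (∀ i, T → Q i)) →ₗ[K] ((T → F) × (∀ i, T → Q i)) :=
    LinearMap.prodMap LinearMap.id (LinearMap.pi fun i => (opM (σ i) x) ∘ₗ LinearMap.proj i)
    with hB
  have hid : Fredh (LinearMap.id : (T → F) →ₗ[K] (T → F)) ∧
      ind (LinearMap.id : (T → F) →ₗ[K] (T → F)) = 0 := ind_bij _ Function.bijective_id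
  have hpi := ind_pi (fun i => opM (σ i) x) hx
  have hBf := ind_prod _ _ hid.1 hpi.1
  have hD : FRk (E.toLinearMap ∘ₗ opM τ x - B ∘ₗ E.toLinearMap) := by
    refine AlmRep_prod _ ?_ ?_
    · unfold FRk
      infer_instance
    · refine AlmRep_pi _ fun i => AlmRep_pi _ fun t => ?_
      have e1 : (LinearMap.proj t : (T → Q i) →ₗ[K] Q i) ∘ₗ
          ((LinearMap.proj i : (∀ i, T → Q i) →ₗ[K] (T → Q i)) ∘ₗ
          (LinearMap.snd K (T → F) (∀ i, T → Q i) ∘ₗ
            (E.toLinearMap ∘ₗ opM τ x - B ∘ₗ E.toLinearMap))) =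
          ∑ j, (q i ∘ₗ τ (x t j) - (σ i (x t j)) ∘ₗ q i) ∘ₗ
            (LinearMap.proj j : (T → P) →ₗ[K] P) := by
        apply LinearMap.ext
        intro v
        have l1 : (E (opM τ x v)).2 i t = ∑ j, q i (τ (x t j) (v j)) := by
          rw [hE2]
          simp [opM, LinearMap.sum_apply, map_sum]
        have l2 : (B (E v)).2 i t = ∑ j, σ i (x t j) (q i (v j)) := by
          simp only [hB, LinearMap.prodMap_apply, LinearMap.pi_apply, LinearMap.comp_apply,
            LinearMap.proj_apply, opM, LinearMap.sum_apply, hE2]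
        have l3 : ((LinearMap.proj t : (T → Q i) →ₗ[K] Q i) ∘ₗ
          ((LinearMap.proj i : (∀ i, T → Q i) →ₗ[K] (T → Q i)) ∘ₗ
          (LinearMap.snd K (T → F) (∀ i, T → Q i) ∘ₗ
            (E.toLinearMap ∘ₗ opM τ x - B ∘ₗ E.toLinearMap)))) v =
            (E (opM τ x v)).2 i t - (B (E v)).2 i t := rfl
        rw [l3, l1, l2, ← Finset.sum_sub_distrib]
        simp [LinearMap.sum_apply]
      rw [e1]
      exact AlmRep_sum _ _ fun j _ => (hall i (x t j)).comp_right _
  have hA := ind_add B ((E.toLinearMap ∘ₗ opM τ x - B ∘ₗ E.toLinearMap) ∘ₗ E.symm.toLinearMap)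
    hBf.1 (hD.comp_right _)
  have hconj := ind_conj _ E E.symm hA.1
  have hop : E.symm.toLinearMap ∘ₗ (B + (E.toLinearMap ∘ₗ opM τ x - B ∘ₗ E.toLinearMap) ∘ₗ
      E.symm.toLinearMap) ∘ₗ E.toLinearMap = opM τ x := by
    apply LinearMap.ext
    intro v
    simp
  rw [hop] at hconj
  refine ⟨hconj.1, ?_⟩
  rw [hconj.2, hA.2, hBf.2, hid.2, hpi.2, zero_add]

end

end Pool.Agent.Work.MP_2b4d3b_al
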