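import Pool.Agent.Work.MP_2b4d3b_al.MatX

/-!
MODULE MacB. Has.perm: SI.perm (with Equiv.optionCongr if b ≠ 0). Has.row: SI.matX for A, and for
srcM A b with some i, some j (srcM (rowX A i j) b = rowX (srcM A b) (some i) (some j)).
Has.src: here b ≠ 0 and the new b ≠ 0; SI.matX for srcM A b with none, some j.
-/

set_option linter.unusedVariables false
set_option linter.style.longLine false

namespace Pool.Agent.Work.MP_2b4d3b_al

open Matrix

universe u v w u' v' w'

theorem macB_row {V : Type} [DecidableEq V] (A : V → V → ℕ) (b : V → ℕ) (i j : V) :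
    rowX (srcM A b) (some i) (some j) = srcM (rowX A i j) b := by
  funext x y
  rcases x with _ | x <;> rcases y with _ | y <;> simp [rowX, srcM]

theorem macB_src {V : Type} [DecidableEq V] (A : V → V → ℕ) (b : V → ℕ) (j : V) :
    rowX (srcM A b) none (some j) =
      srcM A (fun y => b y + A j y - if y = j then 1 else 0) := by
  funext x y
  rcases x with _ | x <;> rcases y with _ | y <;> simp [rowX, srcM]

section
variable {K : Type u} [Field K] [StarRing K] {X : Type u'} [Ring X] [Algebra K X] [Star X]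

theorem Has.perm {V V' : Type} {A : V → V → ℕ} {A' : V' → V' → ℕ} {b : V → ℕ} {b' : V' → ℕ}
    (a : V ≃ V') (h : Has K X A b) (hA : ∀ x y, A x y = A' (a x) (a y))
    (hb : ∀ x, b x = b' (a x)) : Has K X A' b' := by
  have h0 : b = 0 ↔ b' = 0 := by
    constructor
    · intro h
      funext y
      obtain ⟨x, rfl⟩ := a.surjective y
      rw [← hb, h]
      rfl
    · intro h
      funext x
      rw [hb, h]
      rfl
  rcases h with ⟨h1, h2⟩ | ⟨h1, h2⟩
  · exact Or.inl ⟨h0.1 h1, h2.trans (SI.perm a hA)⟩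
  · refine Or.inr ⟨fun h => h1 (h0.2 h), h2.trans (SI.perm (Equiv.optionCongr a) ?_)⟩
    rintro (_ | x) (_ | y)
    all_goals simp [srcM, hA, hb]

theorem Has.row {V : Type} [Fintype V] [DecidableEq V] {A : V → V → ℕ} {b : V → ℕ} (i j : V)
    (hij : i ≠ j) (h1 : 1 ≤ A i j) (h2 : ∃ y, A j y ≠ 0) :
    Has K X A b ↔ Has K X (rowX A i j) b := by
  have e1 : SI K (LM K A) (LM K (rowX A i j)) := SI.matX A i j hij h1 h2
  have e2 : SI K (LM K (srcM A b)) (LM K (srcM (rowX A i j) b)) := by
    rw [← macB_row]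
    refine SI.matX (srcM A b) (some i) (some j) ?_ h1 ?_
    · intro h
      exact hij (Option.some.inj h)
    · obtain ⟨y, hy⟩ := h2
      exact ⟨some y, hy⟩
  constructor
  · rintro (⟨h3, h4⟩ | ⟨h3, h4⟩)
    · exact Or.inl ⟨h3, h4.trans e1⟩
    · exact Or.inr ⟨h3, h4.trans e2⟩
  · rintro (⟨h3, h4⟩ | ⟨h3, h4⟩)
    · exact Or.inl ⟨h3, h4.trans e1.symm⟩
    · exact Or.inr ⟨h3, h4.trans e2.symm⟩

theorem Has.src {V : Type} [Fintype V] [DecidableEq V] {A : V → V → ℕ} {b : V → ℕ} (j : V)
    (h1 : 1 ≤ b j) (h2 : ∃ y, A j y ≠ 0) :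
    Has K X A b ↔ Has K X A (fun y => b y + A j y - if y = j then 1 else 0) := by
  have hb : b ≠ 0 := by
    intro h
    rw [h] at h1
    simp at h1
  have hb' : (fun y => b y + A j y - if y = j then 1 else 0) ≠ 0 := by
    obtain ⟨y, hy⟩ := h2
    intro h
    have h3 : b y + A j y - (if y = j then 1 else 0) = 0 := congrFun h y
    by_cases hyj : y = j
    · subst hyj
      simp at h3
      omega
    · simp [hyj] at h3
      omega
  have e2 : SI K (LM K (srcM A b))
      (LM K (srcM A (fun y => b y + A j y - if y = j then 1 else 0))) := by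
    rw [← macB_src]
    refine SI.matX (srcM A b) none (some j) (by simp) h1 ?_
    obtain ⟨y, hy⟩ := h2
    exact ⟨some y, hy⟩
  constructor
  · rintro (⟨h3, h4⟩ | ⟨h3, h4⟩)
    · exact absurd h3 hb
    · exact Or.inr ⟨hb', h4.trans e2⟩
  · rintro (⟨h3, h4⟩ | ⟨h3, h4⟩)
    · exact absurd h3 hb'
    · exact Or.inr ⟨hb, h4.trans e2.symm⟩

end

end Pool.Agent.Work.MP_2b4d3b_al
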