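import Pool.Agent.Work.MP_2b4d3b_al.MacA
import Pool.Agent.Work.MP_2b4d3b_al.MacB

/-!
MODULE MacC. Column move. SI.matO at j (some j in srcM A b if b ≠ 0) with a1 = row j - e_k,
a2 = e_k; the new vertex none has row e_k and no loop (k ≠ j); SI.absorb at none; the result is
srcM (colC A j k) (e_k) resp. srcM (srcM (colC A j k) (b + b j e_k)) (Option.elim · 0 e_k)
(note a1 j = A j j = 1, so row j is restored). Then Has.add_src.
-/

set_option linter.unusedVariables false
set_option linter.style.longLine false

namespace Pool.Agent.Work.MP_2b4d3b_al

open Matrix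

universe u v w u' v' w'

/-- add column j to column k, except in row j -/
def colC {V : Type} [DecidableEq V] (A : V → V → ℕ) (j k : V) : V → V → ℕ := fun x y =>
  if y = k ∧ x ≠ j then A x k + A x j else A x y

theorem macC_mat {W : Type} [DecidableEq W] (M : W → W → ℕ) (j k : W) (hjk : j ≠ k)
    (h1 : 1 ≤ M j k) (h2 : M j j = 1) :
    (fun x y => if x = none then
        outM M j (fun y => M j y - if y = k then 1 else 0) (fun y => if y = k then 1 else 0) none y
      else if y = none then 0 else
        outM M j (fun y => M j y - if y = k then 1 else 0) (fun y => if y = k then 1 else 0) x y +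
        outM M j (fun y => M j y - if y = k then 1 else 0) (fun y => if y = k then 1 else 0) x none *
        outM M j (fun y => M j y - if y = k then 1 else 0) (fun y => if y = k then 1 else 0)
          none y) =
      srcM (colC M j k) (fun y => if y = k then 1 else 0) := by
  funext x y
  rcases x with _ | x <;> rcases y with _ | y
  · simp [outM, srcM, hjk]
  · simp [outM, srcM]
  · simp [srcM]
  · by_cases hx : x = j
    · subst hx
      by_cases hy : y = k
      · subst hy
        simp [outM, srcM, colC, hjk, h2]
        omega
      · simp [outM, srcM, colC, hy]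
    · by_cases hy : y = k
      · subst hy
        simp [outM, srcM, colC, hx]
      · simp [outM, srcM, colC, hx, hy]

theorem macC_core {K : Type u} [Field K] [StarRing K] {W : Type} [Fintype W] [DecidableEq W]
    (M : W → W → ℕ) (j k : W) (hjk : j ≠ k) (h1 : 1 ≤ M j k) (h2 : M j j = 1) :
    SI K (LM K M) (LM K (srcM (colC M j k) (fun y => if y = k then 1 else 0))) := by
  rw [← macC_mat M j k hjk h1 h2]
  refine (SI.matO M j (fun y => M j y - if y = k then 1 else 0) (fun y => if y = k then 1 else 0)
    ?_ ?_ ?_).trans (SI.absorb _ none ?_ ?_)
  · intro y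
    by_cases hy : y = k
    · subst hy
      simp
      omega
    · simp [hy]
  · exact ⟨j, by simp [hjk, h2]⟩
  · exact ⟨k, by simp⟩
  · simp [outM, hjk]
  · exact ⟨some k, by simp [outM]⟩

theorem macC_src {V : Type} [DecidableEq V] (A : V → V → ℕ) (b : V → ℕ) (j k : V) :
    colC (srcM A b) (some j) (some k) =
      srcM (colC A j k) (fun y => if y = k then b k + b j else b y) := by
  funext x y
  rcases x with _ | x <;> rcases y with _ | y
  · simp [colC, srcM]
  · by_cases hy : y = k
    · subst hy
      simp [colC, srcM]
    · simp [colC, srcM, hy]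
  · simp [colC, srcM]
  · simp [colC, srcM]

theorem Has.col {K : Type u} [Field K] [StarRing K] {X : Type u'} [Ring X] [Algebra K X] [Star X]
    {V : Type} [Fintype V] [DecidableEq V] {A : V → V → ℕ} {b : V → ℕ} (j k : V) (hjk : j ≠ k)
    (h1 : 1 ≤ A j k) (h2 : A j j = 1) (h : Has K X A b) :
    Has K X (colC A j k) (fun y => if y = k then b k + b j + 1 else b y) := by
  have hc : (fun y => if y = k then 1 else 0 : V → ℕ) ≠ 0 := by
    intro h3
    have h4 := congrFun h3 k
    simp at h4
  have e0 : (fun y => if y = k then b k + b j + 1 else b y) =
      (fun y => if y = k then b k + b j else b y) + (fun y => if y = k then 1 else 0) := by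
    funext y
    by_cases hy : y = k
    · subst hy
      simp
    · simp [hy]
  rw [e0]
  refine Has.add_src hc ?_
  rcases h with ⟨h3, h4⟩ | ⟨h3, h4⟩
  · refine Or.inl ⟨?_, h4.trans (macC_core A j k hjk h1 h2)⟩
    rw [h3]
    funext y
    simp
  · refine Or.inr ⟨?_, ?_⟩
    · obtain ⟨y, hy⟩ := Function.ne_iff.1 h3
      have hy' : b y ≠ 0 := hy
      intro h5
      have h6 := congrFun h5 y
      by_cases hyk : y = k
      · subst hyk
        simp at h6
        omega
      · simp [hyk] at h6
        omega
    · have h5 := macC_core (K := K) (srcM A b) (some j) (some k)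
        (fun hh => hjk (Option.some.inj hh)) h1 h2
      rw [macC_src] at h5
      have e1 : (fun y : Option V => if y = some k then 1 else 0) =
          (fun y => Option.elim y 0 (fun y => if y = k then 1 else 0)) := by
        funext y
        rcases y with _ | y
        · simp
        · simp
      rw [e1] at h5
      exact h4.trans h5

end Pool.Agent.Work.MP_2b4d3b_al
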