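import Pool.Agent.Work.MP_2b4d3b_al.Sat
import Pool.Agent.Work.MP_2b4d3b_al.MacC

/-!
MODULE CStar. Column k := column k + sum over j ≠ k of S j k * column j, and the unit vector
u = 1 + b becomes u S. Process k in order of increasing ρ: the columns j with Rch j k, j ≠ k are
still the old ones; each addition is Has.col j k (A j k ≠ 0 by saturation, A j j = 1 by Reduced since
row j is not zero; column j at row j is the loop and is not added: colC; A k j = 0 because
ρ k < ρ j).
-/

set_option linter.unusedVariables false
set_option linter.style.longLine false

namespace Pool.Agent.Work.MP_2b4d3b_al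

open Matrix

universe u v w u' v' w'

private theorem cs_rho {V : Type} {A : V → V → ℕ} (hA : Reduced A) : ∃ ρ : V → ℕ,
    ∀ x y, Rch A x y → x ≠ y → ρ y < ρ x := by
  obtain ⟨⟨ρ, hρ⟩, -, -⟩ := hA
  refine ⟨ρ, fun x y h => ?_⟩
  induction h with
  | refl => exact fun h => absurd rfl h
  | @tail y z hxy hyz ih =>
    intro hxz
    by_cases h1 : y = z
    · subst h1
      exact ih hxz
    · have h2 := hρ y z h1 hyz
      by_cases h3 : x = y
      · subst h3
        exact h2
      · exact h2.trans (ih h3)

section
variable {K : Type u} [Field K] [StarRing K] {X : Type u'} [Ring X] [Algebra K X] [Star X]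
  {V : Type} [Fintype V] [DecidableEq V]

private theorem col_iter {M : V → V → ℕ} {b : V → ℕ} {j k : V} (hjk : j ≠ k) (h1 : 1 ≤ M j k)
    (hl : M j j = 1) (c : ℕ) (h : Has K X M b) :
      Has K X (fun x y => if y = k then M x k + c * off M x j else M x y)
        (fun y => if y = k then b k + c * (1 + b j) else b y) := by
  induction c with
  | zero =>
    have e1 : (fun x y => if y = k then M x k + 0 * off M x j else M x y) = M := by
      funext x y
      split_ifs with h
      · rw [h, zero_mul, add_zero]
      · rfl
    have e2 : (fun y => if y = k then b k + 0 * (1 + b j) else b y) = b := by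
      funext y
      split_ifs with h
      · rw [h, zero_mul, add_zero]
      · rfl
    rw [e1, e2]
    exact h
  | succ c ih =>
    have g := Has.col j k hjk (by simp only [if_true]; omega)
      (by simp only [if_neg hjk]; exact hl) ih
    have e1 : colC (fun x y => if y = k then M x k + c * off M x j else M x y) j k =
        fun x y => if y = k then M x k + (c + 1) * off M x j else M x y := by
      funext x y
      unfold colC
      by_cases hy : y = k
      · by_cases hx : x = j
        · subst hx
          simp [hy, off]
        · have h2 : off M x j = M x j := by simp [off, hx]
          simp only [hy, hx, ne_eq, not_false_eq_true, and_self, if_true, if_neg hjk, h2]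
          ring
      · simp only [hy, false_and, if_false]
    have e2 : (fun y => if y = k then (fun y => if y = k then b k + c * (1 + b j) else b y) k +
        (fun y => if y = k then b k + c * (1 + b j) else b y) j + 1
        else (fun y => if y = k then b k + c * (1 + b j) else b y) y) =
        fun y => if y = k then b k + (c + 1) * (1 + b j) else b y := by
      funext y
      by_cases hy : y = k
      · simp only [hy, if_true, if_neg hjk]
        ring
      · simp only [hy, if_false]
    rw [e1, e2] at g
    exact g

private theorem col_all {M : V → V → ℕ} {b : V → ℕ} {k : V} (p : V → ℕ) (t : Finset V) (hk : k ∉ t)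
    (ht : ∀ z ∈ t, p z ≠ 0 → 1 ≤ M z k ∧ M z z = 1) (h : Has K X M b) :
      Has K X (fun x y => if y = k then M x k + ∑ z ∈ t, p z * off M x z else M x y)
        (fun y => if y = k then b k + ∑ z ∈ t, p z * (1 + b z) else b y) := by
  induction t using Finset.induction_on with
  | empty =>
    have e1 : (fun x y => if y = k then M x k + ∑ z ∈ (∅ : Finset V), p z * off M x z else M x y) =
        M := by
      funext x y
      split_ifs with h
      · simp [h]
      · rfl
    have e2 : (fun y => if y = k then b k + ∑ z ∈ (∅ : Finset V), p z * (1 + b z) else b y) =
        b := by
      funext y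
      split_ifs with h
      · simp [h]
      · rfl
    rw [e1, e2]
    exact h
  | insert z t hz ih =>
    have hkz : k ≠ z := fun h => hk (by rw [h]; exact Finset.mem_insert_self z t)
    have g := ih (fun h => hk (Finset.mem_insert_of_mem h)) fun w hw =>
      ht w (Finset.mem_insert_of_mem hw)
    have h1 := ht z (Finset.mem_insert_self z t)
    have e : ∀ x, M x k + ∑ w ∈ insert z t, p w * off M x w =
        M x k + ∑ w ∈ t, p w * off M x w + p z * off M x z := by
      intro y
      rw [Finset.sum_insert hz]
      ring
    have e' : b k + ∑ w ∈ insert z t, p w * (1 + b w) =
        b k + ∑ w ∈ t, p w * (1 + b w) + p z * (1 + b z) := by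
      rw [Finset.sum_insert hz]
      ring
    by_cases hp : p z = 0
    · simp only [e, e', hp, zero_mul, add_zero]
      exact g
    · obtain ⟨h2, h3⟩ := h1 hp
      have g2 := col_iter (j := z) (k := k) (Ne.symm hkz) (by simp only [if_true]; omega)
        (by simp only [if_neg (Ne.symm hkz)]; exact h3) (p z) g
      have e2 : ∀ x, off (fun x y => if y = k then M x k + ∑ z ∈ t, p z * off M x z else M x y) x z =
          off M x z := by
        intro x
        simp only [off, if_neg (Ne.symm hkz)]
      have e3 : (fun x y => if y = k then
          (fun x y => if y = k then M x k + ∑ z ∈ t, p z * off M x z else M x y) x k + p z *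
            off (fun x y => if y = k then M x k + ∑ z ∈ t, p z * off M x z else M x y) x z
          else (fun x y => if y = k then M x k + ∑ z ∈ t, p z * off M x z else M x y) x y) =
          fun x y => if y = k then M x k + ∑ w ∈ insert z t, p w * off M x w else M x y := by
        funext x y
        rw [e2]
        by_cases hy : y = k
        · simp only [if_pos hy, if_true, e]
        · simp only [if_neg hy]
      have e4 : (fun y => if y = k then
          (fun y => if y = k then b k + ∑ z ∈ t, p z * (1 + b z) else b y) k + p z *
            (1 + (fun y => if y = k then b k + ∑ z ∈ t, p z * (1 + b z) else b y) z)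
          else (fun y => if y = k then b k + ∑ z ∈ t, p z * (1 + b z) else b y) y) =
          fun y => if y = k then b k + ∑ w ∈ insert z t, p w * (1 + b w) else b y := by
        funext y
        by_cases hy : y = k
        · simp only [if_pos hy, if_true, e', if_neg (Ne.symm hkz)]
        · simp only [if_neg hy]
      rw [e3, e4] at g2
      exact g2

end

theorem cstar {V : Type} [Fintype V] [DecidableEq V] (A A' S : V → V → ℕ) (hA : Reduced A)
    (hs : Saturated A) (hS1 : ∀ x, S x x = 1) (hS2 : ∀ x y, S x y ≠ 0 → Rch A x y)
    (hA' : ∀ x y, off A' x y = ∑ z, off A x z * S z y) (hd : ∀ x, A' x x = A x x)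
    (b b' : V → ℕ) (hb : ∀ y, 1 + b' y = ∑ x, (1 + b x) * S x y)
    (K : Type u) [Field K] [StarRing K] (X : Type u') [Ring X] [Algebra K X] [Star X]
    (h : Has K X A b) : Has K X A' b' := by
  classical
  obtain ⟨ρ, hρ⟩ := cs_rho hA
  have key : ∀ s : Finset V, Has K X (fun x y => if y ∈ s then A' x y else A x y)
      (fun y => if y ∈ s then b' y else b y) := by
    intro s
    induction s using Finset.induction_on_max_value ρ with
    | empty => simpa using h
    | insert a s ha hmax ih =>
      have hcol : ∀ z, z ≠ a → S z a ≠ 0 → z ∉ s := by
        intro z hz hp hzs
        have h1 := hρ z a (hS2 z a hp) hz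
        have h2 := hmax z hzs
        omega
      have hoff : ∀ z, z ∉ s → ∀ x, off (fun x y => if y ∈ s then A' x y else A x y) x z =
          off A x z := by
        intro z hz x
        simp only [off, if_neg hz]
      have g := col_all (k := a) (fun z => S z a) (Finset.univ.erase a) (Finset.notMem_erase a _)
        (by
          intro z hz hp
          have hza : z ≠ a := Finset.ne_of_mem_erase hz
          have hzs := hcol z hza hp
          simp only [if_neg ha, if_neg hzs]
          have h1 := hs z a hza (hS2 z a hp)
          have h2 := hA.2.1 z
          have h3 : A z z ≠ 0 := fun h0 => h1 (hA.2.2 z h0 a)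
          omega) ih
      have e : (fun x y => if y = a then
          (fun x y => if y ∈ s then A' x y else A x y) x a +
            ∑ z ∈ Finset.univ.erase a, S z a *
              off (fun x y => if y ∈ s then A' x y else A x y) x z
          else (fun x y => if y ∈ s then A' x y else A x y) x y) =
          fun x y => if y ∈ insert a s then A' x y else A x y := by
        funext x y
        by_cases hy : y = a
        · subst hy
          simp only [if_true, if_neg ha, Finset.mem_insert_self]
          have e1 : ∑ z ∈ Finset.univ.erase y, S z y *
              off (fun x y => if y ∈ s then A' x y else A x y) x z =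
              ∑ z ∈ Finset.univ.erase y, off A x z * S z y := by
            refine Finset.sum_congr rfl fun z hz => ?_
            by_cases hp : S z y = 0
            · rw [hp, zero_mul, mul_zero]
            · rw [hoff z (hcol z (Finset.ne_of_mem_erase hz) hp), mul_comm]
          rw [e1]
          have e2 := hA' x y
          rw [← Finset.add_sum_erase _ _ (Finset.mem_univ y), hS1, mul_one] at e2
          by_cases hxy : x = y
          · subst hxy
            have e3 : off A' x x = 0 := by simp [off]
            rw [hd]
            omega
          · have e3 : off A' x y = A' x y := by simp [off, hxy]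
            have e4 : off A x y = A x y := by simp [off, hxy]
            omega
        · simp only [Finset.mem_insert, hy, false_or, if_false]
      have e' : (fun y => if y = a then
          (fun y => if y ∈ s then b' y else b y) a +
            ∑ z ∈ Finset.univ.erase a, S z a *
              (1 + (fun y => if y ∈ s then b' y else b y) z)
          else (fun y => if y ∈ s then b' y else b y) y) =
          fun y => if y ∈ insert a s then b' y else b y := by
        funext y
        by_cases hy : y = a
        · subst hy
          simp only [if_true, if_neg ha, Finset.mem_insert_self]
          have e1 : ∑ z ∈ Finset.univ.erase y, S z y * (1 + if z ∈ s then b' z else b z) =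
              ∑ z ∈ Finset.univ.erase y, (1 + b z) * S z y := by
            refine Finset.sum_congr rfl fun z hz => ?_
            by_cases hp : S z y = 0
            · rw [hp, zero_mul, mul_zero]
            · rw [if_neg (hcol z (Finset.ne_of_mem_erase hz) hp), mul_comm]
          rw [e1]
          have e2 := hb y
          rw [← Finset.add_sum_erase _ _ (Finset.mem_univ y), hS1, mul_one] at e2
          omega
        · simp only [Finset.mem_insert, hy, false_or, if_false]
      rw [e, e'] at g
      exact g
  have := key Finset.univ
  simpa using this

end Pool.Agent.Work.MP_2b4d3b_al
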