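import Pool.Agent.Work.MP_2b4d3b_al.ExtL

/-!
MODULE Cancel. First k = 1. Let g = bs q (wk w 1), f = bs 0 (wk w 1) in g M(J) g, and (x, y) the
equivalence of bs p (wk 1) and g; e := y * (bs 0 (wk 1)) * x (an idempotent in g M(J) g equivalent to
wk w 1). Choose (locUnit for g and [e, f]) an idempotent h with h e = e = e h, h f = f = f h,
h ~ wk w t. h - e and h - f are idempotents with entries in Jd, ~ wk w t1, wk w t2 (idem_wk);
t1 + 1 = t = t2 + 1 by wk_inj. So g - e = (g - h) + (h - e) ~ (g - h) + (h - f) = g - f.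
Finally g - e ~ p (restrict x, y: g - e = y (bs p 0) x) and g - f = bs q 0 ~ q.
General k: induction with IdEq.wk_add, bs_assoc.
-/

set_option linter.unusedVariables false
set_option linter.style.longLine false

namespace Pool.Agent.Work.MP_2b4d3b_al

open Matrix

universe u v w u' v' w'

private theorem bs_zero_left {A : Type u} [Ring A] {m : Type v'} {n : Type w'} [Fintype m]
    [Fintype n] (t : Matrix n n A) (ht : t * t = t) : IdEq (bs (0 : Matrix m m A) t) t := by
  refine IdEq.mk' (bs_idem (by simp) ht) ht (Matrix.fromRows 0 t) (Matrix.fromCols 0 t) ?_ ?_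
  · rw [Matrix.fromRows_mul_fromCols]
    unfold bs
    simp [ht]
  · rw [Matrix.fromCols_mul_fromRows]
    simp [ht]

private theorem bs_zero_right {A : Type u} [Ring A] {m : Type v'} {n : Type w'} [Fintype m]
    [Fintype n] (t : Matrix n n A) (ht : t * t = t) : IdEq (bs t (0 : Matrix m m A)) t :=
  (IdEq.bs_comm ht (by simp)).trans (bs_zero_left t ht)

private theorem bs_mul {A : Type u} [Ring A] {m : Type v'} {n : Type w'} [Fintype m] [Fintype n]
    (p p' : Matrix m m A) (q q' : Matrix n n A) : bs p q * bs p' q' = bs (p * p') (q * q') := by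
  unfold bs
  rw [Matrix.fromBlocks_multiply]
  simp

private theorem bs_sub {A : Type u} [Ring A] {m : Type v'} {n : Type w'}
    (p p' : Matrix m m A) (q q' : Matrix n n A) : bs p q - bs p' q' = bs (p - p') (q - q') := by
  unfold bs
  ext (i | i) (j | j) <;> simp

private theorem wk_Jd {A : Type u} [Ring A] (w : A) (k : ℕ) (a b : Fin k) : wk w k a b ∈ Jd w := by
  unfold wk
  rw [Matrix.diagonal_apply]
  split_ifs
  · exact Jd_self
  · exact Jd_zero

private theorem cancel_one {A : Type u} [Ring A] {R : Type v} [CommRing R] [IsDomain R]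
    [IsPrincipalIdealRing R] {X : Type w} (D : WD A R X) {m : Type v'} {n : Type w'} [Fintype m]
    [DecidableEq m] [Fintype n] [DecidableEq n] {p : Matrix m m A} {q : Matrix n n A}
    (hp : p * p = p) (hq : q * q = q)
    (h : IdEq (bs p (wk D.w 1)) (bs q (wk D.w 1))) : IdEq p q := by
  have w1 := wk_idem D.ww 1
  obtain ⟨x, y, h1, h2, h3, h4, h5, h6⟩ := h.out
  set g := bs q (wk D.w 1) with hg
  have hgg : g * g = g := bs_idem hq w1
  set f := bs (0 : Matrix n n A) (wk D.w 1) with hf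
  have hff : f * f = f := bs_idem (by simp) w1
  have hgf : g * f = f := by rw [hg, hf, bs_mul, w1, Matrix.mul_zero]
  have hfg : f * g = f := by rw [hg, hf, bs_mul, w1, Matrix.zero_mul]
  set f' := bs (0 : Matrix m m A) (wk D.w 1) with hf'
  have hff' : f' * f' = f' := bs_idem (by simp) w1
  have hcut : f' * (x * y) * f' = f' := by
    rw [h1, hf', bs_mul, bs_mul, w1, w1, Matrix.zero_mul, Matrix.mul_zero]
  obtain ⟨hee, hfe⟩ := IdEq.cut x y f' hff' hcut
  set e := y * f' * x with he
  have hge : g * e = e := by rw [he, ← Matrix.mul_assoc, ← Matrix.mul_assoc, h5]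
  have heg : e * g = e := by rw [he, Matrix.mul_assoc, h4]
  have fJ' : ∀ a b, f' a b ∈ Jd D.w := by
    rintro (a | a) (b | b)
    · exact Jd_zero
    · exact Jd_zero
    · exact Jd_zero
    · exact wk_Jd _ _ _ _
  have fJ : ∀ a b, f a b ∈ Jd D.w := by
    rintro (a | a) (b | b)
    · exact Jd_zero
    · exact Jd_zero
    · exact Jd_zero
    · exact wk_Jd _ _ _ _
  have eJ : ∀ a b, e a b ∈ Jd D.w :=
    fun a b => Jd_mulM_right _ _ (fun c d => Jd_mulM_left _ _ fJ' c d) a b
  obtain ⟨k, kk, gk, kg, kJ, kj, t, ht⟩ := D.locUnit g hgg [e, f] (by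
    intro j hj
    simp only [List.mem_cons, List.not_mem_nil, or_false] at hj
    rcases hj with rfl | rfl
    · exact ⟨eJ, hge, heg⟩
    · exact ⟨fJ, hgf, hfg⟩)
  obtain ⟨ke, ek⟩ := kj e (by simp)
  obtain ⟨kf, fk⟩ := kj f (by simp)
  have gen : ∀ r : Matrix (n ⊕ Fin 1) (n ⊕ Fin 1) A, r * r = r → g * r = r → r * g = r →
      k * r = r → r * k = r → (∀ a b, r a b ∈ Jd D.w) → IdEq r (wk D.w 1) →
      ∃ s : ℕ, s + 1 = t ∧ IdEq (k - r) (wk D.w s) ∧ IdEq (g - r) (bs (g - k) (k - r)) := by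
    intro r rr gr rg kr rk rJ hr
    have i1 : (k - r) * (k - r) = k - r := by
      rw [Matrix.sub_mul, Matrix.mul_sub, Matrix.mul_sub, kk, kr, rk, rr, sub_self, sub_zero]
    obtain ⟨s, hs⟩ := D.idem_wk (k - r) i1 (fun a b => by
      rw [Matrix.sub_apply, sub_eq_add_neg]
      refine Jd_add (kJ a b) ?_
      rw [neg_eq_neg_one_mul]
      exact Jd_mul_left _ (rJ a b))
    have i2 : IdEq k (bs (k - r) r) := IdEq.split k r kk rr kr rk
    have i3 : IdEq (wk D.w t) (wk D.w (s + 1)) :=
      (ht.symm.trans i2).trans ((IdEq.bsum hs hr).trans (IdEq.wk_add D.ww s 1).symm)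
    have i4 := D.wk_inj _ _ i3
    refine ⟨s, i4.symm, hs, ?_⟩
    have i5 : (g - r) * (g - r) = g - r := by
      rw [Matrix.sub_mul, Matrix.mul_sub, Matrix.mul_sub, hgg, gr, rg, rr, sub_self, sub_zero]
    have i6 := IdEq.split (g - r) (k - r) i5 i1
      (by rw [Matrix.sub_mul, Matrix.mul_sub, Matrix.mul_sub, gk, gr, rk, rr, sub_self, sub_zero])
      (by rw [Matrix.sub_mul, Matrix.mul_sub, Matrix.mul_sub, kg, rg, kr, rr, sub_self, sub_zero])
    rw [sub_sub_sub_cancel_right] at i6
    exact i6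
  obtain ⟨s1, hs1, a1, b1⟩ := gen e hee hge heg ke ek eJ (hfe.symm.trans (bs_zero_left _ w1))
  obtain ⟨s2, hs2, a2, b2⟩ := gen f hff hgf hfg kf fk fJ (bs_zero_left _ w1)
  have hs : s1 = s2 := by omega
  subst hs
  have igk : (g - k) * (g - k) = g - k := by
    rw [Matrix.sub_mul, Matrix.mul_sub, Matrix.mul_sub, hgg, gk, kg, kk, sub_self, sub_zero]
  have c1 : IdEq (g - e) (g - f) :=
    b1.trans ((IdEq.bsum (IdEq.refl igk) (a1.trans a2.symm)).trans b2.symm)
  -- the two differences
  have p0 : bs p (0 : Matrix (Fin 1) (Fin 1) A) * bs p 0 = bs p 0 := bs_idem hp (by simp)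
  have c2 : IdEq (bs p (0 : Matrix (Fin 1) (Fin 1) A)) (g - e) := by
    have h7 := (IdEq.cut x y (bs p (0 : Matrix (Fin 1) (Fin 1) A)) p0 (by
      rw [h1, bs_mul, bs_mul, hp, hp, Matrix.zero_mul, Matrix.zero_mul])).2
    have h8 : g - e = y * bs p (0 : Matrix (Fin 1) (Fin 1) A) * x := by
      have h9 : bs p (0 : Matrix (Fin 1) (Fin 1) A) = bs p (wk D.w 1) - f' := by
        rw [hf', bs_sub, sub_zero, sub_self]
      rw [h9, Matrix.mul_sub, Matrix.sub_mul, ← h1, he]
      congr 1
      rw [Matrix.mul_assoc, Matrix.mul_assoc, ← Matrix.mul_assoc, h2]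
      exact hgg.symm
    rw [h8]
    exact h7
  have c3 : g - f = bs q (0 : Matrix (Fin 1) (Fin 1) A) := by
    rw [hg, hf, bs_sub, sub_zero, sub_self]
  rw [c3] at c1
  exact (bs_zero_right p hp).symm.trans (c2.trans (c1.trans (bs_zero_right q hq)))

theorem WD.cancel {A : Type u} [Ring A] {R : Type v} [CommRing R] [IsDomain R]
    [IsPrincipalIdealRing R] {X : Type w} (D : WD A R X) {m : Type v'} {n : Type w'} [Fintype m]
    [DecidableEq m] [Fintype n] [DecidableEq n] {p : Matrix m m A} {q : Matrix n n A}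
    (hp : p * p = p) (hq : q * q = q) (k : ℕ)
    (h : IdEq (bs p (wk D.w k)) (bs q (wk D.w k))) : IdEq p q := by
  induction k with
  | zero => exact (IdEq.bs_zero hp _).symm.trans (h.trans (IdEq.bs_zero hq _))
  | succ k ih =>
    apply ih
    have wk1 := wk_idem D.ww k
    have w1 := wk_idem D.ww 1
    have h1 := IdEq.wk_add D.ww k 1
    refine cancel_one D (bs_idem hp wk1) (bs_idem hq wk1) ?_
    have a1 := (IdEq.bs_assoc hp wk1 w1).trans (IdEq.bsum (IdEq.refl hp) h1.symm)
    have a2 := (IdEq.bs_assoc hq wk1 w1).trans (IdEq.bsum (IdEq.refl hq) h1.symm)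
    exact a1.trans (h.trans a2.symm)

end Pool.Agent.Work.MP_2b4d3b_al
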