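import Pool.Agent.Work.MP_2b4d3b_al.MacA
import Pool.Agent.Work.MP_2b4d3b_al.MacB

/-!
MODULE MacU. Unit move. SI.matO at i (some i if b ≠ 0) with a1 = e_i, a2 = off A i; absorb the new
vertex; result (with M := rows x ≠ i replaced by A x + A x i • off A i, row i unchanged):
X has (M, b + b i • off A i + off A i) by Has.add_src. On the other side, starting from
(A, b + off A i): Has.row (x,i) A x i times for each x ≠ i (rowX A x i adds off A i to row x because
A i i = 1, and A x i is unchanged), and Has.src i, b i times, lead to the same pair.
(no triangularity is assumed: off A i at i is 0, so b i does not change.)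
-/

set_option linter.unusedVariables false
set_option linter.style.longLine false

namespace Pool.Agent.Work.MP_2b4d3b_al

open Matrix

universe u v w u' v' w'

/-- the common target matrix -/
def macUM {V : Type} [DecidableEq V] (A : V → V → ℕ) (i : V) : V → V → ℕ := fun x y =>
  if x = i then A i y else A x y + A x i * off A i y

theorem macU_mat {W : Type} [DecidableEq W] (M : W → W → ℕ) (i : W) (h1 : M i i = 1) :
    (fun x y => if x = none then
        outM M i (fun y => if y = i then 1 else 0) (off M i) none y
      else if y = none then 0 else
        outM M i (fun y => if y = i then 1 else 0) (off M i) x y +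
        outM M i (fun y => if y = i then 1 else 0) (off M i) x none *
        outM M i (fun y => if y = i then 1 else 0) (off M i) none y) =
      srcM (macUM M i) (off M i) := by
  funext x y
  rcases x with _ | x <;> rcases y with _ | y
  · simp [outM, srcM, off]
  · simp [outM, srcM]
  · simp [srcM]
  · by_cases hx : x = i
    · subst hx
      by_cases hy : y = x
      · subst hy
        simp [outM, srcM, macUM, off, h1]
      · simp [outM, srcM, macUM, off, hy, Ne.symm hy]
    · simp [outM, srcM, macUM, hx]

theorem macU_core {K : Type u} [Field K] [StarRing K] {W : Type} [Fintype W] [DecidableEq W]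
    (M : W → W → ℕ) (i : W) (h1 : M i i = 1) (h2 : off M i ≠ 0) :
    SI K (LM K M) (LM K (srcM (macUM M i) (off M i))) := by
  rw [← macU_mat M i h1]
  refine (SI.matO M i (fun y => if y = i then 1 else 0) (off M i) ?_ ?_ ?_).trans
    (SI.absorb _ none ?_ ?_)
  · intro y
    by_cases hy : y = i
    · subst hy
      simp [off, h1]
    · simp [off, hy, Ne.symm hy]
  · exact ⟨i, by simp⟩
  · obtain ⟨y, hy⟩ := Function.ne_iff.1 h2
    exact ⟨y, hy⟩
  · simp [outM, off]
  · obtain ⟨y, hy⟩ := Function.ne_iff.1 h2
    exact ⟨some y, hy⟩

theorem macU_off {V : Type} [DecidableEq V] (A : V → V → ℕ) (b : V → ℕ) (i : V) :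
    off (srcM A b) (some i) = fun y => Option.elim y 0 (off A i) := by
  funext y
  rcases y with _ | y
  · simp [off, srcM]
  · simp [off, srcM]

theorem macU_src {V : Type} [DecidableEq V] (A : V → V → ℕ) (b : V → ℕ) (i : V) :
    macUM (srcM A b) (some i) = srcM (macUM A i) (b + b i • off A i) := by
  funext x y
  rcases x with _ | x <;> rcases y with _ | y
  · simp [macUM, srcM, off]
  · simp [macUM, srcM, off]
  · simp [macUM, srcM, off]
  · simp [macUM, srcM, off]

section
variable {K : Type u} [Field K] [StarRing K] {X : Type u'} [Ring X] [Algebra K X] [Star X]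

theorem macU_rows {V : Type} [Fintype V] [DecidableEq V] {A : V → V → ℕ} {b : V → ℕ} (i : V)
    (h1 : A i i = 1) (n : ℕ) : ∀ t : V → ℕ, t i = 0 → (∀ x, t x ≠ 0 → 1 ≤ A x i) →
      ∑ x, t x = n → (Has K X A b ↔ Has K X (fun x y => A x y + t x * off A i y) b) := by
  induction n with
  | zero =>
    intro t hti ht hs
    have h2 : ∀ x, t x = 0 := fun x => by
      rw [Finset.sum_eq_zero_iff] at hs
      exact hs x (Finset.mem_univ _)
    have h3 : (fun x y => A x y + t x * off A i y) = A := by
      funext x y
      rw [h2]
      simp
    rw [h3]
  | succ n ih =>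
    intro t hti ht hs
    have h2 : ∃ x, t x ≠ 0 := by
      by_contra hcon
      push Not at hcon
      rw [Finset.sum_eq_zero (fun x _ => hcon x)] at hs
      omega
    obtain ⟨x, hx⟩ := h2
    have hxi : x ≠ i := by
      rintro rfl
      exact hx hti
    let t' : V → ℕ := fun y => if y = x then t x - 1 else t y
    have hti' : t' i = 0 := by
      simp only [t', if_neg (Ne.symm hxi)]
      exact hti
    have ht' : ∀ y, t' y ≠ 0 → 1 ≤ A y i := by
      intro y hy
      by_cases hyx : y = x
      · subst hyx
        exact ht _ hx
      · simp only [t', if_neg hyx] at hy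
        exact ht y hy
    have hs' : ∑ y, t' y = n := by
      have h3 : ∑ y, t y = ∑ y, (t' y + if y = x then 1 else 0) := by
        refine Finset.sum_congr rfl fun y _ => ?_
        by_cases hy : y = x
        · subst hy
          simp only [t', if_true]
          omega
        · simp only [t', if_neg hy]
          rfl
      rw [Finset.sum_add_distrib, Finset.sum_ite_eq' Finset.univ x] at h3
      simp only [Finset.mem_univ, if_true] at h3
      omega
    rw [ih t' hti' ht' hs']
    have hrow : ∀ y, A i y + t' i * off A i y = A i y := fun y => by rw [hti']; simp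
    have h4 : rowX (fun x y => A x y + t' x * off A i y) x i =
        (fun x y => A x y + t x * off A i y) := by
      funext a y
      unfold rowX
      by_cases hax : a = x
      · subst hax
        rw [if_pos rfl]
        beta_reduce
        rw [hrow]
        have h5 : t' a = t a - 1 := by simp only [t', if_true]
        have h6 : t a = (t a - 1) + 1 := by omega
        by_cases hy : y = i
        · subst hy
          simp [off, h1]
        · have h7 : off A i y = A i y := by simp [off, Ne.symm hy]
          rw [if_neg hy, h5, h7]
          conv_rhs => rw [h6]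
          simp
          ring
      · rw [if_neg hax]
        simp only [t', if_neg hax]
    have h5 := Has.row (K := K) (X := X) (A := fun x y => A x y + t' x * off A i y) (b := b)
      x i hxi (le_trans (ht x hx) (Nat.le_add_right _ _)) ⟨i, by
        rw [hrow, h1]
        exact one_ne_zero⟩
    rw [h4] at h5
    exact h5

theorem macU_srcs {V : Type} [Fintype V] [DecidableEq V] {A : V → V → ℕ} {b : V → ℕ} (i : V)
    (h1 : A i i = 1) (hb : 1 ≤ b i) (n : ℕ) :
    Has K X A b ↔ Has K X A (b + n • off A i) := by
  induction n with
  | zero => simp
  | succ n ih =>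
    rw [ih]
    have h2 : (fun y => (b + n • off A i) y + A i y - if y = i then 1 else 0) =
        b + (n + 1) • off A i := by
      funext y
      by_cases hy : y = i
      · subst hy
        simp [off, h1]
      · have h7 : off A i y = A i y := by simp [off, Ne.symm hy]
        simp only [if_neg hy, Pi.add_apply, Pi.smul_apply, smul_eq_mul, h7]
        rw [Nat.sub_zero]
        ring
    rw [← h2]
    refine Has.src i ?_ ⟨i, by rw [h1]; exact one_ne_zero⟩
    simp only [Pi.add_apply]
    omega

end

theorem Has.unit {K : Type u} [Field K] [StarRing K] {X : Type u'} [Ring X] [Algebra K X] [Star X]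
    {V : Type} [Fintype V] [DecidableEq V] {A : V → V → ℕ} {b : V → ℕ} (i : V)
    (h1 : A i i = 1) (h2 : off A i ≠ 0) (h : Has K X A b) : Has K X A (b + off A i) := by
  -- the outsplitting side
  have h3 : Has K X (macUM A i) (b + b i • off A i + off A i) := by
    refine Has.add_src h2 ?_
    rcases h with ⟨h3, h4⟩ | ⟨h3, h4⟩
    · refine Or.inl ⟨?_, h4.trans (macU_core A i h1 h2)⟩
      rw [h3]
      simp
    · refine Or.inr ⟨?_, ?_⟩
      · obtain ⟨y, hy⟩ := Function.ne_iff.1 h3
        have hy' : b y ≠ 0 := hy
        intro h5
        have h6 := congrFun h5 y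
        simp only [Pi.add_apply, Pi.smul_apply, smul_eq_mul, Pi.zero_apply] at h6
        omega
      · have h5 := macU_core (K := K) (srcM A b) (some i) h1 (by
          rw [macU_off]
          obtain ⟨y, hy⟩ := Function.ne_iff.1 h2
          exact Function.ne_iff.2 ⟨some y, hy⟩)
        rw [macU_src, macU_off] at h5
        exact h4.trans h5
  -- the other side
  have hoi : off A i i = 0 := by simp [off]
  have h4 := macU_rows (K := K) (X := X) (A := A) (b := b + off A i) i h1 _
    (fun x => if x = i then 0 else A x i) (by simp) (by
      intro x hx
      by_cases hxi : x = i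
      · simp [hxi] at hx
      · simp only [if_neg hxi] at hx
        omega) rfl
  have h5 : (fun x y => A x y + (if x = i then 0 else A x i) * off A i y) = macUM A i := by
    funext x y
    unfold macUM
    by_cases hxi : x = i
    · subst hxi
      simp
    · simp [hxi]
  rw [h5] at h4
  rw [h4]
  by_cases hbi : b i = 0
  · rw [hbi] at h3
    simpa using h3
  · have h6 : macUM A i i i = 1 := by simp [macUM, h1]
    have h7 : off (macUM A i) i = off A i := by
      funext y
      simp [off, macUM]
    have h8 := macU_srcs (K := K) (X := X) (A := macUM A i) (b := b + off A i) i h6 (by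
      simp only [Pi.add_apply]
      omega) (b i)
    rw [h7] at h8
    rw [h8]
    have h9 : b + off A i + b i • off A i = b + b i • off A i + off A i := by
      rw [add_right_comm]
    rw [h9]
    exact h3

end Pool.Agent.Work.MP_2b4d3b_al
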