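import Pool.Agent.Work.MP_2b4d3b_al.RStar
import Pool.Agent.Work.MP_2b4d3b_al.CStar
import Pool.Agent.Work.MP_2b4d3b_al.MacU

/-!
MODULE CombFinal. In matrix terms: B = off A, B' = off A' over the integers; B S = P B',
u S = u' + t B' (row vectors, u = 1 + b).
1. Saturate both (exists_saturated): A0 = P0-transform of A, A0' = P0'-transform of A';
P0 B S = P0 P B' = (P0 P P0'^(-1)) (P0' B'); unipotent matrices supported on Rch form a group
(inverse: sum of powers of 1 - P, or work in a triangular order). So wlog both are saturated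
(t B' = (t P0'^(-1)) (P0' B')).
2. N := P - 1 = N+ - N- (entrywise positive and negative part, supported on Rch, zero diagonal,
nilpotent). P1 := sum over k < card V of (N-)^k ≥ 0, so P1 (1 - N-) = 1 and P1 P = 1 + P1 N+ ≥ 0.
3. A ~ P1-transform (rstar) ~ then cstar with S: off = P1 B S, unit vector u S.
   A' ~ (P1 P)-transform (rstar): off = P1 P B'. Same matrix M (diagonals agree by hd).
4. units: u S - u' = t B' = t' off M with t' integer; Has.unit for x with off M x ≠ 0 (M x x = 1 by
Reduced M): from (M, u') add the positive part of t' and from (M, u S) the negative part: same pair.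
Has.unit goes one way only, so derive: Has K X M b1 -> Has K X M b3 and Has K X M b2 -> ... is not
enough; use the isomorphic model: apply Has.unit also to X := the model algebra of (M, b2)
(LM K M or LM K (srcM M b2), which has Has K _ M b2 by SI.refl) to get SI of the two models.
The same remark makes cstar usable backwards.
-/

set_option linter.unusedVariables false
set_option linter.style.longLine false
set_option linter.unusedSectionVars false

namespace Pool.Agent.Work.MP_2b4d3b_al

open Matrix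

universe u v w u' v' w'

private theorem cf_rho {V : Type} {A : V → V → ℕ} (hA : Reduced A) : ∃ ρ : V → ℕ,
    ∀ x y, Rch A x y → x ≠ y → ρ y < ρ x := by
  obtain ⟨⟨ρ, hρ⟩, -, -⟩ := hA
  refine ⟨ρ, fun x y h => ?_⟩
  induction h with
  | refl => exact fun h => absurd rfl h
  | @tail y z hxy hyz ih =>
    intro hxz
    by_cases h1 : y = z
    · subst h1
      exact ih hxz
    · have h2 := hρ y z h1 hyz
      by_cases h3 : x = y
      · subst h3
        exact h2
      · exact h2.trans (ih h3)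

private theorem cf_anti {V : Type} {A : V → V → ℕ} (hA : Reduced A) {x y : V} (h : Rch A x y)
    (h' : Rch A y x) : x = y := by
  obtain ⟨ρ, hρ⟩ := cf_rho hA
  by_contra hne
  exact lt_irrefl _ ((hρ x y h hne).trans (hρ y x h' (Ne.symm hne)))

private theorem cf_min {V : Type} {A : V → V → ℕ} {j : V} (hj : ∀ y, A j y = 0) {y : V}
    (h : Rch A j y) : y = j := by
  induction h with
  | refl => rfl
  | @tail y z _ hyz ih =>
    subst ih
    exact absurd (hj z) hyz

section
variable {V : Type} [Fintype V] [DecidableEq V] {A : V → V → ℕ}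

private theorem cf_off {A : V → V → ℕ} {x y : V} (h : off A x y ≠ 0) : x ≠ y ∧ A x y ≠ 0 := by
  unfold off at h
  split_ifs at h with h1
  · exact absurd rfl h
  · exact ⟨h1, h⟩

private theorem cf_off' {A : V → V → ℕ} {x y : V} (h : x ≠ y) : off A x y = A x y := by
  simp [off, h]

/-- off as an integer matrix -/
private def oZ (A : V → V → ℕ) : Matrix V V ℤ := fun x y => (off A x y : ℤ)

private def nZ (S : V → V → ℕ) : Matrix V V ℤ := fun x y => (S x y : ℤ)

/-- unipotent matrices supported on reachability -/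
private def Un (A : V → V → ℕ) (P : Matrix V V ℤ) : Prop :=
  (∀ x, P x x = 1) ∧ ∀ x y, P x y ≠ 0 → Rch A x y

private theorem Un.mul (hA : Reduced A) {P Q : Matrix V V ℤ} (hP : Un A P) (hQ : Un A Q) :
    Un A (P * Q) := by
  constructor
  · intro x
    rw [Matrix.mul_apply, Finset.sum_eq_single x]
    · rw [hP.1, hQ.1, one_mul]
    · intro z _ hz
      by_contra hc
      exact hz (cf_anti hA (hQ.2 z x (right_ne_zero_of_mul hc)) (hP.2 x z (left_ne_zero_of_mul hc)))
    · intro h
      exact absurd (Finset.mem_univ x) h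
  · intro x y h
    rw [Matrix.mul_apply] at h
    obtain ⟨z, -, hz⟩ := Finset.exists_ne_zero_of_sum_ne_zero h
    exact (hP.2 x z (left_ne_zero_of_mul hz)).trans (hQ.2 z y (right_ne_zero_of_mul hz))

private theorem neumann (hA : Reduced A) {N : Matrix V V ℤ}
    (hN : ∀ x y, N x y ≠ 0 → Rch A x y ∧ x ≠ y) :
    ∃ Q : Matrix V V ℤ, Un A Q ∧ Q * (1 - N) = 1 ∧ (1 - N) * Q = 1 ∧
      ((∀ x y, 0 ≤ N x y) → ∀ x y, 0 ≤ Q x y) := by
  obtain ⟨ρ, hρ⟩ := cf_rho hA
  have hpow : ∀ k : ℕ, ∀ x y, (N ^ k) x y ≠ 0 → Rch A x y ∧ ρ y + k ≤ ρ x := by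
    intro k
    induction k with
    | zero =>
      intro x y h
      rw [pow_zero] at h
      have : x = y := by
        by_contra hne
        exact h (Matrix.one_apply_ne hne)
      subst this
      exact ⟨Relation.ReflTransGen.refl, by omega⟩
    | succ k ih =>
      intro x y h
      rw [pow_succ, Matrix.mul_apply] at h
      obtain ⟨z, -, hz⟩ := Finset.exists_ne_zero_of_sum_ne_zero h
      obtain ⟨h1, h2⟩ := ih x z (left_ne_zero_of_mul hz)
      obtain ⟨h3, h4⟩ := hN z y (right_ne_zero_of_mul hz)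
      have := hρ z y h3 h4
      exact ⟨h1.trans h3, by omega⟩
  obtain ⟨m, hm⟩ : ∃ m, ∀ x, ρ x < m := by
    refine ⟨(∑ x, ρ x) + 1, fun x => Nat.lt_succ_of_le ?_⟩
    exact Finset.single_le_sum (f := ρ) (fun _ _ => Nat.zero_le _) (Finset.mem_univ x)
  have h0 : N ^ m = 0 := by
    ext x y
    by_contra hc
    have := (hpow m x y hc).2
    have := hm x
    omega
  refine ⟨∑ k ∈ Finset.range m, N ^ k, ⟨?_, ?_⟩, ?_, ?_, ?_⟩
  · intro x
    have hm0 : 0 ∈ Finset.range m := Finset.mem_range.2 (by have := hm x; omega)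
    rw [Matrix.sum_apply, Finset.sum_eq_single_of_mem 0 hm0, pow_zero, Matrix.one_apply_eq]
    intro k _ hk
    by_contra hc
    have := (hpow k x x hc).2
    omega
  · intro x y h
    rw [Matrix.sum_apply] at h
    obtain ⟨k, -, hk⟩ := Finset.exists_ne_zero_of_sum_ne_zero h
    exact (hpow k x y hk).1
  · rw [geom_sum_mul_neg, h0, sub_zero]
  · rw [mul_neg_geom_sum, h0, sub_zero]
  · intro hnn x y
    have hk : ∀ k : ℕ, ∀ x y, 0 ≤ (N ^ k) x y := by
      intro k
      induction k with
      | zero =>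
        intro x y
        rw [pow_zero, Matrix.one_apply]
        split_ifs <;> norm_num
      | succ k ih =>
        intro x y
        rw [pow_succ, Matrix.mul_apply]
        exact Finset.sum_nonneg fun z _ => mul_nonneg (ih x z) (hnn z y)
    rw [Matrix.sum_apply]
    exact Finset.sum_nonneg fun k _ => hk k x y

private theorem Un.inv (hA : Reduced A) {P : Matrix V V ℤ} (hP : Un A P) :
    ∃ Q : Matrix V V ℤ, Un A Q ∧ Q * P = 1 ∧ P * Q = 1 := by
  obtain ⟨Q, h1, h2, h3, -⟩ := neumann hA (N := 1 - P) (by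
    intro x y h
    have hne : x ≠ y := by
      rintro rfl
      apply h
      rw [Matrix.sub_apply, Matrix.one_apply_eq, hP.1, sub_self]
    refine ⟨hP.2 x y ?_, hne⟩
    rw [Matrix.sub_apply, Matrix.one_apply_ne hne, zero_sub] at h
    exact neg_ne_zero.1 h)
  rw [sub_sub_cancel] at h2 h3
  exact ⟨Q, h1, h2, h3⟩

private theorem reduced_of {A A1 : V → V → ℕ} (hA : Reduced A)
    (h1 : ∀ x y, off A1 x y ≠ 0 → Rch A x y) (hd : ∀ x, A1 x x = A x x) : Reduced A1 := by
  obtain ⟨ρ, hρ⟩ := cf_rho hA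
  refine ⟨⟨ρ, fun x y hxy h => hρ x y (h1 x y (by rwa [cf_off' hxy])) hxy⟩, ?_, ?_⟩
  · intro x
    rw [hd]
    exact hA.2.1 x
  · intro x hx y
    by_cases hxy : x = y
    · subst hxy
      exact hx
    · by_contra hc
      have h2 := h1 x y (by rwa [cf_off' hxy])
      rw [hd] at hx
      exact hxy (cf_min (hA.2.2 x hx) h2).symm

private theorem rch_of {A A1 : V → V → ℕ} (h1 : ∀ x y, off A1 x y ≠ 0 → Rch A x y) {x y : V}
    (h : Rch A1 x y) : Rch A x y := by
  induction h with
  | refl => exact Relation.ReflTransGen.refl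
  | @tail y z _ hyz ih =>
    by_cases h2 : y = z
    · subst h2
      exact ih
    · exact ih.trans (h1 y z (by rwa [cf_off' h2]))

private theorem sat_of {A A1 : V → V → ℕ} (hs : Saturated A)
    (h1 : ∀ x y, off A1 x y ≠ 0 → Rch A x y) (h2 : ∀ x y, off A x y ≠ 0 → off A1 x y ≠ 0) :
    Saturated A1 := by
  intro x y hxy h
  have h3 := hs x y hxy (rch_of h1 h)
  have h4 := h2 x y (by rwa [cf_off' hxy])
  rwa [cf_off' hxy] at h4

/-- the same algebra and unit vector from two sides -/
private theorem has_back {K : Type u} [Field K] [StarRing K] {X : Type u'} [Ring X] [Algebra K X]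
    [Star X] {M : V → V → ℕ} {b' b'' : V → ℕ}
    (hstep : ∀ (Y : Type u) [Ring Y] [Algebra K Y] [Star Y], Has K Y M b' → Has K Y M b'')
    (h : Has K X M b'') : Has K X M b' := by
  by_cases hb : b' = 0
  · have h1 := hstep (LM K M) (Or.inl ⟨hb, SI.refl _⟩)
    refine Or.inl ⟨hb, ?_⟩
    rcases h with ⟨h2, h3⟩ | ⟨h2, h3⟩
    · rcases h1 with ⟨_, h4⟩ | ⟨h5, _⟩
      · exact h3.trans h4.symm
      · exact absurd h2 h5
    · rcases h1 with ⟨h5, _⟩ | ⟨_, h4⟩
      · exact absurd h5 h2
      · exact h3.trans h4.symm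
  · have h1 := hstep (LM K (srcM M b')) (Or.inr ⟨hb, SI.refl _⟩)
    refine Or.inr ⟨hb, ?_⟩
    rcases h with ⟨h2, h3⟩ | ⟨h2, h3⟩
    · rcases h1 with ⟨_, h4⟩ | ⟨h5, _⟩
      · exact h3.trans h4.symm
      · exact absurd h2 h5
    · rcases h1 with ⟨h5, _⟩ | ⟨_, h4⟩
      · exact absurd h5 h2
      · exact h3.trans h4.symm

private theorem unit_iter {K : Type u} [Field K] [StarRing K] {X : Type u'} [Ring X] [Algebra K X]
    [Star X] {M : V → V → ℕ} (hM : Reduced M) {b : V → ℕ} (T : V → ℕ) (s : Finset V)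
    (h : Has K X M b) : Has K X M (b + ∑ i ∈ s, T i • off M i) := by
  induction s using Finset.induction_on with
  | empty => simpa using h
  | insert a s ha ih =>
    rw [Finset.sum_insert ha, add_comm (T a • off M a), ← add_assoc]
    generalize b + ∑ i ∈ s, T i • off M i = c at ih
    generalize T a = t
    by_cases h0 : off M a = 0
    · rw [h0, smul_zero, add_zero]
      exact ih
    · have hl : M a a = 1 := by
        have h1 := hM.2.1 a
        have h2 := hM.2.2 a
        by_contra hc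
        apply h0
        funext y
        by_contra hy
        exact (cf_off hy).2 (h2 (by omega) y)
      induction t with
      | zero => simpa using ih
      | succ t iht =>
        rw [succ_nsmul, ← add_assoc]
        exact Has.unit a hl h0 iht

private theorem comb_sat (A A' : V → V → ℕ) (hA : Reduced A)
    (hA' : Reduced A') (hsA : Saturated A) (hsA' : Saturated A')
    (hr : ∀ x y, Rch A x y ↔ Rch A' x y) (hd : ∀ x, A x x = A' x x)
    (S : V → V → ℕ) (P : Matrix V V ℤ) (hS1 : ∀ x, S x x = 1) (hS2 : ∀ x y, S x y ≠ 0 → Rch A x y)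
    (hP : Un A P) (hSP : oZ A * nZ S = P * oZ A')
    (b b' : V → ℕ) (t : V → ℤ)
    (ht : ∀ y, ∑ x, (1 + (b x : ℤ)) * (S x y : ℤ) = 1 + (b' y : ℤ) + ∑ x, t x * (off A' x y : ℤ))
    (K : Type u) [Field K] [StarRing K] (X : Type u') [Ring X] [Algebra K X] [Star X]
    (h : Has K X A b) : Has K X A' b' := by
  -- decomposition of P
  let N1 : Matrix V V ℤ := fun x y => max (P x y - (1 : Matrix V V ℤ) x y) 0
  let N2 : Matrix V V ℤ := fun x y => max ((1 : Matrix V V ℤ) x y - P x y) 0
  have hPN : P = 1 - N2 + N1 := by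
    ext x y
    rw [Matrix.add_apply, Matrix.sub_apply]
    simp only [N1, N2]
    omega
  have hN2 : ∀ x y, N2 x y ≠ 0 → Rch A x y ∧ x ≠ y := by
    intro x y hxy
    have hne : x ≠ y := by
      rintro rfl
      apply hxy
      simp [N2, hP.1]
    refine ⟨hP.2 x y ?_, hne⟩
    intro h0
    apply hxy
    simp [N2, h0, Matrix.one_apply_ne hne]
  obtain ⟨P1, hP1, hP1a, hP1b, hP1c⟩ := neumann hA hN2
  have hP1n := hP1c fun x y => le_max_right _ _
  have hP2 : Un A (P1 * P) := hP1.mul hA hP
  have hP2n : ∀ x y, 0 ≤ (P1 * P) x y := by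
    intro x y
    rw [hPN, Matrix.mul_add, hP1a, Matrix.add_apply, Matrix.mul_apply]
    refine add_nonneg ?_ (Finset.sum_nonneg fun z _ => mul_nonneg (hP1n x z) (le_max_right _ _))
    rw [Matrix.one_apply]
    split_ifs <;> norm_num
  -- natural versions
  let Q1 : V → V → ℕ := fun x y => (P1 x y).toNat
  let Q2 : V → V → ℕ := fun x y => ((P1 * P) x y).toNat
  have hQ1 : ∀ x y, ((Q1 x y : ℕ) : ℤ) = P1 x y := fun x y => Int.toNat_of_nonneg (hP1n x y)
  have hQ2 : ∀ x y, ((Q2 x y : ℕ) : ℤ) = (P1 * P) x y := fun x y => Int.toNat_of_nonneg (hP2n x y)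
  have hQ1a : ∀ x, Q1 x x = 1 := fun x => by simp [Q1, hP1.1]
  have hQ1b : ∀ x y, Q1 x y ≠ 0 → Rch A x y := by
    intro x y hxy
    apply hP1.2
    intro h0
    exact hxy (by simp [Q1, h0])
  have hQ2a : ∀ x, Q2 x x = 1 := fun x => by simp [Q2, hP2.1]
  have hQ2b : ∀ x y, Q2 x y ≠ 0 → Rch A x y := by
    intro x y hxy
    apply hP2.2
    intro h0
    exact hxy (by simp [Q2, h0])
  -- the first matrix
  let A1 : V → V → ℕ := fun x y => if x = y then A x x else ∑ z, Q1 x z * off A z y
  have hA1d : ∀ x, A1 x x = A x x := fun x => by simp [A1]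
  have hA1 : ∀ x y, off A1 x y = ∑ z, Q1 x z * off A z y := by
    intro x y
    by_cases hxy : x = y
    · subst hxy
      rw [off, if_pos rfl]
      symm
      apply Finset.sum_eq_zero
      intro z _
      by_contra hc
      have h1 := hQ1b x z (left_ne_zero_of_mul hc)
      obtain ⟨h2, h3⟩ := cf_off (right_ne_zero_of_mul hc)
      exact h2 (cf_anti hA (Relation.ReflTransGen.single h3) h1)
    · rw [cf_off' hxy]
      simp [A1, hxy]
  have hA1r : ∀ x y, off A1 x y ≠ 0 → Rch A x y := by
    intro x y h0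
    rw [hA1] at h0
    obtain ⟨z, -, hz⟩ := Finset.exists_ne_zero_of_sum_ne_zero h0
    exact (hQ1b x z (left_ne_zero_of_mul hz)).tail (cf_off (right_ne_zero_of_mul hz)).2
  have hA1g : ∀ x y, off A x y ≠ 0 → off A1 x y ≠ 0 := by
    intro x y h0 h1
    rw [hA1] at h1
    have := (Finset.sum_eq_zero_iff.1 h1) x (Finset.mem_univ x)
    rw [hQ1a, one_mul] at this
    exact h0 this
  have hA1red := reduced_of hA hA1r hA1d
  have hA1sat := sat_of hsA hA1r hA1g
  have hA1rch : ∀ x y, Rch A x y → Rch A1 x y := by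
    intro x y h0
    by_cases hxy : x = y
    · subst hxy
      exact Relation.ReflTransGen.refl
    · apply Relation.ReflTransGen.single
      have h1 := hsA x y hxy h0
      have h2 := hA1g x y (by rwa [cf_off' hxy])
      rwa [cf_off' hxy] at h2
  -- the second matrix
  let M : V → V → ℕ := fun x y => if x = y then A x x else ∑ z, off A1 x z * S z y
  have hMd : ∀ x, M x x = A x x := fun x => by simp [M]
  have hM : ∀ x y, off M x y = ∑ z, off A1 x z * S z y := by
    intro x y
    by_cases hxy : x = y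
    · subst hxy
      rw [off, if_pos rfl]
      symm
      apply Finset.sum_eq_zero
      intro z _
      by_contra hc
      have h1 := hA1r x z (left_ne_zero_of_mul hc)
      have h2 := (cf_off (left_ne_zero_of_mul hc)).1
      exact h2 (cf_anti hA h1 (hS2 z x (right_ne_zero_of_mul hc)))
    · rw [cf_off' hxy]
      simp [M, hxy]
  have hMr : ∀ x y, off M x y ≠ 0 → Rch A x y := by
    intro x y h0
    rw [hM] at h0
    obtain ⟨z, -, hz⟩ := Finset.exists_ne_zero_of_sum_ne_zero h0
    exact (hA1r x z (left_ne_zero_of_mul hz)).trans (hS2 z y (right_ne_zero_of_mul hz))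
  have hMred := reduced_of hA hMr hMd
  -- M from the other side
  have hMZ : oZ M = P1 * P * oZ A' := by
    have e1 : oZ A1 = P1 * oZ A := by
      ext x y
      rw [Matrix.mul_apply]
      simp only [oZ, hA1]
      push_cast
      exact Finset.sum_congr rfl fun z _ => by rw [hQ1]
    have e2 : oZ M = oZ A1 * nZ S := by
      ext x y
      rw [Matrix.mul_apply]
      simp only [oZ, hM, nZ]
      push_cast
      rfl
    rw [e2, e1, Matrix.mul_assoc, hSP, Matrix.mul_assoc]
  have hM2 : ∀ x y, off M x y = ∑ z, Q2 x z * off A' z y := by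
    intro x y
    have h1 := congrFun (congrFun hMZ x) y
    rw [Matrix.mul_apply] at h1
    have h2 : ((off M x y : ℕ) : ℤ) = ((∑ z, Q2 x z * off A' z y : ℕ) : ℤ) := by
      push_cast
      rw [show ((off M x y : ℕ) : ℤ) = oZ M x y from rfl, h1]
      exact Finset.sum_congr rfl fun z _ => by rw [hQ2]; rfl
    exact_mod_cast h2
  have g' := rstar A' M Q2 hA' hsA' hQ2a (fun x y h0 => (hr x y).1 (hQ2b x y h0)) hM2
    (fun x => by rw [hMd, hd])
  have g1 := (rstar A A1 Q1 hA hsA hQ1a hQ1b hA1 hA1d K X b).1 h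
  -- the unit vector
  have hone : ∀ y, 1 ≤ ∑ x, (1 + b x) * S x y := by
    intro y
    have := Finset.single_le_sum (f := fun x => (1 + b x) * S x y) (fun _ _ => Nat.zero_le _)
      (Finset.mem_univ y)
    have h2 : 1 ≤ (1 + b y) * S y y := by
      rw [hS1]
      omega
    exact h2.trans this
  let bS : V → ℕ := fun y => ∑ x, (1 + b x) * S x y - 1
  have hbS : ∀ y, 1 + bS y = ∑ x, (1 + b x) * S x y := fun y => by
    have := hone y
    simp only [bS]
    omega
  have g2 := cstar A1 M S hA1red hA1sat hS1 (fun x y h0 => hA1rch x y (hS2 x y h0)) hM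
    (fun x => by rw [hMd, hA1d]) b bS hbS K X g1
  rw [g' K X b']
  -- express the difference through M
  obtain ⟨R, hR, hR1, hR2⟩ := hP2.inv hA
  let t' : V → ℤ := Matrix.vecMul t R
  have ht' : ∀ y, (bS y : ℤ) - b' y = ∑ x, t' x * (off M x y : ℤ) := by
    intro y
    have h1 := ht y
    have h2 : ((1 + bS y : ℕ) : ℤ) = ∑ x, (1 + (b x : ℤ)) * (S x y : ℤ) := by
      rw [hbS]
      push_cast
      rfl
    rw [← h2] at h1
    have h3 : Matrix.vecMul t (oZ A') = Matrix.vecMul t' (oZ M) := by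
      rw [hMZ, Matrix.vecMul_vecMul, ← Matrix.mul_assoc R, hR1, Matrix.one_mul]
    have h4 := congrFun h3 y
    simp only [Matrix.vecMul, dotProduct] at h4
    have h5 : ∑ x, t x * (off A' x y : ℤ) = ∑ x, t' x * (off M x y : ℤ) := h4
    rw [← h5]
    push_cast at h1
    linarith
  let Tp : V → ℕ := fun x => (t' x).toNat
  let Tn : V → ℕ := fun x => (-t' x).toNat
  have hb'' : bS + ∑ i, Tn i • off M i = b' + ∑ i, Tp i • off M i := by
    funext y
    have h1 := ht' y
    have h2 : ∑ x, t' x * (off M x y : ℤ) =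
        ∑ x, ((Tp x : ℕ) : ℤ) * (off M x y : ℤ) - ∑ x, ((Tn x : ℕ) : ℤ) * (off M x y : ℤ) := by
      rw [← Finset.sum_sub_distrib]
      refine Finset.sum_congr rfl fun x _ => ?_
      rw [← sub_mul]
      congr 1
      simp only [Tp, Tn]
      omega
    rw [h2] at h1
    simp only [Pi.add_apply, Finset.sum_apply, Pi.smul_apply, smul_eq_mul]
    have h3 : ((bS y + ∑ i, Tn i * off M i y : ℕ) : ℤ) = ((b' y + ∑ i, Tp i * off M i y : ℕ) : ℤ) := by
      push_cast
      linarith
    exact_mod_cast h3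
  have g3 := unit_iter hMred Tn Finset.univ g2
  rw [hb''] at g3
  exact has_back (fun Y _ _ _ hY => unit_iter hMred Tp Finset.univ hY) g3

end

theorem comb_final {V : Type} [Fintype V] [DecidableEq V] (A A' : V → V → ℕ) (hA : Reduced A)
    (hA' : Reduced A') (hr : ∀ x y, Rch A x y ↔ Rch A' x y) (hd : ∀ x, A x x = A' x x)
    (S : V → V → ℕ) (P : V → V → ℤ) (hS1 : ∀ x, S x x = 1) (hS2 : ∀ x y, S x y ≠ 0 → Rch A x y)
    (hP1 : ∀ x, P x x = 1) (hP2 : ∀ x y, P x y ≠ 0 → Rch A x y)
    (hSP : ∀ x y, ∑ z, (off A x z : ℤ) * (S z y : ℤ) = ∑ z, P x z * (off A' z y : ℤ))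
    (b b' : V → ℕ) (t : V → ℤ)
    (ht : ∀ y, ∑ x, (1 + (b x : ℤ)) * (S x y : ℤ) = 1 + (b' y : ℤ) + ∑ x, t x * (off A' x y : ℤ))
    (K : Type u) [Field K] [StarRing K] (X : Type u') [Ring X] [Algebra K X] [Star X]
    (h : Has K X A b) : Has K X A' b' := by
  obtain ⟨A0, P0, c1, c2, c3, c4, c5, c6, c7, c8⟩ := exists_saturated.{u, u'} A hA
  obtain ⟨A0', P0', d1, d2, d3, d4, d5, d6, d7, d8⟩ := exists_saturated.{u, u'} A' hA'
  obtain ⟨PZ, hPZ⟩ : ∃ PZ : Matrix V V ℤ, ∀ x y, PZ x y = P x y := ⟨fun x y => P x y, fun _ _ => rfl⟩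
  have hPU : Un A PZ := ⟨fun x => by rw [hPZ, hP1], fun x y h0 => hP2 x y (by rwa [← hPZ])⟩
  have hP0 : Un A (nZ P0) := ⟨fun x => by simp [nZ, c5], fun x y h0 => c6 x y (by
    intro h1
    exact h0 (by simp [nZ, h1]))⟩
  have hP0' : Un A (nZ P0') := ⟨fun x => by simp [nZ, d5], fun x y h0 => (hr x y).2 (d6 x y (by
    intro h1
    exact h0 (by simp [nZ, h1])))⟩
  obtain ⟨R, hR, hR1, hR2⟩ := hP0'.inv hA
  have e1 : oZ A0 = nZ P0 * oZ A := by
    ext x y
    rw [Matrix.mul_apply]
    simp only [oZ, nZ, c7]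
    push_cast
    rfl
  have e2 : oZ A0' = nZ P0' * oZ A' := by
    ext x y
    rw [Matrix.mul_apply]
    simp only [oZ, nZ, d7]
    push_cast
    rfl
  have e3 : oZ A * nZ S = PZ * oZ A' := by
    ext x y
    rw [Matrix.mul_apply, Matrix.mul_apply]
    simp only [hPZ]
    exact hSP x y
  have e4 : R * oZ A0' = oZ A' := by
    rw [e2, ← Matrix.mul_assoc, hR1, Matrix.one_mul]
  have hU := (hP0.mul hA hPU).mul hA hR
  rw [d8 K X b']
  refine comb_sat A0 A0' c1 d1 c2 d2 (fun x y => by rw [c3, d3, hr]) (fun x => by rw [c4, d4, hd]) S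
    (nZ P0 * PZ * R) hS1 (fun x y h0 => (c3 x y).2 (hS2 x y h0))
    ⟨hU.1, fun x y h0 => (c3 x y).2 (hU.2 x y h0)⟩ ?_ b b' (Matrix.vecMul t R) ?_ K X
    ((c8 K X b).1 h)
  · rw [e1, Matrix.mul_assoc, e3, Matrix.mul_assoc (nZ P0 * PZ), e4,
      Matrix.mul_assoc]
  · intro y
    rw [ht y]
    congr 1
    have h3 : Matrix.vecMul t (oZ A') = Matrix.vecMul (Matrix.vecMul t R) (oZ A0') := by
      rw [Matrix.vecMul_vecMul, e4]
    exact congrFun h3 y

end Pool.Agent.Work.MP_2b4d3b_al
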