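import Pool.Agent.Work.MP_2b4d3b_al.Defs

/-!
MODULE IdB. Bookkeeping for equivalence of idempotent matrices.
mk': replace x by p*x*q, y by q*y*p. trans: (x x', y' y). map: apply the (non unital) hom entrywise.
bs_congr: block matrices. vs_add etc.: reindexing of diagonal matrices (a bijection e of the index
types with q (e a) (e b) = p a b gives IdEq: reindex).
flat: the entries of a matrix over Matrix T T R are flattened (Matrix.comp or by hand).
-/

set_option linter.unusedVariables false
set_option linter.style.longLine false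

namespace Pool.Agent.Work.MP_2b4d3b_al

open Matrix

universe u v w u' v' w'

section
variable {R : Type u} [Ring R]

theorem IdEq.mk' {m : Type v} {n : Type w} [Fintype m] [Fintype n] {p : Matrix m m R}
    {q : Matrix n n R} (hp : p * p = p) (hq : q * q = q) (x : Matrix m n R) (y : Matrix n m R)
    (h1 : x * y = p) (h2 : y * x = q) : IdEq p q := by
  have e1 : x * q = p * x := by rw [← h2, ← h1, Matrix.mul_assoc]
  have e2 : y * p = q * y := by rw [← h2, ← h1, Matrix.mul_assoc]
  refine ⟨p * x, q * y, ?_, ?_, ?_, ?_⟩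
  · rw [Matrix.mul_assoc, ← Matrix.mul_assoc x, e1, Matrix.mul_assoc p, h1, hp, hp]
  · rw [Matrix.mul_assoc, ← Matrix.mul_assoc y, e2, Matrix.mul_assoc q, h2, hq, hq]
  · rw [← Matrix.mul_assoc, hp]
  · rw [← Matrix.mul_assoc, hq]

/-- all relations between the two matrices of an equivalence -/
theorem IdEq.out {m : Type v} {n : Type w} [Fintype m] [Fintype n] {p : Matrix m m R}
    {q : Matrix n n R} (h : IdEq p q) : ∃ (x : Matrix m n R) (y : Matrix n m R),
      x * y = p ∧ y * x = q ∧ p * x = x ∧ x * q = x ∧ q * y = y ∧ y * p = y := by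
  obtain ⟨x, y, h1, h2, h3, h4⟩ := h
  refine ⟨x, y, h1, h2, h3, ?_, h4, ?_⟩
  · rw [← h2, ← Matrix.mul_assoc, h1, h3]
  · rw [← h1, ← Matrix.mul_assoc, h2, h4]

theorem IdEq.refl {m : Type v} [Fintype m] {p : Matrix m m R} (hp : p * p = p) : IdEq p p := by
  exact IdEq.mk' hp hp p p hp hp

theorem IdEq.symm {m : Type v} {n : Type w} [Fintype m] [Fintype n] {p : Matrix m m R}
    {q : Matrix n n R} (h : IdEq p q) : IdEq q p := by
  obtain ⟨x, y, h1, h2, h3, h4, h5, h6⟩ := h.out
  refine IdEq.mk' ?_ ?_ y x h2 h1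
  · rw [← h2, Matrix.mul_assoc, ← Matrix.mul_assoc x, h1, h3]
  · rw [← h1, Matrix.mul_assoc, ← Matrix.mul_assoc y, h2, h5]

theorem IdEq.left {m : Type v} {n : Type w} [Fintype m] [Fintype n] {p : Matrix m m R}
    {q : Matrix n n R} (h : IdEq p q) : p * p = p := by
  obtain ⟨x, y, h1, h2, h3, h4, h5, h6⟩ := h.out
  rw [← h1, Matrix.mul_assoc, ← Matrix.mul_assoc y, h2, h5]

theorem IdEq.trans {m : Type v} {n : Type w} {l : Type w'} [Fintype m] [Fintype n] [Fintype l]
    {p : Matrix m m R} {q : Matrix n n R} {t : Matrix l l R} (h : IdEq p q) (h' : IdEq q t) :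
    IdEq p t := by
  obtain ⟨x, y, h1, h2, h3, h4, h5, h6⟩ := h.out
  obtain ⟨x', y', h1', h2', h3', h4', h5', h6'⟩ := h'.out
  refine IdEq.mk' h.left h'.symm.left (x * x') (y' * y) ?_ ?_
  · rw [Matrix.mul_assoc, ← Matrix.mul_assoc x', h1', h5, h1]
  · rw [Matrix.mul_assoc, ← Matrix.mul_assoc y, h2, h3', h2']

private theorem idb_map_mul {S : Type u'} [Ring S] (f : R →ₙ+* S) {m : Type v} {n : Type w}
    {l : Type w'} [Fintype n] (x : Matrix m n R) (y : Matrix n l R) :
    (x * y).map f = x.map f * y.map f := by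
  ext i j
  simp [Matrix.mul_apply, map_sum]

theorem IdEq.map {S : Type u'} [Ring S] (f : R →ₙ+* S) {m : Type v} {n : Type w} [Fintype m]
    [Fintype n] {p : Matrix m m R} {q : Matrix n n R} (h : IdEq p q) :
    IdEq (p.map f) (q.map f) := by
  obtain ⟨x, y, h1, h2, h3, h4, h5, h6⟩ := h.out
  refine IdEq.mk' ?_ ?_ (x.map f) (y.map f) ?_ ?_
  · rw [← idb_map_mul, h.left]
  · rw [← idb_map_mul, h.symm.left]
  · rw [← idb_map_mul, h1]
  · rw [← idb_map_mul, h2]

theorem IdEq.reindex {m : Type v} {n : Type w} [Fintype m] [Fintype n] (e : m ≃ n)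
    {p : Matrix m m R} {q : Matrix n n R} (hp : p * p = p) (h : ∀ a b, q (e a) (e b) = p a b) :
    IdEq p q := by
  have hq : q = p.submatrix e.symm e.symm := by
    ext a b
    rw [Matrix.submatrix_apply, ← h, Equiv.apply_symm_apply, Equiv.apply_symm_apply]
  have hqq : q * q = q := by
    rw [hq, Matrix.submatrix_mul_equiv, hp]
  refine IdEq.mk' hp hqq (p.submatrix id e.symm) (p.submatrix e.symm id) ?_ ?_
  · rw [Matrix.submatrix_mul_equiv, hp]
    rfl
  · rw [hq]
    have := Matrix.submatrix_mul_equiv p p e.symm (Equiv.refl m) e.symm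
    rw [hp] at this
    exact this

theorem IdEq.bsum {m : Type v} {n : Type w} {m' : Type v'} {n' : Type w'} [Fintype m] [Fintype n]
    [Fintype m'] [Fintype n'] {p : Matrix m m R} {q : Matrix n n R} {p' : Matrix m' m' R}
    {q' : Matrix n' n' R} (h : IdEq p p') (h' : IdEq q q') : IdEq (bs p q) (bs p' q') := by
  obtain ⟨x, y, h1, h2, h3, h4, h5, h6⟩ := h.out
  obtain ⟨x', y', h1', h2', h3', h4', h5', h6'⟩ := h'.out
  refine ⟨Matrix.fromBlocks x 0 0 x', Matrix.fromBlocks y 0 0 y', ?_, ?_, ?_, ?_⟩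
  · unfold bs
    rw [Matrix.fromBlocks_multiply]
    simp [h1, h1']
  · unfold bs
    rw [Matrix.fromBlocks_multiply]
    simp [h2, h2']
  · unfold bs
    rw [Matrix.fromBlocks_multiply]
    simp [h3, h3']
  · unfold bs
    rw [Matrix.fromBlocks_multiply]
    simp [h5, h5']

theorem bs_idem {m : Type v} {n : Type w} [Fintype m] [Fintype n] {p : Matrix m m R}
    {q : Matrix n n R} (hp : p * p = p) (hq : q * q = q) : bs p q * bs p q = bs p q := by
  unfold bs
  rw [Matrix.fromBlocks_multiply]
  simp [hp, hq]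

theorem IdEq.bs_comm {m : Type v} {n : Type w} [Fintype m] [Fintype n] {p : Matrix m m R}
    {q : Matrix n n R} (hp : p * p = p) (hq : q * q = q) : IdEq (bs p q) (bs q p) := by
  refine IdEq.reindex (Equiv.sumComm m n) (bs_idem hp hq) fun a b => ?_
  rcases a with a | a <;> rcases b with b | b <;> rfl

theorem IdEq.bs_assoc {m : Type v} {n : Type w} {l : Type w'} [Fintype m] [Fintype n] [Fintype l]
    {p : Matrix m m R} {q : Matrix n n R} {t : Matrix l l R} (hp : p * p = p) (hq : q * q = q)
    (ht : t * t = t) : IdEq (bs (bs p q) t) (bs p (bs q t)) := by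
  refine IdEq.reindex (Equiv.sumAssoc m n l) (bs_idem (bs_idem hp hq) ht) fun a b => ?_
  rcases a with (a | a) | a <;> rcases b with (b | b) | b <;> rfl

theorem IdEq.bs_zero {m : Type v} [Fintype m] {p : Matrix m m R} (hp : p * p = p)
    (q : Matrix (Fin 0) (Fin 0) R) : IdEq (bs p q) p := by
  have hq : q * q = q := by
    ext a
    exact a.elim0
  refine IdEq.reindex (Equiv.sumEmpty m (Fin 0)) (bs_idem hp hq) fun a b => ?_
  rcases a with a | a
  · rcases b with b | b
    · rfl
    · exact b.elim0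
  · exact a.elim0

theorem wk_idem {r : R} (h : r * r = r) (k : ℕ) : wk r k * wk r k = wk r k := by
  unfold wk
  rw [Matrix.diagonal_mul_diagonal]
  simp [h]

/-- diagonal idempotents with the same entries -/
theorem IdEq.diag {m : Type v} {n : Type w} [Fintype m] [Fintype n] [DecidableEq m]
    [DecidableEq n] (d : m → R) (d' : n → R) (hd : ∀ a, d a * d a = d a) (e : m ≃ n)
    (h : ∀ a, d' (e a) = d a) : IdEq (Matrix.diagonal d) (Matrix.diagonal d') := by
  refine IdEq.reindex e ?_ fun a b => ?_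
  · rw [Matrix.diagonal_mul_diagonal]
    simp [hd]
  · by_cases hab : a = b
    · subst hab
      simp [h]
    · rw [Matrix.diagonal_apply_ne _ hab,
        Matrix.diagonal_apply_ne _ fun h' => hab (e.injective h')]

theorem bs_diag {m : Type v} {n : Type w} [DecidableEq m] [DecidableEq n] (d : m → R)
    (d' : n → R) : bs (Matrix.diagonal d) (Matrix.diagonal d') =
      Matrix.diagonal (Sum.elim d d') := by
  unfold bs
  rw [Matrix.fromBlocks_diagonal]

theorem IdEq.wk_add {r : R} (h : r * r = r) (k l : ℕ) :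
    IdEq (wk r (k + l)) (bs (wk r k) (wk r l)) := by
  unfold wk
  rw [bs_diag]
  refine IdEq.diag _ _ (fun _ => h) finSumFinEquiv.symm fun a => ?_
  rcases finSumFinEquiv.symm a with b | b <;> rfl

/-- flattening a matrix of matrices -/
def flat {m : Type v} {T : Type w} (p : Matrix m m (Matrix T T R)) : Matrix (m × T) (m × T) R :=
  fun a b => p a.1 b.1 a.2 b.2

private def flatR {T : Type w} {m : Type v} {n : Type v'} (p : Matrix m n (Matrix T T R)) :
    Matrix (m × T) (n × T) R := fun a b => p a.1 b.1 a.2 b.2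

private theorem flatR_mul {T : Type w} [Fintype T] {m : Type v} {n : Type v'} {l : Type w'}
    [Fintype n] (p : Matrix m n (Matrix T T R)) (q : Matrix n l (Matrix T T R)) :
    flatR (p * q) = flatR p * flatR q := by
  ext a b
  simp only [flatR, Matrix.mul_apply, Fintype.sum_prod_type]
  rw [Matrix.sum_apply]
  refine Finset.sum_congr rfl fun j _ => ?_
  rw [Matrix.mul_apply]

theorem IdEq.flatten {T : Type w} [Fintype T] [DecidableEq T] {m : Type v} {n : Type v'} [Fintype m]
    [Fintype n] {p : Matrix m m (Matrix T T R)} {q : Matrix n n (Matrix T T R)}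
    (h : IdEq p q) : IdEq (flat p) (flat q) := by
  obtain ⟨x, y, h1, h2, h3, h4, h5, h6⟩ := h.out
  refine ⟨flatR x, flatR y, ?_, ?_, ?_, ?_⟩
  · rw [← flatR_mul, h1]
    rfl
  · rw [← flatR_mul, h2]
    rfl
  · exact (flatR_mul p x).symm.trans (by rw [h3])
  · exact (flatR_mul q y).symm.trans (by rw [h5])

end

section
variable {K : Type u} [Field K] {V : Type} [Fintype V] [DecidableEq V] {A : V → V → ℕ}

theorem vs_idem (n : V → ℕ) : vs K A n * vs K A n = vs K A n := by
  unfold vs
  rw [Matrix.diagonal_mul_diagonal]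
  simp [vx_vx]

private theorem fib_equiv {α β L : Type*} [Fintype α] [Fintype β] [DecidableEq L] (f : α → L)
    (g : β → L) (h : ∀ c, Nat.card {a // f a = c} = Nat.card {b // g b = c}) :
    ∃ e : α ≃ β, ∀ a, g (e a) = f a := by
  classical
  refine ⟨Equiv.ofFiberEquiv (f := f) (g := g) fun c => Fintype.equivOfCardEq ?_, fun a => ?_⟩
  · rw [← Nat.card_eq_fintype_card, ← Nat.card_eq_fintype_card]
    exact h c
  · exact Equiv.ofFiberEquiv_map _ a

private theorem card_sig {V : Type*} [DecidableEq V] [Fintype V] (n : V → ℕ) (c : V) :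
    Nat.card {a : Σ x : V, Fin (n x) // a.1 = c} = n c := by
  rw [Nat.card_congr (Equiv.sigmaSubtype c)]
  simp

theorem vs_add (n m : V → ℕ) : IdEq (vs K A (n + m)) (bs (vs K A n) (vs K A m)) := by
  obtain ⟨e, he⟩ := fib_equiv (fun a : Σ x : V, Fin ((n + m) x) => a.1)
    (Sum.elim (fun a : Σ x : V, Fin (n x) => a.1) (fun a : Σ x : V, Fin (m x) => a.1)) (fun c => by
      rw [card_sig, Nat.card_congr Equiv.subtypeSum, Nat.card_sum]
      simp only [Sum.elim_inl, Sum.elim_inr]
      rw [card_sig, card_sig]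
      rfl)
  unfold vs
  rw [bs_diag]
  refine IdEq.diag _ _ (fun a => vx_vx a.1) e fun a => ?_
  rw [← he a]
  rcases e a with b | b <;> rfl

theorem vs_single (j : V) (k : ℕ) :
    IdEq (vs K A (Pi.single j k)) (wk (vx K (mGr A) j) k) := by
  have h1 : Function.Bijective
      (fun i : Fin k => (⟨j, Fin.cast (by simp) i⟩ : Σ x : V, Fin (Pi.single (M := fun _ => ℕ) j k x))) := by
    constructor
    · intro i i' h
      simpa using h
    · rintro ⟨x, i⟩
      by_cases hx : x = j
      · subst hx
        exact ⟨Fin.cast (by simp) i, by simp⟩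
      · have h0 : (Pi.single (M := fun _ => ℕ) j k) x = 0 := by simp [Pi.single_apply, hx]
        have := i.isLt
        omega
  unfold vs wk
  refine IdEq.symm (IdEq.diag _ _ (fun _ => vx_vx j) (Equiv.ofBijective _ h1) fun a => rfl)

theorem vs_zero : IdEq (vs K A 0) (wk (0 : LM K A) 0) := by
  have h1 : IsEmpty (Σ x : V, Fin ((0 : V → ℕ) x)) := ⟨fun a => a.2.elim0⟩
  unfold vs wk
  exact IdEq.diag _ _ (fun a => (h1.false a).elim) (Equiv.equivOfIsEmpty _ _)
    fun a => (h1.false a).elim

private theorem idEq_blockDiagonal {R : Type*} [Ring R] {o : Type*} [Fintype o] [DecidableEq o]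
    {m : o → Type*} {n : o → Type*} [∀ i, Fintype (m i)] [∀ i, Fintype (n i)]
    (p : ∀ i, Matrix (m i) (m i) R) (q : ∀ i, Matrix (n i) (n i) R) (h : ∀ i, IdEq (p i) (q i)) :
    IdEq (Matrix.blockDiagonal' p) (Matrix.blockDiagonal' q) := by
  choose x y h1 h2 h3 h4 h5 h6 using fun i => (h i).out
  refine ⟨Matrix.blockDiagonal' x, Matrix.blockDiagonal' y, ?_, ?_, ?_, ?_⟩
  · rw [← Matrix.blockDiagonal'_mul]
    congr 1
    funext i
    exact h1 i
  · rw [← Matrix.blockDiagonal'_mul]
    congr 1
    funext i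
    exact h2 i
  · rw [← Matrix.blockDiagonal'_mul]
    congr 1
    funext i
    exact h3 i
  · rw [← Matrix.blockDiagonal'_mul]
    congr 1
    funext i
    exact h5 i

/-- a block diagonal sum of idempotents equivalent to vertex sums -/
theorem vs_block {V' : Type} [Fintype V'] [DecidableEq V']
    {A' : V' → V' → ℕ} {K' : Type v} [Field K'] {T : Type} [Fintype T] [DecidableEq T]
    (q : V → Matrix T T (LM K' A')) (S : V → V' → ℕ) (h : ∀ x, IdEq (q x) (vs K' A' (S x)))
    (n : V → ℕ) :
    IdEq (flat (Matrix.diagonal fun a : (Σ x : V, Fin (n x)) => q a.1))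
      (vs K' A' (fun k => ∑ x, n x * S x k)) := by
  -- to a block diagonal matrix
  have h1 : IdEq (Matrix.blockDiagonal' fun a : Σ x : V, Fin (n x) => q a.1)
      (Matrix.blockDiagonal' fun a : Σ x : V, Fin (n x) => vs K' A' (S a.1)) :=
    idEq_blockDiagonal _ _ fun a => h a.1
  have h2 : IdEq (flat (Matrix.diagonal fun a : (Σ x : V, Fin (n x)) => q a.1))
      (Matrix.blockDiagonal' fun a : Σ x : V, Fin (n x) => q a.1) := by
    refine IdEq.symm (IdEq.reindex (Equiv.sigmaEquivProd _ _) h1.left fun a b => ?_)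
    obtain ⟨a, s⟩ := a
    obtain ⟨b, t⟩ := b
    change Matrix.diagonal (fun a : (Σ x : V, Fin (n x)) => q a.1) a b s t = _
    by_cases hab : a = b
    · subst hab
      rw [Matrix.diagonal_apply_eq, Matrix.blockDiagonal'_apply_eq]
    · rw [Matrix.diagonal_apply_ne _ hab, Matrix.blockDiagonal'_apply_ne _ _ _ hab]
      rfl
  refine h2.trans (h1.trans ?_)
  unfold vs
  rw [Matrix.blockDiagonal'_diagonal]
  obtain ⟨e, he⟩ := fib_equiv
    (fun b : (Σ a : (Σ x : V, Fin (n x)), Σ k : V', Fin (S a.1 k)) => b.2.1)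
    (fun a : Σ k : V', Fin (∑ x, n x * S x k) => a.1) (fun c => by
      rw [card_sig, Nat.card_eq_fintype_card, Fintype.card_subtype, Finset.card_filter,
        Fintype.sum_sigma]
      have h5 : ∀ a : (Σ x : V, Fin (n x)), (∑ y : (Σ k : V', Fin (S a.1 k)),
          if y.1 = c then 1 else 0) = S a.1 c := by
        intro a
        rw [Fintype.sum_sigma]
        have h6 : ∀ k : V', (∑ y : Fin (S a.1 k), if k = c then 1 else 0) =
            if k = c then S a.1 k else 0 := by
          intro k
          split_ifs <;> simp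
        simp only [h6]
        simp
      simp only [h5]
      rw [Fintype.sum_sigma]
      simp)
  refine IdEq.diag _ _ (fun a => vx_vx a.2.1) e fun a => ?_
  rw [he a]

end

end Pool.Agent.Work.MP_2b4d3b_al
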