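import Pool.Agent.Work.MP_2b4d3b_al.CorB
import Pool.Agent.Work.MP_2b4d3b_al.IdB

/-!
MODULE Cor. The algebra of srcM A b as a corner of a matrix ring over LM K A.
Case b = 0: T = Unit, Θ and ι from the ring isomorphism. Case b ≠ 0, X = LM K (srcM A b) (transport
along X ≃+*): T = Option (Σ x, Fin (b x)). Θ : LM K (srcM A b) → Matrix T T (LM K A) is the lift of:
vx (some x) ↦ E_00 (vx x), vx none ↦ the diagonal matrix with entries vx x at some ⟨x, i⟩ and 0 at none,
edges some x → some y ↦ E_00 (ed), the i-th edge none → some x ↦ E_{some ⟨x,i⟩, none} (vx x), ghosts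
transposed. As Fam.one fails (Θ 1 is an idempotent), use the lift into the corner ring or a
(K-algebra) family in the unital ring of the idempotent matrix ε = Θ 1 (e.g. the subtype of
matrices with ε M ε = M, or Mathlib's IsIdempotentElem.Corner), or define Θ on X → Matrix by
adding the complementary idempotent as an extra block. ι : LM K A → X, vx x ↦ vx (some x), etc.
(non unital, same remark; alternatively ι a = r * (Θ-preimage)...).
h1: Θ (ι (vx x)) = E_00 (vx x). h2: 1 = ∑ over x of vx (some x) + ∑ over source edges s s*: with the row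
r = (1 - vx none at 0, the source edges) and column its ghost transpose, r c = 1 and
ι (Θ p)_{st} = c_s p r_t. h3: Θ 1 is diagonal with entries 1 = ∑ vx x at none and vx x at ⟨x, i⟩.
h4: exists_WD for A resp. srcM A b at j = x resp. some x: the corner is R; DivC p says that the
corner of p is a division ring; A x x = 0 iff IsField R.
-/

set_option linter.unusedVariables false
set_option linter.style.longLine false

namespace Pool.Agent.Work.MP_2b4d3b_al

open Matrix

universe u v w u' v' w'

/-- all nonzero elements of the corner p X p are right invertible -/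
def DivC {X : Type u} [Ring X] (p : X) : Prop := ∀ a, p * a * p = a → a ≠ 0 → ∃ b, p * b * p = b ∧ a * b = p

structure Cor (K : Type u) [Field K] (X : Type u') [Ring X] {V : Type} [Fintype V] [DecidableEq V]
    (A : V → V → ℕ) (b : V → ℕ) where
  T : Type
  fT : Fintype T
  dT : DecidableEq T
  Θ : X →ₙ+* Matrix T T (LM K A)
  ι : LM K A →ₙ+* X
  h1 : ∀ x, IdEq (Θ (ι (vx K (mGr A) x))) (vs K A (Pi.single x 1))
  h2 : ∀ p : X, p * p = p → IdEq ((Θ p).map ι) (Matrix.of fun (_ _ : Unit) => p)
  h3 : IdEq (Θ 1) (vs K A (1 + b))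
  h4 : ∀ x, (∀ y, y ≠ x → A x y = 0) → A x x ≤ 1 → (DivC (ι (vx K (mGr A) x)) ↔ A x x = 0)

namespace CO2

variable {K : Type u} [Field K] {V : Type} [Fintype V] [DecidableEq V] {A : V → V → ℕ}
  {b : V → ℕ}

/-- transport along a ring isomorphism -/
theorem cor_trans {X : Type u'} {Y : Type v'} [Ring X] [Ring Y] (f : X ≃+* Y)
    (h : Nonempty (Cor K Y A b)) : Nonempty (Cor K X A b) := by
  obtain ⟨C⟩ := h
  let _ := C.fT
  let _ := C.dT
  let fn : X →ₙ+* Y := (f : X →+* Y)
  let gn : Y →ₙ+* X := (f.symm : Y →+* X)
  have fg : ∀ y, fn (gn y) = y := fun y => f.apply_symm_apply y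
  have gf : ∀ x, gn (fn x) = x := fun x => f.symm_apply_apply x
  refine ⟨{ T := C.T, fT := C.fT, dT := C.dT, Θ := C.Θ.comp fn, ι := gn.comp C.ι, h1 := ?_, h2 := ?_,
            h3 := ?_, h4 := ?_ }⟩
  · intro x
    change IdEq (C.Θ (fn (gn (C.ι _)))) _
    rw [fg]
    exact C.h1 x
  · intro p hp
    have h := (C.h2 (fn p) (by rw [← map_mul, hp])).map gn
    have e2 : (Matrix.of fun (_ _ : Unit) => fn p).map gn = Matrix.of fun (_ _ : Unit) => p := by
      ext i j
      exact gf p
    rw [e2] at h
    exact h
  · change IdEq (C.Θ (f 1)) _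
    rw [map_one]
    exact C.h3
  · intro x h1 h2
    rw [← C.h4 x h1 h2]
    constructor
    · intro h
      have := divC_map f _ h
      change DivC' (f (f.symm (C.ι _))) at this
      rw [RingEquiv.apply_symm_apply] at this
      exact this
    · intro h
      exact divC_map f.symm _ h

theorem vs_one_unit : IdEq (vs K A 1) (1 : Matrix Unit Unit (LM K A)) := by
  refine IdEq.mk' (vs_idem _) (one_mul 1) (Matrix.of fun a _ => vx K _ a.1)
    (Matrix.of fun _ a => vx K _ a.1) ?_ ?_
  · ext a c
    obtain ⟨x, i⟩ := a
    obtain ⟨y, k⟩ := c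
    rw [Matrix.mul_apply]
    simp only [Matrix.of_apply, Finset.univ_unique, Finset.sum_const, Finset.card_singleton,
      one_smul, vs, diagonal_apply]
    by_cases h : x = y
    · subst h
      have : i = k := Fin.ext (by
        have h1 : (i : ℕ) < 1 := i.2
        have h2 : (k : ℕ) < 1 := k.2
        omega)
      subst this
      rw [if_pos rfl, vx_vx]
    · rw [if_neg (fun hh => h (congrArg Sigma.fst hh)), vx_ne h]
  · ext a c
    rw [Matrix.mul_apply, Fintype.sum_sigma]
    simp only [Matrix.of_apply, vx_vx]
    have e1 : ∀ x : V, ∑ y : Fin ((1 : V → ℕ) x), vx K (mGr A) x = vx K (mGr A) x := by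
      intro x
      rw [Finset.sum_const, Finset.card_univ, Fintype.card_fin]
      exact one_smul ℕ _
    rw [Finset.sum_congr rfl fun x _ => e1 x,
      ← one_sum (K := K) (G := mGr A) Finset.univ (fun x => Finset.mem_univ _)]
    rfl

theorem vs_one_single (x : V) (T : Type) [Fintype T] [DecidableEq T] (t : T) :
    IdEq (single t t (vx K (mGr A) x)) (vs K A (Pi.single x 1)) := by
  refine IdEq.trans ?_ (vs_single x 1).symm
  refine IdEq.mk' (by rw [ss, vx_vx]) (wk_idem (vx_vx x) 1) (single t 0 (vx K (mGr A) x))
    (single 0 t (vx K (mGr A) x)) ?_ ?_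
  · rw [single_mul_single_same, vx_vx]
  · rw [single_mul_single_same, vx_vx]
    ext i j
    obtain rfl : i = 0 := Subsingleton.elim _ _
    obtain rfl : j = 0 := Subsingleton.elim _ _
    simp [wk]

/-- no source -/
theorem cor_zero : Nonempty (Cor K (LM K A) A 0) := by
  let Θ : LM K A →ₙ+* Matrix Unit Unit (LM K A) :=
    { toFun := fun a => Matrix.of fun _ _ => a
      map_mul' := fun a c => by ext i j; simp [Matrix.mul_apply]
      map_zero' := by ext i j; rfl
      map_add' := fun a c => by ext i j; rfl }
  have hid : ∀ a, (NonUnitalRingHom.id (LM K A)) a = a := fun _ => rfl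
  refine ⟨{ T := Unit, fT := inferInstance, dT := inferInstance, Θ := Θ,
            ι := NonUnitalRingHom.id _, h1 := ?_, h2 := ?_, h3 := ?_, h4 := ?_ }⟩
  · intro x
    have e1 : Θ (NonUnitalRingHom.id (LM K A) (vx K (mGr A) x)) =
        single () () (vx K (mGr A) x) := by
      ext i j
      change vx K (mGr A) x = _
      simp
    rw [e1]
    exact vs_one_single x Unit ()
  · intro p hp
    have e1 : (Θ p).map (NonUnitalRingHom.id (LM K A)) = Matrix.of fun (_ _ : Unit) => p := rfl
    rw [e1]
    apply IdEq.refl
    ext i j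
    simp [Matrix.mul_apply, hp]
  · have e1 : Θ 1 = 1 := by
      ext i j
      change (1 : LM K A) = _
      simp
    rw [e1, add_zero]
    exact vs_one_unit.symm
  · intro x h1 h2
    obtain ⟨R, _, _, _, X, D, hD, hR⟩ := exists_WD K A x h1 h2
    change DivC' (vx K (mGr A) x) ↔ _
    rw [← hD, divC_iff D, hR]

theorem cor_src (p0 : Σ x : V, Fin (b x)) :
    Nonempty (Cor K (LPA K (srcG (mGr A) (fun t : (Σ x : V, Fin (b x)) => t.1))) A b) := by
  set q : (Σ x : V, Fin (b x)) → V := fun t => t.1 with hq
  obtain ⟨Θ, h1, h2, h3, h4, h5⟩ := exists_theta (K := K) (mGr A) q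
  obtain ⟨ι, g1, g2, g3, g5⟩ := exists_iota (K := K) (mGr A) q
  have key := theta_iota (mGr A) q Θ h1 h2 h3 h5 ι g1 g2 g3 g5 p0
  refine ⟨{ T := Option (Σ x : V, Fin (b x)), fT := inferInstance, dT := inferInstance, Θ := Θ,
            ι := ι, h1 := ?_, h2 := ?_, h3 := ?_, h4 := ?_ }⟩
  · intro x
    rw [g1, h1]
    exact vs_one_single x _ none
  · intro p hp
    have hp' : (Matrix.of fun (_ _ : Unit) => p) * (Matrix.of fun (_ _ : Unit) => p) =
        Matrix.of fun (_ _ : Unit) => p := by
      ext i j
      simp [Matrix.mul_apply, hp]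
    have hθ : (Θ p).map ι * (Θ p).map ι = (Θ p).map ι := by
      rw [← Matrix.map_mul, ← map_mul, hp]
    refine IdEq.mk' hθ hp' (Matrix.of fun t _ => cc (mGr A) q t * p)
      (Matrix.of fun _ t => p * rr (mGr A) q t) ?_ ?_
    · ext s t
      rw [Matrix.mul_apply]
      simp only [Matrix.of_apply, Finset.univ_unique, Finset.sum_const, Finset.card_singleton,
        one_smul, Matrix.map_apply]
      rw [key]
      rw [mul_assoc, ← mul_assoc p, hp, ← mul_assoc]
    · ext s t
      rw [Matrix.mul_apply]
      simp only [Matrix.of_apply]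
      have e1 : ∀ u, p * rr (K := K) (mGr A) q u * (cc (mGr A) q u * p) =
          p * (rr (mGr A) q u * cc (mGr A) q u) * p := fun u => by simp only [mul_assoc]
      rw [Finset.sum_congr rfl fun u _ => e1 u, ← Finset.sum_mul, ← Finset.mul_sum, r_c _ q p0,
        mul_one, hp]
  · refine IdEq.symm ((vs_add 1 b).trans ?_)
    refine (IdEq.bsum vs_one_unit (IdEq.refl (vs_idem b))).trans ?_
    refine IdEq.reindex ⟨fun s => Sum.elim (fun _ => none) (fun p => some p) s,
      fun t => t.elim (Sum.inl ()) Sum.inr, ?_, ?_⟩ (bs_idem (one_mul 1) (vs_idem b)) ?_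
    · rintro (_ | p) <;> rfl
    · rintro (_ | p) <;> rfl
    · rw [h4]
      rintro (s | s) (t | t)
      · simp [bs]
      · simp [bs]
      · simp [bs]
      · simp [bs, vs, diagonal_apply, hq]
  · intro x e1 e2
    rw [g1]
    change DivC' _ ↔ _
    have hs : ∀ e, (srcG (mGr A) q).s e = some x → (srcG (mGr A) q).r e = some x := by
      rintro (e | p) he
      · have he' : (mGr A).s e = x := Option.some_injective _ he
        change some ((mGr A).r e) = _
        rw [mGr_loop e1 e he']
      · simp [srcG] at he
    by_cases h0 : A x x = 0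
    · obtain ⟨D, hD⟩ := WS.build0 (G := srcG (mGr A) q) (j := some x) K (by
        rintro (e | p) he
        · have he' : (mGr A).s e = x := Option.some_injective _ he
          have hr' := mGr_loop e1 e he'
          obtain ⟨y, z, k⟩ := e
          change y = x at he'
          change z = x at hr'
          subst he' hr'
          have := k.2
          omega
        · simp [srcG] at he)
      rw [← hD, divC_iff D]
      exact ⟨fun _ => h0, fun _ => Field.toIsField K⟩
    · have h1' : A x x = 1 := by omega
      have h0' : 0 < A x x := by omega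
      obtain ⟨D, hD⟩ := WS.build1 (G := srcG (mGr A) q) (j := some x) K hs (by
        rintro (e | p) (f | p') he hf
        · have he' : (mGr A).s e = x := Option.some_injective _ he
          have hr' := mGr_loop e1 e he'
          have hf' : (mGr A).s f = x := Option.some_injective _ hf
          have hr2 := mGr_loop e1 f hf'
          obtain ⟨y, z, k⟩ := e
          obtain ⟨y', z', k'⟩ := f
          change y = x at he'
          change z = x at hr'
          change y' = x at hf'
          change z' = x at hr2
          subst he' hr' hf' hr2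
          have : k = k' := by
            apply Fin.ext
            have a1 := k.2
            have a2 := k'.2
            omega
          rw [this]
        · simp [srcG] at hf
        · simp [srcG] at he
        · simp [srcG] at he) (Sum.inl ⟨x, x, ⟨0, h0'⟩⟩) rfl
      have := WS.lau_domain K
      rw [← hD, divC_iff D]
      exact ⟨fun h => absurd h (WS.lau_not_field K), fun h => absurd h h0⟩

end CO2

theorem exists_cor {K : Type u} [Field K] {X : Type u'} [Ring X] {V : Type} [Fintype V]
    [DecidableEq V] {A : V → V → ℕ} {b : V → ℕ} (h : HasR K X A b) : Nonempty (Cor K X A b) := by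
  rcases h with ⟨rfl, ⟨f⟩⟩ | ⟨hb, ⟨f⟩⟩
  · exact CO2.cor_trans f CO2.cor_zero
  · obtain ⟨x, hx⟩ := Function.ne_iff.1 hb
    have hx' : 0 < b x := Nat.pos_of_ne_zero hx
    obtain ⟨g⟩ := CO2.srcIso K A b
    exact CO2.cor_trans (f.trans g) (CO2.cor_src ⟨x, ⟨0, hx'⟩⟩)

end Pool.Agent.Work.MP_2b4d3b_al
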