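import Pool.Agent.Work.MP_2b4d3b_al.SFam

/-!
MODULE Perm. Graph isomorphisms give isomorphisms of the algebras commuting with star.
graphIso: families p x = vx (a x), a e = ed (b e), b e = gh (b e) both ways, SI.mk'.
(ck: transport the Finset S with S.map b; note hs. one: T.map a.)
perm: edges Sigma x y Fin (A x y) are matched by casting Fin (use Equiv.sigmaCongr, finCongr).
toMat: the edges with given source and range are in bijection with Fin of their number
(Fintype.equivFin), use graphIso with a = refl.
-/

set_option linter.unusedVariables false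
set_option linter.style.longLine false

namespace Pool.Agent.Work.MP_2b4d3b_al

open Matrix

universe u v w u' v' w'

section
variable {K : Type u} [Field K] [StarRing K]

private noncomputable def perm_fam {V : Type v} {E : Type w} {V' : Type v'} {E' : Type w'} {G : Gr V E}
    {G' : Gr V' E'} (a : V ≃ V') (b : E ≃ E') (hs : ∀ e, G'.s (b e) = a (G.s e))
    (hr : ∀ e, G'.r (b e) = a (G.r e)) : Fam K G (LPA K G') :=
  sFam (fun x => vx K G' (a x)) (fun e => ed K G' (b e)) (fun x => star_vx _)
    (fun x => vx_vx _) (fun x y h => vx_ne (a.injective.ne h))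
    (fun e => by rw [← hs]; exact s_ed _) (fun e => by rw [← hr]; exact ed_r _)
    (fun e => by rw [star_ed, gh_ed, hr])
    (fun e f h => by rw [star_ed]; exact gh_ed_ne (b.injective.ne h))
    (fun x S h hne => by
      have h1 : ∀ e', e' ∈ S.map b.toEmbedding ↔ G'.s e' = a x := by
        intro e'
        obtain ⟨e, rfl⟩ := b.surjective e'
        rw [Finset.mem_map_equiv, Equiv.symm_apply_apply, h, hs]
        exact ⟨fun h => by rw [h], fun h => a.injective h⟩
      have h2 := ck_sum (K := K) (a x) (S.map b.toEmbedding) h1 (hne.map)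
      rw [h2, Finset.sum_map]
      refine Finset.sum_congr rfl fun e _ => ?_
      rw [star_ed]; rfl)
    (fun T h => by
      have h1 : ∀ x', x' ∈ T.map a.toEmbedding := by
        intro x'
        obtain ⟨x, rfl⟩ := a.surjective x'
        rw [Finset.mem_map_equiv, Equiv.symm_apply_apply]
        exact h x
      have h2 := one_sum (K := K) (G := G') (T.map a.toEmbedding) h1
      rw [h2, Finset.sum_map]
      rfl)

theorem SI.graphIso {V : Type v} {E : Type w} {V' : Type v'} {E' : Type w'} {G : Gr V E}
    {G' : Gr V' E'} (a : V ≃ V') (b : E ≃ E') (hs : ∀ e, G'.s (b e) = a (G.s e))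
    (hr : ∀ e, G'.r (b e) = a (G.r e)) : SI K (LPA K G) (LPA K G') := by
  have hs' : ∀ e', G.s (b.symm e') = a.symm (G'.s e') := by
    intro e'
    obtain ⟨e, rfl⟩ := b.surjective e'
    rw [hs, Equiv.symm_apply_apply, Equiv.symm_apply_apply]
  have hr' : ∀ e', G.r (b.symm e') = a.symm (G'.r e') := by
    intro e'
    obtain ⟨e, rfl⟩ := b.surjective e'
    rw [hr, Equiv.symm_apply_apply, Equiv.symm_apply_apply]
  refine SI.ofFam (perm_fam a b hs hr) (perm_fam a.symm b.symm hs' hr') (fun x => star_vx _)
    (fun e => rfl) (fun x => star_vx _) (fun e => rfl) ?_ ?_ ?_ ?_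
  · intro x
    show (perm_fam a.symm b.symm hs' hr').lift (vx K G' (a x)) = _
    rw [Fam.lift_vx]
    show vx K G (a.symm (a x)) = _
    rw [Equiv.symm_apply_apply]
  · intro x
    show (perm_fam a.symm b.symm hs' hr').lift (ed K G' (b x)) = _
    rw [Fam.lift_ed]
    show ed K G (b.symm (b x)) = _
    rw [Equiv.symm_apply_apply]
  · intro x
    show (perm_fam a b hs hr).lift (vx K G (a.symm x)) = _
    rw [Fam.lift_vx]
    show vx K G' (a (a.symm x)) = _
    rw [Equiv.apply_symm_apply]
  · intro x
    show (perm_fam a b hs hr).lift (ed K G (b.symm x)) = _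
    rw [Fam.lift_ed]
    show ed K G' (b (b.symm x)) = _
    rw [Equiv.apply_symm_apply]

theorem SI.perm {V : Type v} {V' : Type v'} {A : V → V → ℕ} {A' : V' → V' → ℕ} (a : V ≃ V')
    (h : ∀ x y, A x y = A' (a x) (a y)) : SI K (LM K A) (LM K A') :=
  SI.graphIso a (Equiv.sigmaCongr a fun x => Equiv.sigmaCongr a fun y => finCongr (h x y))
    (fun e => rfl) (fun e => rfl)

theorem SI.toMat {V : Type v} {E : Type w} (G : Gr V E) (A : V → V → ℕ)
    (hA : ∀ x y, Nonempty ({e : E // G.s e = x ∧ G.r e = y} ≃ Fin (A x y))) :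
    SI K (LPA K G) (LM K A) := by
  let F := fun x y => Classical.choice (hA x y)
  let e0 : E ≃ Σ x y : V, {e : E // G.s e = x ∧ G.r e = y} :=
    { toFun := fun e => ⟨G.s e, G.r e, ⟨e, rfl, rfl⟩⟩
      invFun := fun z => z.2.2.1
      left_inv := fun e => rfl
      right_inv := by
        rintro ⟨x, y, ⟨e, rfl, rfl⟩⟩
        rfl }
  let e1 : E ≃ Σ x y : V, Fin (A x y) :=
    e0.trans (Equiv.sigmaCongrRight fun x => Equiv.sigmaCongrRight fun y => F x y)
  exact SI.graphIso (Equiv.refl V) e1 (fun e => rfl) (fun e => rfl)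

end

end Pool.Agent.Work.MP_2b4d3b_al
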