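import Pool.Agent.Work.MP_2b4d3b_al.WStruct
import Pool.Agent.Work.MP_2b4d3b_al.Perm

/-!
Part of MODULE Cor (helper21): non unital lifts, graphs with a source.
-/

set_option linter.unusedVariables false
set_option linter.style.longLine false

namespace Pool.Agent.Work.MP_2b4d3b_al

open Matrix

universe u v w u' v' w'

namespace CO2

theorem nlift {K : Type u} [Field K] {V E : Type} [Fintype V] {G : Gr V E} {A : Type u'} [Ring A]
    [Algebra K A] (p : V → A) (a b : E → A) (vv : ∀ x, p x * p x = p x)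
    (vw : ∀ x y, x ≠ y → p x * p y = 0) (se : ∀ e, p (G.s e) * a e = a e)
    (er : ∀ e, a e * p (G.r e) = a e) (rg : ∀ e, p (G.r e) * b e = b e)
    (gs : ∀ e, b e * p (G.s e) = b e) (ge : ∀ e, b e * a e = p (G.r e))
    (gf : ∀ e f, e ≠ f → b e * a f = 0)
    (ck : ∀ (x : V) (S : Finset E), (∀ e, e ∈ S ↔ G.s e = x) → S.Nonempty →
      p x = ∑ e ∈ S, a e * b e) :
    ∃ φ : LPA K G →ₙ+* A, (∀ x, φ (vx K G x) = p x) ∧ (∀ e, φ (ed K G e) = a e) ∧
      (∀ e, φ (gh K G e) = b e) ∧ φ 1 = ∑ x, p x ∧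
      ∀ (k : K) y, φ (algebraMap K _ k * y) = algebraMap K _ k * φ y := by
  classical
  set ε := ∑ x, p x with hε
  have εp : ∀ x, ε * p x = p x := by
    intro x
    rw [hε, Finset.sum_mul, Finset.sum_eq_single_of_mem x (Finset.mem_univ _), vv]
    intro y _ hy
    exact vw _ _ hy
  have pε : ∀ x, p x * ε = p x := by
    intro x
    rw [hε, Finset.mul_sum, Finset.sum_eq_single_of_mem x (Finset.mem_univ _), vv]
    intro y _ hy
    exact vw _ _ (Ne.symm hy)
  have εa : ∀ e, ε * a e = a e := fun e => by rw [← se, ← mul_assoc, εp]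
  have aε : ∀ e, a e * ε = a e := fun e => by
    conv_lhs => rw [← er]
    rw [mul_assoc, pε, er]
  have εb : ∀ e, ε * b e = b e := fun e => by rw [← rg, ← mul_assoc, εp]
  have bε : ∀ e, b e * ε = b e := fun e => by
    conv_lhs => rw [← gs]
    rw [mul_assoc, pε, gs]
  have εε : ε * ε = ε := by
    conv_lhs => rw [hε, Finset.sum_mul]
    exact Finset.sum_congr rfl fun x _ => pε x
  have idem : IsIdempotentElem ε := εε
  have cm : ∀ k : K, algebraMap K A k * ε = ε * algebraMap K A k := fun k => Algebra.commutes k ε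
  let vh : idem.Corner →ₙ+* A :=
    { toFun := Subtype.val
      map_mul' := fun _ _ => rfl
      map_zero' := rfl
      map_add' := fun _ _ => rfl }
  have vhi : Function.Injective vh := Subtype.val_injective
  let mk : ∀ x : A, ε * x = x → x * ε = x → idem.Corner := fun x h1 h2 =>
    ⟨x, (Subsemigroup.mem_corner_iff idem).2 ⟨h1, h2⟩⟩
  have v1 : vh 1 = ε := rfl
  have k1 : ∀ k : K, ε * (algebraMap K A k * ε) = algebraMap K A k * ε := fun k => by
    rw [cm, ← mul_assoc, εε]
  have k2 : ∀ k : K, (algebraMap K A k * ε) * ε = algebraMap K A k * ε := fun k => by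
    rw [mul_assoc, εε]
  let am : K →+* idem.Corner :=
    { toFun := fun k => mk (algebraMap K A k * ε) (k1 k) (k2 k)
      map_one' := vhi (show algebraMap K A 1 * ε = ε by rw [map_one, one_mul])
      map_mul' := fun x y => vhi (show algebraMap K A (x * y) * ε =
          (algebraMap K A x * ε) * (algebraMap K A y * ε) by
        rw [mul_assoc (algebraMap K A x), k1, map_mul, mul_assoc])
      map_zero' := vhi (show algebraMap K A 0 * ε = 0 by rw [map_zero, zero_mul])
      map_add' := fun x y => vhi (show algebraMap K A (x + y) * ε =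
          (algebraMap K A x * ε) + (algebraMap K A y * ε) by
        rw [map_add, add_mul]) }
  let alg : Algebra K idem.Corner := am.toAlgebra' (by
    intro k x
    apply vhi
    change (algebraMap K A k * ε) * x.1 = x.1 * (algebraMap K A k * ε)
    have hx := (Subsemigroup.mem_corner_iff idem).1 x.2
    rw [mul_assoc, hx.1, ← mul_assoc, ← Algebra.commutes, mul_assoc, hx.2])
  let F : Fam K G idem.Corner :=
    { p := fun x => mk (p x) (εp x) (pε x)
      a := fun e => mk (a e) (εa e) (aε e)
      b := fun e => mk (b e) (εb e) (bε e)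
      vv := fun x => vhi (vv x)
      vw := fun x y h => vhi (vw x y h)
      se := fun e => vhi (se e)
      er := fun e => vhi (er e)
      rg := fun e => vhi (rg e)
      gs := fun e => vhi (gs e)
      ge := fun e => vhi (ge e)
      gf := fun e f h => vhi (gf e f h)
      ck := fun x S h1 h2 => vhi (by
        rw [map_sum]
        exact ck x S h1 h2)
      one := fun T hT => vhi (by
        rw [map_sum]
        have : T = Finset.univ := Finset.eq_univ_iff_forall.2 hT
        rw [this]
        rfl) }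
  refine ⟨vh.comp (F.lift : LPA K G →ₙ+* idem.Corner), ?_, ?_, ?_, ?_, ?_⟩
  · intro x
    change vh (F.lift (vx K G x)) = _
    rw [Fam.lift_vx]
    rfl
  · intro x
    change vh (F.lift (ed K G x)) = _
    rw [Fam.lift_ed]
    rfl
  · intro x
    change vh (F.lift (gh K G x)) = _
    rw [Fam.lift_gh]
    rfl
  · change vh (F.lift 1) = _
    rw [map_one, v1]
  · intro k y
    change vh (F.lift (algebraMap K _ k * y)) = _ * vh (F.lift y)
    rw [map_mul, AlgHom.commutes, map_mul]
    change (algebraMap K A k * ε) * (F.lift y).1 = _ * (F.lift y).1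
    have hx := (Subsemigroup.mem_corner_iff idem).1 (F.lift y).2
    rw [mul_assoc, hx.1]

/-- DivC and the structure data -/
def DivC' {X : Type u} [Ring X] (p : X) : Prop :=
  ∀ a, p * a * p = a → a ≠ 0 → ∃ b, p * b * p = b ∧ a * b = p

theorem divC_iff {A : Type u} [Ring A] {R : Type v} [CommRing R] [IsDomain R] {X : Type w}
    (D : WD A R X) : DivC' D.w ↔ IsField R := by
  have wi : ∀ r, D.w * D.i r * D.w = D.i r := fun r => by
    rw [← D.i_one, ← D.i_mul, ← D.i_mul, one_mul, mul_one]
  constructor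
  · intro h
    refine ⟨exists_pair_ne R, mul_comm, ?_⟩
    intro r hr
    obtain ⟨b, hb1, hb2⟩ := h (D.i r) (wi r) (fun h0 => hr (D.inj (by rw [h0, D.i_zero])))
    obtain ⟨s, hs⟩ := D.surj b
    rw [hb1] at hs
    refine ⟨s, D.inj ?_⟩
    rw [D.i_mul, ← hs, hb2, D.i_one]
  · intro h a ha1 ha2
    obtain ⟨r, hr⟩ := D.surj a
    rw [ha1] at hr
    obtain ⟨s, hs⟩ := h.mul_inv_cancel (a := r) (fun h0 => ha2 (by rw [hr, h0, D.i_zero]))
    refine ⟨D.i s, wi s, ?_⟩
    rw [hr, ← D.i_mul, hs, D.i_one]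

theorem divC_map {X : Type u} {Y : Type v} [Ring X] [Ring Y] (f : X ≃+* Y) (p : X)
    (h : DivC' p) : DivC' (f p) := by
  intro a ha1 ha2
  obtain ⟨b, hb1, hb2⟩ := h (f.symm a) (by
    apply f.injective
    rw [map_mul, map_mul, RingEquiv.apply_symm_apply, ha1]) (by
    intro h0
    apply ha2
    rw [← f.apply_symm_apply a, h0, map_zero])
  refine ⟨f b, by rw [← map_mul, ← map_mul, hb1], ?_⟩
  rw [← hb2, map_mul, RingEquiv.apply_symm_apply]

/-- a graph with an additional source none emitting the edges P -/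
def srcG {V E P : Type} (G : Gr V E) (q : P → V) : Gr (Option V) (E ⊕ P) where
  s := Sum.elim (fun e => some (G.s e)) (fun _ => none)
  r := Sum.elim (fun e => some (G.r e)) (fun p => some (q p))

def srcEquiv {V : Type} (A : V → V → ℕ) (b : V → ℕ) :
    (Σ x y : Option V, Fin (srcM A b x y)) ≃ (Σ x y : V, Fin (A x y)) ⊕ (Σ x : V, Fin (b x)) where
  toFun
    | ⟨some x, some y, k⟩ => Sum.inl ⟨x, y, k⟩
    | ⟨none, some y, k⟩ => Sum.inr ⟨y, k⟩
    | ⟨some x, none, k⟩ => k.elim0
    | ⟨none, none, k⟩ => k.elim0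
  invFun
    | Sum.inl ⟨x, y, k⟩ => ⟨some x, some y, k⟩
    | Sum.inr ⟨y, k⟩ => ⟨none, some y, k⟩
  left_inv := by
    rintro ⟨_ | x, _ | y, k⟩
    · exact k.elim0
    · rfl
    · exact k.elim0
    · rfl
  right_inv := by
    rintro (⟨x, y, k⟩ | ⟨y, k⟩) <;> rfl

theorem srcIso (K : Type u) [Field K] {V : Type} (A : V → V → ℕ) (b : V → ℕ) :
    Nonempty (LM K (srcM A b) ≃+* LPA K (srcG (mGr A) (fun t : (Σ x : V, Fin (b x)) => t.1))) := by
  let _ : StarRing K := starRingOfComm
  obtain ⟨f, _⟩ := SI.graphIso (K := K) (G := mGr (srcM A b))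
    (G' := srcG (mGr A) (fun t : (Σ x : V, Fin (b x)) => t.1)) (Equiv.refl _) (srcEquiv A b) (by
      rintro ⟨_ | x, _ | y, k⟩
      · exact k.elim0
      · rfl
      · exact k.elim0
      · rfl) (by
      rintro ⟨_ | x, _ | y, k⟩
      · exact k.elim0
      · rfl
      · exact k.elim0
      · rfl)
  exact ⟨f.toRingEquiv⟩

end CO2

end Pool.Agent.Work.MP_2b4d3b_al
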