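import Pool.Agent.Work.MP_2b4d3b_al.CorA

/-!
Part of MODULE Cor (helper21): the corner for a graph with a source.
-/

set_option linter.unusedVariables false
set_option linter.style.longLine false
set_option linter.unusedSectionVars false
set_option linter.unusedSimpArgs false

namespace Pool.Agent.Work.MP_2b4d3b_al

open Matrix

universe u v w u' v' w'

namespace CO2

section
variable {L : Type u} [Ring L] {T : Type v} [Fintype T] [DecidableEq T]

theorem dm (d : T → L) (i j : T) (a : L) :
    diagonal d * single i j a = single i j (d i * a) := by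
  ext s t
  rw [diagonal_mul, single_apply, single_apply]
  split_ifs with h
  · rw [h.1]
  · rw [mul_zero]

theorem md (d : T → L) (i j : T) (a : L) :
    single i j a * diagonal d = single i j (a * d j) := by
  ext s t
  rw [mul_diagonal, single_apply, single_apply]
  split_ifs with h
  · rw [h.2]
  · rw [zero_mul]

theorem ss (i j l : T) (a b : L) : single i j a * single j l b = single i l (a * b) :=
  by rw [single_mul_single_same]

theorem sn {i j k l : T} (h : j ≠ k) (a b : L) : single i j a * single k l b = 0 :=
  single_mul_single_of_ne _ _ _ _ h _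

end

section
variable {K : Type u} [Field K] {V E P : Type} [Fintype V] [Finite E] [Fintype P] [DecidableEq P]
  (G : Gr V E) (q : P → V)

noncomputable def tp : Option V → Matrix (Option P) (Option P) (LPA K G)
  | some x => single none none (vx K G x)
  | none => diagonal (fun t => t.elim 0 (fun p => vx K G (q p)))

noncomputable def ta : E ⊕ P → Matrix (Option P) (Option P) (LPA K G)
  | .inl e => single none none (ed K G e)
  | .inr p => single (some p) none (vx K G (q p))

noncomputable def tb : E ⊕ P → Matrix (Option P) (Option P) (LPA K G)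
  | .inl e => single none none (gh K G e)
  | .inr p => single none (some p) (vx K G (q p))

theorem exists_theta : ∃ φ : LPA K (srcG G q) →ₙ+* Matrix (Option P) (Option P) (LPA K G),
    (∀ x, φ (vx K _ x) = tp G q x) ∧ (∀ e, φ (ed K _ e) = ta G q e) ∧
      (∀ e, φ (gh K _ e) = tb G q e) ∧
      φ 1 = diagonal (fun t => t.elim 1 (fun p => vx K G (q p))) ∧
      ∀ (k : K) y, φ (algebraMap K _ k * y) = algebraMap K _ k * φ y := by
  classical
  obtain ⟨φ, h1, h2, h3, h4, h5⟩ := nlift (K := K) (G := srcG G q) (tp (K := K) G q) (ta G q) (tb G q)
    (by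
      rintro (_ | x)
      · rw [tp, diagonal_mul_diagonal]
        congr 1
        funext t
        rcases t with _ | p
        · exact mul_zero _
        · exact vx_vx _
      · rw [tp, ss, vx_vx])
    (by
      rintro (_ | x) (_ | y) h
      · exact absurd rfl h
      · rw [tp, tp, dm]; simp
      · rw [tp, tp, md]; simp
      · rw [tp, tp, ss, vx_ne (fun hh => h (by rw [hh]))]; simp)
    (by
      rintro (e | p)
      · exact (ss _ _ _ _ _).trans (by rw [s_ed]; rfl)
      · exact (dm _ _ _ _).trans (by simp [vx_vx, ta]))
    (by
      rintro (e | p)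
      · exact (ss _ _ _ _ _).trans (by rw [ed_r]; rfl)
      · exact (ss _ _ _ _ _).trans (by rw [vx_vx]; rfl))
    (by
      rintro (e | p)
      · exact (ss _ _ _ _ _).trans (by rw [r_gh]; rfl)
      · exact (ss _ _ _ _ _).trans (by rw [vx_vx]; rfl))
    (by
      rintro (e | p)
      · exact (ss _ _ _ _ _).trans (by rw [gh_s]; rfl)
      · exact (md _ _ _ _).trans (by simp [vx_vx, tb]))
    (by
      rintro (e | p)
      · exact (ss _ _ _ _ _).trans (by rw [gh_ed]; rfl)
      · exact (ss _ _ _ _ _).trans (by rw [vx_vx]; rfl))
    (by
      rintro (e | p) (f | p') h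
      · exact (ss _ _ _ _ _).trans (by rw [gh_ed_ne (fun hh => h (by rw [hh]))]; simp)
      · exact sn (by simp) _ _
      · exact sn (by simp) _ _
      · exact sn (fun hh => h (by rw [Option.some_injective _ hh])) _ _)
    (by
      intro x S hS hne
      rcases x with _ | x
      · have hS' : S = (Finset.univ : Finset P).map ⟨Sum.inr, Sum.inr_injective⟩ := by
          ext e
          rw [hS e]
          rcases e with e | p
          · simp [srcG]
          · simp [srcG]
        rw [hS', Finset.sum_map]
        simp only [Function.Embedding.coeFn_mk, ta, tb, ss, vx_vx, tp]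
        ext s t
        rw [Matrix.sum_apply]
        rcases s with _ | s
        · simp [diagonal_apply, single_apply]
        · simp only [diagonal_apply, single_apply]
          rcases t with _ | t
          · simp
          · by_cases hst : s = t
            · subst hst
              simp
            · simp [hst]
              symm
              apply Finset.sum_eq_zero
              intro p _
              rw [if_neg]
              rintro ⟨h1, h2⟩
              exact hst (h1.symm.trans h2)
      · have hS' : S = (S.preimage Sum.inl (Sum.inl_injective.injOn)).map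
            ⟨Sum.inl, Sum.inl_injective⟩ := by
          ext e
          rcases e with e | p
          · simp
          · simp only [Finset.mem_map, Function.Embedding.coeFn_mk, reduceCtorEq, and_false,
              exists_false, iff_false]
            intro hp
            have := (hS _).1 hp
            simp [srcG] at this
        rw [hS', Finset.sum_map]
        simp only [Function.Embedding.coeFn_mk, ta, tb, ss, tp]
        rw [ck_sum (K := K) (G := G) x (S.preimage Sum.inl (Sum.inl_injective.injOn))]
        · ext s t
          rw [Matrix.sum_apply]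
          simp only [single_apply]
          split_ifs <;> simp
        · intro e
          rw [Finset.mem_preimage, hS]
          simp [srcG]
        · obtain ⟨e, he⟩ := hne
          rcases e with e | p
          · exact ⟨e, by rw [Finset.mem_preimage]; exact he⟩
          · have := (hS _).1 he
            simp [srcG] at this)
  refine ⟨φ, h1, h2, h3, ?_, h5⟩
  rw [h4, Fintype.sum_option]
  ext s t
  rw [Matrix.add_apply, Matrix.sum_apply]
  simp only [tp, single_apply, diagonal_apply]
  rcases s with _ | s
  · rcases t with _ | t
    · simp [← one_sum (K := K) (G := G) Finset.univ (fun x => Finset.mem_univ _)]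
    · simp
  · rcases t with _ | t
    · simp
    · simp

theorem exists_iota : ∃ φ : LPA K G →ₙ+* LPA K (srcG G q),
    (∀ x, φ (vx K _ x) = vx K _ (some x)) ∧ (∀ e, φ (ed K _ e) = ed K _ (Sum.inl e)) ∧
      (∀ e, φ (gh K _ e) = gh K _ (Sum.inl e)) ∧
      ∀ (k : K) y, φ (algebraMap K _ k * y) = algebraMap K _ k * φ y := by
  classical
  obtain ⟨φ, h1, h2, h3, h4, h5⟩ := nlift (K := K) (G := G) (A := LPA K (srcG G q))
    (fun x => vx K _ (some x)) (fun e => ed K _ (Sum.inl e)) (fun e => gh K _ (Sum.inl e))
    (fun x => vx_vx _) (fun x y h => vx_ne (fun hh => h (Option.some_injective _ hh)))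
    (fun e => s_ed (G := srcG G q) (Sum.inl e)) (fun e => ed_r (G := srcG G q) (Sum.inl e))
    (fun e => r_gh (G := srcG G q) (Sum.inl e)) (fun e => gh_s (G := srcG G q) (Sum.inl e))
    (fun e => gh_ed (G := srcG G q) (Sum.inl e))
    (fun e f h => gh_ed_ne (fun hh => h (Sum.inl_injective hh)))
    (by
      intro x S hS hne
      rw [ck_sum (K := K) (G := srcG G q) (some x) (S.map ⟨Sum.inl, Sum.inl_injective⟩)]
      · rw [Finset.sum_map]
        rfl
      · rintro (e | p)
        · simp [srcG, hS]
        · simp [srcG]
      · exact hne.map)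
  exact ⟨φ, h1, h2, h3, h5⟩

/-- column and row -/
noncomputable def cc : Option P → LPA K (srcG G q)
  | none => 1 - vx K _ none
  | some p => gh K _ (Sum.inr p)

noncomputable def rr : Option P → LPA K (srcG G q)
  | none => 1 - vx K _ none
  | some p => ed K _ (Sum.inr p)

theorem r_c (p0 : P) : ∑ t, rr (K := K) G q t * cc G q t = 1 := by
  classical
  rw [Fintype.sum_option]
  have h1 : (1 - vx K (srcG G q) none) * (1 - vx K (srcG G q) none) = 1 - vx K (srcG G q) none := by
    rw [mul_sub, mul_one, sub_mul, one_mul, vx_vx, sub_self, sub_zero]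
  have h2 : vx K (srcG G q) none = ∑ p, ed K (srcG G q) (Sum.inr p) * gh K (srcG G q) (Sum.inr p) := by
    rw [ck_sum (K := K) (G := srcG G q) none ((Finset.univ : Finset P).map
      ⟨Sum.inr, Sum.inr_injective⟩)]
    · rw [Finset.sum_map]
      rfl
    · rintro (e | p)
      · simp [srcG]
      · simp [srcG]
    · exact ⟨Sum.inr p0, by simp⟩
  have h3 : ∑ p, rr (K := K) G q (some p) * cc G q (some p) = vx K (srcG G q) none := by
    rw [h2]
    rfl
  rw [h3]
  change (1 - vx K (srcG G q) none) * (1 - vx K (srcG G q) none) + _ = _
  rw [h1, sub_add_cancel]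

theorem cc_some (t : Option P) (x : V) :
    cc (K := K) G q t * vx K _ (some x) = if t = none then vx K _ (some x) else 0 := by
  rcases t with _ | p
  · rw [if_pos rfl, cc, sub_mul, one_mul, vx_ne (by simp), sub_zero]
  · rw [if_neg (by simp), cc, ← gh_s, mul_assoc]
    rw [show (srcG G q).s (Sum.inr p) = none from rfl, vx_ne (by simp), mul_zero]

theorem rr_some (t : Option P) (x : V) :
    vx K _ (some x) * rr (K := K) G q t = if t = none then vx K _ (some x) else 0 := by
  rcases t with _ | p
  · rw [if_pos rfl, rr, mul_sub, mul_one, vx_ne (by simp), sub_zero]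
  · rw [if_neg (by simp), rr, ← s_ed, ← mul_assoc]
    rw [show (srcG G q).s (Sum.inr p) = none from rfl, vx_ne (by simp), zero_mul]

theorem cc_ed (t : Option P) (p : P) :
    cc (K := K) G q t * ed K _ (Sum.inr p) = if t = some p then vx K _ (some (q p)) else 0 := by
  rcases t with _ | p'
  · rw [if_neg (by simp), cc, sub_mul, one_mul]
    have := s_ed (K := K) (G := srcG G q) (Sum.inr p)
    rw [show (srcG G q).s (Sum.inr p) = none from rfl] at this
    rw [this, sub_self]
  · by_cases h : p' = p
    · subst h
      rw [if_pos rfl, cc, gh_ed]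
      rfl
    · rw [if_neg (by simpa using h), cc, gh_ed_ne (fun hh => h (Sum.inr_injective hh))]

theorem gh_rr (t : Option P) (p : P) :
    gh K _ (Sum.inr p) * rr (K := K) G q t = if t = some p then vx K _ (some (q p)) else 0 := by
  rcases t with _ | p'
  · rw [if_neg (by simp), rr, mul_sub, mul_one]
    have := gh_s (K := K) (G := srcG G q) (Sum.inr p)
    rw [show (srcG G q).s (Sum.inr p) = none from rfl] at this
    rw [this, sub_self]
  · by_cases h : p' = p
    · subst h
      rw [if_pos rfl, rr, gh_ed]
      rfl
    · rw [if_neg (by simpa using h), rr, gh_ed_ne (fun hh => h (Sum.inr_injective hh).symm)]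

theorem cc_none (t : Option P) :
    cc (K := K) G q t * vx K _ none = if t = none then 0 else cc G q t := by
  rcases t with _ | p
  · rw [if_pos rfl, cc, sub_mul, one_mul, vx_vx, sub_self]
  · rw [if_neg (by simp), cc]
    exact gh_s (K := K) (G := srcG G q) (Sum.inr p)

theorem theta_iota (Θ : LPA K (srcG G q) →ₙ+* Matrix (Option P) (Option P) (LPA K G))
    (h1 : ∀ x, Θ (vx K _ x) = tp G q x) (h2 : ∀ e, Θ (ed K _ e) = ta G q e)
    (h3 : ∀ e, Θ (gh K _ e) = tb G q e)
    (h5 : ∀ (k : K) y, Θ (algebraMap K _ k * y) = algebraMap K _ k * Θ y)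
    (ι : LPA K G →ₙ+* LPA K (srcG G q)) (g1 : ∀ x, ι (vx K _ x) = vx K _ (some x))
    (g2 : ∀ e, ι (ed K _ e) = ed K _ (Sum.inl e)) (g3 : ∀ e, ι (gh K _ e) = gh K _ (Sum.inl e))
    (g5 : ∀ (k : K) y, ι (algebraMap K _ k * y) = algebraMap K _ k * ι y) (p0 : P)
    (y : LPA K (srcG G q)) (s t : Option P) : ι (Θ y s t) = cc G q s * y * rr G q t := by
  classical
  have hv : ∀ (x : Option V) (s t : Option P),
      ι (Θ (vx K _ x) s t) = cc G q s * vx K _ x * rr G q t := by
    intro x s t
    rw [h1]
    rcases x with _ | x
    · rw [tp, cc_none, diagonal_apply]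
      rcases s with _ | s
      · rcases t with _ | t
        · simp
        · simp
      · have e0 : (if (some s : Option P) = none then 0 else cc (K := K) G q (some s)) =
            gh K _ (Sum.inr s) := by rw [if_neg (by simp)]; rfl
        rw [e0, gh_rr]
        rcases t with _ | t
        · rw [if_neg (by simp), if_neg (by simp), map_zero]
        · by_cases h : s = t
          · subst h
            rw [if_pos rfl, if_pos rfl]
            exact g1 _
          · rw [if_neg (by simpa using h), if_neg (by simpa using Ne.symm h), map_zero]
    · rw [tp, cc_some, single_apply]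
      rcases s with _ | s
      · rw [if_pos rfl, rr_some]
        by_cases h : t = none
        · rw [if_pos ⟨rfl, h.symm⟩, if_pos h, g1]
        · rw [if_neg (fun hh => h hh.2.symm), if_neg h, map_zero]
      · rw [if_neg (by simp), if_neg (by simp), map_zero, zero_mul]
  revert s t
  induction y using LPA.ind with
  | hK k =>
    intro s t
    have e1 : algebraMap K (LPA K (srcG G q)) k = ∑ x, algebraMap K _ k * vx K _ x := by
      rw [← Finset.mul_sum, ← one_sum (K := K) (G := srcG G q) Finset.univ
        (fun x => Finset.mem_univ _), mul_one]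
    rw [e1, map_sum, Matrix.sum_apply, map_sum, Finset.mul_sum, Finset.sum_mul]
    refine Finset.sum_congr rfl fun x _ => ?_
    rw [h5]
    have e2 : (algebraMap K (Matrix (Option P) (Option P) (LPA K G)) k * Θ (vx K _ x)) s t =
        algebraMap K _ k * (Θ (vx K _ x) s t) := by
      rw [Matrix.algebraMap_eq_diagonal, Matrix.diagonal_mul]
      rfl
    rw [e2, g5, hv, ← mul_assoc (cc G q s), ← Algebra.commutes, mul_assoc, mul_assoc, mul_assoc]
  | hv x => exact hv x
  | he e =>
    intro s t
    rw [h2]
    rcases e with e | p
    · rw [ta, single_apply]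
      have e1 : cc G q s * ed K (srcG G q) (Sum.inl e) * rr G q t =
          (cc G q s * vx K _ (some (G.s e))) * ed K (srcG G q) (Sum.inl e) *
            (vx K _ (some (G.r e)) * rr G q t) := by
        conv_lhs => rw [← s_ed, ← ed_r]
        simp only [mul_assoc]
        rfl
      rw [e1, cc_some, rr_some]
      rcases s with _ | s <;> rcases t with _ | t
      · rw [if_pos ⟨rfl, rfl⟩, if_pos rfl, if_pos rfl, g2]
        conv_lhs => rw [← s_ed, ← ed_r]
        rw [← mul_assoc]
        rfl
      · rw [if_neg (by simp), if_neg (by simp : ¬ (some t = none)), mul_zero, map_zero]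
      · rw [if_neg (by simp), if_neg (by simp : ¬ (some s = none)), zero_mul, zero_mul, map_zero]
      · rw [if_neg (by simp), if_neg (by simp : ¬ (some t = none)), mul_zero, map_zero]
    · rw [ta, single_apply, cc_ed]
      rcases s with _ | s
      · rw [if_neg (by simp), if_neg (by simp), zero_mul, map_zero]
      · by_cases h : s = p
        · subst h
          rw [if_pos rfl, rr_some]
          by_cases h' : t = none
          · rw [if_pos ⟨rfl, h'.symm⟩, if_pos h', g1]
          · rw [if_neg (fun hh => h' hh.2.symm), if_neg h', map_zero]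
        · rw [if_neg (fun hh => h (Option.some_injective _ hh.1).symm), if_neg (by simpa using h),
            zero_mul, map_zero]
  | hg e =>
    intro s t
    rw [h3]
    rcases e with e | p
    · rw [tb, single_apply]
      have e1 : cc G q s * gh K (srcG G q) (Sum.inl e) * rr G q t =
          (cc G q s * vx K _ (some (G.r e))) * gh K (srcG G q) (Sum.inl e) *
            (vx K _ (some (G.s e)) * rr G q t) := by
        conv_lhs => rw [← r_gh, ← gh_s]
        simp only [mul_assoc]
        rfl
      rw [e1, cc_some, rr_some]
      rcases s with _ | s <;> rcases t with _ | t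
      · rw [if_pos ⟨rfl, rfl⟩, if_pos rfl, if_pos rfl, g3]
        conv_lhs => rw [← r_gh, ← gh_s]
        rw [← mul_assoc]
        rfl
      · rw [if_neg (by simp), if_neg (by simp : ¬ (some t = none)), mul_zero, map_zero]
      · rw [if_neg (by simp), if_neg (by simp : ¬ (some s = none)), zero_mul, zero_mul, map_zero]
      · rw [if_neg (by simp), if_neg (by simp : ¬ (some t = none)), mul_zero, map_zero]
    · rw [tb, single_apply, mul_assoc, gh_rr]
      by_cases h : t = some p
      · subst h
        rw [if_pos rfl, cc_some]
        by_cases h' : s = none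
        · rw [if_pos ⟨h'.symm, rfl⟩, if_pos h', g1]
        · rw [if_neg (fun hh => h' hh.1.symm), if_neg h', map_zero]
      · rw [if_neg (fun hh => h hh.2.symm), if_neg h, mul_zero, map_zero]
  | hadd a b ha hb =>
    intro s t
    rw [map_add, Matrix.add_apply, map_add, ha, hb, mul_add, add_mul]
  | hmul a b ha hb =>
    intro s t
    rw [map_mul, Matrix.mul_apply, map_sum]
    have e1 : ∀ u, ι (Θ a s u * Θ b u t) = cc G q s * a * (rr G q u * cc G q u) * (b * rr G q t) := by
      intro u
      rw [map_mul, ha, hb]
      simp only [mul_assoc]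
    rw [Finset.sum_congr rfl fun u _ => e1 u, ← Finset.sum_mul, ← Finset.mul_sum, r_c G q p0, mul_one]
    simp only [mul_assoc]

end

end CO2

end Pool.Agent.Work.MP_2b4d3b_al
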