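import Pool.Agent.Work.MP_2b4d3b_al.Defs

/-!
MODULE MonChar. The graph monoid of a reduced matrix.
add: a step for n is a step for n + k.
char, forward: each step keeps Hs (exits of x are in Hs) and changes n by off A x, x in Hs.
char, backward: if m - n = sum κ x off x: let H = Hs n = Hs m. From n one can reach, by steps,
n + Y with Y = sum y x off x, y x ≥ 0, such that all x in H are in the support (walk down a path
from the support; every non-final vertex of a path has a loop, Reduced); then n + Y admits any
further additions of off x, x in H. Do this for n and m with Y = Y_n + Y_m, then add the positive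
part of κ to one side and the negative part to the other.
cancel: by char; j emits no edge except possibly a loop; if j is not in Hs n or not in Hs m use the
j-coordinate of the equation (only x in Hs with off x j ≠ 0 contribute).
reach: walk down a path from x to j; then j can be added c times (c copies of the edge into j:
repeat the last steps); r collects the rest.
-/

set_option linter.unusedVariables false
set_option linter.style.longLine false
set_option linter.unusedSectionVars false

namespace Pool.Agent.Work.MP_2b4d3b_al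

open Matrix

universe u v w u' v' w'

section
variable {V : Type} [Fintype V] [DecidableEq V] {A : V → V → ℕ}

theorem Meq.add {n m : V → ℕ} (k : V → ℕ) (h : Meq A n m) : Meq A (n + k) (m + k) := by
  induction h with
  | rel n m h =>
    obtain ⟨x, h1, h2, rfl⟩ := h
    exact Relation.EqvGen.rel _ _ ⟨x, by simp only [Pi.add_apply]; omega, h2, by
      rw [add_right_comm]⟩
  | refl n => exact Relation.EqvGen.refl _
  | symm n m h ih => exact Relation.EqvGen.symm _ _ ih
  | trans n m l h1 h2 ih1 ih2 => exact Relation.EqvGen.trans _ _ _ ih1 ih2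

/-- the combination of the rows of off A with coefficients Y -/
private def vo (A : V → V → ℕ) (Y : V → ℕ) : V → ℕ := fun y => ∑ z, Y z * off A z y

private theorem vo_add (A : V → V → ℕ) (Y Z : V → ℕ) : vo A (Y + Z) = vo A Y + vo A Z := by
  funext y
  simp [vo, add_mul, Finset.sum_add_distrib]

private theorem vo_zero (A : V → V → ℕ) : vo A 0 = 0 := by
  funext y
  simp [vo]

private theorem vo_single (A : V → V → ℕ) (x : V) : vo A (Pi.single x 1) = off A x := by
  funext y
  simp [vo, Pi.single_apply]

private theorem meq_refl (n : V → ℕ) : Meq A n n := Relation.EqvGen.refl _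

private theorem meq_trans {n m l : V → ℕ} (h : Meq A n m) (h' : Meq A m l) : Meq A n l :=
  Relation.EqvGen.trans _ _ _ h h'

private theorem meq_symm {n m : V → ℕ} (h : Meq A n m) : Meq A m n :=
  Relation.EqvGen.symm _ _ h

private theorem meq_iter {n : V → ℕ} {x : V} (h : n x ≠ 0) (hx : A x x = 1) (c : ℕ) :
    Meq A n (n + c • off A x) := by
  induction c with
  | zero => simpa using meq_refl n
  | succ c ih =>
    refine meq_trans ih (Relation.EqvGen.rel _ _ ⟨x, ?_, hx, ?_⟩)
    · simp only [Pi.add_apply]
      omega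
    · rw [succ_nsmul, add_assoc]

private theorem loop_of (hA : Reduced A) {x y : V} (h : A x y ≠ 0) : A x x = 1 := by
  have h1 := hA.2.1 x
  have h2 := hA.2.2 x
  by_contra hc
  exact h (h2 (by omega) y)

private theorem off_of_ne {x y : V} (h : x ≠ y) : off A x y = A x y := by
  simp [off, h]

private theorem off_le (x y : V) : off A x y ≤ A x y := by
  unfold off
  split_ifs <;> omega

private theorem walk (hA : Reduced A) {n : V → ℕ} {x : V} (hn : n x ≠ 0) {y : V} (h : Rch A x y) :
    ∃ Y : V → ℕ, (∀ z, Y z ≠ 0 → z ∈ Hs A n) ∧ Meq A n (n + vo A Y) ∧ (n + vo A Y) y ≠ 0 := by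
  induction h with
  | refl => exact ⟨0, by simp, by rw [vo_zero, add_zero]; exact meq_refl n, by
      rw [vo_zero, add_zero]; exact hn⟩
  | @tail y z hxy hyz ih =>
    obtain ⟨Y, h1, h2, h3⟩ := ih
    by_cases hyz' : y = z
    · subst hyz'
      exact ⟨Y, h1, h2, h3⟩
    · have hl := loop_of hA hyz
      refine ⟨Y + Pi.single y 1, ?_, ?_, ?_⟩
      · intro t ht
        by_cases hty : t = y
        · subst hty
          exact ⟨x, hn, hxy⟩
        · apply h1
          simpa [Pi.single_apply, hty] using ht
      · have := meq_iter h3 hl 1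
        rw [vo_add, vo_single, ← add_assoc]
        simpa using meq_trans h2 this
      · rw [vo_add, vo_single, ← add_assoc, Pi.add_apply]
        have : off A y z ≠ 0 := by rw [off_of_ne hyz']; exact hyz
        omega

private theorem Hs_mono {n m : V → ℕ} (h : ∀ x, n x ≠ 0 → m x ≠ 0) : Hs A n ⊆ Hs A m := by
  rintro y ⟨x, hx, hxy⟩
  exact ⟨x, h x hx, hxy⟩

private theorem Hs_trans {n : V → ℕ} {x y : V} (h : x ∈ Hs A n) (h' : Rch A x y) : y ∈ Hs A n := by
  obtain ⟨z, hz, hzx⟩ := h
  exact ⟨z, hz, hzx.trans h'⟩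

private theorem Hs_vo {n : V → ℕ} {Y : V → ℕ} (h : ∀ z, Y z ≠ 0 → z ∈ Hs A n) :
    Hs A (n + vo A Y) = Hs A n := by
  apply Set.Subset.antisymm
  · rintro y ⟨x, hx, hxy⟩
    by_cases hn : n x = 0
    · have : vo A Y x ≠ 0 := by
        simp only [Pi.add_apply, hn, zero_add] at hx
        exact hx
      obtain ⟨z, -, hz⟩ := Finset.exists_ne_zero_of_sum_ne_zero this
      have hz1 : Y z ≠ 0 := fun h0 => hz (by rw [h0, zero_mul])
      have hz2 : off A z x ≠ 0 := fun h0 => hz (by rw [h0, mul_zero])
      have hz3 : A z x ≠ 0 := by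
        have := off_le (A := A) z x
        omega
      have hzx : Rch A z x := Relation.ReflTransGen.single hz3
      exact Hs_trans (h z hz1) (hzx.trans hxy)
    · exact ⟨x, hn, hxy⟩
  · apply Hs_mono
    intro x hx
    simp only [Pi.add_apply]
    omega

private theorem fill (hA : Reduced A) (n : V → ℕ) (s : Finset V) (hs : ∀ x ∈ s, x ∈ Hs A n) :
    ∃ Y : V → ℕ, (∀ z, Y z ≠ 0 → z ∈ Hs A n) ∧ Meq A n (n + vo A Y) ∧
      ∀ x ∈ s, (n + vo A Y) x ≠ 0 := by
  induction s using Finset.induction_on with
  | empty => exact ⟨0, by simp, by rw [vo_zero, add_zero]; exact meq_refl n, by simp⟩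
  | insert a s ha ih =>
    obtain ⟨Y, h1, h2, h3⟩ := ih fun x hx => hs x (Finset.mem_insert_of_mem hx)
    have ha' : a ∈ Hs A (n + vo A Y) := by
      rw [Hs_vo h1]
      exact hs a (Finset.mem_insert_self a s)
    obtain ⟨x, hx, hxa⟩ := ha'
    obtain ⟨Z, g1, g2, g3⟩ := walk hA hx hxa
    rw [Hs_vo h1] at g1
    refine ⟨Y + Z, ?_, ?_, ?_⟩
    · intro z hz
      by_cases hY : Y z = 0
      · exact g1 z (by simpa [hY] using hz)
      · exact h1 z hY
    · rw [vo_add, ← add_assoc]
      exact meq_trans h2 g2
    · intro t ht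
      rw [vo_add, ← add_assoc]
      rcases Finset.mem_insert.1 ht with rfl | ht
      · exact g3
      · have := h3 t ht
        rw [Pi.add_apply]
        omega

private theorem push (hA : Reduced A) (n : V → ℕ) (H : Set V) (hH : ∀ x ∈ H, n x ≠ 0) (s : Finset V)
    (Z : V → ℕ) (hZ : ∀ z, Z z ≠ 0 → z ∈ H) :
    Meq A n (n + ∑ z ∈ s, Z z • off A z) := by
  induction s using Finset.induction_on with
  | empty => simpa using meq_refl n
  | insert a s ha ih =>
    rw [Finset.sum_insert ha, add_comm (Z a • off A a), ← add_assoc]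
    refine meq_trans ih ?_
    by_cases h0 : Z a = 0
    · rw [h0, zero_smul, add_zero]
      exact meq_refl _
    · by_cases hl : A a a = 1
      · refine meq_iter ?_ hl _
        have := hH a (hZ a h0)
        rw [Pi.add_apply]
        omega
      · have h1 : off A a = 0 := by
          funext y
          have := off_le (A := A) a y
          have h2 := hA.2.1 a
          have h3 := hA.2.2 a (by omega) y
          simp only [Pi.zero_apply]
          omega
        rw [h1, smul_zero, add_zero]
        exact meq_refl _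

private theorem vo_eq (A : V → V → ℕ) (Z : V → ℕ) : vo A Z = ∑ z, Z z • off A z := by
  funext y
  simp [vo, Finset.sum_apply]

private theorem exists_large (hA : Reduced A) (n : V → ℕ) :
    ∃ Y : V → ℕ, (∀ z, Y z ≠ 0 → z ∈ Hs A n) ∧
      ∀ Z : V → ℕ, (∀ z, Z z ≠ 0 → z ∈ Hs A n) → Meq A n (n + vo A (Y + Z)) := by
  classical
  obtain ⟨Y, h1, h2, h3⟩ := fill hA n (Finset.univ.filter fun x => x ∈ Hs A n) (by simp)
  refine ⟨Y, h1, fun Z hZ => ?_⟩
  rw [vo_add, ← add_assoc, vo_eq A Z]
  refine meq_trans h2 (push hA _ (Hs A n) ?_ _ Z hZ)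
  intro x hx
  exact h3 x (by simpa using hx)

private theorem char_mp {n m : V → ℕ} (h : Meq A n m) : Hs A n = Hs A m ∧
    ∃ κ : V → ℤ, (∀ x, κ x ≠ 0 → x ∈ Hs A n) ∧
      ∀ y, (m y : ℤ) - (n y : ℤ) = ∑ x, κ x * (off A x y : ℤ) := by
  induction h with
  | rel n m h =>
    obtain ⟨x, h1, h2, rfl⟩ := h
    have hx : x ∈ Hs A n := ⟨x, by omega, Relation.ReflTransGen.refl⟩
    refine ⟨?_, Pi.single x 1, ?_, ?_⟩
    · rw [← vo_single, Hs_vo]
      intro z hz
      have : z = x := by
        by_contra hne
        exact hz (by simp [Pi.single_apply, hne])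
      rw [this]
      exact hx
    · intro z hz
      have : z = x := by
        by_contra hne
        exact hz (by simp [Pi.single_apply, hne])
      rw [this]
      exact hx
    · intro y
      simp [Pi.single_apply]
  | refl n => exact ⟨rfl, 0, by simp, by simp⟩
  | symm n m h ih =>
    obtain ⟨h1, κ, h2, h3⟩ := ih
    refine ⟨h1.symm, -κ, ?_, ?_⟩
    · intro x hx
      rw [← h1]
      exact h2 x (by simpa using hx)
    · intro y
      have := h3 y
      simp only [Pi.neg_apply, neg_mul, Finset.sum_neg_distrib]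
      rw [← this]
      ring
  | trans n m l h1 h2 ih1 ih2 =>
    obtain ⟨h1, κ, h2, h3⟩ := ih1
    obtain ⟨g1, κ', g2, g3⟩ := ih2
    refine ⟨h1.trans g1, κ + κ', ?_, ?_⟩
    · intro x hx
      by_cases h0 : κ x = 0
      · rw [h1]
        exact g2 x (by simpa [h0] using hx)
      · exact h2 x h0
    · intro y
      have e1 := h3 y
      have e2 := g3 y
      simp only [Pi.add_apply, add_mul, Finset.sum_add_distrib]
      rw [← e1, ← e2]
      ring

theorem Meq.char (hA : Reduced A) (n m : V → ℕ) : Meq A n m ↔ Hs A n = Hs A m ∧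
    ∃ κ : V → ℤ, (∀ x, κ x ≠ 0 → x ∈ Hs A n) ∧
      ∀ y, (m y : ℤ) - (n y : ℤ) = ∑ x, κ x * (off A x y : ℤ) := by
  refine ⟨char_mp, ?_⟩
  rintro ⟨hH, κ, h1, h2⟩
  obtain ⟨Yn, a1, a2⟩ := exists_large hA n
  obtain ⟨Ym, b1, b2⟩ := exists_large hA m
  let P : V → ℕ := fun x => (κ x).toNat
  let Q : V → ℕ := fun x => (-κ x).toNat
  have hP : ∀ z, P z ≠ 0 → z ∈ Hs A n := fun z hz => h1 z (by
    intro h0
    exact hz (by simp [P, h0]))
  have hQ : ∀ z, Q z ≠ 0 → z ∈ Hs A n := fun z hz => h1 z (by
    intro h0
    exact hz (by simp [Q, h0]))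
  have e : n + vo A (Yn + (Ym + P)) = m + vo A (Ym + (Yn + Q)) := by
    have e1 : n + vo A P = m + vo A Q := by
      funext y
      have h := h2 y
      have hc : ((n y + vo A P y : ℕ) : ℤ) = ((m y + vo A Q y : ℕ) : ℤ) := by
        simp only [vo]
        push_cast
        have : ∑ x, κ x * (off A x y : ℤ) =
            ∑ x, ((P x : ℕ) : ℤ) * (off A x y : ℤ) - ∑ x, ((Q x : ℕ) : ℤ) * (off A x y : ℤ) := by
          rw [← Finset.sum_sub_distrib]
          refine Finset.sum_congr rfl fun x _ => ?_
          rw [← sub_mul]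
          congr 1
          simp only [P, Q]
          omega
        rw [this] at h
        linarith
      exact_mod_cast hc
    have e2 : n + vo A (Yn + (Ym + P)) = n + vo A P + vo A Yn + vo A Ym := by
      rw [vo_add, vo_add]
      abel
    have e3 : m + vo A (Ym + (Yn + Q)) = m + vo A Q + vo A Yn + vo A Ym := by
      rw [vo_add, vo_add]
      abel
    rw [e2, e3, e1]
  have f1 := a2 (Ym + P) (by
    intro z hz
    by_cases h0 : Ym z = 0
    · exact hP z (by simpa [h0] using hz)
    · rw [hH]
      exact b1 z h0)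
  have f2 := b2 (Yn + Q) (by
    intro z hz
    rw [← hH]
    by_cases h0 : Yn z = 0
    · exact hQ z (by simpa [h0] using hz)
    · exact a1 z h0)
  rw [e] at f1
  exact meq_trans f1 (meq_symm f2)

private theorem rch_of {j : V} (hj : ∀ y, y ≠ j → A j y = 0) {y : V} (h : Rch A j y) : y = j := by
  induction h with
  | refl => rfl
  | @tail y z _ hyz ih =>
    subst ih
    by_contra hne
    exact hyz (hj z hne)

private theorem Hs_single {j : V} (hj : ∀ y, y ≠ j → A j y = 0) {n : V → ℕ} {k : ℕ} (hk : k ≠ 0)
    (y : V) : y ∈ Hs A (n + Pi.single j k) ↔ y ∈ Hs A n ∨ y = j := by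
  constructor
  · rintro ⟨x, hx, hxy⟩
    by_cases h : n x = 0
    · have hxj : x = j := by
        by_contra hne
        exact hx (by simp [Pi.single_apply, hne, h])
      subst hxj
      exact Or.inr (rch_of hj hxy)
    · exact Or.inl ⟨x, h, hxy⟩
  · rintro (h | rfl)
    · exact Hs_mono (fun x hx => by rw [Pi.add_apply]; omega) h
    · exact ⟨y, by rw [Pi.add_apply, Pi.single_eq_same]; omega, Relation.ReflTransGen.refl⟩

private theorem cancel_aux {j : V} (hj : ∀ y, y ≠ j → A j y = 0) {n m : V → ℕ}
    (h1 : ∀ y, y ∈ Hs A n ∨ y = j ↔ y ∈ Hs A m ∨ y = j) {κ : V → ℤ}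
    (h2 : ∀ x, κ x ≠ 0 → x ∈ Hs A n)
    (h3 : ∀ y, (m y : ℤ) - (n y : ℤ) = ∑ x, κ x * (off A x y : ℤ)) (hjn : j ∉ Hs A n) :
    j ∉ Hs A m := by
  rintro ⟨x, hx, hxj⟩
  have hn : n j = 0 := by
    by_contra h0
    exact hjn ⟨j, h0, Relation.ReflTransGen.refl⟩
  have hs : ∑ x, κ x * (off A x j : ℤ) = 0 := by
    apply Finset.sum_eq_zero
    intro z _
    by_cases hz : κ z = 0
    · rw [hz, zero_mul]
    · have hz' := h2 z hz
      have : off A z j = 0 := by
        by_contra hne
        have : A z j ≠ 0 := by
          have := off_le (A := A) z j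
          omega
        have hzj : Rch A z j := Relation.ReflTransGen.single this
        exact hjn (Hs_trans hz' hzj)
      rw [this]
      simp
  have hm : m j = 0 := by
    have := h3 j
    rw [hs, hn] at this
    simpa using this
  have hxne : x ≠ j := by
    rintro rfl
    exact hx hm
  have := (h1 x).2 (Or.inl ⟨x, hx, Relation.ReflTransGen.refl⟩)
  rcases this with h | h
  · exact hjn (Hs_trans h hxj)
  · exact hxne h

theorem Meq.cancel (hA : Reduced A) (j : V) (hj : ∀ y, y ≠ j → A j y = 0) (n m : V → ℕ) (k : ℕ)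
    (h : Meq A (n + Pi.single j k) (m + Pi.single j k)) : Meq A n m := by
  by_cases hk : k = 0
  · subst hk
    simpa using h
  rw [Meq.char hA] at h ⊢
  obtain ⟨h1, κ, h2, h3⟩ := h
  have h1' : ∀ y, y ∈ Hs A n ∨ y = j ↔ y ∈ Hs A m ∨ y = j := by
    intro y
    rw [← Hs_single hj hk, ← Hs_single hj hk, h1]
  let κ' : V → ℤ := fun x => if x = j then 0 else κ x
  have h2' : ∀ x, κ' x ≠ 0 → x ∈ Hs A n := by
    intro x hx
    by_cases hxj : x = j
    · exact absurd (by simp [κ', hxj]) hx
    · have : κ x ≠ 0 := by simpa [κ', hxj] using hx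
      rcases (Hs_single hj hk x).1 (h2 x this) with h | h
      · exact h
      · exact absurd h hxj
  have h3' : ∀ y, (m y : ℤ) - (n y : ℤ) = ∑ x, κ' x * (off A x y : ℤ) := by
    intro y
    have e := h3 y
    have e1 : ((m + Pi.single j k : V → ℕ) y : ℤ) - ((n + Pi.single j k : V → ℕ) y : ℤ) =
        (m y : ℤ) - (n y : ℤ) := by
      simp only [Pi.add_apply]
      push_cast
      ring
    rw [e1] at e
    rw [e]
    refine Finset.sum_congr rfl fun x _ => ?_
    by_cases hxj : x = j
    · subst hxj
      have : off A x y = 0 := by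
        by_cases hxy : y = x
        · simp [off, hxy]
        · have := off_le (A := A) x y
          rw [hj y hxy] at this
          omega
      rw [this]
      simp
    · simp [κ', hxj]
  refine ⟨?_, κ', h2', h3'⟩
  have hjj : j ∈ Hs A n ↔ j ∈ Hs A m := by
    constructor
    · intro hn
      by_contra hm
      refine cancel_aux (κ := -κ') hj (fun y => (h1' y).symm) ?_ ?_ hm hn
      · intro x hx
        have hx' : κ' x ≠ 0 := by simpa using hx
        have hxj : x ≠ j := by
          rintro rfl
          exact hx' (by simp [κ'])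
        rcases (h1' x).1 (Or.inl (h2' x hx')) with h | h
        · exact h
        · exact absurd h hxj
      · intro y
        have := h3' y
        simp only [Pi.neg_apply, neg_mul, Finset.sum_neg_distrib]
        rw [← this]
        ring
    · intro hm
      by_contra hn
      exact cancel_aux hj h1' h2' h3' hn hm
  ext y
  by_cases hyj : y = j
  · subst hyj
    exact hjj
  · have := h1' y
    simpa [hyj] using this

theorem Meq.reach (hA : Reduced A) (x j : V) (h : Rch A x j) (hne : x ≠ j) (n : V → ℕ)
    (hn : n x ≠ 0) (c : ℕ) : ∃ r : V → ℕ, Meq A n (n + r + Pi.single j c) := by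
  have h1 : ∃ y, Rch A x y ∧ y ≠ j ∧ A y j ≠ 0 := by
    induction h with
    | refl => exact absurd rfl hne
    | @tail y z hxy hyz ih =>
      by_cases h : y = z
      · subst h
        exact ih hne
      · exact ⟨y, hxy, h, hyz⟩
  obtain ⟨y, hxy, hyj, hA'⟩ := h1
  obtain ⟨Y, -, h2, h3⟩ := walk hA hn hxy
  have h4 := meq_trans h2 (meq_iter h3 (loop_of hA hA') c)
  refine ⟨vo A Y + (c • off A y - Pi.single j c), ?_⟩
  have e : n + (vo A Y + (c • off A y - Pi.single j c)) + Pi.single j c =
      n + vo A Y + c • off A y := by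
    funext t
    simp only [Pi.add_apply, Pi.sub_apply, Pi.smul_apply, smul_eq_mul]
    by_cases ht : t = j
    · subst ht
      rw [off_of_ne hyj, Pi.single_eq_same]
      have : c ≤ c * A y t := Nat.le_mul_of_pos_right c (Nat.pos_of_ne_zero hA')
      omega
    · simp [Pi.single_apply, ht]
      omega
  rw [e]
  exact h4

end

end Pool.Agent.Work.MP_2b4d3b_al
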