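import Pool.Agent.Work.MP_2b4d3b_al.IdB

/-!
MODULE MonEasy. One step: if x is in the support and A x x = 1 then vx x = sum of e e* over the edges
leaving x (ck_sum), these are the loop at x and the edges counted by off A x, so the 1 x 1 idempotent
vx x is equivalent to the diagonal idempotent of Pi.single x 1 + off A x (row of the e, column of
the e*). Then n = (n - single x 1) + single x 1, vs_add, IdEq.bsum. Closure under EqvGen by
IdEq.refl/symm/trans.
-/

set_option linter.unusedVariables false
set_option linter.style.longLine false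

namespace Pool.Agent.Work.MP_2b4d3b_al

open Matrix

universe u v w u' v' w'

private theorem me_core {K : Type u} [Field K] {V : Type} [Fintype V] [DecidableEq V]
    {A : V → V → ℕ} {x : V} (hx : ∃ y, A x y ≠ 0) :
    IdEq (wk (vx K (mGr A) x) 1) (vs K A (A x)) := by
  have hS : ∀ e : (Σ x y : V, Fin (A x y)), e ∈ (Finset.univ.filter fun e => e.1 = x) ↔
      (mGr A).s e = x := fun e => by
    rw [Finset.mem_filter]; exact ⟨fun h => h.2, fun h => ⟨Finset.mem_univ _, h⟩⟩
  have hck := ck_sum (K := K) (G := mGr A) x _ hS (by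
    obtain ⟨y, hy⟩ := hx
    exact ⟨⟨x, y, ⟨0, Nat.pos_of_ne_zero hy⟩⟩, (hS _).2 rfl⟩)
  have hsum : vx K (mGr A) x = ∑ c : (Σ y : V, Fin (A x y)),
      ed K (mGr A) ⟨x, c⟩ * gh K (mGr A) ⟨x, c⟩ := by
    rw [hck]
    symm
    apply Finset.sum_of_injOn (fun c : (Σ y : V, Fin (A x y)) => (⟨x, c⟩ : Σ x y : V, Fin (A x y)))
    · intro c _ c' _ h
      exact eq_of_heq (Sigma.mk.inj h).2
    · intro c _
      exact Finset.mem_coe.2 ((hS _).2 rfl)
    · rintro ⟨x', c⟩ he hne
      exfalso
      have h1 : x' = x := (hS _).1 he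
      subst h1
      exact hne ⟨c, Finset.mem_coe.2 (Finset.mem_univ _), rfl⟩
    · intro c _
      rfl
  refine IdEq.mk' (wk_idem (vx_vx x) 1) (vs_idem _)
    (Matrix.of fun _ c => ed K (mGr A) ⟨x, c⟩) (Matrix.of fun c _ => gh K (mGr A) ⟨x, c⟩) ?_ ?_
  · ext a b
    rw [Matrix.mul_apply, wk, Matrix.diagonal_apply, if_pos (Subsingleton.elim a b)]
    exact hsum.symm
  · ext a b
    rw [Matrix.mul_apply, vs, Matrix.diagonal_apply, Fin.sum_univ_one]
    split_ifs with h
    · subst h
      exact gh_ed (K := K) (G := mGr A) ⟨x, a⟩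
    · exact gh_ed_ne (K := K) (G := mGr A) (e := ⟨x, a⟩) (f := ⟨x, b⟩)
        (fun hc => h (eq_of_heq (Sigma.mk.inj hc).2))

private theorem me_step {K : Type u} [Field K] {V : Type} [Fintype V] [DecidableEq V]
    {A : V → V → ℕ} {n m : V → ℕ} (h : MStep A n m) : IdEq (vs K A n) (vs K A m) := by
  obtain ⟨x, hx, hA, rfl⟩ := h
  set n' : V → ℕ := n - Pi.single x 1 with hn'
  have h1 : n = n' + Pi.single x 1 := by
    funext y
    rw [hn', Pi.add_apply, Pi.sub_apply]
    by_cases hy : y = x
    · subst hy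
      rw [Pi.single_eq_same]
      omega
    · rw [Pi.single_eq_of_ne hy]
      omega
  have h2 : n + off A x = n' + A x := by
    funext y
    rw [h1]
    simp only [Pi.add_apply, off]
    by_cases hy : y = x
    · subst hy
      rw [Pi.single_eq_same, if_pos rfl, hA]
    · rw [Pi.single_eq_of_ne hy, if_neg (fun h => hy h.symm)]
      omega
  rw [h2]
  rw [h1]
  refine (vs_add _ _).trans (IdEq.trans (IdEq.bsum (IdEq.refl (vs_idem _)) ?_) (vs_add _ _).symm)
  exact (vs_single x 1).trans (me_core ⟨x, by rw [hA]; exact one_ne_zero⟩)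

theorem MonEasy {K : Type u} [Field K] {V : Type} [Fintype V] [DecidableEq V] {A : V → V → ℕ}
    {n m : V → ℕ} (h : Meq A n m) : IdEq (vs K A n) (vs K A m) := by
  induction h with
  | rel a b h => exact me_step h
  | refl a => exact IdEq.refl (vs_idem _)
  | symm a b _ ih => exact ih.symm
  | trans a b c _ _ ih1 ih2 => exact ih1.trans ih2

end Pool.Agent.Work.MP_2b4d3b_al
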