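import Pool.Agent.Work.MP_2b4d3b_al.LocUnit

/-!
MODULE Ker. The quotient map deleting a vertex j which emits no edge except possibly a loop, when all
other vertices are sinks or have a loop (Reduced). delFam: all generators touching j go to 0; ck
holds since a vertex x ≠ j which is regular has a loop, so it stays regular. π = lift. Kernel: let
Q = LM K A modulo the two-sided ideal of vx j (RingCon / TwoSidedIdeal quotient); there is a family of
mGr (delM A j) in Q (edges between vertices ≠ j; edges touching j are 0 in Q), giving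
LM K (delM A j) → Q, and the composite LM K A → Q is the quotient map (hom_ext). So π a = 0 implies
a in Jd (vx j); conversely clear. one: sum of vx x over x ≠ j is 1 in the quotient.
-/

set_option linter.unusedVariables false
set_option linter.style.longLine false

namespace Pool.Agent.Work.MP_2b4d3b_al

open Matrix

universe u v w u' v' w'

/-- delete the vertex j -/
def delM {V : Type} (A : V → V → ℕ) (j : V) : {x : V // x ≠ j} → {x : V // x ≠ j} → ℕ :=
  fun x y => A x y

theorem delM_reduced {V : Type} (A : V → V → ℕ) (hA : Reduced A) (j : V) :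
    Reduced (delM A j) := by
  obtain ⟨⟨ρ, hρ⟩, h1, h2⟩ := hA
  refine ⟨⟨fun x => ρ x, fun x y hxy h => hρ x y (fun hc => hxy (Subtype.ext hc)) h⟩,
    fun x => h1 x, fun x hx y => h2 x hx y⟩

open Classical in
/-- the generators of the quotient -/
noncomputable def delFn (K : Type u) [Field K] {V : Type} (A : V → V → ℕ) (j : V) :
    Gen V (Σ x y : V, Fin (A x y)) → LM K (delM A j)
  | .vx x => if h : x ≠ j then vx K (mGr (delM A j)) ⟨x, h⟩ else 0
  | .ed e => if h : e.1 ≠ j ∧ e.2.1 ≠ j then
      ed K (mGr (delM A j)) ⟨⟨e.1, h.1⟩, ⟨e.2.1, h.2⟩, e.2.2⟩ else 0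
  | .gh e => if h : e.1 ≠ j ∧ e.2.1 ≠ j then
      gh K (mGr (delM A j)) ⟨⟨e.1, h.1⟩, ⟨e.2.1, h.2⟩, e.2.2⟩ else 0

/-- inclusion of edges -/
private def kerPhi {V : Type} (A : V → V → ℕ) (j : V)
    (e : Σ x y : {x : V // x ≠ j}, Fin (delM A j x y)) : Σ x y : V, Fin (A x y) :=
  ⟨e.1, e.2.1, e.2.2⟩

private theorem kerPhi_inj {V : Type} (A : V → V → ℕ) (j : V) :
    Function.Injective (kerPhi A j) := by
  rintro ⟨⟨x, hx⟩, ⟨y, hy⟩, i⟩ ⟨⟨x', hx'⟩, ⟨y', hy'⟩, i'⟩ h
  have h' : (⟨x, ⟨y, i⟩⟩ : Σ x y : V, Fin (A x y)) = ⟨x', ⟨y', i'⟩⟩ := h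
  cases h'
  rfl

private theorem kerPhi_ex {V : Type} (A : V → V → ℕ) (j : V) (e : Σ x y : V, Fin (A x y))
    (h : e.1 ≠ j ∧ e.2.1 ≠ j) : kerPhi A j ⟨⟨e.1, h.1⟩, ⟨e.2.1, h.2⟩, e.2.2⟩ = e := rfl

section
variable {K : Type u} [Field K] {V : Type} {A : V → V → ℕ} {j : V}

private theorem del_vx {x : V} (h : x ≠ j) :
    delFn K A j (.vx x) = vx K (mGr (delM A j)) ⟨x, h⟩ := by
  simp only [delFn]
  rw [dif_pos h]

private theorem del_vx0 : delFn K A j (.vx j) = 0 := by
  simp only [delFn]
  rw [dif_neg (fun h => h rfl)]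

private theorem del_ed (e : Σ x y : {x : V // x ≠ j}, Fin (delM A j x y)) :
    delFn K A j (.ed (kerPhi A j e)) = ed K (mGr (delM A j)) e := by
  simp only [delFn]
  have h : (kerPhi A j e).1 ≠ j ∧ (kerPhi A j e).2.1 ≠ j := ⟨e.1.2, e.2.1.2⟩
  rw [dif_pos h]
  rfl

private theorem del_gh (e : Σ x y : {x : V // x ≠ j}, Fin (delM A j x y)) :
    delFn K A j (.gh (kerPhi A j e)) = gh K (mGr (delM A j)) e := by
  simp only [delFn]
  have h : (kerPhi A j e).1 ≠ j ∧ (kerPhi A j e).2.1 ≠ j := ⟨e.1.2, e.2.1.2⟩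
  rw [dif_pos h]
  rfl

private theorem del_ed0 {e : Σ x y : V, Fin (A x y)} (h : ¬ (e.1 ≠ j ∧ e.2.1 ≠ j)) :
    delFn K A j (.ed e) = 0 := by
  simp only [delFn]
  rw [dif_neg h]

private theorem del_gh0 {e : Σ x y : V, Fin (A x y)} (h : ¬ (e.1 ≠ j ∧ e.2.1 ≠ j)) :
    delFn K A j (.gh e) = 0 := by
  simp only [delFn]
  rw [dif_neg h]

/-- the key summation: the edges from `x ≠ j`. -/
private theorem ker_sum [Fintype V] [DecidableEq V] {M : Type*} [AddCommMonoid M] (x : {x : V // x ≠ j})
    (S : Finset (Σ x y : V, Fin (A x y))) (hS : ∀ e, e ∈ S ↔ e.1 = x.1)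
    (T : Finset (Σ x y : {x : V // x ≠ j}, Fin (delM A j x y))) (hT : ∀ e, e ∈ T ↔ e.1 = x)
    (f : (Σ x y : V, Fin (A x y)) → M) (h0 : ∀ e, e.1 = x.1 → e.2.1 = j → f e = 0) :
    ∑ e ∈ T, f (kerPhi A j e) = ∑ e ∈ S, f e := by
  apply Finset.sum_of_injOn (kerPhi A j) (kerPhi_inj A j).injOn
  · intro e he
    have h1 := (hT e).1 he
    refine (hS _).2 ?_
    rw [← h1]
    rfl
  · intro e he hne
    have h1 := (hS e).1 he
    by_cases h2 : e.2.1 = j
    · exact h0 e h1 h2
    · exfalso
      apply hne
      have h3 : e.1 ≠ j ∧ e.2.1 ≠ j := ⟨by rw [h1]; exact x.2, h2⟩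
      refine ⟨⟨⟨e.1, h3.1⟩, ⟨e.2.1, h3.2⟩, e.2.2⟩, ?_, kerPhi_ex A j e h3⟩
      exact (hT _).2 (Subtype.ext h1)
  · intro e he
    rfl

/-- the family -/
private noncomputable def delFam (K : Type u) [Field K] {V : Type} [Fintype V] [DecidableEq V]
    (A : V → V → ℕ) (hA : Reduced A) (j : V) (hj : ∀ y, y ≠ j → A j y = 0) :
    Fam K (mGr A) (LM K (delM A j)) where
  p x := delFn K A j (.vx x)
  a e := delFn K A j (.ed e)
  b e := delFn K A j (.gh e)
  vv x := by
    by_cases h : x = j
    · subst h; rw [del_vx0, zero_mul]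
    · rw [del_vx h, vx_vx]
  vw x y hxy := by
    by_cases h : x = j
    · subst h; rw [del_vx0, zero_mul]
    · by_cases h' : y = j
      · subst h'; rw [del_vx0, mul_zero]
      · rw [del_vx h, del_vx h', vx_ne]
        intro hc
        exact hxy (Subtype.ext_iff.1 hc)
  se e := by
    by_cases h : e.1 ≠ j ∧ e.2.1 ≠ j
    · rw [← kerPhi_ex A j e h, del_ed]
      exact (congrArg (· * _) (del_vx h.1)).trans (s_ed (K := K) (G := mGr (delM A j)) ⟨⟨e.1, h.1⟩, ⟨e.2.1, h.2⟩, e.2.2⟩)
    · rw [del_ed0 h, mul_zero]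
  er e := by
    by_cases h : e.1 ≠ j ∧ e.2.1 ≠ j
    · rw [← kerPhi_ex A j e h, del_ed]
      exact (congrArg (_ * ·) (del_vx h.2)).trans (ed_r (K := K) (G := mGr (delM A j)) ⟨⟨e.1, h.1⟩, ⟨e.2.1, h.2⟩, e.2.2⟩)
    · rw [del_ed0 h, zero_mul]
  rg e := by
    by_cases h : e.1 ≠ j ∧ e.2.1 ≠ j
    · rw [← kerPhi_ex A j e h, del_gh]
      exact (congrArg (· * _) (del_vx h.2)).trans (r_gh (K := K) (G := mGr (delM A j)) ⟨⟨e.1, h.1⟩, ⟨e.2.1, h.2⟩, e.2.2⟩)
    · rw [del_gh0 h, mul_zero]
  gs e := by
    by_cases h : e.1 ≠ j ∧ e.2.1 ≠ j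
    · rw [← kerPhi_ex A j e h, del_gh]
      exact (congrArg (_ * ·) (del_vx h.1)).trans (gh_s (K := K) (G := mGr (delM A j)) ⟨⟨e.1, h.1⟩, ⟨e.2.1, h.2⟩, e.2.2⟩)
    · rw [del_gh0 h, zero_mul]
  ge e := by
    by_cases h : e.1 ≠ j ∧ e.2.1 ≠ j
    · rw [← kerPhi_ex A j e h, del_ed, del_gh, gh_ed]
      exact (del_vx h.2).symm
    · rw [del_ed0 h, mul_zero]
      have h2 : e.2.1 = j := by
        by_contra hc
        have h3 : e.1 = j := by
          by_contra hc'
          exact h ⟨hc', hc⟩
        have h4 := hj e.2.1 hc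
        rw [← h3] at h4
        have h5 : (e.2.2 : ℕ) < A e.1 e.2.1 := e.2.2.2
        omega
      have h5 : (mGr A).r e = j := h2
      rw [h5, del_vx0]
  gf e f hef := by
    by_cases h : e.1 ≠ j ∧ e.2.1 ≠ j
    · by_cases h' : f.1 ≠ j ∧ f.2.1 ≠ j
      · have h1 := kerPhi_ex A j e h
        have h2 := kerPhi_ex A j f h'
        rw [← h1, ← h2, del_ed, del_gh, gh_ed_ne]
        intro hc
        rw [hc] at h1
        exact hef (h1.symm.trans h2)
      · rw [del_ed0 h', mul_zero]
    · rw [del_gh0 h, zero_mul]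
  ck x S hS hne := by
    by_cases h : x = j
    · subst h
      rw [del_vx0]
      symm
      apply Finset.sum_eq_zero
      intro e he
      have h1 : e.1 = x := (hS e).1 he
      rw [del_ed0 (fun h => h.1 h1), zero_mul]
    · obtain ⟨e, he⟩ := hne
      have h1 : e.1 = x := (hS e).1 he
      have h2 : A x x ≠ 0 := by
        intro hc
        have h3 := hA.2.2 x hc e.2.1
        rw [← h1] at h3
        have h5 : (e.2.2 : ℕ) < A e.1 e.2.1 := e.2.2.2
        omega
      rw [del_vx h]
      rw [ck_sum (G := mGr (delM A j)) ⟨x, h⟩ (Finset.univ.filter fun e => e.1 = ⟨x, h⟩)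
        (fun e => by rw [Finset.mem_filter]; exact ⟨fun h => h.2, fun h => ⟨Finset.mem_univ _, h⟩⟩)
        ⟨⟨⟨x, h⟩, ⟨x, h⟩, ⟨0, Nat.pos_of_ne_zero h2⟩⟩, by
          rw [Finset.mem_filter]; exact ⟨Finset.mem_univ _, rfl⟩⟩]
      rw [← ker_sum (j := j) ⟨x, h⟩ S hS (Finset.univ.filter fun e => e.1 = ⟨x, h⟩)
        (fun e => by rw [Finset.mem_filter]; exact ⟨fun h => h.2, fun h => ⟨Finset.mem_univ _, h⟩⟩)]
      · apply Finset.sum_congr rfl
        intro e _
        rw [del_ed, del_gh]
      · intro e _ h4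
        rw [del_ed0 (fun h => h.2 h4), zero_mul]
  one T hT := by
    rw [one_sum (G := mGr (delM A j)) Finset.univ (fun x => Finset.mem_univ x)]
    apply Finset.sum_of_injOn (fun x : {x : V // x ≠ j} => x.1) Subtype.val_injective.injOn
    · intro x _
      exact hT x.1
    · intro x _ hx
      have h : x = j := by
        by_contra hc
        exact hx ⟨⟨x, hc⟩, Finset.mem_coe.2 (Finset.mem_univ _), rfl⟩
      subst h
      exact del_vx0
    · intro x _
      exact (del_vx x.2).symm

end

theorem exists_quot (K : Type u) [Field K] {V : Type} [Fintype V] [DecidableEq V]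
    (A : V → V → ℕ) (hA : Reduced A) (j : V) (hj : ∀ y, y ≠ j → A j y = 0) :
    ∃ π : LM K A →ₐ[K] LM K (delM A j), (∀ g, π (gen K (mGr A) g) = delFn K A j g) ∧
      Function.Surjective π ∧ ∀ a, π a = 0 ↔ a ∈ Jd (vx K (mGr A) j) := by
  set π := (delFam K A hA j hj).lift with hπ
  have hg : ∀ g, π (gen K (mGr A) g) = delFn K A j g := by
    intro g
    rw [hπ, Fam.lift_gen]
    cases g <;> rfl
  have hgv : ∀ x, π (vx K (mGr A) x) = delFn K A j (.vx x) := fun x => hg _
  have hge : ∀ x, π (ed K (mGr A) x) = delFn K A j (.ed x) := fun x => hg _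
  have hgg : ∀ x, π (gh K (mGr A) x) = delFn K A j (.gh x) := fun x => hg _
  refine ⟨π, hg, ?_, ?_⟩
  · intro a
    induction a using LPA.ind with
    | hK k => exact ⟨algebraMap K _ k, AlgHom.commutes _ _⟩
    | hv x => exact ⟨vx K _ x.1, (hgv _).trans (del_vx x.2)⟩
    | he e => exact ⟨ed K _ (kerPhi A j e), (hge _).trans (del_ed e)⟩
    | hg e => exact ⟨gh K _ (kerPhi A j e), (hgg _).trans (del_gh e)⟩
    | hadd a b h1 h2 =>
      obtain ⟨c, rfl⟩ := h1
      obtain ⟨d, rfl⟩ := h2
      exact ⟨c + d, map_add _ _ _⟩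
    | hmul a b h1 h2 =>
      obtain ⟨c, rfl⟩ := h1
      obtain ⟨d, rfl⟩ := h2
      exact ⟨c * d, map_mul _ _ _⟩
  · intro a
    constructor
    · intro ha
      set I := TwoSidedIdeal.span {vx K (mGr A) j} with hI
      set q : LM K A →ₐ[K] I.ringCon.Quotient := I.ringCon.mkₐ K with hq
      have hq0 : ∀ b, q b = 0 ↔ b ∈ Jd (vx K (mGr A) j) := by
        intro b
        have h1 : q b = 0 ↔ I.ringCon b 0 := by
          rw [← I.ringCon.eq]
          exact Iff.rfl
        exact h1
      have hqj : q (vx K (mGr A) j) = 0 := (hq0 _).2 (TwoSidedIdeal.subset_span (Set.mem_singleton _))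
      have hqr : ∀ e : (Σ x y : V, Fin (A x y)), e.2.1 = j → q (ed K (mGr A) e) = 0 := by
        intro e he
        have h1 := ed_r (K := K) (G := mGr A) e
        have h2 : (mGr A).r e = j := he
        rw [← h1, map_mul, h2, hqj, mul_zero]
      have hqs : ∀ e : (Σ x y : V, Fin (A x y)), e.1 = j → q (ed K (mGr A) e) = 0 := by
        intro e he
        have h1 := s_ed (K := K) (G := mGr A) e
        have h2 : (mGr A).s e = j := he
        rw [← h1, map_mul, h2, hqj, zero_mul]
      have hqr' : ∀ e : (Σ x y : V, Fin (A x y)), e.2.1 = j → q (gh K (mGr A) e) = 0 := by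
        intro e he
        have h1 := r_gh (K := K) (G := mGr A) e
        have h2 : (mGr A).r e = j := he
        rw [← h1, map_mul, h2, hqj, zero_mul]
      have hqs' : ∀ e : (Σ x y : V, Fin (A x y)), e.1 = j → q (gh K (mGr A) e) = 0 := by
        intro e he
        have h1 := gh_s (K := K) (G := mGr A) e
        have h2 : (mGr A).s e = j := he
        rw [← h1, map_mul, h2, hqj, mul_zero]
      let Q : Fam K (mGr (delM A j)) I.ringCon.Quotient :=
        { p := fun x => q (vx K (mGr A) x.1)
          a := fun e => q (ed K (mGr A) (kerPhi A j e))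
          b := fun e => q (gh K (mGr A) (kerPhi A j e))
          vv := fun x => by rw [← map_mul, vx_vx]
          vw := fun x y hxy => by
            rw [← map_mul, vx_ne (fun h => hxy (Subtype.ext h)), map_zero]
          se := fun e => by
            rw [← map_mul]
            exact congrArg q (s_ed (G := mGr A) (kerPhi A j e))
          er := fun e => by
            rw [← map_mul]
            exact congrArg q (ed_r (G := mGr A) (kerPhi A j e))
          rg := fun e => by
            rw [← map_mul]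
            exact congrArg q (r_gh (G := mGr A) (kerPhi A j e))
          gs := fun e => by
            rw [← map_mul]
            exact congrArg q (gh_s (G := mGr A) (kerPhi A j e))
          ge := fun e => by
            rw [← map_mul]
            exact congrArg q (gh_ed (G := mGr A) (kerPhi A j e))
          gf := fun e f hef => by
            rw [← map_mul, gh_ed_ne (fun h => hef (kerPhi_inj A j h)), map_zero]
          ck := fun x T hT hne => by
            obtain ⟨e0, he0⟩ := hne
            have h1 : e0.1 = x := (hT e0).1 he0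
            rw [ck_sum (G := mGr A) x.1 (Finset.univ.filter fun e => e.1 = x.1)
              (fun e => by
                rw [Finset.mem_filter]; exact ⟨fun h => h.2, fun h => ⟨Finset.mem_univ _, h⟩⟩)
              ⟨kerPhi A j e0, by
                rw [Finset.mem_filter]
                exact ⟨Finset.mem_univ _, congrArg Subtype.val h1⟩⟩, map_sum]
            rw [← ker_sum (j := j) x (Finset.univ.filter fun e => e.1 = x.1)
              (fun e => by
                rw [Finset.mem_filter]; exact ⟨fun h => h.2, fun h => ⟨Finset.mem_univ _, h⟩⟩) T hT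
              (fun e => q (ed K (mGr A) e * gh K (mGr A) e))]
            · exact Finset.sum_congr rfl fun e _ => map_mul _ _ _
            · intro e _ h2
              rw [map_mul, hqr e h2, zero_mul]
          one := fun T hT => by
            rw [← map_one q, one_sum (G := mGr A) Finset.univ (fun x => Finset.mem_univ x), map_sum]
            symm
            apply Finset.sum_of_injOn (fun x : {x : V // x ≠ j} => x.1) Subtype.val_injective.injOn
            · intro x _
              exact Finset.mem_coe.2 (Finset.mem_univ _)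
            · intro x _ hx
              have h : x = j := by
                by_contra hc
                exact hx ⟨⟨x, hc⟩, Finset.mem_coe.2 (hT _), rfl⟩
              rw [h, hqj]
            · intro x _
              rfl }
      have hcomp : Q.lift.comp π = q := by
        apply hom_ext
        · intro x
          rw [AlgHom.comp_apply, hgv]
          by_cases h : x = j
          · rw [h, del_vx0, map_zero, hqj]
          · rw [del_vx h, Fam.lift_vx]
        · intro e
          rw [AlgHom.comp_apply, hge]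
          by_cases h : e.1 ≠ j ∧ e.2.1 ≠ j
          · rw [← kerPhi_ex A j e h, del_ed, Fam.lift_ed]
          · rw [del_ed0 h, map_zero]
            by_cases h1 : e.1 = j
            · exact (hqs e h1).symm
            · have h2 : e.2.1 = j := by
                by_contra hc
                exact h ⟨h1, hc⟩
              exact (hqr e h2).symm
        · intro e
          rw [AlgHom.comp_apply, hgg]
          by_cases h : e.1 ≠ j ∧ e.2.1 ≠ j
          · rw [← kerPhi_ex A j e h, del_gh, Fam.lift_gh]
          · rw [del_gh0 h, map_zero]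
            by_cases h1 : e.1 = j
            · exact (hqs' e h1).symm
            · have h2 : e.2.1 = j := by
                by_contra hc
                exact h ⟨h1, hc⟩
              exact (hqr' e h2).symm
      rw [← hq0, ← hcomp, AlgHom.comp_apply, ha, map_zero]
    · intro ha
      obtain ⟨n, x, y, rfl⟩ := mem_Jd.1 ha
      rw [map_sum]
      apply Finset.sum_eq_zero
      intro i _
      rw [map_mul, map_mul, hgv, del_vx0, mul_zero, zero_mul]

end Pool.Agent.Work.MP_2b4d3b_al
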