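import Pool.Agent.Work.MP_2b4d3b_al.WSc

/-!
MODULE WStruct. Structure of the ideal of a vertex j which emits no edge except at most one loop.
No-loop paths: inductive NP : V → Type, nil : NP j, cons (e) (h : source e ≠ j) (p : NP (range e)) :
NP (source e). X := Σ v, NP v. R := K if there is no loop at j, LaurentPolynomial K if there is one
(unit element T). Representation of LM K A on X →₀ R: vx v = projection to paths from v; ed e
(source ≠ j) = cons, gh e = uncons; the loop at j acts on nil by T, its ghost by T⁻¹. All relations hold
exactly (a path from v ≠ j is a cons; the only path from j is nil).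
c (v, p) := product of the ed along p, d := product of the gh in reverse, i : R → vx j A vx j the ring
hom K → (algebraMap) * vx j, resp. T ↦ loop, T⁻¹ ↦ ghost loop (LaurentPolynomial lift or sum over the
support). The span of the c x * i r contains vx j = c nil * i 1 and is stable under left
multiplication by the generators, so it is A vx j (LPA.ind); applying to the vector nil with
coefficient 1 (values in X →₀ R) shows injectivity of i. span_d: use the anti-automorphism (the
opposite version; star for the trivial involution starRingOfComm K exchanges c and d), or repeat.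
dc' : two different no-loop paths are incomparable or start differently: x* y = 0 unless equal.
K[T;T⁻¹] is a PID: localization of K[X] (LaurentPolynomial.isLocalization), not a field (1 + T is not
a unit or: T - 1 not invertible, e.g. by evaluation at 1).
reach_of_ne: nonzero vx x * a * vx j gives a path: the span of products of paths p q*.
(prove by induction that a vx j is a combination of c-type monomials with start x reaching j, or
more simply for all pairs: LPA.ind on the statement: vx x * a * vx y ≠ 0 implies that x and y reach a
common vertex; for y = j emitting only a loop this vertex is j.)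
-/

set_option linter.unusedVariables false
set_option linter.style.longLine false

namespace Pool.Agent.Work.MP_2b4d3b_al

open Matrix

universe u v w u' v' w'

theorem mGr_loop {V : Type} {A : V → V → ℕ} {j : V} (hj : ∀ y, y ≠ j → A j y = 0)
    (e : Σ x y : V, Fin (A x y)) (he : (mGr A).s e = j) : (mGr A).r e = j := by
  obtain ⟨x, y, k⟩ := e
  change x = j at he
  subst he
  change y = x
  by_contra hne
  have h1 := k.2
  have h2 := hj y hne
  omega

theorem exists_WD (K : Type u) [Field K] {V : Type} [Fintype V] [DecidableEq V] (A : V → V → ℕ)
    (j : V) (hj : ∀ y, y ≠ j → A j y = 0) (hj1 : A j j ≤ 1) :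
    ∃ (R : Type u) (_ : CommRing R) (_ : IsDomain R) (_ : IsPrincipalIdealRing R) (X : Type)
      (D : WD (LM K A) R X), D.w = vx K (mGr A) j ∧ (A j j = 0 ↔ IsField R) := by
  rcases Nat.lt_or_ge 0 (A j j) with h1 | h0
  · have h1' : A j j = 1 := le_antisymm hj1 h1
    obtain ⟨D, hD⟩ := WS.build1 (G := mGr A) (j := j) K (mGr_loop hj) (by
      rintro ⟨x, y, k⟩ ⟨x', y', k'⟩ he hf
      have hy := mGr_loop hj _ he
      have hy' := mGr_loop hj _ hf
      change x = j at he
      change x' = j at hf
      change y = j at hy
      change y' = j at hy'
      subst he hf hy hy'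
      have : k = k' := by
        apply Fin.ext
        have a1 := k.2
        have a2 := k'.2
        omega
      rw [this]) ⟨j, j, ⟨0, h1⟩⟩ rfl
    refine ⟨_, inferInstance, WS.lau_domain K, WS.lau_pid K, _, D, hD, ?_⟩
    constructor
    · intro h; omega
    · intro h; exact absurd h (WS.lau_not_field K)
  · obtain ⟨D, hD⟩ := WS.build0 (G := mGr A) (j := j) K (by
      intro e he
      have hy := mGr_loop hj _ he
      obtain ⟨x, y, k⟩ := e
      change x = j at he
      change y = j at hy
      subst he hy
      have := k.2
      omega)
    exact ⟨K, inferInstance, inferInstance, inferInstance, _, D, hD,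
      ⟨fun _ => Field.toIsField K, fun _ => by omega⟩⟩

theorem GRch_mGr {V : Type} {A : V → V → ℕ} {x y : V} (h : GRch (mGr A) x y) : Rch A x y := by
  induction h with
  | refl => exact Relation.ReflTransGen.refl
  | tail _ h1 ih =>
    obtain ⟨⟨a, b, k⟩, rfl, rfl⟩ := h1
    refine ih.tail ?_
    have := k.2
    change A a b ≠ 0
    omega

theorem reach_of_ne {K : Type u} [Field K] {V : Type} [Fintype V] [DecidableEq V]
    {A : V → V → ℕ} (j : V) (hj : ∀ y, y ≠ j → A j y = 0) (x : V) (a : LM K A)
    (h : vx K (mGr A) x * a * vx K (mGr A) j ≠ 0) : Rch A x j :=
  GRch_mGr (WS.reach_ne K (mGr_loop hj) x a h)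

end Pool.Agent.Work.MP_2b4d3b_al
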