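import Pool.Agent.Work.MP_2b4d3b_al.Cancel
import Pool.Agent.Work.MP_2b4d3b_al.WStruct
import Pool.Agent.Work.MP_2b4d3b_al.Ker
import Pool.Agent.Work.MP_2b4d3b_al.MonEasy
import Pool.Agent.Work.MP_2b4d3b_al.MonChar

/-!
MODULE Surj. Every idempotent matrix over the algebra of a reduced matrix is equivalent to a vertex
sum. Induction on the number of vertices (generalize V, A, m, p). No vertex: the ring is trivial.
Choose j with ρ j minimal (Reduced): A j y = 0 for y ≠ j. π from exists_quot, p̄ = p.map π ~ vs n̄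
over the quotient; n := n̄ extended by 0 at j. Lift x̄, ȳ (normalised: p̄ x̄ q̄ = x̄ ...) to x, y, replace by
p x q, q y p where q = vs n (index types: {x // x ≠ j} and V give equivalent Sigma types; use
IdEq.reindex for the quotient). p - x y and q - y x have entries in Jd (vx j) (kernel of π). WD.ext
(D from exists_WD): p + b w ~ q + a w. If b ≤ a cancel b: p ~ q + (a - b) w = vs (n + single j (a - b))
(vs_add, vs_single). If b > a cancel a: p + c w ~ q with c = b - a > 0. So a nonzero matrix entry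
vx x * _ * vx j exists with x in the support of n (otherwise w = 0 in the ring; w ≠ 0 by D.inj and
R nontrivial), so Rch A x j (reach_of_ne), x ≠ j; Meq.reach: n ~ n + r + single j c; MonEasy:
p + c w ~ vs (n + r) + c w, cancel: p ~ vs (n + r).
-/

set_option linter.unusedVariables false
set_option linter.style.longLine false

namespace Pool.Agent.Work.MP_2b4d3b_al

open Matrix

universe u v w u' v' w'

/-- a function on the vertices different from j, extended by 0 -/
def exn {V : Type} [DecidableEq V] (j : V) (n : {x : V // x ≠ j} → ℕ) : V → ℕ :=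
  fun x => if h : x ≠ j then n ⟨x, h⟩ else 0

theorem exn_self {V : Type} [DecidableEq V] (j : V) (n : {x : V // x ≠ j} → ℕ) : exn j n j = 0 := by
  simp [exn]

theorem exn_ne {V : Type} [DecidableEq V] (j : V) (n : {x : V // x ≠ j} → ℕ) (x : V) (h : x ≠ j) :
    exn j n x = n ⟨x, h⟩ := by
  simp [exn, h]

theorem exn_res {V : Type} [DecidableEq V] (j : V) (n : V → ℕ) :
    exn j (fun x => n x.1) + Pi.single j (n j) = n := by
  funext x
  by_cases h : x = j
  · subst h
    simp [exn_self]
  · simp [exn_ne _ _ _ h, Pi.single_eq_of_ne h]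

/-- the vertex sum of the quotient is the image of the vertex sum -/
theorem map_vs_exn {K : Type u} [Field K] {V : Type} [Fintype V] [DecidableEq V]
    (A : V → V → ℕ) (j : V) (π : LM K A →ₐ[K] LM K (delM A j))
    (hπ : ∀ g, π (gen K (mGr A) g) = delFn K A j g) (n : {x : V // x ≠ j} → ℕ) :
    IdEq (vs K (delM A j) n) ((vs K A (exn j n)).map π) := by
  have h0 : (vs K A (exn j n)).map π =
      Matrix.diagonal (fun a : Σ x : V, Fin (exn j n x) => π (vx K (mGr A) a.1)) := by
    unfold vs
    rw [Matrix.diagonal_map (map_zero π)]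
  rw [h0]
  let f : (Σ x : {x : V // x ≠ j}, Fin (n x)) → (Σ x : V, Fin (exn j n x)) :=
    fun a => ⟨a.1.1, Fin.cast (exn_ne j n a.1.1 a.1.2).symm a.2⟩
  have hf : Function.Bijective f := by
    constructor
    · rintro ⟨⟨x, hx⟩, i⟩ ⟨⟨y, hy⟩, k⟩ h
      have h1 : x = y := congrArg Sigma.fst h
      subst h1
      have h2 := eq_of_heq (Sigma.mk.inj h).2
      have h3 : i = k := by
        have := congrArg Fin.val h2
        exact Fin.ext this
      rw [h3]
    · rintro ⟨x, i⟩
      by_cases hx : x = j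
      · exfalso
        subst hx
        have h1 := i.2
        have h2 := exn_self x n
        omega
      · exact ⟨⟨⟨x, hx⟩, Fin.cast (exn_ne j n x hx) i⟩, rfl⟩
  refine IdEq.diag _ _ (fun a => vx_vx _) (Equiv.ofBijective f hf) fun a => ?_
  change π (gen K (mGr A) (.vx a.1.1)) = _
  rw [hπ]
  have := a.1.2
  simp only [delFn, dif_pos this]

theorem WD.w_ne {A : Type u} [Ring A] {R : Type v} [CommRing R] [Nontrivial R] {X : Type w}
    (D : WD A R X) : D.w ≠ 0 := by
  intro h
  have h1 : D.i 1 = D.i 0 := by rw [D.i_one, D.i_zero, h]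
  exact one_ne_zero (D.inj h1)

theorem exists_j {V : Type} [Fintype V] [Nonempty V] {A : V → V → ℕ} (hA : Reduced A) :
    ∃ j, (∀ y, y ≠ j → A j y = 0) ∧ A j j ≤ 1 := by
  obtain ⟨⟨ρ, h1⟩, h2, h3⟩ := hA
  obtain ⟨j, hj⟩ := Finite.exists_min ρ
  refine ⟨j, fun y hy => ?_, h2 j⟩
  by_contra h
  exact absurd (h1 j y (fun e => hy e.symm) h) (not_lt.2 (hj y))

theorem vs_add_single {K : Type u} [Field K] {V : Type} [Fintype V] [DecidableEq V] (A : V → V → ℕ)
    (n : V → ℕ) (j : V) (k : ℕ) :
    IdEq (vs K A (n + Pi.single j k)) (bs (vs K A n) (wk (vx K (mGr A) j) k)) :=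
  (vs_add _ _).trans (IdEq.bsum (IdEq.refl (vs_idem n)) (vs_single j k))

/-- moving part of a multiple of w -/
theorem bs_wk_sub {R : Type u} [Ring R] {m : Type v} [Fintype m] {q : Matrix m m R} (hq : q * q = q)
    {r : R} (h : r * r = r) {a b : ℕ} (hab : b ≤ a) :
    IdEq (bs q (wk r a)) (bs (bs q (wk r (a - b))) (wk r b)) := by
  have h2 : IdEq (wk r a) (bs (wk r (a - b)) (wk r b)) := by
    obtain ⟨c, rfl⟩ : ∃ c, a = c + b := ⟨a - b, by omega⟩
    rw [Nat.add_sub_cancel]
    exact IdEq.wk_add h _ _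
  exact (IdEq.bsum (IdEq.refl hq) h2).trans
    (IdEq.bs_assoc hq (wk_idem h _) (wk_idem h _)).symm

/-- if a vertex sum contains a copy of vx j then j can be reached from its support -/
theorem reach_of_bs {K : Type u} [Field K] {V : Type} [Fintype V] [DecidableEq V]
    {A : V → V → ℕ} (j : V) (hj : ∀ y, y ≠ j → A j y = 0) (hw : vx K (mGr A) j ≠ 0)
    {m : Type v} [Fintype m] [DecidableEq m] (p : Matrix m m (LM K A)) (c : ℕ) (hc : 0 < c)
    (n : V → ℕ) (h : IdEq (bs p (wk (vx K (mGr A) j) c)) (vs K A n)) :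
    ∃ x, n x ≠ 0 ∧ Rch A x j := by
  obtain ⟨X, Y, h1, h2, h3, h4, h5, h6⟩ := h.out
  have e1 : (X * Y) (Sum.inr ⟨0, hc⟩) (Sum.inr ⟨0, hc⟩) = vx K (mGr A) j := by
    rw [h1]
    simp [bs, wk]
  rw [Matrix.mul_apply] at e1
  have h7 : ∃ t ∈ Finset.univ, X (Sum.inr ⟨0, hc⟩) t * Y t (Sum.inr ⟨0, hc⟩) ≠ 0 := by
    apply Finset.exists_ne_zero_of_sum_ne_zero
    rw [e1]
    exact hw
  obtain ⟨t, -, ht⟩ := h7
  have h8 : Y t (Sum.inr ⟨0, hc⟩) ≠ 0 := fun h => ht (by rw [h, mul_zero])
  have e2 : Y t (Sum.inr ⟨0, hc⟩) = vx K (mGr A) t.1 * Y t (Sum.inr ⟨0, hc⟩) := by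
    conv_lhs => rw [← h5]
    rw [vs, Matrix.diagonal_mul]
  have e3 : Y t (Sum.inr ⟨0, hc⟩) = Y t (Sum.inr ⟨0, hc⟩) * vx K (mGr A) j := by
    conv_lhs => rw [← h6]
    rw [Matrix.mul_apply, Fintype.sum_sum_type]
    simp [bs, wk, Matrix.diagonal_apply]
  refine ⟨t.1, ?_, reach_of_ne (K := K) j hj t.1 (Y t (Sum.inr ⟨0, hc⟩)) ?_⟩
  · have := t.2.2
    omega
  · rw [← e2, ← e3]
    exact h8

private theorem surj_aux (K : Type u) [Field K] : ∀ (N : ℕ) (V : Type) [Fintype V] [DecidableEq V]
    (A : V → V → ℕ) (hA : Reduced A) {m : Type v} [Fintype m] [DecidableEq m]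
    (p : Matrix m m (LM K A)) (hp : p * p = p), Fintype.card V ≤ N →
    ∃ n : V → ℕ, IdEq p (vs K A n) := by
  intro N
  induction N with
  | zero =>
    intro V _ _ A hA m _ _ p hp hN
    have hV : IsEmpty V := Fintype.card_eq_zero_iff.1 (by omega)
    have h1 : (1 : LM K A) = 0 := by
      rw [one_sum (K := K) (G := mGr A) (∅ : Finset V) (fun x => (hV.false x).elim)]
      simp
    have h2 : Subsingleton (LM K A) := subsingleton_of_zero_eq_one h1.symm
    exact ⟨0, 0, 0, Matrix.ext fun _ _ => Subsingleton.elim _ _,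
      Matrix.ext fun _ _ => Subsingleton.elim _ _, Matrix.ext fun _ _ => Subsingleton.elim _ _,
      Matrix.ext fun _ _ => Subsingleton.elim _ _⟩
  | succ N ih =>
    intro V _ _ A hA m _ _ p hp hN
    rcases isEmpty_or_nonempty V with hV | hV
    · exact ih V A hA p hp (by rw [Fintype.card_eq_zero]; omega)
    obtain ⟨j, hj, hj1⟩ := exists_j hA
    obtain ⟨R, _, _, _, X, D, hDw, -⟩ := exists_WD K A j hj hj1
    obtain ⟨π, hπ, hsurj, hker⟩ := exists_quot K A hA j hj
    have hcard : Fintype.card {x : V // x ≠ j} ≤ N := by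
      have := Fintype.card_subtype_lt (p := fun x : V => x ≠ j) (x := j) (by simp)
      omega
    have hpb : (p.map π) * (p.map π) = p.map π := by
      rw [← Matrix.map_mul, hp]
    obtain ⟨nb, hnb⟩ := ih {x : V // x ≠ j} (delM A j) (delM_reduced A hA j) (p.map π) hpb hcard
    have h0 := hnb.trans (map_vs_exn A j π hπ nb)
    have hnj : exn j nb j = 0 := exn_self j nb
    generalize exn j nb = n at h0 hnj
    have hq : vs K A n * vs K A n = vs K A n := vs_idem n
    obtain ⟨xb, yb, h1, h2, h3, h4, h5, h6⟩ := h0.out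
    choose s hs using hsurj
    have hxs : (xb.map s).map π = xb := by
      ext a b
      exact hs _
    have hys : (yb.map s).map π = yb := by
      ext a b
      exact hs _
    set x := p * (xb.map s) * vs K A n with hx
    set y := vs K A n * (yb.map s) * p with hy
    have hxm : x.map π = xb := by
      rw [hx, Matrix.map_mul, Matrix.map_mul, hxs, h3, h4]
    have hym : y.map π = yb := by
      rw [hy, Matrix.map_mul, Matrix.map_mul, hys, h5, h6]
    have k1 : ∀ a b, (p - x * y) a b ∈ Jd D.w := by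
      intro a b
      rw [hDw, ← hker]
      have h7 : (p - x * y).map π = 0 := by
        rw [Matrix.map_sub π (map_sub π), Matrix.map_mul, hxm, hym, h1, sub_self]
      exact congrFun (congrFun h7 a) b
    have k2 : ∀ a b, (vs K A n - y * x) a b ∈ Jd D.w := by
      intro a b
      rw [hDw, ← hker]
      have h7 : (vs K A n - y * x).map π = 0 := by
        rw [Matrix.map_sub π (map_sub π), Matrix.map_mul, hxm, hym, h2, sub_self]
      exact congrFun (congrFun h7 a) b
    obtain ⟨a, b, hab⟩ := D.ext p (vs K A n) hp hq x y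
      (by rw [hx]; simp only [Matrix.mul_assoc, hq]; rw [← Matrix.mul_assoc p p, hp])
      (by rw [hy]; simp only [Matrix.mul_assoc, hp]; rw [← Matrix.mul_assoc (vs K A n) (vs K A n), hq])
      k1 k2
    rcases le_or_gt b a with hle | hlt
    · have e1 : IdEq p (bs (vs K A n) (wk D.w (a - b))) :=
        D.cancel hp (bs_idem hq (wk_idem D.ww _)) b (hab.trans (bs_wk_sub hq D.ww hle))
      refine ⟨n + Pi.single j (a - b), e1.trans ?_⟩
      rw [hDw]
      exact (vs_add_single A n j (a - b)).symm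
    · have e1 : IdEq (bs p (wk D.w (b - a))) (vs K A n) :=
        D.cancel (bs_idem hp (wk_idem D.ww _)) hq a
          ((bs_wk_sub hp D.ww hlt.le).symm.trans hab)
      have hw : vx K (mGr A) j ≠ 0 := by
        rw [← hDw]
        exact D.w_ne
      rw [hDw] at e1
      obtain ⟨z, hz1, hz2⟩ := reach_of_bs j hj hw p (b - a) (by omega) n e1
      have hzj : z ≠ j := by
        rintro rfl
        exact hz1 hnj
      obtain ⟨r, hr⟩ := Meq.reach hA z j hz2 hzj n hz1 (b - a)
      have e2 : IdEq (vs K A n) (vs K A (n + r + Pi.single j (b - a))) := MonEasy hr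
      have e3 := (e1.trans e2).trans (vs_add_single A (n + r) j (b - a))
      rw [← hDw] at e3
      exact ⟨n + r, D.cancel hp (vs_idem _) (b - a) e3⟩

theorem surj {K : Type u} [Field K] {V : Type} [Fintype V] [DecidableEq V] (A : V → V → ℕ)
    (hA : Reduced A) {m : Type v} [Fintype m] [DecidableEq m] (p : Matrix m m (LM K A))
    (hp : p * p = p) : ∃ n : V → ℕ, IdEq p (vs K A n) :=
  surj_aux K (Fintype.card V) V A hA p hp le_rfl

end Pool.Agent.Work.MP_2b4d3b_al
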