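import Pool.Agent.Work.MP_2b4d3b_al.IndexL
import Pool.Agent.Work.MP_2b4d3b_al.Cancel
import Pool.Agent.Work.MP_2b4d3b_al.WStruct
import Pool.Agent.Work.MP_2b4d3b_al.MonEasy
import Pool.Agent.Work.MP_2b4d3b_al.MonChar
import Pool.Agent.Work.MP_2b4d3b_al.Surj

/-!
MODULE Inj. Vertex sums that are equivalent over the algebra are equal in the graph monoid.
Induction on card V (generalize V, A, n, m); no vertex: n = m. Choose j with ρ j minimal, π from
exists_quot. Applying π: vs n̄ ~ vs m̄ over LM K (delM A j) (the diagonal entries vx j become 0: use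
IdEq lemmas to drop them), so by induction Meq (delM A j) n̄ m̄. A step of delM A j lifts to a step of A
that also adds a multiple of single j, so there are a, b with
Meq A (n + single j a) (m + single j b). By MonEasy and vs n ~ vs m:
vs m + a w ~ vs n + a w ~ vs m + b w. Say a ≤ b (the other case is symmetric, exchange n and m: use
vs n instead): cancel a (WD.cancel, exists_WD): vs m ~ vs (m + single j (b - a)). Write
m = m0 + single j (m j) with m0 j = 0 and cancel m j copies of w: vs m0 ~ vs (m0 + single j (b - a)).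
index_lemma and Meq.char (if b > a then j is in Hs m0, since some κ x ≠ 0 with off A x j ≠ 0):
Meq A m0 (m0 + single j (b - a)), so Meq A m (m + single j (b - a)), so
n + single j a ~ m + single j b ~ m + single j a, and Meq.cancel gives n ~ m.
-/

set_option linter.unusedVariables false
set_option linter.style.longLine false

namespace Pool.Agent.Work.MP_2b4d3b_al

open Matrix

universe u v w u' v' w'

private theorem inj_bs_zero {A : Type u} [Ring A] {m : Type v'} {n : Type w'} [Fintype m]
    [Fintype n] (t : Matrix n n A) (ht : t * t = t) : IdEq (bs t (0 : Matrix m m A)) t := by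
  refine IdEq.mk' (bs_idem ht (by simp)) ht (Matrix.fromRows t 0) (Matrix.fromCols t 0) ?_ ?_
  · rw [Matrix.fromRows_mul_fromCols]
    unfold bs
    simp [ht]
  · rw [Matrix.fromCols_mul_fromRows]
    simp [ht]

/-- the image of a vertex sum in the quotient -/
theorem map_vs_res {K : Type u} [Field K] {V : Type} [Fintype V] [DecidableEq V]
    (A : V → V → ℕ) (j : V) (π : LM K A →ₐ[K] LM K (delM A j))
    (hπ : ∀ g, π (gen K (mGr A) g) = delFn K A j g) (n : V → ℕ) :
    IdEq (vs K (delM A j) (fun x => n x.1)) ((vs K A n).map π) := by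
  have h1 := vs_add_single (K := K) A (exn j (fun x => n x.1)) j (n j)
  rw [exn_res] at h1
  have h2 := IdEq.map (π : LM K A →ₙ+* LM K (delM A j)) h1
  have hw : π (vx K (mGr A) j) = 0 := by
    change π (gen K (mGr A) (.vx j)) = _
    rw [hπ]
    simp [delFn]
  have h3 : (bs (vs K A (exn j (fun x => n x.1))) (wk (vx K (mGr A) j) (n j))).map π =
      bs ((vs K A (exn j (fun x => n x.1))).map π) (0 : Matrix (Fin (n j)) (Fin (n j)) _) := by
    unfold bs
    rw [Matrix.fromBlocks_map]
    congr 1
    · ext a b
      simp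
    · ext a b
      simp
    · ext a b
      simp only [wk, Matrix.map_apply, Matrix.diagonal_apply, Matrix.zero_apply]
      split_ifs
      · exact hw
      · exact map_zero π
  have h4 : IdEq ((vs K A n).map π)
      (bs ((vs K A (exn j (fun x => n x.1))).map π) (0 : Matrix (Fin (n j)) (Fin (n j)) _)) := by
    rw [← h3]
    exact h2
  have h5 : (vs K A (exn j (fun x => n x.1))).map π * (vs K A (exn j (fun x => n x.1))).map π =
      (vs K A (exn j (fun x => n x.1))).map π := by
    rw [← Matrix.map_mul, vs_idem]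
  exact (map_vs_exn A j π hπ (fun x => n x.1)).trans ((inj_bs_zero _ h5).symm.trans h4.symm)

private theorem exn_add {V : Type} [DecidableEq V] (j : V) (n m : {x : V // x ≠ j} → ℕ) :
    exn j (n + m) = exn j n + exn j m := by
  funext x
  by_cases h : x = j
  · subst h
    simp [exn_self]
  · simp [exn_ne _ _ _ h]

/-- lifting equalities in the graph monoid of the quotient -/
theorem Meq.lift_del {V : Type} [Fintype V] [DecidableEq V] (A : V → V → ℕ) (j : V)
    {n m : {x : V // x ≠ j} → ℕ} (h : Meq (delM A j) n m) :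
    ∃ a b, Meq A (exn j n + Pi.single j a) (exn j m + Pi.single j b) := by
  induction h with
  | rel n m h =>
    obtain ⟨x, h1, h2, rfl⟩ := h
    refine ⟨0, off A x.1 j, Relation.EqvGen.rel _ _ ⟨x.1, ?_, h2, ?_⟩⟩
    · rw [Pi.single_zero, add_zero, exn_ne j n x.1 x.2]
      exact h1
    · funext y
      by_cases h : y = j
      · subst h
        simp [exn_self]
      · simp only [Pi.add_apply, exn_ne _ _ _ h, Pi.single_eq_of_ne h, add_zero]
        congr 1
        unfold off delM
        by_cases hxy : x.1 = y
        · rw [if_pos hxy, if_pos (Subtype.ext hxy)]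
        · rw [if_neg hxy, if_neg (fun e => hxy (congrArg Subtype.val e))]
  | refl n => exact ⟨0, 0, Relation.EqvGen.refl _⟩
  | symm n m h ih =>
    obtain ⟨a, b, h⟩ := ih
    exact ⟨b, a, Relation.EqvGen.symm _ _ h⟩
  | trans n m l h1 h2 ih1 ih2 =>
    obtain ⟨a, b, k1⟩ := ih1
    obtain ⟨c, d, k2⟩ := ih2
    refine ⟨a + c, d + b, ?_⟩
    have k3 := Meq.add (Pi.single j c) k1
    have k4 := Meq.add (Pi.single j b) k2
    rw [add_assoc, ← Pi.single_add] at k3 k4
    rw [add_assoc, ← Pi.single_add] at k3 k4
    refine Relation.EqvGen.trans _ _ _ k3 ?_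
    rw [add_comm b c]
    exact k4

private theorem inj_hs {V : Type} [Fintype V] [DecidableEq V] {A : V → V → ℕ} (hA : Reduced A)
    (j : V) (n : V → ℕ) (c : ℕ) (κ : V → ℤ) (h1 : ∀ x, κ x ≠ 0 → x ∈ Hs A n)
    (h2 : ∀ y, (((Pi.single j c : V → ℕ) y : ℕ) : ℤ) = ∑ x, κ x * (off A x y : ℤ)) :
    Meq A n (n + Pi.single j c) := by
  rw [Meq.char hA]
  refine ⟨?_, κ, h1, fun y => ?_⟩
  · rcases Nat.eq_zero_or_pos c with hc | hc
    · subst hc
      rw [Pi.single_zero, add_zero]
    · have h3 := h2 j
      rw [Pi.single_eq_same] at h3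
      have h4 : ∃ x ∈ Finset.univ, κ x * (off A x j : ℤ) ≠ 0 := by
        apply Finset.exists_ne_zero_of_sum_ne_zero
        rw [← h3]
        exact_mod_cast hc.ne'
      obtain ⟨x, -, hx⟩ := h4
      have hx1 : κ x ≠ 0 := left_ne_zero_of_mul hx
      have hx2 : off A x j ≠ 0 := by exact_mod_cast right_ne_zero_of_mul hx
      have hx3 : A x j ≠ 0 := by
        intro h
        apply hx2
        unfold off
        split_ifs
        · rfl
        · exact h
      obtain ⟨z, hz, hzx⟩ := h1 x hx1
      ext y
      constructor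
      · rintro ⟨t, ht, hty⟩
        exact ⟨t, by simp only [Pi.add_apply]; omega, hty⟩
      · rintro ⟨t, ht, hty⟩
        by_cases hn : n t = 0
        · have htj : t = j := by
            by_contra hne
            apply ht
            rw [Pi.add_apply, hn, Pi.single_eq_of_ne hne, add_zero]
          subst htj
          exact ⟨z, hz, (hzx.tail hx3).trans hty⟩
        · exact ⟨t, hn, hty⟩
  · rw [← h2 y]
    push_cast [Pi.add_apply]
    ring

private theorem inj_aux2 {K : Type u} [Field K] {V : Type} [Fintype V] [DecidableEq V]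
    {A : V → V → ℕ} (hA : Reduced A) (j : V) (hj : ∀ y, y ≠ j → A j y = 0) (hj1 : A j j ≤ 1)
    (n m : V → ℕ) (a b : ℕ) (hab : a ≤ b)
    (hM : Meq A (n + Pi.single j a) (m + Pi.single j b)) (h : IdEq (vs K A n) (vs K A m)) :
    Meq A n m := by
  obtain ⟨R, _, _, _, X, D, hDw, -⟩ := exists_WD K A j hj hj1
  obtain ⟨c, rfl⟩ : ∃ c, b = c + a := ⟨b - a, by omega⟩
  have hww : vx K (mGr A) j * vx K (mGr A) j = vx K (mGr A) j := vx_vx j
  have e1 : IdEq (vs K A m) (vs K A (m + Pi.single j c)) := by
    refine D.cancel (vs_idem _) (vs_idem _) a ?_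
    rw [hDw]
    have k1 := (vs_add_single (K := K) A n j a).symm.trans (MonEasy hM)
    have k2 := (IdEq.bsum h.symm (IdEq.refl (wk_idem hww a))).trans k1
    rw [Pi.single_add, ← add_assoc] at k2
    exact k2.trans (vs_add_single A _ j a)
  have hm0 : exn j (fun x => m x.1) j = 0 := exn_self j _
  have hmm : exn j (fun x => m x.1) + Pi.single j (m j) = m := exn_res j m
  generalize exn j (fun x => m x.1) = m0 at hm0 hmm
  have e2 : IdEq (vs K A m0) (vs K A (m0 + Pi.single j c)) := by
    refine D.cancel (vs_idem _) (vs_idem _) (m j) ?_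
    rw [hDw]
    refine (vs_add_single A m0 j (m j)).symm.trans ?_
    refine IdEq.trans ?_ (vs_add_single A (m0 + Pi.single j c) j (m j))
    rw [add_right_comm, hmm]
    exact e1
  obtain ⟨κ, k1, k2⟩ := index_lemma K A hA j hj m0 hm0 c e2
  have e3 := Meq.add (Pi.single j (m j)) (inj_hs hA j m0 c κ k1 k2)
  rw [add_right_comm, hmm] at e3
  apply Meq.cancel hA j hj n m a
  refine Relation.EqvGen.trans _ _ _ hM ?_
  rw [Pi.single_add, ← add_assoc]
  exact Meq.add (Pi.single j a) (Relation.EqvGen.symm _ _ e3)

private theorem inj_aux (K : Type u) [Field K] : ∀ (N : ℕ) (V : Type) [Fintype V] [DecidableEq V]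
    (A : V → V → ℕ) (hA : Reduced A) (n m : V → ℕ) (h : IdEq (vs K A n) (vs K A m)),
    Fintype.card V ≤ N → Meq A n m := by
  intro N
  induction N with
  | zero =>
    intro V _ _ A hA n m h hN
    have hV : IsEmpty V := Fintype.card_eq_zero_iff.1 (by omega)
    have h1 : n = m := funext fun x => (hV.false x).elim
    rw [h1]
    exact Relation.EqvGen.refl _
  | succ N ih =>
    intro V _ _ A hA n m h hN
    rcases isEmpty_or_nonempty V with hV | hV
    · exact ih V A hA n m h (by rw [Fintype.card_eq_zero]; omega)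
    obtain ⟨j, hj, hj1⟩ := exists_j hA
    obtain ⟨π, hπ, hsurj, hker⟩ := exists_quot K A hA j hj
    have hcard : Fintype.card {x : V // x ≠ j} ≤ N := by
      have := Fintype.card_subtype_lt (p := fun x : V => x ≠ j) (x := j) (by simp)
      omega
    have h1 : IdEq ((vs K A n).map π) ((vs K A m).map π) :=
      IdEq.map (π : LM K A →ₙ+* LM K (delM A j)) h
    have h2 := (map_vs_res A j π hπ n).trans (h1.trans (map_vs_res A j π hπ m).symm)
    have h3 := ih {x : V // x ≠ j} (delM A j) (delM_reduced A hA j) _ _ h2 hcard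
    obtain ⟨a, b, h4⟩ := h3.lift_del
    have h5 := Meq.add (Pi.single j (n j + m j)) h4
    have e1 : exn j (fun x => n x.1) + Pi.single j a + Pi.single j (n j + m j) =
        n + Pi.single j (a + m j) := by
      conv_rhs => rw [← exn_res j n]
      rw [add_assoc, add_assoc, ← Pi.single_add, ← Pi.single_add]
      congr 2
      omega
    have e2 : exn j (fun x => m x.1) + Pi.single j b + Pi.single j (n j + m j) =
        m + Pi.single j (b + n j) := by
      conv_rhs => rw [← exn_res j m]
      rw [add_assoc, add_assoc, ← Pi.single_add, ← Pi.single_add]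
      congr 2
      omega
    rw [e1, e2] at h5
    rcases le_total (a + m j) (b + n j) with hle | hle
    · exact inj_aux2 hA j hj hj1 n m _ _ hle h5 h
    · exact Relation.EqvGen.symm _ _
        (inj_aux2 hA j hj hj1 m n _ _ hle (Relation.EqvGen.symm _ _ h5) h.symm)

theorem inj {K : Type u} [Field K] {V : Type} [Fintype V] [DecidableEq V] (A : V → V → ℕ)
    (hA : Reduced A) (n m : V → ℕ) (h : IdEq (vs K A n) (vs K A m)) : Meq A n m :=
  inj_aux K (Fintype.card V) V A hA n m h le_rfl

end Pool.Agent.Work.MP_2b4d3b_al
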