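import Pool.Agent.Work.MP_2b4d3b_al.Defs

/-!
Part of MODULE DCInv (helper21). Representations of the algebra of an arbitrary graph in which no
vertex acts as zero; finiteness of the edge set under algebra isomorphism.
-/

set_option linter.unusedVariables false
set_option linter.style.longLine false

namespace Pool.Agent.Work.MP_2b4d3b_al

open Matrix

universe u v w u' v' w'

namespace RJ

theorem exists_j {V : Type v} {E : Type w} (G : Gr V E) :
    ∃ j : E → (ℕ ⊕ E) → (ℕ ⊕ E), (∀ e n m, j e n = j e m → n = m) ∧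
      (∀ e f n m, G.s e = G.s f → j e n = j f m → e = f) ∧
      ∀ x m, (∃ e, G.s e = x) → ∃ e n, G.s e = x ∧ j e n = m := by
  classical
  have hβ : ∀ x : V, (∃ e, G.s e = x) → Nonempty ({e : E // G.s e = x} × (ℕ ⊕ E) ≃ (ℕ ⊕ E)) := by
    intro x ⟨e, he⟩
    have : Nonempty {e : E // G.s e = x} := ⟨⟨e, he⟩⟩
    apply Cardinal.eq.1
    rw [Cardinal.mk_prod, Cardinal.lift_id, Cardinal.lift_id]
    apply Cardinal.mul_eq_right
    · exact Cardinal.aleph0_le_mk _
    · exact (Cardinal.mk_subtype_le _).trans (Cardinal.mk_le_of_injective (f := Sum.inr)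
        Sum.inr_injective)
    · exact Cardinal.mk_ne_zero _
  let β : ∀ x : V, (∃ e, G.s e = x) → ({e : E // G.s e = x} × (ℕ ⊕ E) ≃ (ℕ ⊕ E)) :=
    fun x hx => (hβ x hx).some
  refine ⟨fun e n => β (G.s e) ⟨e, rfl⟩ (⟨e, rfl⟩, n), ?_, ?_, ?_⟩
  · intro e n m h
    have := (β (G.s e) ⟨e, rfl⟩).injective h
    exact (Prod.ext_iff.1 this).2
  · intro e f n m hs h
    have key : ∀ (x : V) (hx : ∃ e, G.s e = x) (hx' : ∃ e, G.s e = x) (u u' : {e : E // G.s e = x}),
        β x hx (u, n) = β x hx' (u', m) → u = u' := by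
      intro x hx hx' u u' hh
      exact (Prod.ext_iff.1 ((β x hx).injective hh)).1
    have h2 : β (G.s e) ⟨e, rfl⟩ (⟨e, rfl⟩, n) = β (G.s e) ⟨e, rfl⟩ (⟨f, hs.symm⟩, m) := by
      refine h.trans ?_
      have gen : ∀ (x : V) (hx : G.s f = x) (h1 : ∃ e, G.s e = G.s f) (h2 : ∃ e, G.s e = x),
          β (G.s f) h1 (⟨f, rfl⟩, m) = β x h2 (⟨f, hx⟩, m) := by
        intro x hx h1 h2
        subst hx
        rfl
      exact gen _ hs.symm ⟨f, rfl⟩ ⟨e, rfl⟩
    exact congrArg Subtype.val (key _ ⟨e, rfl⟩ ⟨e, rfl⟩ _ _ h2)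
  · intro x m hx
    obtain ⟨⟨⟨e, he⟩, n⟩, hu⟩ := (β x hx).surjective m
    subst he
    exact ⟨e, n, rfl, hu⟩

/-- the representation attached to j -/
theorem exists_fam (K : Type u) [Field K] {V : Type v} {E : Type w} (G : Gr V E) {I : Type w'}
    (j : E → I → I) (j1 : ∀ e n m, j e n = j e m → n = m)
    (j2 : ∀ e f n m, G.s e = G.s f → j e n = j f m → e = f)
    (j3 : ∀ x m, (∃ e, G.s e = x) → ∃ e n, G.s e = x ∧ j e n = m) :
    ∃ F : Fam K G (Module.End K ((V × I) →₀ K)),
      (∀ x n, F.p x (Finsupp.single (x, n) 1) = Finsupp.single (x, n) 1) ∧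
      (∀ x y n, y ≠ x → F.p x (Finsupp.single (y, n) 1) = 0) ∧
      (∀ e n, F.a e (Finsupp.single (G.r e, n) 1) = Finsupp.single (G.s e, j e n) 1) ∧
      (∀ e x n, x ≠ G.r e → F.a e (Finsupp.single (x, n) 1) = 0) ∧
      (∀ e n, F.b e (Finsupp.single (G.s e, j e n) 1) = Finsupp.single (G.r e, n) 1) ∧
      (∀ e y, ¬ (y.1 = G.s e ∧ ∃ n, j e n = y.2) → F.b e (Finsupp.single y 1) = 0) := by
  classical
  let Y := V × I
  let Lg : (Y → (Y →₀ K)) → Module.End K (Y →₀ K) := fun f => Finsupp.linearCombination K f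
  have Ls : ∀ f y r, Lg f (Finsupp.single y r) = r • f y := fun f y r => by simp [Lg]
  have ext : ∀ f g : Module.End K (Y →₀ K),
      (∀ y, f (Finsupp.single y 1) = g (Finsupp.single y 1)) → f = g := by
    intro f g h
    apply Finsupp.lhom_ext'
    intro y
    apply LinearMap.ext_ring
    simpa using h y
  let P : V → Y → (Y →₀ K) := fun x y => if y.1 = x then Finsupp.single y 1 else 0
  let A : E → Y → (Y →₀ K) := fun e y =>
    if y.1 = G.r e then Finsupp.single (G.s e, j e y.2) 1 else 0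
  let B : E → Y → (Y →₀ K) := fun e y =>
    if h : y.1 = G.s e ∧ ∃ n, j e n = y.2 then Finsupp.single (G.r e, h.2.choose) 1 else 0
  have P1 : ∀ x n, P x (x, n) = Finsupp.single (x, n) 1 := fun x n => if_pos rfl
  have P0 : ∀ x y, y.1 ≠ x → P x y = 0 := fun x y h => if_neg h
  have A1 : ∀ e n, A e (G.r e, n) = Finsupp.single (G.s e, j e n) 1 := fun e n => if_pos rfl
  have A0 : ∀ e y, y.1 ≠ G.r e → A e y = 0 := fun e y h => if_neg h
  have B1 : ∀ e n, B e (G.s e, j e n) = Finsupp.single (G.r e, n) 1 := by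
    intro e n
    have h : (G.s e, j e n).1 = G.s e ∧ ∃ m, j e m = (G.s e, j e n).2 := ⟨rfl, n, rfl⟩
    have h2 : h.2.choose = n := j1 _ _ _ h.2.choose_spec
    exact (dif_pos h).trans (by rw [h2])
  have B00 : ∀ e y, ¬ (y.1 = G.s e ∧ ∃ n, j e n = y.2) → B e y = 0 := fun e y h => dif_neg h
  have B0 : ∀ e y, y.1 ≠ G.s e → B e y = 0 := fun e y h => dif_neg (fun hh => h hh.1)
  have B0' : ∀ e f n, e ≠ f → B e (G.s f, j f n) = 0 := by
    intro e f n hne
    apply dif_neg
    rintro ⟨h1, m, hm⟩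
    exact hne (j2 e f m n h1.symm hm)
  refine ⟨{
      p := fun x => Lg (P x)
      a := fun e => Lg (A e)
      b := fun e => Lg (B e)
      vv := fun x => ext _ _ fun y => ?_
      vw := fun x x' hne => ext _ _ fun y => ?_
      se := fun e => ext _ _ fun y => ?_
      er := fun e => ext _ _ fun y => ?_
      rg := fun e => ext _ _ fun y => ?_
      gs := fun e => ext _ _ fun y => ?_
      ge := fun e => ext _ _ fun y => ?_
      gf := fun e f hne => ext _ _ fun y => ?_
      ck := fun x S hS hne => ext _ _ fun y => ?_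
      one := fun T hT => ext _ _ fun y => ?_ }, ?_, ?_, ?_, ?_, ?_, ?_⟩
  · rw [Module.End.mul_apply, Ls, one_smul]
    by_cases h : y.1 = x
    · obtain ⟨y, n⟩ := y
      change y = x at h
      subst h
      rw [P1, Ls, one_smul, P1]
    · rw [P0 _ _ h, map_zero]
  · rw [Module.End.mul_apply, Ls, one_smul, LinearMap.zero_apply]
    by_cases h : y.1 = x'
    · obtain ⟨y, n⟩ := y
      change y = x' at h
      subst h
      rw [P1, Ls, one_smul, P0 _ _ (Ne.symm hne)]
    · rw [P0 _ _ h, map_zero]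
  · rw [Module.End.mul_apply, Ls, one_smul]
    by_cases h : y.1 = G.r e
    · obtain ⟨y, n⟩ := y
      change y = G.r e at h
      subst h
      rw [A1, Ls, one_smul, P1]
    · rw [A0 _ _ h, map_zero]
  · rw [Module.End.mul_apply, Ls, one_smul, Ls, one_smul]
    by_cases h : y.1 = G.r e
    · obtain ⟨y, n⟩ := y
      change y = G.r e at h
      subst h
      rw [P1, Ls, one_smul]
    · rw [P0 _ _ h, map_zero, A0 _ _ h]
  · rw [Module.End.mul_apply, Ls, one_smul]
    by_cases h : y.1 = G.s e ∧ ∃ n, j e n = y.2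
    · obtain ⟨y, m⟩ := y
      obtain ⟨h1, n, h2⟩ := h
      change y = G.s e at h1
      change j e n = m at h2
      subst h1 h2
      rw [B1, Ls, one_smul, P1]
    · rw [B00 _ _ h, map_zero]
  · rw [Module.End.mul_apply, Ls, one_smul, Ls, one_smul]
    by_cases h : y.1 = G.s e
    · obtain ⟨y, n⟩ := y
      change y = G.s e at h
      subst h
      rw [P1, Ls, one_smul]
    · rw [P0 _ _ h, map_zero, B0 _ _ h]
  · rw [Module.End.mul_apply, Ls, one_smul, Ls, one_smul]
    by_cases h : y.1 = G.r e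
    · obtain ⟨y, n⟩ := y
      change y = G.r e at h
      subst h
      rw [A1, P1, Ls, one_smul, B1]
    · rw [A0 _ _ h, P0 _ _ h, map_zero]
  · rw [Module.End.mul_apply, Ls, one_smul, LinearMap.zero_apply]
    by_cases h : y.1 = G.r f
    · obtain ⟨y, n⟩ := y
      change y = G.r f at h
      subst h
      rw [A1, Ls, one_smul, B0' _ _ _ hne]
    · rw [A0 _ _ h, map_zero]
  · rw [Ls, one_smul, LinearMap.sum_apply]
    by_cases h : y.1 = x
    · obtain ⟨y, m⟩ := y
      change y = x at h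
      subst h
      obtain ⟨e0, he0⟩ := hne
      obtain ⟨e, n, he, hn⟩ := j3 y m ⟨e0, (hS e0).1 he0⟩
      subst he hn
      rw [Finset.sum_eq_single_of_mem e ((hS e).2 rfl)]
      · rw [P1, Module.End.mul_apply, Ls, one_smul, B1, Ls, one_smul, A1]
      · intro f _ hf
        rw [Module.End.mul_apply, Ls, one_smul, B0' _ _ _ hf, map_zero]
    · rw [P0 _ _ h]
      symm
      refine Finset.sum_eq_zero fun e he => ?_
      rw [Module.End.mul_apply, Ls, one_smul, B0 _ _ (by rw [(hS e).1 he]; exact h), map_zero]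
  · rw [LinearMap.sum_apply, Finset.sum_eq_single_of_mem y.1 (hT _)]
    · rw [Ls, one_smul, Module.End.one_apply]
      exact (P1 y.1 y.2).symm
    · intro x _ hne
      rw [Ls, one_smul, P0 _ _ (Ne.symm hne)]
  · intro x n
    exact (Ls _ _ _).trans (by rw [one_smul, P1])
  · intro x y n h
    exact (Ls _ _ _).trans (by rw [one_smul, P0 _ _ h])
  · intro e n
    exact (Ls _ _ _).trans (by rw [one_smul, A1])
  · intro e x n h
    exact (Ls _ _ _).trans (by rw [one_smul, A0 _ _ h])
  · intro e n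
    exact (Ls _ _ _).trans (by rw [one_smul, B1])
  · intro e y h
    exact (Ls _ _ _).trans (by rw [one_smul, B00 _ _ h])

theorem vx_ne_zero (K : Type u) [Field K] {V : Type v} {E : Type w} (G : Gr V E)
    (x : V) : vx K G x ≠ 0 := by
  obtain ⟨j, j1, j2, j3⟩ := exists_j G
  obtain ⟨F, h1, -⟩ := exists_fam K G j j1 j2 j3
  intro h0
  have h2 := congrArg (fun z => F.lift z (Finsupp.single (x, Sum.inl 0) 1)) h0
  simp only [Fam.lift_vx, map_zero, LinearMap.zero_apply, h1] at h2
  exact one_ne_zero (Finsupp.single_eq_zero.1 h2)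

/-- no edge is in the subalgebra generated by the vertices and the other edges -/
theorem ed_not_mem (K : Type u) [Field K] {V : Type v} {E : Type w} (G : Gr V E) (e : E) :
    ed K G e ∉ Algebra.adjoin K (Set.range (vx K G) ∪ {z | ∃ f, f ≠ e ∧ (z = ed K G f ∨ z = gh K G f)}) := by
  classical
  obtain ⟨j, j1, j2, j3⟩ := exists_j G
  let sw : Equiv.Perm (ℕ ⊕ E) := Equiv.swap (Sum.inl 0) (Sum.inl 1)
  let j' : E → (ℕ ⊕ E) → (ℕ ⊕ E) := fun f n => if f = e then j f (sw n) else j f n
  have hj' : ∀ f n, ∃ m, j' f n = j f m := by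
    intro f n
    by_cases h : f = e
    · exact ⟨sw n, if_pos h⟩
    · exact ⟨n, if_neg h⟩
  have j1' : ∀ f n m, j' f n = j' f m → n = m := by
    intro f n m h
    by_cases hf : f = e
    · simp only [j', if_pos hf] at h
      exact sw.injective (j1 _ _ _ h)
    · simp only [j', if_neg hf] at h
      exact j1 _ _ _ h
  have j2' : ∀ f g n m, G.s f = G.s g → j' f n = j' g m → f = g := by
    intro f g n m hs h
    obtain ⟨n', hn⟩ := hj' f n
    obtain ⟨m', hm⟩ := hj' g m
    rw [hn, hm] at h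
    exact j2 f g n' m' hs h
  have j3' : ∀ x m, (∃ f, G.s f = x) → ∃ f n, G.s f = x ∧ j' f n = m := by
    intro x m hx
    obtain ⟨f, n, hf, hn⟩ := j3 x m hx
    by_cases h : f = e
    · refine ⟨f, sw.symm n, hf, ?_⟩
      simp only [j', if_pos h, Equiv.apply_symm_apply, hn]
    · exact ⟨f, n, hf, by simp only [j', if_neg h, hn]⟩
  obtain ⟨F, p1, p0, a1, a0, b1, b0⟩ := exists_fam K G j j1 j2 j3
  obtain ⟨F', p1', p0', a1', a0', b1', b0'⟩ := exists_fam K G j' j1' j2' j3'
  have ext : ∀ f g : Module.End K ((V × (ℕ ⊕ E)) →₀ K),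
      (∀ y, f (Finsupp.single y 1) = g (Finsupp.single y 1)) → f = g := by
    intro f g h
    apply Finsupp.lhom_ext'
    intro y
    apply LinearMap.ext_ring
    simpa using h y
  have hp : ∀ x, F.p x = F'.p x := fun x => ext _ _ fun y => by
    obtain ⟨y, n⟩ := y
    by_cases h : y = x
    · subst h; rw [p1, p1']
    · rw [p0 _ _ _ h, p0' _ _ _ h]
  have ha : ∀ f, f ≠ e → F.a f = F'.a f := fun f hf => ext _ _ fun y => by
    obtain ⟨y, n⟩ := y
    by_cases h : y = G.r f
    · subst h
      rw [a1, a1']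
      simp only [j', if_neg hf]
    · rw [a0 _ _ _ h, a0' _ _ _ h]
  have hb : ∀ f, f ≠ e → F.b f = F'.b f := fun f hf => ext _ _ fun y => by
    have hjf : ∀ n, j' f n = j f n := fun n => if_neg hf
    by_cases h : y.1 = G.s f ∧ ∃ n, j f n = y.2
    · obtain ⟨y, m⟩ := y
      obtain ⟨h1, n, h2⟩ := h
      change y = G.s f at h1
      change j f n = m at h2
      subst h1 h2
      rw [b1]
      have := b1' f n
      rw [hjf] at this
      exact this.symm
    · rw [b0 _ _ h, b0' _ _ (by
        rintro ⟨h1, n, h2⟩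
        exact h ⟨h1, n, by rw [← hjf, h2]⟩)]
  intro hmem
  have key : ∀ z ∈ Algebra.adjoin K (Set.range (vx K G) ∪
      {z | ∃ f, f ≠ e ∧ (z = ed K G f ∨ z = gh K G f)}), F.lift z = F'.lift z := by
    intro z hz
    induction hz using Algebra.adjoin_induction with
    | mem z hz =>
      rcases hz with ⟨x, rfl⟩ | ⟨f, hf, rfl | rfl⟩
      · rw [Fam.lift_vx, Fam.lift_vx, hp]
      · rw [Fam.lift_ed, Fam.lift_ed, ha f hf]
      · rw [Fam.lift_gh, Fam.lift_gh, hb f hf]
    | algebraMap k => rw [AlgHom.commutes, AlgHom.commutes]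
    | add x y _ _ h1 h2 => rw [map_add, map_add, h1, h2]
    | mul x y _ _ h1 h2 => rw [map_mul, map_mul, h1, h2]
  have h1 := key _ hmem
  rw [Fam.lift_ed, Fam.lift_ed] at h1
  have h2 := congrArg (fun z => z (Finsupp.single (G.r e, Sum.inl 0) 1)) h1
  simp only [a1, a1'] at h2
  have h3 := Finsupp.single_left_injective (one_ne_zero) h2
  have h4 : j e (Sum.inl 0) = j' e (Sum.inl 0) := (Prod.ext_iff.1 h3).2
  have h5 : j' e (Sum.inl 0) = j e (Sum.inl 1) := by
    simp only [j', if_true, sw, Equiv.swap_apply_left]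
  rw [h5] at h4
  have h6 := j1 _ _ _ h4
  simp at h6

/-- an algebra isomorphic (as a K-algebra) to the algebra of a finite graph has finitely many edges -/
theorem finite_edges (K : Type u) [Field K] {V : Type v} {E : Type w} [Finite V] [Finite E]
    {G : Gr V E} {V' : Type v'} {E' : Type w'} {G' : Gr V' E'} (f : LPA K G →ₐ[K] LPA K G')
    (hf : Function.Surjective f) : Finite E' := by
  classical
  let A : Finset E' → Subalgebra K (LPA K G') := fun T =>
    Algebra.adjoin K (Set.range (vx K G') ∪ {z | ∃ g ∈ T, z = ed K G' g ∨ z = gh K G' g})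
  have mono : ∀ S T : Finset E', S ⊆ T → A S ≤ A T := by
    intro S T h
    apply Algebra.adjoin_mono
    apply Set.union_subset_union_right
    rintro z ⟨g, hg, hz⟩
    exact ⟨g, h hg, hz⟩
  have cover : ∀ z : LPA K G', ∃ T, z ∈ A T := by
    intro z
    induction z using LPA.ind with
    | hK k => exact ⟨∅, (A ∅).algebraMap_mem k⟩
    | hv x => exact ⟨∅, Algebra.subset_adjoin (Or.inl ⟨x, rfl⟩)⟩
    | he g => exact ⟨{g}, Algebra.subset_adjoin (Or.inr ⟨g, by simp, Or.inl rfl⟩)⟩
    | hg g => exact ⟨{g}, Algebra.subset_adjoin (Or.inr ⟨g, by simp, Or.inr rfl⟩)⟩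
    | hadd a b ha hb =>
      obtain ⟨S, hS⟩ := ha
      obtain ⟨T, hT⟩ := hb
      exact ⟨S ∪ T, (A _).add_mem (mono _ _ Finset.subset_union_left hS)
        (mono _ _ Finset.subset_union_right hT)⟩
    | hmul a b ha hb =>
      obtain ⟨S, hS⟩ := ha
      obtain ⟨T, hT⟩ := hb
      exact ⟨S ∪ T, (A _).mul_mem (mono _ _ Finset.subset_union_left hS)
        (mono _ _ Finset.subset_union_right hT)⟩
  have _ := Fintype.ofFinite V
  have _ := Fintype.ofFinite E
  choose Tf hTf using cover
  let T : Finset E' := (Finset.univ.biUnion fun x : V => Tf (f (vx K G x))) ∪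
    ((Finset.univ.biUnion fun e : E => Tf (f (ed K G e))) ∪
      (Finset.univ.biUnion fun e : E => Tf (f (gh K G e))))
  have hall : ∀ z : LPA K G, f z ∈ A T := by
    intro z
    induction z using LPA.ind with
    | hK k => rw [AlgHom.commutes]; exact (A T).algebraMap_mem k
    | hv x =>
      refine mono _ _ ?_ (hTf _)
      exact (Finset.subset_biUnion_of_mem (fun x : V => Tf (f (vx K G x))) (Finset.mem_univ x)).trans
        Finset.subset_union_left
    | he e =>
      refine mono _ _ ?_ (hTf _)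
      exact (Finset.subset_biUnion_of_mem (fun x : E => Tf (f (ed K G x))) (Finset.mem_univ e)).trans
        (Finset.subset_union_left.trans Finset.subset_union_right)
    | hg e =>
      refine mono _ _ ?_ (hTf _)
      exact (Finset.subset_biUnion_of_mem (fun x : E => Tf (f (gh K G x))) (Finset.mem_univ e)).trans
        (Finset.subset_union_right.trans Finset.subset_union_right)
    | hadd a b ha hb => rw [map_add]; exact (A T).add_mem ha hb
    | hmul a b ha hb => rw [map_mul]; exact (A T).mul_mem ha hb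
  have hT : ∀ e, e ∈ T := by
    intro e
    by_contra he
    obtain ⟨z, hz⟩ := hf (ed K G' e)
    apply ed_not_mem K G' e
    have h1 := hall z
    rw [hz] at h1
    refine Algebra.adjoin_mono ?_ h1
    apply Set.union_subset_union_right
    rintro z ⟨g, hg, hz⟩
    exact ⟨g, fun hh => he (hh ▸ hg), hz⟩
  exact Finite.of_injective (fun e : E' => (⟨e, hT e⟩ : {e // e ∈ T})) (fun a b h => by simpa using h)

end RJ

end Pool.Agent.Work.MP_2b4d3b_al
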