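import Pool.Agent.Work.MP_2b4d3b_al.Elim
import Pool.Agent.Work.MP_2b4d3b_al.Inj
import Pool.Agent.Work.MP_2b4d3b_al.Surj
import Pool.Agent.Work.MP_2b4d3b_al.Cor
import Pool.Agent.Work.MP_2b4d3b_al.RepJ

/-!
MODULE DCInv (helper21). Disjointness of the cycles is invariant under ring isomorphism.
-/

set_option linter.unusedVariables false
set_option linter.style.longLine false

namespace Pool.Agent.Work.MP_2b4d3b_al

open Matrix

universe u v w u' v' w'

namespace DC

/-- no nonzero idempotent of X contains two orthogonal copies of itself -/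
theorem no_double {K : Type u} [Field K] {X : Type u'} [Ring X] {V : Type} [Fintype V]
    [DecidableEq V] {A : V → V → ℕ} {b : V → ℕ} (hA : Reduced A) (h : HasR K X A b)
    (p a a' c c' : X) (hp : p * p = p) (h1 : a' * a = p) (h2 : c' * c = p) (h3 : a' * c = 0)
    (h4 : c' * a = 0) (h5 : p * a = a) (h6 : a' * p = a') (h7 : p * c = c) (h8 : c' * p = c')
    (h9 : a * p = a) (h10 : c * p = c) : p = 0 := by
  classical
  obtain ⟨C⟩ := exists_cor h
  let _ := C.fT
  let _ := C.dT
  have E1 : (a * a') * (a * a') = a * a' := by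
    rw [mul_assoc, ← mul_assoc a' a, h1, ← mul_assoc, h9]
  have E2 : (c * c') * (c * c') = c * c' := by
    rw [mul_assoc, ← mul_assoc c' c, h2, ← mul_assoc, h10]
  have pE1 : p * (a * a') = a * a' := by rw [← mul_assoc, h5]
  have E1p : (a * a') * p = a * a' := by rw [mul_assoc, h6]
  have pE2 : p * (c * c') = c * c' := by rw [← mul_assoc, h7]
  have E2p : (c * c') * p = c * c' := by rw [mul_assoc, h8]
  have E12 : (a * a') * (c * c') = 0 := by rw [mul_assoc, ← mul_assoc a' c, h3, zero_mul, mul_zero]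
  have E21 : (c * c') * (a * a') = 0 := by rw [mul_assoc, ← mul_assoc c' a, h4, zero_mul, mul_zero]
  have q1 : (p - a * a') * (p - a * a') = p - a * a' := by
    rw [mul_sub, sub_mul, sub_mul, hp, pE1, E1p, E1, sub_self, sub_zero]
  have q1E : (p - a * a') * (c * c') = c * c' := by rw [sub_mul, pE2, E12, sub_zero]
  have Eq1 : (c * c') * (p - a * a') = c * c' := by rw [mul_sub, E2p, E21, sub_zero]
  have q2 : (p - a * a' - c * c') * (p - a * a' - c * c') = p - a * a' - c * c' := by
    rw [mul_sub, sub_mul (p - a * a'), sub_mul (p - a * a'), q1, q1E, Eq1, E2, sub_self, sub_zero]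
  have im : ∀ z : X, z * z = z → C.Θ z * C.Θ z = C.Θ z := fun z hz => by rw [← map_mul, hz]
  have s1 : IdEq (C.Θ p) (bs (C.Θ (p - a * a')) (C.Θ (a * a'))) := by
    have := IdEq.split (C.Θ p) (C.Θ (a * a')) (im _ hp) (im _ E1) (by rw [← map_mul, pE1])
      (by rw [← map_mul, E1p])
    rwa [← map_sub] at this
  have s2 : IdEq (C.Θ (p - a * a')) (bs (C.Θ (p - a * a' - c * c')) (C.Θ (c * c'))) := by
    have := IdEq.split (C.Θ (p - a * a')) (C.Θ (c * c')) (im _ q1) (im _ E2) (by rw [← map_mul, q1E])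
      (by rw [← map_mul, Eq1])
    rwa [← map_sub] at this
  have s3 : IdEq (C.Θ (a * a')) (C.Θ p) :=
    IdEq.mk' (im _ E1) (im _ hp) (C.Θ a) (C.Θ a') (by rw [map_mul]) (by rw [← map_mul, h1])
  have s4 : IdEq (C.Θ (c * c')) (C.Θ p) :=
    IdEq.mk' (im _ E2) (im _ hp) (C.Θ c) (C.Θ c') (by rw [map_mul]) (by rw [← map_mul, h2])
  obtain ⟨n, hn⟩ := surj A hA (C.Θ p) (im _ hp)
  obtain ⟨r, hr⟩ := surj A hA (C.Θ (p - a * a' - c * c')) (im _ q2)
  have s5 : IdEq (vs K A n) (vs K A (r + n + n)) := by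
    refine hn.symm.trans (s1.trans ?_)
    refine (IdEq.bsum (s2.trans (IdEq.bsum hr (s4.trans hn))) (s3.trans hn)).trans ?_
    exact ((vs_add (r + n) n).trans (IdEq.bsum (vs_add r n) (IdEq.refl (vs_idem n)))).symm
  have hM := inj A hA _ _ s5
  obtain ⟨hH, κ, hκ, hs⟩ := (Meq.char hA _ _).1 hM
  obtain ⟨⟨ρ, hρ⟩, _, _⟩ := hA
  have hn0 : n = 0 := by
    by_contra hne
    obtain ⟨x0, hx0⟩ := Function.ne_iff.1 hne
    have hx0' : n x0 ≠ 0 := hx0
    have hmem : x0 ∈ Hs A n := ⟨x0, hx0', Relation.ReflTransGen.refl⟩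
    obtain ⟨y, hy, hmax⟩ := Set.exists_max_image (Hs A n) ρ (Set.toFinite _) ⟨x0, hmem⟩
    have hrch : ∀ x z, Rch A x z → x = z ∨ ρ z < ρ x := by
      intro x z hxz
      induction hxz with
      | refl => exact Or.inl rfl
      | @tail u z _ h1 ih =>
        by_cases huz : u = z
        · subst huz; exact ih
        · have := hρ u z huz h1
          rcases ih with rfl | ih
          · exact Or.inr this
          · exact Or.inr (this.trans ih)
    have hny : n y ≠ 0 := by
      obtain ⟨x, hx, hxy⟩ := hy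
      rcases hrch x y hxy with rfl | hlt
      · exact hx
      · have := hmax x ⟨x, hx, Relation.ReflTransGen.refl⟩
        omega
    have hsum : ∑ x, κ x * (off A x y : ℤ) = 0 := by
      refine Finset.sum_eq_zero fun x _ => ?_
      by_cases hk : κ x = 0
      · rw [hk, zero_mul]
      · have hx := hκ x hk
        by_cases ho : off A x y = 0
        · rw [ho]; simp
        · exfalso
          have hxy : x ≠ y := by
            rintro rfl
            exact ho (by simp [off])
          have hA' : A x y ≠ 0 := by simpa [off, hxy] using ho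
          have h1 := hρ x y hxy hA'
          have h2 := hmax x hx
          omega
    have := hs y
    rw [hsum] at this
    simp only [Pi.add_apply] at this
    push_cast at this
    omega
  subst hn0
  -- Θ p = 0
  obtain ⟨x, y, e1, e2, e3, e4⟩ := hn
  have hx : x = 0 := by
    ext i ⟨j, k⟩
    exact k.elim0
  have hθ : C.Θ p = 0 := by rw [← e1, hx, Matrix.zero_mul]
  obtain ⟨x', y', f1, f2, f3, f4⟩ := C.h2 p hp
  have hx' : x' = 0 := by
    rw [← f3, hθ]
    ext i j
    simp [Matrix.mul_apply]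
  have f5 : (Matrix.of fun (_ _ : Unit) => p) = 0 := by rw [← f2, hx', Matrix.mul_zero]
  exact congrFun (congrFun f5 ()) ()

/-- paths of the graph give partial isometries -/
theorem path_el (K : Type u) [Field K] {V : Type v} {E : Type w} {G : Gr V E} {x y : V}
    (h : GRch G x y) : ∃ z z' : LPA K G, z' * z = vx K G y ∧ vx K G x * z = z ∧ z * vx K G y = z ∧
      z' * vx K G x = z' := by
  induction h with
  | refl => exact ⟨vx K G x, vx K G x, vx_vx _, vx_vx _, vx_vx _, vx_vx _⟩
  | tail _ h1 ih =>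
    obtain ⟨e, rfl, rfl⟩ := h1
    obtain ⟨z, z', i1, i2, i3, i4⟩ := ih
    refine ⟨z * ed K G e, gh K G e * z', ?_, ?_, ?_, ?_⟩
    · rw [mul_assoc, ← mul_assoc z', i1, s_ed, gh_ed]
    · rw [← mul_assoc, i2]
    · rw [mul_assoc, ed_r]
    · rw [mul_assoc, i4]

end DC

theorem dc_inv {V : Type v} {E : Type w} {V' : Type v'} {E' : Type w'} [Finite V] [Finite E]
    [Finite V'] [Finite E'] (G : Gr V E) (G' : Gr V' E') (hG : DisjCycles G)
    (K₁ K₂ : Type u) [Field K₁] [Field K₂] (φ : LPA K₁ G ≃+* LPA K₂ G') : DisjCycles G' := by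
  classical
  intro e f hs he hf
  by_contra hne
  obtain ⟨n, A, b, hA, hX⟩ := exists_reduced.{u} G hG
  have hR : HasR K₁ (LPA K₁ G) A b := by
    let _ : StarRing K₁ := starRingOfComm
    exact (hX K₁).toR
  obtain ⟨z, z', z1, z2, z3, z4⟩ := DC.path_el K₂ he
  rw [← hs] at hf
  obtain ⟨t, t', t1, t2, t3, t4⟩ := DC.path_el K₂ hf
  set p := vx K₂ G' (G'.s e) with hp
  have hsf : p * ed K₂ G' f = ed K₂ G' f := by rw [hp, hs, s_ed]
  have hgf : gh K₂ G' f * p = gh K₂ G' f := by rw [hp, hs, gh_s]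
  have key := DC.no_double hA hR (φ.symm p) (φ.symm (ed K₂ G' e * z)) (φ.symm (z' * gh K₂ G' e))
    (φ.symm (ed K₂ G' f * t)) (φ.symm (t' * gh K₂ G' f))
  simp only [← map_mul] at key
  have h0 : φ.symm p = 0 := by
    apply key
    · rw [hp, vx_vx]
    · rw [mul_assoc, ← mul_assoc (gh K₂ G' e), gh_ed, z2, z1]
    · rw [mul_assoc, ← mul_assoc (gh K₂ G' f), gh_ed, t2, t1]
    · rw [mul_assoc, ← mul_assoc (gh K₂ G' e), gh_ed_ne hne, zero_mul, mul_zero, map_zero]
    · rw [mul_assoc, ← mul_assoc (gh K₂ G' f), gh_ed_ne (Ne.symm hne), zero_mul, mul_zero, map_zero]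
    · rw [← mul_assoc, hp, s_ed]
    · rw [mul_assoc, hp, gh_s]
    · rw [← mul_assoc, hsf]
    · rw [mul_assoc, hgf]
    · rw [mul_assoc, z3]
    · rw [mul_assoc, t3]
  exact RJ.vx_ne_zero K₂ G' (G'.s e) ((map_eq_zero_iff _ φ.symm.injective).1 h0)

end Pool.Agent.Work.MP_2b4d3b_al
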