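import Mathlib

set_option linter.unusedVariables false
set_option linter.style.longLine false

namespace Pool.Agent.Work.MP_2b4d3b_al

open Matrix

universe u v w u' v' w'

/-- A directed graph with vertex type V and edge type E. -/
structure Gr (V : Type v) (E : Type w) where
  s : E → V
  r : E → V

/-- Generators of the Leavitt path algebra: vertices, edges and ghost edges. -/
inductive Gen (V : Type v) (E : Type w) : Type (max v w)
  | vx (x : V) : Gen V E
  | ed (e : E) : Gen V E
  | gh (e : E) : Gen V E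

open FreeAlgebra in
/-- The defining relations (for graphs with finitely many vertices). -/
inductive Rel (K : Type u) [Field K] {V : Type v} {E : Type w} (G : Gr V E) :
    FreeAlgebra K (Gen V E) → FreeAlgebra K (Gen V E) → Prop
  | vv (x : V) : Rel K G (ι K (.vx x) * ι K (.vx x)) (ι K (.vx x))
  | vw (x y : V) (h : x ≠ y) : Rel K G (ι K (.vx x) * ι K (.vx y)) 0
  | se (e : E) : Rel K G (ι K (.vx (G.s e)) * ι K (.ed e)) (ι K (.ed e))
  | er (e : E) : Rel K G (ι K (.ed e) * ι K (.vx (G.r e))) (ι K (.ed e))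
  | rg (e : E) : Rel K G (ι K (.vx (G.r e)) * ι K (.gh e)) (ι K (.gh e))
  | gs (e : E) : Rel K G (ι K (.gh e) * ι K (.vx (G.s e))) (ι K (.gh e))
  | ge (e : E) : Rel K G (ι K (.gh e) * ι K (.ed e)) (ι K (.vx (G.r e)))
  | gf (e f : E) (h : e ≠ f) : Rel K G (ι K (.gh e) * ι K (.ed f)) 0
  | ck (x : V) (S : Finset E) (h : ∀ e, e ∈ S ↔ G.s e = x) (hne : S.Nonempty) :
      Rel K G (ι K (.vx x)) (∑ e ∈ S, ι K (.ed e) * ι K (.gh e))
  | one (T : Finset V) (h : ∀ x, x ∈ T) : Rel K G 1 (∑ x ∈ T, ι K (.vx x))

/-- The Leavitt path algebra of a graph with finitely many vertices. -/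
abbrev LPA (K : Type u) [Field K] {V : Type v} {E : Type w} (G : Gr V E) := RingQuot (Rel K G)

section basic

variable {K : Type u} [Field K] {V : Type v} {E : Type w} {G : Gr V E}

noncomputable def gen (K : Type u) [Field K] (G : Gr V E) (a : Gen V E) : LPA K G :=
  RingQuot.mkAlgHom K (Rel K G) (FreeAlgebra.ι K a)

noncomputable def vx (K : Type u) [Field K] (G : Gr V E) (x : V) : LPA K G := gen K G (.vx x)
noncomputable def ed (K : Type u) [Field K] (G : Gr V E) (e : E) : LPA K G := gen K G (.ed e)
noncomputable def gh (K : Type u) [Field K] (G : Gr V E) (e : E) : LPA K G := gen K G (.gh e)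

theorem vx_vx (x : V) : vx K G x * vx K G x = vx K G x := by
  have := RingQuot.mkAlgHom_rel K (Rel.vv (K := K) (G := G) x)
  simpa [vx, gen] using this

theorem vx_ne {x y : V} (h : x ≠ y) : vx K G x * vx K G y = 0 := by
  have := RingQuot.mkAlgHom_rel K (Rel.vw (K := K) (G := G) x y h)
  simpa [vx, gen] using this

theorem s_ed (e : E) : vx K G (G.s e) * ed K G e = ed K G e := by
  have := RingQuot.mkAlgHom_rel K (Rel.se (K := K) (G := G) e)
  simpa [vx, ed, gen] using this

theorem ed_r (e : E) : ed K G e * vx K G (G.r e) = ed K G e := by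
  have := RingQuot.mkAlgHom_rel K (Rel.er (K := K) (G := G) e)
  simpa [vx, ed, gen] using this

theorem r_gh (e : E) : vx K G (G.r e) * gh K G e = gh K G e := by
  have := RingQuot.mkAlgHom_rel K (Rel.rg (K := K) (G := G) e)
  simpa [vx, gh, gen] using this

theorem gh_s (e : E) : gh K G e * vx K G (G.s e) = gh K G e := by
  have := RingQuot.mkAlgHom_rel K (Rel.gs (K := K) (G := G) e)
  simpa [vx, gh, gen] using this

theorem gh_ed (e : E) : gh K G e * ed K G e = vx K G (G.r e) := by
  have := RingQuot.mkAlgHom_rel K (Rel.ge (K := K) (G := G) e)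
  simpa [vx, gh, ed, gen] using this

theorem gh_ed_ne {e f : E} (h : e ≠ f) : gh K G e * ed K G f = 0 := by
  have := RingQuot.mkAlgHom_rel K (Rel.gf (K := K) (G := G) e f h)
  simpa [ed, gh, gen] using this

theorem ck_sum (x : V) (S : Finset E) (h : ∀ e, e ∈ S ↔ G.s e = x) (hne : S.Nonempty) :
    vx K G x = ∑ e ∈ S, ed K G e * gh K G e := by
  have := RingQuot.mkAlgHom_rel K (Rel.ck (K := K) (G := G) x S h hne)
  simpa [vx, ed, gh, gen] using this

theorem one_sum (T : Finset V) (h : ∀ x, x ∈ T) : (1 : LPA K G) = ∑ x ∈ T, vx K G x := by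
  have := RingQuot.mkAlgHom_rel K (Rel.one (K := K) (G := G) T h)
  simpa [vx, gen] using this

/-- A family in a K-algebra satisfying the relations. -/
structure Fam (K : Type u) [Field K] {V : Type v} {E : Type w} (G : Gr V E)
    (A : Type u') [Ring A] [Algebra K A] where
  p : V → A
  a : E → A
  b : E → A
  vv : ∀ x, p x * p x = p x
  vw : ∀ x y, x ≠ y → p x * p y = 0
  se : ∀ e, p (G.s e) * a e = a e
  er : ∀ e, a e * p (G.r e) = a e
  rg : ∀ e, p (G.r e) * b e = b e
  gs : ∀ e, b e * p (G.s e) = b e
  ge : ∀ e, b e * a e = p (G.r e)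
  gf : ∀ e f, e ≠ f → b e * a f = 0
  ck : ∀ (x : V) (S : Finset E), (∀ e, e ∈ S ↔ G.s e = x) → S.Nonempty → p x = ∑ e ∈ S, a e * b e
  one : ∀ T : Finset V, (∀ x, x ∈ T) → (1 : A) = ∑ x ∈ T, p x

/-- the map on generators given by a family -/
def Fam.fn {A : Type u'} [Ring A] [Algebra K A] (F : Fam K G A) : Gen V E → A
  | .vx x => F.p x
  | .ed e => F.a e
  | .gh e => F.b e

/-- the universal property -/
noncomputable def Fam.lift {A : Type u'} [Ring A] [Algebra K A] (F : Fam K G A) : LPA K G →ₐ[K] A :=
  RingQuot.liftAlgHom K ⟨FreeAlgebra.lift K F.fn, by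
    intro x y h
    induction h with
    | vv x => simpa [Fam.fn] using F.vv x
    | vw x y h => simpa [Fam.fn] using F.vw x y h
    | se e => simpa [Fam.fn] using F.se e
    | er e => simpa [Fam.fn] using F.er e
    | rg e => simpa [Fam.fn] using F.rg e
    | gs e => simpa [Fam.fn] using F.gs e
    | ge e => simpa [Fam.fn] using F.ge e
    | gf e f h => simpa [Fam.fn] using F.gf e f h
    | ck x S h hne => simpa [Fam.fn] using F.ck x S h hne
    | one T h => simpa [Fam.fn] using F.one T h⟩

@[simp] theorem Fam.lift_gen {A : Type u'} [Ring A] [Algebra K A] (F : Fam K G A) (g : Gen V E) :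
    F.lift (gen K G g) = F.fn g := by
  simp [Fam.lift, gen]

@[simp] theorem Fam.lift_vx {A : Type u'} [Ring A] [Algebra K A] (F : Fam K G A) (x : V) :
    F.lift (vx K G x) = F.p x := F.lift_gen _

@[simp] theorem Fam.lift_ed {A : Type u'} [Ring A] [Algebra K A] (F : Fam K G A) (e : E) :
    F.lift (ed K G e) = F.a e := F.lift_gen _

@[simp] theorem Fam.lift_gh {A : Type u'} [Ring A] [Algebra K A] (F : Fam K G A) (e : E) :
    F.lift (gh K G e) = F.b e := F.lift_gen _

theorem hom_ext {A : Type u'} [Ring A] [Algebra K A] {f g : LPA K G →ₐ[K] A}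
    (hv : ∀ x, f (vx K G x) = g (vx K G x)) (he : ∀ e, f (ed K G e) = g (ed K G e))
    (hg : ∀ e, f (gh K G e) = g (gh K G e)) : f = g := by
  apply RingQuot.ringQuot_ext'
  apply FreeAlgebra.hom_ext
  funext a
  cases a with
  | vx x => exact hv x
  | ed e => exact he e
  | gh e => exact hg e

/-- induction on elements -/
theorem LPA.ind {P : LPA K G → Prop} (hK : ∀ k : K, P (algebraMap K _ k))
    (hv : ∀ x, P (vx K G x)) (he : ∀ e, P (ed K G e)) (hg : ∀ e, P (gh K G e))
    (hadd : ∀ a b, P a → P b → P (a + b)) (hmul : ∀ a b, P a → P b → P (a * b)) (a : LPA K G) :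
    P a := by
  obtain ⟨b, rfl⟩ := RingQuot.mkAlgHom_surjective K (Rel K G) a
  induction b using FreeAlgebra.induction with
  | grade0 r => simpa using hK r
  | grade1 x =>
    cases x with
    | vx x => exact hv x
    | ed e => exact he e
    | gh e => exact hg e
  | mul a b ha hb => rw [map_mul]; exact hmul _ _ ha hb
  | add a b ha hb => rw [map_add]; exact hadd _ _ ha hb

end basic

/-! ### The involution -/

/-- The opposite algebra with conjugated scalars. -/
def CO (A : Type u') := Aᵐᵒᵖ

instance (A : Type u') [Ring A] : Ring (CO A) := inferInstanceAs (Ring Aᵐᵒᵖ)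

def CO.op {A : Type u'} (x : A) : CO A := MulOpposite.op x
def CO.unop {A : Type u'} (x : CO A) : A := MulOpposite.unop x

theorem CO.op_mul {A : Type u'} [Ring A] (x y : A) : CO.op (x * y) = CO.op y * CO.op x := rfl
theorem CO.unop_mul {A : Type u'} [Ring A] (x y : CO A) : (x * y).unop = y.unop * x.unop := rfl
theorem CO.unop_add {A : Type u'} [Ring A] (x y : CO A) : (x + y).unop = x.unop + y.unop := rfl
theorem CO.op_add {A : Type u'} [Ring A] (x y : A) : CO.op (x + y) = CO.op x + CO.op y := rfl
theorem CO.op_zero {A : Type u'} [Ring A] : (CO.op (0 : A)) = 0 := rfl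
theorem CO.op_one {A : Type u'} [Ring A] : (CO.op (1 : A)) = 1 := rfl
theorem CO.unop_one {A : Type u'} [Ring A] : ((1 : CO A)).unop = 1 := rfl

noncomputable instance (K : Type u) [Field K] [StarRing K] (A : Type u') [Ring A] [Algebra K A] :
    Algebra K (CO A) :=
  ((algebraMap K Aᵐᵒᵖ).comp (starRingEnd K)).toAlgebra' (by
    intro c x
    exact Algebra.commutes (A := Aᵐᵒᵖ) (starRingEnd K c) x)

theorem CO.algebraMap_unop (K : Type u) [Field K] [StarRing K] (A : Type u') [Ring A] [Algebra K A]
    (k : K) : (algebraMap K (CO A) k).unop = algebraMap K A (star k) := rfl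

theorem CO.op_sum {A : Type u'} [Ring A] {I : Type w'} (S : Finset I) (f : I → A) :
    CO.op (∑ i ∈ S, f i) = ∑ i ∈ S, CO.op (f i) := by
  classical
  induction S using Finset.induction_on with
  | empty => simp [CO.op_zero]
  | insert a S ha ih => rw [Finset.sum_insert ha, Finset.sum_insert ha, CO.op_add, ih]

section star

variable {K : Type u} [Field K] [StarRing K] {V : Type v} {E : Type w} {G : Gr V E}

noncomputable def starFam (K : Type u) [Field K] [StarRing K] {V : Type v} {E : Type w}
    (G : Gr V E) : Fam K G (CO (LPA K G)) where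
  p x := CO.op (vx K G x)
  a e := CO.op (gh K G e)
  b e := CO.op (ed K G e)
  vv x := by rw [← CO.op_mul, vx_vx]
  vw x y h := by rw [← CO.op_mul, vx_ne h.symm, CO.op_zero]
  se e := by rw [← CO.op_mul, gh_s]
  er e := by rw [← CO.op_mul, r_gh]
  rg e := by rw [← CO.op_mul, ed_r]
  gs e := by rw [← CO.op_mul, s_ed]
  ge e := by rw [← CO.op_mul, gh_ed]
  gf e f h := by rw [← CO.op_mul, gh_ed_ne h.symm, CO.op_zero]
  ck x S h hne := by
    rw [ck_sum x S h hne, CO.op_sum]
    exact Finset.sum_congr rfl fun e _ => by rw [CO.op_mul]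
  one T h := by rw [← CO.op_sum, ← one_sum T h, CO.op_one]

noncomputable instance : Star (LPA K G) := ⟨fun x => ((starFam K G).lift x).unop⟩

theorem star_def (x : LPA K G) : star x = ((starFam K G).lift x).unop := rfl

@[simp] theorem star_vx (x : V) : star (vx K G x) = vx K G x := by
  rw [star_def, Fam.lift_vx]; rfl

@[simp] theorem star_ed (e : E) : star (ed K G e) = gh K G e := by
  rw [star_def, Fam.lift_ed]; rfl

@[simp] theorem star_gh (e : E) : star (gh K G e) = ed K G e := by
  rw [star_def, Fam.lift_gh]; rfl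

theorem star_alg (k : K) : star (algebraMap K (LPA K G) k) = algebraMap K _ (star k) := by
  rw [star_def, AlgHom.commutes, CO.algebraMap_unop]

noncomputable instance : StarRing (LPA K G) where
  star_mul a b := by simp only [star_def, map_mul, CO.unop_mul]
  star_add a b := by simp only [star_def, map_add, CO.unop_add]
  star_involutive a := by
    have hm : ∀ a b : LPA K G, star (a * b) = star b * star a := fun a b => by
      simp only [star_def, map_mul, CO.unop_mul]
    have ha : ∀ a b : LPA K G, star (a + b) = star a + star b := fun a b => by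
      simp only [star_def, map_add, CO.unop_add]
    induction a using LPA.ind with
    | hK k => rw [star_alg, star_alg, star_star]
    | hv x => rw [star_vx, star_vx]
    | he e => rw [star_ed, star_gh]
    | hg e => rw [star_gh, star_ed]
    | hadd a b h1 h2 => rw [ha, ha, h1, h2]
    | hmul a b h1 h2 => rw [hm, hm, h1, h2]

end star

/-- Existence of a K-linear isomorphism commuting with the involutions. -/
def SI (K : Type u) [Field K] (A : Type u') (B : Type v') [Ring A] [Algebra K A] [Star A]
    [Ring B] [Algebra K B] [Star B] : Prop :=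
  ∃ f : A ≃ₐ[K] B, ∀ x, f (star x) = star (f x)

section SI

variable {K : Type u} [Field K]

theorem SI.refl (A : Type u') [Ring A] [Algebra K A] [Star A] : SI K A A :=
  ⟨AlgEquiv.refl, fun _ => rfl⟩

theorem SI.symm {A : Type u'} {B : Type v'} [Ring A] [Algebra K A] [Star A]
    [Ring B] [Algebra K B] [Star B] (h : SI K A B) : SI K B A := by
  obtain ⟨f, hf⟩ := h
  refine ⟨f.symm, fun x => ?_⟩
  apply f.injective
  rw [hf, AlgEquiv.apply_symm_apply, AlgEquiv.apply_symm_apply]

theorem SI.trans {A : Type u'} {B : Type v'} {C : Type w'} [Ring A] [Algebra K A] [Star A]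
    [Ring B] [Algebra K B] [Star B] [Ring C] [Algebra K C] [Star C]
    (h : SI K A B) (h' : SI K B C) : SI K A C := by
  obtain ⟨f, hf⟩ := h
  obtain ⟨g, hg⟩ := h'
  exact ⟨f.trans g, fun x => by simp [hf, hg]⟩

/-- criterion: mutually inverse families compatible with the involution -/
theorem SI.mk' [StarRing K] {V : Type v} {E : Type w} {G : Gr V E} {V' : Type v'} {E' : Type w'}
    {G' : Gr V' E'} (f : LPA K G →ₐ[K] LPA K G') (g : LPA K G' →ₐ[K] LPA K G)
    (h1 : g.comp f = AlgHom.id K _) (h2 : f.comp g = AlgHom.id K _)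
    (hv : ∀ x, star (f (vx K G x)) = f (vx K G x))
    (he : ∀ e, star (f (ed K G e)) = f (gh K G e)) : SI K (LPA K G) (LPA K G') := by
  refine ⟨AlgEquiv.ofAlgHom f g h2 h1, fun x => ?_⟩
  change f (star x) = star (f x)
  induction x using LPA.ind with
  | hK k => rw [star_alg, AlgHom.commutes, AlgHom.commutes, star_alg]
  | hv x => rw [star_vx, hv]
  | he e => rw [star_ed, he]
  | hg e => rw [star_gh, ← he, star_star]
  | hadd a b h1 h2 => rw [star_add, map_add, h1, h2, map_add, star_add]
  | hmul a b h1 h2 => rw [star_mul, map_mul, h1, h2, map_mul, star_mul]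

end SI

/-! ### Matrices -/

/-- The graph of a matrix of natural numbers: A x y edges from x to y. -/
def mGr {V : Type v} (A : V → V → ℕ) : Gr V (Σ x y : V, Fin (A x y)) where
  s e := e.1
  r e := e.2.1

abbrev LM (K : Type u) [Field K] {V : Type v} (A : V → V → ℕ) := LPA K (mGr A)

/-- A with an additional source emitting b x edges to x. -/
def srcM {V : Type v} (A : V → V → ℕ) (b : V → ℕ) : Option V → Option V → ℕ
  | some x, some y => A x y
  | none, some y => b y
  | _, none => 0

/-- X is (isomorphic to) the algebra of A with source vector b (no source if b = 0). -/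
def Has (K : Type u) [Field K] [StarRing K] (X : Type u') [Ring X] [Algebra K X] [Star X]
    {V : Type v} (A : V → V → ℕ) (b : V → ℕ) : Prop :=
  (b = 0 ∧ SI K X (LM K A)) ∨ (b ≠ 0 ∧ SI K X (LM K (srcM A b)))

/-- ring version -/
def HasR (K : Type u) [Field K] (X : Type u') [Ring X]
    {V : Type v} (A : V → V → ℕ) (b : V → ℕ) : Prop :=
  (b = 0 ∧ Nonempty (X ≃+* LM K A)) ∨ (b ≠ 0 ∧ Nonempty (X ≃+* LM K (srcM A b)))

theorem Has.toR {K : Type u} [Field K] [StarRing K] {X : Type u'} [Ring X] [Algebra K X] [Star X]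
    {V : Type v} {A : V → V → ℕ} {b : V → ℕ} (h : Has K X A b) : HasR K X A b := by
  rcases h with ⟨h, f, _⟩ | ⟨h, f, _⟩
  · exact Or.inl ⟨h, ⟨f.toRingEquiv⟩⟩
  · exact Or.inr ⟨h, ⟨f.toRingEquiv⟩⟩

/-- off-diagonal part -/
def off {V : Type v} [DecidableEq V] (A : V → V → ℕ) (x y : V) : ℕ := if x = y then 0 else A x y

/-- reduced matrices: triangular, every vertex is a sink or has exactly one loop -/
def Reduced {V : Type v} (A : V → V → ℕ) : Prop :=
  (∃ ρ : V → ℕ, ∀ x y, x ≠ y → A x y ≠ 0 → ρ y < ρ x) ∧
    (∀ x, A x x ≤ 1) ∧ ∀ x, A x x = 0 → ∀ y, A x y = 0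

/-- reachability -/
def Rch {V : Type v} (A : V → V → ℕ) : V → V → Prop := Relation.ReflTransGen fun x y => A x y ≠ 0

/-- elementary step of the graph monoid: a loop vertex x in n is replaced by x plus its exits -/
def MStep {V : Type v} [DecidableEq V] (A : V → V → ℕ) (n m : V → ℕ) : Prop :=
  ∃ x, 1 ≤ n x ∧ A x x = 1 ∧ m = n + off A x

/-- equality in the graph monoid -/
def Meq {V : Type v} [DecidableEq V] (A : V → V → ℕ) : (V → ℕ) → (V → ℕ) → Prop :=
  Relation.EqvGen (MStep A)

/-- the vertices reachable from the support of n -/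
def Hs {V : Type v} (A : V → V → ℕ) (n : V → ℕ) : Set V := {y | ∃ x, n x ≠ 0 ∧ Rch A x y}

/-! ### Idempotent matrices -/

/-- equivalence of idempotent matrices -/
def IdEq {R : Type u} [Ring R] {m : Type v} {n : Type w} [Fintype m] [Fintype n]
    (p : Matrix m m R) (q : Matrix n n R) : Prop :=
  ∃ (x : Matrix m n R) (y : Matrix n m R), x * y = p ∧ y * x = q ∧ p * x = x ∧ q * y = y

/-- the diagonal idempotent with n x entries equal to the vertex x -/
noncomputable def vs (K : Type u) [Field K] {V : Type v} [DecidableEq V] (A : V → V → ℕ) (n : V → ℕ) :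
    Matrix (Σ x : V, Fin (n x)) (Σ x : V, Fin (n x)) (LM K A) :=
  Matrix.diagonal fun a => vx K (mGr A) a.1

/-- k copies of w -/
def wk {R : Type u} [Ring R] (w : R) (k : ℕ) : Matrix (Fin k) (Fin k) R := Matrix.diagonal fun _ => w

/-- block sum -/
def bs {R : Type u} [Ring R] {m : Type v} {n : Type w} (p : Matrix m m R) (q : Matrix n n R) :
    Matrix (m ⊕ n) (m ⊕ n) R := Matrix.fromBlocks p 0 0 q

/-- the two-sided ideal generated by w, as a set -/
def Jd {R : Type u} [Ring R] (w : R) : Set R := (TwoSidedIdeal.span {w} : Set R)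

/-- The graph condition: from each vertex at most one outgoing edge can be continued to a path
back to that vertex, i.e. distinct cycles have no common vertex. -/
def GRch {V : Type v} {E : Type w} (G : Gr V E) : V → V → Prop :=
  Relation.ReflTransGen fun x y => ∃ e, G.s e = x ∧ G.r e = y

def DisjCycles {V : Type v} {E : Type w} (G : Gr V E) : Prop :=
  ∀ e f : E, G.s e = G.s f → GRch G (G.r e) (G.s e) → GRch G (G.r f) (G.s f) → e = f

end Pool.Agent.Work.MP_2b4d3b_al
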