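import Pool.Agent.Work.MP_2b4d3b_al.MacE

/-!
MODULE Elim. Every finite graph with disjoint cycles has the algebra of a reduced matrix.
1. transport G to Fin n (SI.toMat, SI.perm), b = 0.
2. For a matrix A on a finite type let MDC A: for all x, y, z: if A x y ≠ 0, Rch A y x, A x z ≠ 0,
Rch A z x then y = z and A x y = 1. DisjCycles gives MDC. MDC is preserved by Has.elim
(A' x y = A x y + A x k * A k y on {v ≠ k}, A k k = 0): reachability of A' is that of A restricted.
3. strong induction on card V: if some k has A k k = 0 and a nonzero row, eliminate it.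
4. otherwise every vertex is a sink or has a loop, by MDC exactly one loop and no other return;
ρ x = number of vertices reachable from x shows Reduced. Finally transport to Fin n.
The existential must be independent of K (and uniform): all data are combinatorial.
-/

set_option linter.unusedVariables false
set_option linter.style.longLine false

namespace Pool.Agent.Work.MP_2b4d3b_al

open Matrix

universe u v w u' v' w'

namespace EL

/-- matrix form of the cycle condition -/
def MDC {V : Type v} (A : V → V → ℕ) : Prop :=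
  ∀ x y z, A x y ≠ 0 → Rch A y x → A x z ≠ 0 → Rch A z x → y = z ∧ A x y = 1

/-- the matrix after elimination of k -/
def eA {V : Type} (A : V → V → ℕ) (k : V) : {v : V // v ≠ k} → {v : V // v ≠ k} → ℕ :=
  fun x y => A x y + A x k * A k y

theorem rch_fwd {V : Type} {A : V → V → ℕ} {k : V} {x y : {v : V // v ≠ k}}
    (h : Rch (eA A k) x y) : Rch A x y := by
  induction h with
  | refl => exact Relation.ReflTransGen.refl
  | @tail y z _ h1 ih =>
    by_cases h2 : A y z = 0
    · have h3 : A y k * A k z ≠ 0 := by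
        intro h3
        apply h1
        simp [eA, h2, h3]
      exact (ih.tail (left_ne_zero_of_mul h3)).tail (right_ne_zero_of_mul h3)
    · exact ih.tail h2

theorem mdc_elim {V : Type} {A : V → V → ℕ} (k : V) (h0 : A k k = 0) (h : MDC A) :
    MDC (eA A k) := by
  intro x y z hxy hyx hxz hzx
  have hyx' := rch_fwd hyx
  have hzx' := rch_fwd hzx
  have main : A x k ≠ 0 → (A k y ≠ 0 ∨ A k z ≠ 0) → y = z ∧ eA A k x y = 1 := by
    intro h1 h2
    have hkx : Rch A k x := by
      rcases h2 with h2 | h2
      · exact Relation.ReflTransGen.head h2 hyx'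
      · exact Relation.ReflTransGen.head h2 hzx'
    have e1 : A x y = 0 := by
      by_contra hc
      exact y.2 (h x y k hc hyx' h1 hkx).1
    have e2 : A x z = 0 := by
      by_contra hc
      exact z.2 (h x z k hc hzx' h1 hkx).1
    have e3 : A x k = 1 := (h x k k h1 hkx h1 hkx).2
    have e4 : A k y ≠ 0 := by
      intro hc
      apply hxy
      simp [eA, e1, hc]
    have e5 : A k z ≠ 0 := by
      intro hc
      apply hxz
      simp [eA, e2, hc]
    have e6 := h k y z e4 (hyx'.tail h1) e5 (hzx'.tail h1)
    refine ⟨Subtype.ext e6.1, ?_⟩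
    simp [eA, e1, e3, e6.2]
  by_cases h1 : A x k ≠ 0 ∧ (A k y ≠ 0 ∨ A k z ≠ 0)
  · exact main h1.1 h1.2
  · have e1 : A x k * A k y = 0 := by
      by_contra hc
      exact h1 ⟨left_ne_zero_of_mul hc, Or.inl (right_ne_zero_of_mul hc)⟩
    have e2 : A x k * A k z = 0 := by
      by_contra hc
      exact h1 ⟨left_ne_zero_of_mul hc, Or.inr (right_ne_zero_of_mul hc)⟩
    have e3 : A x y ≠ 0 := by simpa [eA, e1] using hxy
    have e4 : A x z ≠ 0 := by simpa [eA, e2] using hxz
    have e5 := h x y z e3 hyx' e4 hzx'
    exact ⟨Subtype.ext e5.1, by simp [eA, e1, e5.2]⟩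

theorem mdc_reduced {V : Type} [Fintype V] {A : V → V → ℕ} (h : MDC A)
    (hn : ∀ k, A k k = 0 → ∀ y, A k y = 0) : Reduced A := by
  classical
  refine ⟨⟨fun x => (Finset.univ.filter fun z => Rch A x z).card, ?_⟩, ?_, hn⟩
  · intro x y hxy hne
    have hx : A x x ≠ 0 := fun h0 => hne (hn x h0 y)
    apply Finset.card_lt_card
    constructor
    · intro z hz
      simp only [Finset.mem_filter, Finset.mem_univ, true_and] at hz ⊢
      exact Relation.ReflTransGen.head hne hz
    · intro hsub
      have hm : x ∈ Finset.univ.filter fun z => Rch A y z := by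
        apply hsub
        simp only [Finset.mem_filter, Finset.mem_univ, true_and]
        exact Relation.ReflTransGen.refl
      simp only [Finset.mem_filter, Finset.mem_univ, true_and] at hm
      exact hxy (h x y x hne hm hx Relation.ReflTransGen.refl).1.symm
  · intro x
    by_cases hx : A x x = 0
    · omega
    · exact (h x x x hx Relation.ReflTransGen.refl hx Relation.ReflTransGen.refl).2.le

theorem aux (N : ℕ) : ∀ (V : Type) [Fintype V] [DecidableEq V] (A : V → V → ℕ) (b : V → ℕ),
    Fintype.card V = N → MDC A → ∃ (n : ℕ) (A' : Fin n → Fin n → ℕ) (b' : Fin n → ℕ), Reduced A' ∧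
      ∀ (K : Type u) [Field K] [StarRing K] (X : Type u') [Ring X] [Algebra K X] [Star X],
        Has K X A b → Has K X A' b' := by
  induction N with
  | zero =>
    intro V _ _ A b hN hA
    have hV : IsEmpty V := Fintype.card_eq_zero_iff.1 hN
    let a := Fintype.equivFin V
    refine ⟨Fintype.card V, fun x y => A (a.symm x) (a.symm y), fun x => b (a.symm x), ?_, ?_⟩
    · exact ⟨⟨fun _ => 0, fun x => (hV.false (a.symm x)).elim⟩, fun x => (hV.false (a.symm x)).elim,
        fun x => (hV.false (a.symm x)).elim⟩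
    · intro K _ _ X _ _ _ h
      exact h.perm a (fun x y => by simp) (fun x => by simp)
  | succ N ih =>
    intro V _ _ A b hN hA
    by_cases hk : ∃ k, A k k = 0 ∧ ∃ y, A k y ≠ 0
    · obtain ⟨k, hk0, hk1⟩ := hk
      obtain ⟨n, A', b', h1, h2⟩ := ih {v : V // v ≠ k} (eA A k)
        (fun y => b y + (1 + b k) * A k y) (by
          rw [Fintype.card_subtype_compl, Fintype.card_subtype_eq, hN]; rfl) (mdc_elim k hk0 hA)
      refine ⟨n, A', b', h1, ?_⟩
      intro K _ _ X _ _ _ h
      exact h2 K X (h.elim k hk0 hk1)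
    · have hn : ∀ k, A k k = 0 → ∀ y, A k y = 0 := by
        intro k h0 y
        by_contra hc
        exact hk ⟨k, h0, y, hc⟩
      obtain ⟨⟨ρ, hρ⟩, h2, h3⟩ := mdc_reduced hA hn
      let a := Fintype.equivFin V
      refine ⟨Fintype.card V, fun x y => A (a.symm x) (a.symm y), fun x => b (a.symm x), ?_, ?_⟩
      · exact ⟨⟨fun x => ρ (a.symm x), fun x y hxy => hρ _ _ (fun hh => hxy (a.symm.injective hh))⟩,
          fun x => h2 _, fun x hx y => h3 _ hx _⟩
      · intro K _ _ X _ _ _ h
        exact h.perm a (fun x y => by simp) (fun x => by simp)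

end EL

theorem exists_reduced {V : Type v} {E : Type w} [Finite V] [Finite E] (G : Gr V E)
    (hG : DisjCycles G) : ∃ (n : ℕ) (A : Fin n → Fin n → ℕ) (b : Fin n → ℕ), Reduced A ∧
      ∀ (K : Type u) [Field K] [StarRing K], Has K (LPA K G) A b := by
  classical
  obtain ⟨n, ⟨a⟩⟩ := Finite.exists_equiv_fin V
  let A0 : V → V → ℕ := fun x y => Nat.card {e : E // G.s e = x ∧ G.r e = y}
  let A1 : Fin n → Fin n → ℕ := fun x y => A0 (a.symm x) (a.symm y)
  have hne : ∀ x y, A1 x y ≠ 0 → ∃ e, G.s e = a.symm x ∧ G.r e = a.symm y := by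
    intro x y h
    have := (Nat.card_ne_zero.1 h).1
    obtain ⟨e, he⟩ := this
    exact ⟨e, he⟩
  have hR : ∀ x y, Rch A1 x y → GRch G (a.symm x) (a.symm y) := by
    intro x y h
    induction h with
    | refl => exact Relation.ReflTransGen.refl
    | tail _ h1 ih => exact ih.tail (hne _ _ h1)
  have hM : EL.MDC A1 := by
    intro x y z hxy hyx hxz hzx
    obtain ⟨e, he1, he2⟩ := hne _ _ hxy
    obtain ⟨f, hf1, hf2⟩ := hne _ _ hxz
    have hyx' := hR _ _ hyx
    have hzx' := hR _ _ hzx
    have hef : e = f := hG e f (by rw [he1, hf1]) (by rw [he1, he2]; exact hyx')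
      (by rw [hf1, hf2]; exact hzx')
    constructor
    · rw [hef, hf2] at he2
      exact (a.symm.injective he2).symm
    · refine le_antisymm ?_ (Nat.one_le_iff_ne_zero.2 hxy)
      have : Subsingleton {e : E // G.s e = a.symm x ∧ G.r e = a.symm y} := by
        constructor
        rintro ⟨e', he1', he2'⟩ ⟨f', hf1', hf2'⟩
        apply Subtype.ext
        exact hG e' f' (by rw [he1', hf1']) (by rw [he1', he2']; exact hyx')
          (by rw [hf1', hf2']; exact hyx')
      exact Finite.card_le_one_iff_subsingleton.2 this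
  obtain ⟨m, A', b', h1, h2⟩ := EL.aux.{u, max u v w} n (Fin n) A1 0 (Fintype.card_fin n) hM
  refine ⟨m, A', b', h1, ?_⟩
  intro K _ _
  apply h2 K (LPA K G)
  refine Or.inl ⟨rfl, ?_⟩
  have s1 : SI K (LPA K G) (LM K A0) := SI.toMat G A0 (fun x y => ⟨Finite.equivFin _⟩)
  exact s1.trans (SI.perm a (fun x y => by simp [A1]))

end Pool.Agent.Work.MP_2b4d3b_al
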