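import Pool.Agent.Work.MP_2b4d3b_al.LocUnit

/-!
MODULE ExtL. xy - p =: -j, so j = p - x y in p M(J) p; choose e (locUnit) with e j = j = j e.
(p - e) x y (p - e) = p - e. Put x1 = (p - e) x, y1 = y (p - e): x1 y1 = p - e, so
q1 := y1 x1 = y (p - e) x is an idempotent in q M q, equivalent to p - e, and
q - q1 = (q - y x) + y e x has entries in J, is idempotent (q q1 = q1 = q1 q), so equivalent to
wk w b (idem_wk). e is equivalent to wk w a. p ~ bs (p - e) e, q ~ bs q1 (q - q1). So
bs p (wk b) ~ (p - e) + a w + b w ~ bs q (wk a).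
-/

set_option linter.unusedVariables false
set_option linter.style.longLine false

namespace Pool.Agent.Work.MP_2b4d3b_al

open Matrix

universe u v w u' v' w'

/-- an idempotent is the block sum of two complementary orthogonal pieces -/
theorem IdEq.split {A : Type u} [Ring A] {n : Type v'} [Fintype n] (p e : Matrix n n A)
    (hp : p * p = p) (he : e * e = e) (h1 : p * e = e) (h2 : e * p = e) :
    IdEq p (bs (p - e) e) := by
  have e1 : (p - e) * (p - e) = p - e := by
    rw [Matrix.sub_mul, Matrix.mul_sub, Matrix.mul_sub, hp, h1, h2, he, sub_self, sub_zero]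
  have e2 : (p - e) * e = 0 := by rw [Matrix.sub_mul, h1, he, sub_self]
  have e3 : e * (p - e) = 0 := by rw [Matrix.mul_sub, h2, he, sub_self]
  refine IdEq.mk' hp (bs_idem e1 he) (Matrix.fromCols (p - e) e) (Matrix.fromRows (p - e) e) ?_ ?_
  · rw [Matrix.fromCols_mul_fromRows, e1, he, sub_add_cancel]
  · rw [Matrix.fromRows_mul_fromCols, e1, e2, e3, he]
    rfl

/-- cutting down an equivalence by an idempotent -/
theorem IdEq.cut {A : Type u} [Ring A] {m : Type v'} {n : Type w'} [Fintype m] [Fintype n]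
    (x : Matrix m n A) (y : Matrix n m A) (f : Matrix m m A) (hf : f * f = f)
    (h : f * (x * y) * f = f) : (y * f * x) * (y * f * x) = y * f * x ∧ IdEq f (y * f * x) := by
  have e1 : (y * f * x) * (y * f * x) = y * f * x := by
    have : (y * f * x) * (y * f * x) = y * (f * (x * y) * f) * x := by
      simp only [Matrix.mul_assoc]
    rw [this, h]
  refine ⟨e1, IdEq.mk' hf e1 (f * x) (y * f) ?_ ?_⟩
  · have : f * x * (y * f) = f * (x * y) * f := by simp only [Matrix.mul_assoc]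
    rw [this, h]
  · have : y * f * (f * x) = y * (f * f) * x := by simp only [Matrix.mul_assoc]
    rw [this, hf]

theorem Jd_zero {A : Type u} [Ring A] {w : A} : (0 : A) ∈ Jd w :=
  mem_Jd.2 ⟨0, Fin.elim0, Fin.elim0, by simp⟩

theorem Jd_self {A : Type u} [Ring A] {w : A} : w ∈ Jd w :=
  mem_Jd.2 ⟨1, fun _ => 1, fun _ => 1, by simp⟩

theorem Jd_sum {A : Type u} [Ring A] {w : A} {ι : Type*} (s : Finset ι) (f : ι → A)
    (h : ∀ i ∈ s, f i ∈ Jd w) : ∑ i ∈ s, f i ∈ Jd w := by
  classical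
  induction s using Finset.induction_on with
  | empty => simpa using Jd_zero
  | insert a s ha ih =>
    rw [Finset.sum_insert ha]
    exact Jd_add (h a (Finset.mem_insert_self _ _))
      (ih fun i hi => h i (Finset.mem_insert_of_mem hi))

theorem Jd_mulM_left {A : Type u} [Ring A] {w : A} {m : Type*} {n : Type*} {l : Type*} [Fintype n]
    (p : Matrix m n A) (q : Matrix n l A) (h : ∀ a b, q a b ∈ Jd w) (a : m) (b : l) :
    (p * q) a b ∈ Jd w := by
  rw [Matrix.mul_apply]
  exact Jd_sum _ _ fun i _ => Jd_mul_left _ (h _ _)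

theorem Jd_mulM_right {A : Type u} [Ring A] {w : A} {m : Type*} {n : Type*} {l : Type*} [Fintype n]
    (p : Matrix m n A) (q : Matrix n l A) (h : ∀ a b, p a b ∈ Jd w) (a : m) (b : l) :
    (p * q) a b ∈ Jd w := by
  rw [Matrix.mul_apply]
  exact Jd_sum _ _ fun i _ => Jd_mul_right _ (h _ _)

theorem WD.ext {A : Type u} [Ring A] {R : Type v} [CommRing R] [IsDomain R]
    [IsPrincipalIdealRing R] {X : Type w} (D : WD A R X) {m : Type v'} {n : Type w'} [Fintype m]
    [DecidableEq m] [Fintype n] [DecidableEq n] (p : Matrix m m A) (q : Matrix n n A)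
    (hp : p * p = p) (hq : q * q = q) (x : Matrix m n A) (y : Matrix n m A)
    (hx : p * x * q = x) (hy : q * y * p = y) (h1 : ∀ a b, (p - x * y) a b ∈ Jd D.w)
    (h2 : ∀ a b, (q - y * x) a b ∈ Jd D.w) :
    ∃ a b : ℕ, IdEq (bs p (wk D.w b)) (bs q (wk D.w a)) := by
  have px : p * x = x := by
    rw [← hx, ← Matrix.mul_assoc, ← Matrix.mul_assoc, hp]
  have xq : x * q = x := by
    rw [← hx, Matrix.mul_assoc, hq]
  have qy : q * y = y := by
    rw [← hy, ← Matrix.mul_assoc, ← Matrix.mul_assoc, hq]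
  have yp : y * p = y := by
    rw [← hy, Matrix.mul_assoc, hp]
  obtain ⟨e, ee, pe, ep, eJ, ej, a0, ea⟩ := D.locUnit p hp [p - x * y] (by
    intro j hj
    rw [List.mem_singleton] at hj
    subst hj
    refine ⟨h1, ?_, ?_⟩
    · rw [Matrix.mul_sub, hp, ← Matrix.mul_assoc, px]
    · rw [Matrix.sub_mul, hp, Matrix.mul_assoc, yp])
  obtain ⟨ej1, ej2⟩ := ej (p - x * y) (List.mem_singleton.2 rfl)
  have pe2 : (p - e) * (p - e) = p - e := by
    rw [Matrix.sub_mul, Matrix.mul_sub, Matrix.mul_sub, hp, pe, ep, ee, sub_self, sub_zero]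
  have pej : (p - e) * (p - x * y) = 0 := by
    rw [Matrix.sub_mul, ej1, Matrix.mul_sub, hp, ← Matrix.mul_assoc, px, sub_self]
  have hcut : (p - e) * (x * y) * (p - e) = p - e := by
    have h3 : x * y = p - (p - x * y) := by abel
    rw [h3, Matrix.mul_sub (p - e) p, pej, sub_zero, Matrix.sub_mul p e p, hp, ep, pe2]
  obtain ⟨q1i, q1e⟩ := IdEq.cut x y (p - e) pe2 hcut
  set q1 := y * (p - e) * x with hq1
  have qq1 : q * q1 = q1 := by
    rw [hq1, ← Matrix.mul_assoc, ← Matrix.mul_assoc, qy]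
  have q1q : q1 * q = q1 := by
    rw [hq1, Matrix.mul_assoc, xq]
  have e2i : (q - q1) * (q - q1) = q - q1 := by
    rw [Matrix.sub_mul, Matrix.mul_sub, Matrix.mul_sub, hq, qq1, q1q, q1i, sub_self, sub_zero]
  have e2J : ∀ a b, (q - q1) a b ∈ Jd D.w := by
    intro a b
    have h3 : q - q1 = (q - y * x) + y * e * x := by
      rw [hq1, Matrix.mul_sub, Matrix.sub_mul, yp]
      abel
    rw [h3, Matrix.add_apply]
    exact Jd_add (h2 a b) (Jd_mulM_right _ _ (fun c d => Jd_mulM_left _ _ eJ c d) a b)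
  obtain ⟨b0, eb⟩ := D.idem_wk (q - q1) e2i e2J
  have s1 : IdEq p (bs (p - e) (wk D.w a0)) :=
    (IdEq.split p e hp ee pe ep).trans (IdEq.bsum (IdEq.refl pe2) ea)
  have s2 : IdEq q (bs (p - e) (wk D.w b0)) := by
    have h3 := IdEq.split q (q - q1) hq e2i (by rw [Matrix.mul_sub, hq, qq1])
      (by rw [Matrix.sub_mul, hq, q1q])
    rw [sub_sub_cancel] at h3
    exact h3.trans (IdEq.bsum q1e.symm eb)
  have wa := wk_idem D.ww a0
  have wb := wk_idem D.ww b0
  refine ⟨a0, b0, ?_⟩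
  have t1 : IdEq (bs p (wk D.w b0)) (bs (p - e) (bs (wk D.w a0) (wk D.w b0))) :=
    (IdEq.bsum s1 (IdEq.refl wb)).trans (IdEq.bs_assoc pe2 wa wb)
  have t2 : IdEq (bs q (wk D.w a0)) (bs (p - e) (bs (wk D.w b0) (wk D.w a0))) :=
    (IdEq.bsum s2 (IdEq.refl wa)).trans (IdEq.bs_assoc pe2 wb wa)
  exact t1.trans ((IdEq.bsum (IdEq.refl pe2) (IdEq.bs_comm wa wb)).trans t2.symm)

end Pool.Agent.Work.MP_2b4d3b_al
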