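import Pool.Agent.Work.MP_2b4d3b_al.Defs

/-!
MODULE Fred. Elementary Fredholm index over a field, Mathlib only.
ind_add: let N = ker k (finite codimension c). For any f with finite dimensional kernel and cokernel
and N of codimension c: ind (f restricted to N, as a map N → W) = ind f - c (exact sequence
0 → ker f ⊓ N → ker f → V/N → W/f(N) → W/f(V) → 0). Apply it to f and f + k (equal on N).
fred_of_param: ker f is contained in the range of g f - 1 (v = -(g f - 1) v), range f contains
ker (f g - 1), which has finite codimension.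
ind_pi: kernel and cokernel of a product map.
-/

set_option linter.unusedVariables false
set_option linter.style.longLine false

namespace Pool.Agent.Work.MP_2b4d3b_al

open Matrix

universe u v w u' v' w'

section
variable {K : Type u} [Field K] {V : Type v} {W : Type w} [AddCommGroup V] [Module K V]
  [AddCommGroup W] [Module K W]

def FRk (f : V →ₗ[K] W) : Prop := FiniteDimensional K (LinearMap.range f)

def Fredh (f : V →ₗ[K] W) : Prop :=
  FiniteDimensional K (LinearMap.ker f) ∧ FiniteDimensional K (W ⧸ LinearMap.range f)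

noncomputable def ind (f : V →ₗ[K] W) : ℤ :=
  (Module.finrank K (LinearMap.ker f) : ℤ) - Module.finrank K (W ⧸ LinearMap.range f)

private theorem ind_eq (f : V →ₗ[K] W) : ind f = f.index := LinearMap.index_eq_finrank_sub.symm

private theorem fd_of_le {N M : Submodule K V} (h : N ≤ M) (hN : FiniteDimensional K (V ⧸ N)) :
    FiniteDimensional K (V ⧸ M) :=
  Module.Finite.of_surjective (Submodule.factor h) (Submodule.factor_surjective h)

private theorem fred_comp {U : Type u'} [AddCommGroup U] [Module K U] (f : U →ₗ[K] V)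
    (g : V →ₗ[K] W) (hf : Fredh f) (hg : Fredh g) :
    Fredh (g ∘ₗ f) ∧ ind (g ∘ₗ f) = ind g + ind f := by
  obtain ⟨h1, h2⟩ := hf
  obtain ⟨h3, h4⟩ := hg
  have h5 := LinearMap.index_comp (f := f) g
  refine ⟨⟨?_, ?_⟩, ?_⟩
  · have h6 : (Submodule.map f (LinearMap.ker (g ∘ₗ f))).FG := by
      have : FiniteDimensional K (Submodule.map f (LinearMap.ker (g ∘ₗ f))) :=
        Submodule.finiteDimensional_of_le (S₂ := LinearMap.ker g) (by
          rintro _ ⟨u, hu, rfl⟩
          simpa using hu)
      exact Module.Finite.iff_fg.1 this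
    have h7 : (LinearMap.ker (g ∘ₗ f) ⊓ LinearMap.ker f).FG := by
      have : FiniteDimensional K (LinearMap.ker (g ∘ₗ f) ⊓ LinearMap.ker f : Submodule K U) :=
        Submodule.finiteDimensional_of_le (S₂ := LinearMap.ker f) inf_le_right
      exact Module.Finite.iff_fg.1 this
    exact Module.Finite.iff_fg.2 (Submodule.fg_of_fg_map_of_fg_inf_ker f h6 h7)
  · -- W / range (g f)
    have h6 : LinearMap.range f ≤ (LinearMap.range (g ∘ₗ f)).comap g := by
      rintro _ ⟨u, rfl⟩
      exact ⟨u, rfl⟩
    have h7 : (Submodule.map (LinearMap.range (g ∘ₗ f)).mkQ (LinearMap.range g)).FG := by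
      have e : Submodule.map (LinearMap.range (g ∘ₗ f)).mkQ (LinearMap.range g) =
          LinearMap.range (Submodule.mapQ _ _ g h6) := by
        rw [Submodule.range_mapQ]
      rw [e]
      exact Module.Finite.iff_fg.1 inferInstance
    have h8 : FiniteDimensional K
        ((W ⧸ LinearMap.range (g ∘ₗ f)) ⧸
          Submodule.map (LinearMap.range (g ∘ₗ f)).mkQ (LinearMap.range g)) :=
      Module.Finite.equiv (Submodule.quotientQuotientEquivQuotient _ _
        (LinearMap.range_comp_le_range f g)).symm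
    have h9 : FiniteDimensional K
        (Submodule.map (LinearMap.range (g ∘ₗ f)).mkQ (LinearMap.range g)) :=
      Module.Finite.iff_fg.2 h7
    exact Module.Finite.of_submodule_quotient
      (Submodule.map (LinearMap.range (g ∘ₗ f)).mkQ (LinearMap.range g))
  · rw [ind_eq, ind_eq, ind_eq, h5]

theorem ind_add (f k : V →ₗ[K] W) (hf : Fredh f) (hk : FRk k) :
    Fredh (f + k) ∧ ind (f + k) = ind f := by
  have hN : FiniteDimensional K (V ⧸ LinearMap.ker k) := by
    have : FiniteDimensional K (LinearMap.range k) := hk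
    exact Module.Finite.equiv k.quotKerEquivRange.symm
  set N := LinearMap.ker k with hNdef
  have hι : Fredh N.subtype := by
    constructor
    · rw [Submodule.ker_subtype]
      infer_instance
    · rw [Submodule.range_subtype]
      exact hN
  have he : (f + k) ∘ₗ N.subtype = f ∘ₗ N.subtype := by
    ext ⟨v, hv⟩
    have : k v = 0 := hv
    simp [this]
  obtain ⟨h1, h2⟩ := fred_comp N.subtype f hι hf
  have h3 : Fredh (f + k) := by
    constructor
    · have h4 : (Submodule.map N.mkQ (LinearMap.ker (f + k))).FG := by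
        have : FiniteDimensional K (Submodule.map N.mkQ (LinearMap.ker (f + k))) := inferInstance
        exact Module.Finite.iff_fg.1 this
      have h5 : (LinearMap.ker (f + k) ⊓ LinearMap.ker N.mkQ).FG := by
        have : FiniteDimensional K (LinearMap.ker (f + k) ⊓ LinearMap.ker N.mkQ : Submodule K V) := by
          have := hf.1
          refine Submodule.finiteDimensional_of_le (S₂ := LinearMap.ker f) ?_
          rintro v ⟨hv1, hv2⟩
          have h6 : k v = 0 := by simpa [hNdef] using hv2
          have h7 : f v + k v = 0 := hv1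
          rw [h6, add_zero] at h7
          exact h7
        exact Module.Finite.iff_fg.1 this
      exact Module.Finite.iff_fg.2 (Submodule.fg_of_fg_map_of_fg_inf_ker N.mkQ h4 h5)
    · refine fd_of_le (N := LinearMap.range ((f + k) ∘ₗ N.subtype))
        (LinearMap.range_comp_le_range _ _) ?_
      rw [he]
      exact h1.2
  refine ⟨h3, ?_⟩
  obtain ⟨_, h4⟩ := fred_comp N.subtype (f + k) hι h3
  rw [he, h2] at h4
  omega

theorem fred_of_param (f : V →ₗ[K] W) (g : W →ₗ[K] V) (h1 : FRk (g ∘ₗ f - LinearMap.id))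
    (h2 : FRk (f ∘ₗ g - LinearMap.id)) : Fredh f := by
  constructor
  · have : FiniteDimensional K (LinearMap.range (g ∘ₗ f - LinearMap.id)) := h1
    refine Submodule.finiteDimensional_of_le
      (S₂ := LinearMap.range (g ∘ₗ f - LinearMap.id)) ?_
    intro v hv
    have h3 : f v = 0 := hv
    exact ⟨-v, by simp [h3]⟩
  · have : FiniteDimensional K (LinearMap.range (f ∘ₗ g - LinearMap.id)) := h2
    have h3 : FiniteDimensional K (W ⧸ LinearMap.ker (f ∘ₗ g - LinearMap.id)) :=
      Module.Finite.equiv (f ∘ₗ g - LinearMap.id).quotKerEquivRange.symm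
    refine fd_of_le ?_ h3
    intro w hw
    have h4 : f (g w) - w = 0 := hw
    exact ⟨g w, sub_eq_zero.1 h4⟩

theorem ind_bij (f : V →ₗ[K] W) (h : Function.Bijective f) : Fredh f ∧ ind f = 0 := by
  have h1 : LinearMap.ker f = ⊥ := LinearMap.ker_eq_bot.2 h.1
  have h2 : LinearMap.range f = ⊤ := LinearMap.range_eq_top.2 h.2
  refine ⟨⟨?_, ?_⟩, ?_⟩
  · rw [h1]
    infer_instance
  · rw [h2]
    infer_instance
  · rw [ind_eq]
    exact LinearEquiv.index_eq_zero (e := LinearEquiv.ofBijective f h)

theorem ind_inj (f : V →ₗ[K] W) (h : Function.Injective f)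
    (hc : FiniteDimensional K (W ⧸ LinearMap.range f)) :
    ind f = -(Module.finrank K (W ⧸ LinearMap.range f) : ℤ) := by
  rw [ind_eq, LinearMap.index_of_injective h]

theorem ind_conj {V' : Type v'} {W' : Type w'} [AddCommGroup V'] [Module K V'] [AddCommGroup W']
    [Module K W'] (f : V →ₗ[K] W) (a : V' ≃ₗ[K] V) (b : W ≃ₗ[K] W') (hf : Fredh f) :
    Fredh (b.toLinearMap ∘ₗ f ∘ₗ a.toLinearMap) ∧
      ind (b.toLinearMap ∘ₗ f ∘ₗ a.toLinearMap) = ind f := by
  obtain ⟨h1, h2⟩ := ind_bij a.toLinearMap a.bijective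
  obtain ⟨h3, h4⟩ := ind_bij b.toLinearMap b.bijective
  obtain ⟨h5, h6⟩ := fred_comp _ _ h1 hf
  obtain ⟨h7, h8⟩ := fred_comp _ _ h5 h3
  refine ⟨h7, ?_⟩
  rw [h8, h6, h2, h4]
  ring

theorem ind_fin (f : V →ₗ[K] W) [FiniteDimensional K V] [FiniteDimensional K W] :
    Fredh f ∧ ind f = (Module.finrank K V : ℤ) - Module.finrank K W := by
  refine ⟨⟨inferInstance, inferInstance⟩, ?_⟩
  rw [ind_eq, LinearMap.index_eq_of_finiteDimensional]

theorem ind_prod {V' : Type v'} {W' : Type w'} [AddCommGroup V'] [Module K V'] [AddCommGroup W']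
    [Module K W'] (f : V →ₗ[K] W) (g : V' →ₗ[K] W') (hf : Fredh f) (hg : Fredh g) :
    Fredh (f.prodMap g) ∧ ind (f.prodMap g) = ind f + ind g := by
  obtain ⟨h1, h2⟩ := hf
  obtain ⟨h3, h4⟩ := hg
  -- the kernel
  have ek : Nonempty ((LinearMap.ker f × LinearMap.ker g) ≃ₗ[K] LinearMap.ker (f.prodMap g)) := by
    have hinj : Function.Injective
        ((LinearMap.ker f).subtype.prodMap (LinearMap.ker g).subtype) := by
      rintro ⟨a, b⟩ ⟨c, d⟩ h
      simpa using h
    refine ⟨(LinearEquiv.ofInjective _ hinj).trans (LinearEquiv.ofEq _ _ ?_)⟩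
    rw [LinearMap.range_prodMap, LinearMap.ker_prodMap, Submodule.range_subtype,
      Submodule.range_subtype]
  have eq : Nonempty (((W × W') ⧸ LinearMap.range (f.prodMap g)) ≃ₗ[K]
      ((W ⧸ LinearMap.range f) × (W' ⧸ LinearMap.range g))) := by
    have hs : Function.Surjective
        ((LinearMap.range f).mkQ.prodMap (LinearMap.range g).mkQ) := by
      rintro ⟨a, b⟩
      obtain ⟨c, rfl⟩ := Submodule.mkQ_surjective _ a
      obtain ⟨d, rfl⟩ := Submodule.mkQ_surjective _ b
      exact ⟨(c, d), rfl⟩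
    refine ⟨(Submodule.quotEquivOfEq _ _ ?_).trans
      (LinearMap.quotKerEquivOfSurjective _ hs)⟩
    rw [LinearMap.range_prodMap, LinearMap.ker_prodMap, Submodule.ker_mkQ, Submodule.ker_mkQ]
  obtain ⟨ek⟩ := ek
  obtain ⟨eq⟩ := eq
  refine ⟨⟨Module.Finite.equiv ek, Module.Finite.equiv eq.symm⟩, ?_⟩
  unfold ind
  rw [← ek.finrank_eq, eq.finrank_eq, Module.finrank_prod, Module.finrank_prod]
  push_cast
  ring

theorem ind_pi {ι : Type u'} [Fintype ι] {V' W' : ι → Type v'} [∀ i, AddCommGroup (V' i)]
    [∀ i, Module K (V' i)] [∀ i, AddCommGroup (W' i)] [∀ i, Module K (W' i)]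
    (f : ∀ i, V' i →ₗ[K] W' i) (hf : ∀ i, Fredh (f i)) :
    Fredh (LinearMap.pi fun i => (f i) ∘ₗ LinearMap.proj i) ∧
      ind (LinearMap.pi fun i => (f i) ∘ₗ LinearMap.proj i) = ∑ i, ind (f i) := by
  classical
  have i1 : ∀ i, FiniteDimensional K (LinearMap.ker (f i)) := fun i => (hf i).1
  have i2 : ∀ i, FiniteDimensional K (W' i ⧸ LinearMap.range (f i)) := fun i => (hf i).2
  set F : (∀ i, V' i) →ₗ[K] (∀ i, W' i) := LinearMap.pi fun i => (f i) ∘ₗ LinearMap.proj i with hF
  have hFa : ∀ v i, F v i = f i (v i) := fun v i => rfl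
  have ek : Nonempty ((∀ i, LinearMap.ker (f i)) ≃ₗ[K] LinearMap.ker F) := by
    set Φ : (∀ i, LinearMap.ker (f i)) →ₗ[K] (∀ i, V' i) :=
      LinearMap.pi fun i => (LinearMap.ker (f i)).subtype ∘ₗ LinearMap.proj i with hΦ
    have hΦa : ∀ v i, Φ v i = (v i : V' i) := fun v i => rfl
    have hinj : Function.Injective Φ := by
      intro a b h
      funext i
      apply Subtype.ext
      rw [← hΦa, h, hΦa]
    refine ⟨(LinearEquiv.ofInjective _ hinj).trans (LinearEquiv.ofEq _ _ ?_)⟩
    ext v
    constructor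
    · rintro ⟨a, rfl⟩
      rw [LinearMap.mem_ker]
      funext i
      rw [hFa, hΦa]
      exact (a i).2
    · intro hv
      refine ⟨fun i => ⟨v i, ?_⟩, rfl⟩
      rw [LinearMap.mem_ker] at hv ⊢
      rw [← hFa, hv]
      rfl
  have eq : Nonempty (((∀ i, W' i) ⧸ LinearMap.range F) ≃ₗ[K]
      (∀ i, W' i ⧸ LinearMap.range (f i))) := by
    set Ψ : (∀ i, W' i) →ₗ[K] (∀ i, W' i ⧸ LinearMap.range (f i)) :=
      LinearMap.pi fun i => (LinearMap.range (f i)).mkQ ∘ₗ LinearMap.proj i with hΨ
    have hΨa : ∀ w i, Ψ w i = (LinearMap.range (f i)).mkQ (w i) := fun v i => rfl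
    have hs : Function.Surjective Ψ := by
      intro a
      choose c hc using fun i => Submodule.mkQ_surjective _ (a i)
      refine ⟨c, ?_⟩
      funext i
      rw [hΨa, hc]
    refine ⟨(Submodule.quotEquivOfEq _ _ ?_).trans (LinearMap.quotKerEquivOfSurjective _ hs)⟩
    ext w
    rw [LinearMap.mem_ker]
    constructor
    · rintro ⟨v, rfl⟩
      funext i
      rw [hΨa, hFa]
      simp
    · intro hw
      have h1 : ∀ i, ∃ v, f i v = w i := by
        intro i
        have h2 := congrFun hw i
        rw [hΨa] at h2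
        simpa using h2
      choose v hv using h1
      refine ⟨v, ?_⟩
      funext i
      rw [hFa, hv]
  obtain ⟨ek⟩ := ek
  obtain ⟨eq⟩ := eq
  refine ⟨⟨Module.Finite.equiv ek, Module.Finite.equiv eq.symm⟩, ?_⟩
  unfold ind
  rw [← ek.finrank_eq, eq.finrank_eq, Module.finrank_pi_fintype, Module.finrank_pi_fintype]
  push_cast
  rw [Finset.sum_sub_distrib]

end

section
variable {K : Type u} [Field K] {U : Type u'} {V : Type v} {W : Type w} [AddCommGroup U]
  [Module K U] [AddCommGroup V] [Module K V] [AddCommGroup W] [Module K W]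

theorem FRk.add {f g : V →ₗ[K] W} (hf : FRk f) (hg : FRk g) : FRk (f + g) := by
  have h1 : FiniteDimensional K (LinearMap.range f) := hf
  have h2 : FiniteDimensional K (LinearMap.range g) := hg
  exact Submodule.finiteDimensional_of_le (LinearMap.range_add_le f g)

theorem FRk.neg {f : V →ₗ[K] W} (hf : FRk f) : FRk (-f) := by
  unfold FRk
  rw [LinearMap.range_neg]
  exact hf

theorem FRk.zero : FRk (0 : V →ₗ[K] W) := by
  unfold FRk
  rw [LinearMap.range_zero]
  infer_instance

theorem FRk.comp_left {f : V →ₗ[K] W} (hf : FRk f) (g : W →ₗ[K] U) : FRk (g ∘ₗ f) := by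
  unfold FRk
  rw [LinearMap.range_comp]
  have h1 : FiniteDimensional K (LinearMap.range f) := hf
  infer_instance

theorem FRk.comp_right {f : V →ₗ[K] W} (hf : FRk f) (g : U →ₗ[K] V) : FRk (f ∘ₗ g) := by
  have h1 : FiniteDimensional K (LinearMap.range f) := hf
  exact Submodule.finiteDimensional_of_le (LinearMap.range_comp_le_range g f)

end

end Pool.Agent.Work.MP_2b4d3b_al
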