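import Pool.Agent.Work.MP_2b4d3b_al.Fred

/-!
MODULE PathOp. Path spaces. Abstract path data PD (start, partial maps cons and uncons) give a
representation by partial maps of the basis; all relations hold except ck on exceptional paths.
A bijection PTo G l = Unit ⊕ Σ PTo G (s e) (append the last edge e) intertwines the representations
up to the empty path. The same for paths which never leave j.
-/

set_option linter.unusedVariables false
set_option linter.style.longLine false

namespace Pool.Agent.Work.MP_2b4d3b_al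

open Matrix

universe u v w u' v' w'

section
variable {V : Type v} {E : Type w}

/-- paths ending at l, indexed by their start -/
inductive Pth (G : Gr V E) (l : V) : V → Type (max v w)
  | nil : Pth G l l
  | cons (e : E) (p : Pth G l (G.r e)) : Pth G l (G.s e)

abbrev PTo (G : Gr V E) (l : V) := Σ x, Pth G l x

/-- paths ending at j which do not use an edge with source j -/
inductive NPth (G : Gr V E) (j : V) : V → Type (max v w)
  | nil : NPth G j j
  | cons (e : E) (h : G.s e ≠ j) (p : NPth G j (G.r e)) : NPth G j (G.s e)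

abbrev NPTo (G : Gr V E) (j : V) := Σ x, NPth G j x

end

namespace PathOp

section op
variable (K : Type u) [Field K] {P Q R : Type}

noncomputable def optS (o : Option Q) : Q →₀ K := o.elim 0 (fun q => Finsupp.single q 1)

@[simp] theorem optS_none : optS K (none : Option Q) = 0 := rfl
@[simp] theorem optS_some (q : Q) : optS K (some q) = Finsupp.single q 1 := rfl

noncomputable def op (f : P → Option Q) : (P →₀ K) →ₗ[K] (Q →₀ K) :=
  Finsupp.linearCombination K (fun p => optS K (f p))

@[simp] theorem op_single (f : P → Option Q) (p : P) : op K f (Finsupp.single p 1) = optS K (f p) := by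
  rw [op, Finsupp.linearCombination_single, one_smul]

theorem op_optS (f : P → Option Q) (o : Option P) : op K f (optS K o) = optS K (o.bind f) := by
  cases o <;> simp

variable {K}

theorem ext1 {W : Type v} [AddCommGroup W] [Module K W] {S T : (P →₀ K) →ₗ[K] W}
    (h : ∀ p, S (Finsupp.single p 1) = T (Finsupp.single p 1)) : S = T := by
  ext p
  simpa using h p

theorem frk_of {W : Type v} [AddCommGroup W] [Module K W] (S T : (P →₀ K) →ₗ[K] W) (F : Set P)
    (hF : F.Finite) (h : ∀ p ∉ F, S (Finsupp.single p 1) = T (Finsupp.single p 1)) : FRk (S - T) := by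
  unfold FRk
  have hle : LinearMap.range (S - T) ≤
      Submodule.span K ((fun p => (S - T) (Finsupp.single p 1)) '' F) := by
    rintro _ ⟨v, rfl⟩
    rw [← Finsupp.sum_single v, Finsupp.sum, map_sum]
    refine Submodule.sum_mem _ fun p _ => ?_
    have h1 : Finsupp.single p (v p) = v p • Finsupp.single p (1 : K) := by simp
    rw [h1, map_smul]
    refine Submodule.smul_mem _ _ ?_
    by_cases hp : p ∈ F
    · exact Submodule.subset_span ⟨p, hp, rfl⟩
    · rw [LinearMap.sub_apply, h p hp, sub_self]
      exact Submodule.zero_mem _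
  have : FiniteDimensional K (Submodule.span K ((fun p => (S - T) (Finsupp.single p 1)) '' F)) :=
    FiniteDimensional.span_of_finite K (hF.image _)
  exact Submodule.finiteDimensional_of_le hle

/-- splitting of a space with basis `Unit ⊕ Σ i, Q i` -/
theorem exists_split {ι : Type} [Finite ι] {Q : ι → Type} (φ : P ≃ Unit ⊕ (Σ i, Q i))
    (ρ : ∀ i, P → Option (Q i)) (h1 : ∀ p i q, ρ i p = some q ↔ φ p = Sum.inr ⟨i, q⟩) :
    ∃ e : (P →₀ K) ≃ₗ[K] K × (∀ i, (Q i →₀ K)), ∀ i,
      (LinearMap.proj i ∘ₗ LinearMap.snd K K (∀ i, (Q i →₀ K))) ∘ₗ e.toLinearMap = op K (ρ i) := by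
  classical
  have := Fintype.ofFinite ι
  let e : (P →₀ K) ≃ₗ[K] K × (∀ i, (Q i →₀ K)) :=
    (Finsupp.domLCongr φ).trans ((Finsupp.sumFinsuppLEquivProdFinsupp K).trans
      ((Finsupp.uniqueLinearEquiv K K ()).prodCongr (Finsupp.sigmaFinsuppLEquivPiFinsupp K)))
  refine ⟨e, fun i => ext1 fun p => ?_⟩
  rw [op_single]
  ext q
  have h2 : ((LinearMap.proj i ∘ₗ LinearMap.snd K K (∀ i, (Q i →₀ K))) ∘ₗ e.toLinearMap) (Finsupp.single p 1) q =
      (Finsupp.single (φ p) (1 : K)) (Sum.inr ⟨i, q⟩) := by
    simp [e]
  rw [h2, Finsupp.single_apply]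
  rcases hρ : ρ i p with _ | q'
  · have : φ p ≠ Sum.inr ⟨i, q⟩ := by
      intro h
      rw [← h1, hρ] at h
      exact absurd h (by simp)
    rw [if_neg this]
    simp
  · have h3 := (h1 p i q').1 hρ
    rw [h3, optS_some, Finsupp.single_apply]
    by_cases h4 : q' = q
    · subst h4
      simp
    · rw [if_neg h4, if_neg]
      intro h5
      apply h4
      simpa using h5

end op

/-- abstract path spaces -/
structure PD {V E : Type} (G : Gr V E) (P : Type) where
  st : P → V
  cs : E → P → Option P
  un : E → P → Option P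
  cs_def : ∀ e p, st p = G.r e → ∃ q, cs e p = some q
  cs_st : ∀ e p q, cs e p = some q → st p = G.r e ∧ st q = G.s e
  un_iff : ∀ e p q, un e q = some p ↔ cs e p = some q
  un_uniq : ∀ e f p p' q, cs e p = some q → cs f p' = some q → e = f

section PD

variable (K : Type u) [Field K] {V E : Type} {G : Gr V E} {P Q : Type} (D : PD G P) (D' : PD G Q)

open Classical in
/-- the partial functions of the generators -/
noncomputable def PD.pf : Gen V E → P → Option P
  | .vx x => fun p => if D.st p = x then some p else none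
  | .ed e => D.cs e
  | .gh e => D.un e

noncomputable def PD.rep : FreeAlgebra K (Gen V E) →ₐ[K] Module.End K (P →₀ K) :=
  FreeAlgebra.lift K fun g => op K (D.pf g)

theorem PD.rep_ι (g : Gen V E) : D.rep K (FreeAlgebra.ι K g) = op K (D.pf g) := by
  rw [PD.rep, FreeAlgebra.lift_ι_apply]

theorem PD.rep_mul (g g' : Gen V E) (p : P) :
    D.rep K (FreeAlgebra.ι K g * FreeAlgebra.ι K g') (Finsupp.single p 1) =
      optS K ((D.pf g' p).bind (D.pf g)) := by
  rw [map_mul, D.rep_ι K, D.rep_ι K, Module.End.mul_apply, op_single, op_optS]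

theorem PD.rep_single (g : Gen V E) (p : P) :
    D.rep K (FreeAlgebra.ι K g) (Finsupp.single p 1) = optS K (D.pf g p) := by
  rw [D.rep_ι K, op_single]

/-- exceptional paths -/
def PD.exc : Set P := {q | (∃ e, G.s e = D.st q) ∧ ∀ e, D.un e q = none}

theorem PD.rel_single {a b : FreeAlgebra K (Gen V E)} (h : Rel K G a b) (p : P) (hp : p ∉ D.exc) :
    D.rep K a (Finsupp.single p 1) = D.rep K b (Finsupp.single p 1) := by
  classical
  induction h with
  | vv x =>
    rw [D.rep_mul K, D.rep_single K]
    by_cases h : D.st p = x <;> simp [PD.pf, h]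
  | vw x y hxy =>
    rw [D.rep_mul K, map_zero, LinearMap.zero_apply]
    by_cases h : D.st p = y
    · have : D.st p ≠ x := fun h' => hxy (h'.symm.trans h)
      simp [PD.pf, h, Ne.symm hxy]
    · simp [PD.pf, h]
  | se e =>
    rw [D.rep_mul K, D.rep_single K]
    rcases h : D.cs e p with _ | q
    · simp [PD.pf, h]
    · simp [PD.pf, h, (D.cs_st e p q h).2]
  | er e =>
    rw [D.rep_mul K, D.rep_single K]
    by_cases h1 : D.st p = G.r e
    · simp [PD.pf, h1]
    · rcases h : D.cs e p with _ | q
      · simp [PD.pf, h1, h]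
      · exact absurd (D.cs_st e p q h).1 h1
  | rg e =>
    rw [D.rep_mul K, D.rep_single K]
    rcases h : D.un e p with _ | q
    · simp [PD.pf, h]
    · simp [PD.pf, h, (D.cs_st e q p ((D.un_iff e q p).1 h)).1]
  | gs e =>
    rw [D.rep_mul K, D.rep_single K]
    by_cases h1 : D.st p = G.s e
    · simp [PD.pf, h1]
    · rcases h : D.un e p with _ | q
      · simp [PD.pf, h1, h]
      · exact absurd (D.cs_st e q p ((D.un_iff e q p).1 h)).2 h1
  | ge e =>
    rw [D.rep_mul K, D.rep_single K]
    by_cases h1 : D.st p = G.r e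
    · obtain ⟨q, hq⟩ := D.cs_def e p h1
      simp [PD.pf, h1, hq, (D.un_iff e p q).2 hq]
    · rcases h : D.cs e p with _ | q
      · simp [PD.pf, h1, h]
      · exact absurd (D.cs_st e p q h).1 h1
  | gf e f hef =>
    rw [D.rep_mul K, map_zero, LinearMap.zero_apply]
    rcases h : D.cs f p with _ | q
    · simp [PD.pf, h]
    · rcases h' : D.un e q with _ | p'
      · simp [PD.pf, h, h']
      · exact absurd (D.un_uniq e f p' p q ((D.un_iff e p' q).1 h') h) hef
  | ck x S hS hne =>
    rw [D.rep_single K, map_sum, LinearMap.sum_apply]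
    simp_rw [D.rep_mul K]
    by_cases hx : D.st p = x
    · obtain ⟨e0, he0⟩ := hne
      have h1 : ∃ e, D.un e p ≠ none := by
        by_contra hcon
        push Not at hcon
        exact hp ⟨⟨e0, ((hS e0).1 he0).trans hx.symm⟩, hcon⟩
      obtain ⟨e, he⟩ := h1
      obtain ⟨q, hq⟩ := Option.ne_none_iff_exists'.1 he
      have hcs := (D.un_iff e q p).1 hq
      have heS : e ∈ S := (hS e).2 ((D.cs_st e q p hcs).2.symm.trans hx)
      rw [Finset.sum_eq_single e]
      · simp [PD.pf, hx, hq, hcs]
      · intro f _ hfe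
        rcases h' : D.un f p with _ | p'
        · simp [PD.pf, h']
        · exact absurd (D.un_uniq f e p' q p ((D.un_iff f p' p).1 h') hcs) hfe
      · intro h; exact absurd heS h
    · rw [Finset.sum_eq_zero]
      · simp [PD.pf, hx]
      · intro e he
        rcases h' : D.un e p with _ | p'
        · simp [PD.pf, h']
        · exact absurd ((D.cs_st e p' p ((D.un_iff e p' p).1 h')).2.trans ((hS e).1 he)) hx
  | one T hT =>
    rw [map_one, map_sum, LinearMap.sum_apply]
    simp_rw [D.rep_single K]
    rw [Finset.sum_eq_single (D.st p)]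
    · simp [PD.pf]
    · intro x _ hx
      simp [PD.pf, Ne.symm hx]
    · intro h; exact absurd (hT _) h

theorem PD.rel_exact (h0 : D.exc = ∅) {a b : FreeAlgebra K (Gen V E)} (h : Rel K G a b) :
    D.rep K a = D.rep K b :=
  ext1 fun p => D.rel_single K h p (by rw [h0]; exact Set.notMem_empty p)

theorem PD.rel_frk (h0 : D.exc.Finite) {a b : FreeAlgebra K (Gen V E)} (h : Rel K G a b) :
    FRk (D.rep K a - D.rep K b) :=
  frk_of _ _ D.exc h0 fun p hp => D.rel_single K h p hp

/-- almost intertwining partial maps -/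
structure PD.Mor (ρ : P → Option Q) (F : Set P) : Prop where
  fin : F.Finite
  st : ∀ p q, ρ p = some q → D'.st q = D.st p
  cs : ∀ e, ∀ p ∉ F, (D.cs e p).bind ρ = (ρ p).bind (D'.cs e)
  un : ∀ e, ∀ p ∉ F, (D.un e p).bind ρ = (ρ p).bind (D'.un e)

variable {D D'}

theorem PD.Mor.frk {ρ : P → Option Q} {F : Set P} (h : PD.Mor D D' ρ F) (g : Gen V E) :
    FRk (op K ρ ∘ₗ D.rep K (FreeAlgebra.ι K g) - D'.rep K (FreeAlgebra.ι K g) ∘ₗ op K ρ) := by
  classical
  refine frk_of _ _ F h.fin fun p hp => ?_
  rw [LinearMap.comp_apply, LinearMap.comp_apply, D.rep_single K, op_optS, op_single, D'.rep_ι K, op_optS]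
  congr 1
  cases g with
  | vx x =>
    rcases hr : ρ p with _ | q
    · by_cases hx : D.st p = x <;> simp [PD.pf, hx, hr]
    · have := h.st p q hr
      by_cases hx : D.st p = x <;> simp [PD.pf, hx, hr, this]
  | ed e => exact h.cs e p hp
  | gh e => exact h.un e p hp

end PD

section Mor

variable {V E : Type} {G : Gr V E} {P Q : Type} (D : PD G P) (D' : PD G Q)

theorem mor_of (S : Q → P) (hS : Function.Injective S) (n : P) (hn : ∀ q, S q ≠ n)
    (S1 : ∀ q, D.st (S q) = D'.st q)
    (S2 : ∀ e q q', D'.cs e q = some q' → D.cs e (S q) = some (S q'))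
    (S3 : ∀ e p q', D.cs e p = some (S q') → p = n ∨ ∃ q, p = S q ∧ D'.cs e q = some q') :
    PD.Mor D D' (Function.partialInv S) {n} := by
  have hρ : ∀ q p, Function.partialInv S p = some q ↔ S q = p := hS.isPartialInv
  have hρS : ∀ q, Function.partialInv S (S q) = some q := fun q => (hρ q _).2 rfl
  refine ⟨Set.finite_singleton n, fun p q h => ?_, fun e p hp => ?_, fun e p hp => ?_⟩
  · rw [← (hρ q p).1 h, S1]
  · have hpn : p ≠ n := hp
    rcases h : Function.partialInv S p with _ | q
    · rw [Option.bind_none]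
      rcases h1 : D.cs e p with _ | p'
      · rfl
      · rw [Option.bind_some]
        rcases h2 : Function.partialInv S p' with _ | q'
        · rfl
        · rw [← (hρ q' p').1 h2] at h1
          rcases S3 e p q' h1 with h3 | ⟨q, rfl, -⟩
          · exact absurd h3 hpn
          · rw [hρS] at h
            exact absurd h (by simp)
    · rw [Option.bind_some]
      obtain rfl := (hρ q p).1 h
      rcases h1 : D'.cs e q with _ | q'
      · rcases h2 : D.cs e (S q) with _ | p'
        · rfl
        · have h3 : D'.st q = G.r e := by rw [← S1]; exact (D.cs_st e _ _ h2).1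
          obtain ⟨q', hq'⟩ := D'.cs_def e q h3
          rw [hq'] at h1
          exact absurd h1 (by simp)
      · rw [S2 e q q' h1, Option.bind_some, hρS]
  · have hpn : p ≠ n := hp
    rcases h : Function.partialInv S p with _ | q
    · rw [Option.bind_none]
      rcases h1 : D.un e p with _ | p'
      · rfl
      · rw [Option.bind_some]
        rcases h2 : Function.partialInv S p' with _ | q'
        · rfl
        · obtain rfl := (hρ q' p').1 h2
          have h3 := (D.un_iff e _ _).1 h1
          have h4 : D'.st q' = G.r e := by rw [← S1]; exact (D.cs_st e _ _ h3).1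
          obtain ⟨q, hq⟩ := D'.cs_def e q' h4
          have h5 := S2 e q' q hq
          rw [h3] at h5
          have h6 : p = S q := by simpa using h5
          rw [h6, hρS] at h
          exact absurd h (by simp)
    · rw [Option.bind_some]
      obtain rfl := (hρ q p).1 h
      rcases h1 : D.un e (S q) with _ | p'
      · rcases h2 : D'.un e q with _ | q'
        · rfl
        · have h3 := (D.un_iff e _ _).2 (S2 e q' q ((D'.un_iff e q' q).1 h2))
          rw [h3] at h1
          exact absurd h1 (by simp)
      · rw [Option.bind_some]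
        have h3 := (D.un_iff e _ _).1 h1
        rcases S3 e p' q h3 with h4 | ⟨q', h4, h5⟩
        · have h6 : Function.partialInv S p' = none := by
            rcases h7 : Function.partialInv S p' with _ | q'
            · rfl
            · exact absurd (((hρ q' p').1 h7).trans h4) (hn q')
          rw [h6]
          rcases h2 : D'.un e q with _ | q'
          · rfl
          · have h7 := (D.un_iff e _ _).2 (S2 e q' q ((D'.un_iff e q' q).1 h2))
            rw [h7] at h1
            have h8 : S q' = p' := by simpa using h1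
            exact absurd (h8.trans h4) (hn q')
        · rw [h4, hρS]
          exact ((D'.un_iff e q' q).2 h5).symm

end Mor

section paths

variable {V E : Type} (G : Gr V E) (l : V)

/-- the empty path -/
def nilS : PTo G l := ⟨l, .nil⟩

variable {G l}

/-- cons -/
def consS (e : E) (x : V) (p : Pth G l x) (h : x = G.r e) : PTo G l := ⟨G.s e, .cons e (h ▸ p)⟩

open Classical in
noncomputable def csS (e : E) (p : PTo G l) : Option (PTo G l) :=
  if h : p.1 = G.r e then some (consS e p.1 p.2 h) else none

open Classical in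
noncomputable def unS (e : E) : PTo G l → Option (PTo G l)
  | ⟨_, .nil⟩ => none
  | ⟨_, .cons f q⟩ => if e = f then some ⟨G.r f, q⟩ else none

theorem csS_eq (e : E) (q : Pth G l (G.r e)) : csS e (⟨G.r e, q⟩ : PTo G l) = some ⟨G.s e, .cons e q⟩ := by
  simp [csS, consS]

theorem csS_some (e : E) (p q : PTo G l) : csS e p = some q ↔ ∃ p' : Pth G l (G.r e), p = ⟨G.r e, p'⟩ ∧
    q = ⟨G.s e, .cons e p'⟩ := by
  constructor
  · intro h
    obtain ⟨x, p⟩ := p
    by_cases hx : x = G.r e
    · subst hx
      rw [csS_eq] at h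
      exact ⟨p, rfl, by simpa using h.symm⟩
    · simp [csS, hx] at h
  · rintro ⟨p', rfl, rfl⟩
    exact csS_eq e p'

theorem unS_some (e : E) (p q : PTo G l) : unS e q = some p ↔ ∃ p' : Pth G l (G.r e), p = ⟨G.r e, p'⟩ ∧
    q = ⟨G.s e, .cons e p'⟩ := by
  constructor
  · intro h
    obtain ⟨x, q⟩ := q
    cases q with
    | nil => simp [unS] at h
    | cons f q =>
      by_cases hef : e = f
      · subst hef
        simp only [unS, if_true] at h
        exact ⟨q, by simpa using h.symm, rfl⟩
      · simp [unS, hef] at h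
  · rintro ⟨p', rfl, rfl⟩
    simp [unS]

variable (G l)

/-- path spaces -/
noncomputable def pathPD : PD G (PTo G l) where
  st p := p.1
  cs := csS
  un := unS
  cs_def e p h := by
    obtain ⟨x, p⟩ := p
    simp only at h
    subst h
    exact ⟨_, csS_eq e p⟩
  cs_st e p q h := by
    obtain ⟨p', rfl, rfl⟩ := (csS_some e p q).1 h
    exact ⟨rfl, rfl⟩
  un_iff e p q := (unS_some e p q).trans (csS_some e p q).symm
  un_uniq e f p p' q h1 h2 := by
    obtain ⟨p1, rfl, rfl⟩ := (csS_some e p q).1 h1
    obtain ⟨p2, rfl, h3⟩ := (csS_some f p' _).1 h2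
    have h4 : unS e (⟨G.s f, .cons f p2⟩ : PTo G l) = some ⟨G.r e, p1⟩ := by
      rw [← h3]
      exact (unS_some e _ _).2 ⟨p1, rfl, rfl⟩
    by_contra hne
    simp [unS, hne] at h4

theorem pathPD_exc : (pathPD G l).exc ⊆ {nilS G l} := by
  rintro ⟨x, q⟩ ⟨-, h⟩
  cases q with
  | nil => rfl
  | cons f q =>
    have := h f
    simp [pathPD, unS] at this

theorem reach_of_path {x : V} (p : Pth G l x) : GRch G x l := by
  induction p with
  | nil => exact Relation.ReflTransGen.refl
  | cons e p ih => exact Relation.ReflTransGen.head ⟨e, rfl, rfl⟩ ih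

end paths

section snoc

variable {V E : Type} {G : Gr V E} {l : V}

/-- edge list -/
def toL : {x : V} → Pth G l x → List E
  | _, .nil => []
  | _, .cons e p => e :: toL p

theorem toL_inj : ∀ {x y : V} (p : Pth G l x) (q : Pth G l y), toL p = toL q →
    (⟨x, p⟩ : PTo G l) = ⟨y, q⟩ := by
  intro x y p
  induction p generalizing y with
  | nil =>
    intro q h
    cases q with
    | nil => rfl
    | cons f q => simp [toL] at h
  | cons e p ih =>
    intro q h
    cases q with
    | nil => simp [toL] at h
    | cons f q =>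
      simp only [toL, List.cons.injEq] at h
      obtain ⟨rfl, h⟩ := h
      have h1 := ih q h
      have h2 : p = q := by simpa using h1
      rw [h2]

/-- append an edge -/
def snoc (i : E) (h : G.r i = l) : {x : V} → Pth G (G.s i) x → Pth G l x
  | _, .nil => .cons i (h ▸ .nil)
  | _, .cons f q => .cons f (snoc i h q)

theorem toL_cast {y : V} (h : l = y) (p : Pth G l l) (hp : toL p = []) :
    toL (h ▸ p : Pth G l y) = [] := by
  subst h
  exact hp

theorem toL_snoc (i : E) (h : G.r i = l) {x : V} (p : Pth G (G.s i) x) :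
    toL (snoc i h p) = toL p ++ [i] := by
  induction p with
  | nil =>
    subst h
    rfl
  | cons f q ih => simp only [snoc, toL, ih, List.cons_append]

def snocS (i : E) (h : G.r i = l) (q : PTo G (G.s i)) : PTo G l := ⟨q.1, snoc i h q.2⟩

theorem snocS_inj (i : E) (h : G.r i = l) : Function.Injective (snocS (G := G) i h) := by
  rintro ⟨x, p⟩ ⟨y, q⟩ hpq
  have h1 : toL (snoc i h p) = toL (snoc i h q) := by
    have := congrArg (fun z : PTo G l => toL z.2) hpq
    exact this
  rw [toL_snoc, toL_snoc] at h1
  exact toL_inj p q (List.append_cancel_right h1)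

theorem snocS_ne (i : E) (h : G.r i = l) (q : PTo G (G.s i)) : snocS i h q ≠ nilS G l := by
  intro hq
  have := congrArg (fun z : PTo G l => toL z.2) hq
  simp only [snocS, toL_snoc, nilS, toL] at this
  simp at this

theorem snoc_surj {x : V} (p : Pth G l x) : (⟨x, p⟩ : PTo G l) = nilS G l ∨
    ∃ (i : {e : E // G.r e = l}) (q : PTo G (G.s i.1)), (⟨x, p⟩ : PTo G l) = snocS i.1 i.2 q := by
  induction p with
  | nil => exact Or.inl rfl
  | cons e p ih =>
    right
    rcases ih with h | ⟨i, ⟨y, q⟩, h⟩
    · have h1 : toL p = [] := congrArg (fun z : PTo G l => toL z.2) h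
      have h2 : G.r e = l := congrArg Sigma.fst h
      refine ⟨⟨e, h2⟩, ⟨G.s e, .nil⟩, ?_⟩
      refine toL_inj _ _ ?_
      rw [toL_snoc]
      simp only [toL, h1, List.nil_append]
    · have h1 : toL p = toL (snoc i.1 i.2 q) := congrArg (fun z : PTo G l => toL z.2) h
      have h2 : G.r e = y := congrArg Sigma.fst h
      subst h2
      refine ⟨i, ⟨G.s e, .cons e q⟩, ?_⟩
      refine toL_inj _ _ ?_
      rw [toL_snoc, toL, h1, toL_snoc, toL]
      rfl

theorem snoc_mor (i : E) (h : G.r i = l) :
    PD.Mor (pathPD G l) (pathPD G (G.s i)) (Function.partialInv (snocS i h)) {nilS G l} := by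
  refine mor_of _ _ (snocS i h) (snocS_inj i h) _ (snocS_ne i h) (fun q => rfl) ?_ ?_
  · intro e q q' hq
    obtain ⟨p', rfl, rfl⟩ := (csS_some e q q').1 hq
    exact (csS_some e _ _).2 ⟨snoc i h p', rfl, rfl⟩
  · intro e p q' hp
    obtain ⟨p', rfl, h1⟩ := (csS_some e p _).1 hp
    have h2 : toL (snoc i h q'.2) = e :: toL p' := congrArg (fun z : PTo G l => toL z.2) h1
    rw [toL_snoc] at h2
    obtain ⟨y, q2⟩ := q'
    cases q2 with
    | nil =>
      left
      simp only [toL, List.nil_append, List.cons.injEq] at h2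
      exact toL_inj p' _ h2.2.symm
    | cons f q3 =>
      right
      simp only [toL, List.cons_append, List.cons.injEq] at h2
      obtain ⟨rfl, h2⟩ := h2
      refine ⟨⟨G.r f, q3⟩, ?_, ?_⟩
      · refine toL_inj _ _ ?_
        rw [toL_snoc, h2]
      · exact (csS_some f _ _).2 ⟨q3, rfl, rfl⟩

/-- decomposition of the paths to `l` -/
def psi : Unit ⊕ (Σ i : {e : E // G.r e = l}, PTo G (G.s i.1)) → PTo G l
  | .inl _ => nilS G l
  | .inr q => snocS q.1.1 q.1.2 q.2

theorem psi_bij : Function.Bijective (psi (G := G) (l := l)) := by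
  constructor
  · rintro (a | ⟨⟨i, hi⟩, p⟩) (b | ⟨⟨i', hi'⟩, q⟩) h
    · rfl
    · exact absurd h.symm (snocS_ne _ _ _)
    · exact absurd h (snocS_ne _ _ _)
    · have h1 : toL (snoc i hi p.2) = toL (snoc i' hi' q.2) := congrArg (fun z : PTo G l => toL z.2) h
      rw [toL_snoc, toL_snoc] at h1
      have h2 : i = i' := by
        have := congrArg List.getLast? h1
        simpa using this
      subst h2
      have h3 : p = q := snocS_inj i hi h
      rw [h3]
  · rintro ⟨x, p⟩
    rcases snoc_surj p with h | ⟨i, q, h⟩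
    · exact ⟨.inl (), h.symm⟩
    · exact ⟨.inr ⟨i, q⟩, h.symm⟩

end snoc

section np

variable {V E : Type} {G : Gr V E} {j : V}

/-- edge list -/
def toN : {x : V} → NPth G j x → List E
  | _, .nil => []
  | _, .cons e _ p => e :: toN p

theorem toN_inj : ∀ {x y : V} (p : NPth G j x) (q : NPth G j y), toN p = toN q →
    (⟨x, p⟩ : NPTo G j) = ⟨y, q⟩ := by
  intro x y p
  induction p generalizing y with
  | nil =>
    intro q h
    cases q with
    | nil => rfl
    | cons f _ q => simp [toN] at h
  | cons e _ p ih =>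
    intro q h
    cases q with
    | nil => simp [toN] at h
    | cons f _ q =>
      simp only [toN, List.cons.injEq] at h
      obtain ⟨rfl, h⟩ := h
      have h1 := ih q h
      have h2 : p = q := by simpa using h1
      rw [h2]

variable (G j)

def nilN : NPTo G j := ⟨j, .nil⟩

variable {G j}

theorem start_j (p : NPTo G j) (h : p.1 = j) : p = nilN G j := by
  obtain ⟨x, p⟩ := p
  cases p with
  | nil => rfl
  | cons e h' p => exact absurd h h'

open Classical in
noncomputable def csN (e : E) (p : NPTo G j) : Option (NPTo G j) :=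
  if hs : G.s e = j then (if p.1 = j then some p else none)
  else (if h : p.1 = G.r e then some ⟨G.s e, .cons e hs (h ▸ p.2)⟩ else none)

open Classical in
noncomputable def unN (e : E) (q : NPTo G j) : Option (NPTo G j) :=
  if G.s e = j then (if q.1 = j then some q else none)
  else match q with
    | ⟨_, .nil⟩ => none
    | ⟨_, .cons f _ p⟩ => if e = f then some ⟨G.r f, p⟩ else none

/-- the common description -/
def NRel (e : E) (p q : NPTo G j) : Prop :=
  (G.s e = j ∧ p.1 = j ∧ q = p) ∨
    ∃ (h : G.s e ≠ j) (p' : NPth G j (G.r e)), p = ⟨G.r e, p'⟩ ∧ q = ⟨G.s e, .cons e h p'⟩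

theorem csN_some (e : E) (p q : NPTo G j) : csN e p = some q ↔ NRel e p q := by
  unfold csN NRel
  by_cases hs : G.s e = j
  · simp only [hs, dif_pos, true_and]
    by_cases hp : p.1 = j
    · simp only [hp, if_true, true_and, ne_eq, not_true_eq_false, IsEmpty.exists_iff, or_false,
        Option.some.injEq]
      exact eq_comm
    · simp [hp]
  · simp only [hs, dif_neg, not_false_eq_true, false_and, false_or, ne_eq, exists_true_left]
    constructor
    · intro h
      obtain ⟨x, p⟩ := p
      by_cases hx : x = G.r e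
      · subst hx
        simp only [dif_pos, Option.some.injEq] at h
        exact ⟨p, rfl, h.symm⟩
      · simp [hx] at h
    · rintro ⟨p', rfl, rfl⟩
      simp

theorem unN_some (e : E) (p q : NPTo G j) : unN e q = some p ↔ NRel e p q := by
  unfold unN NRel
  by_cases hs : G.s e = j
  · simp only [hs, if_true, true_and, ne_eq, not_true_eq_false, IsEmpty.exists_iff, or_false]
    by_cases hq : q.1 = j
    · simp only [hq, if_true, Option.some.injEq]
      constructor
      · rintro rfl
        exact ⟨hq, rfl⟩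
      · rintro ⟨-, h⟩
        exact h
    · simp only [hq, if_false]
      constructor
      · intro h
        exact absurd h (by simp)
      · rintro ⟨h1, rfl⟩
        exact absurd h1 hq
  · simp only [hs, if_false, false_and, false_or, ne_eq, not_false_eq_true, exists_true_left]
    obtain ⟨x, q⟩ := q
    cases q with
    | nil =>
      constructor
      · intro h
        exact absurd h (by simp)
      · rintro ⟨p', -, h⟩
        have h1 : toN (NPth.nil : NPth G j j) = e :: toN p' := congrArg (fun z : NPTo G j => toN z.2) h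
        simp [toN] at h1
    | cons f hf q =>
      by_cases hef : e = f
      · subst hef
        simp only [if_true, Option.some.injEq]
        constructor
        · intro h
          exact ⟨q, h.symm, rfl⟩
        · rintro ⟨p', rfl, h⟩
          have h1 : e :: toN q = e :: toN p' := congrArg (fun z : NPTo G j => toN z.2) h
          exact toN_inj q p' (by simpa using h1)
      · simp only [hef, if_false]
        constructor
        · intro h
          exact absurd h (by simp)
        · rintro ⟨p', -, h⟩
          have h1 : f :: toN q = e :: toN p' := congrArg (fun z : NPTo G j => toN z.2) h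
          simp only [List.cons.injEq] at h1
          exact absurd h1.1.symm hef

variable (hj : ∀ e, G.s e = j → G.r e = j) (hu : ∀ e f, G.s e = j → G.s f = j → e = f)

/-- no return path spaces -/
noncomputable def npPD : PD G (NPTo G j) where
  st p := p.1
  cs := csN
  un := unN
  cs_def e p h := by
    by_cases hs : G.s e = j
    · exact ⟨p, (csN_some e p p).2 (Or.inl ⟨hs, h.trans (hj e hs), rfl⟩)⟩
    · obtain ⟨x, p⟩ := p
      simp only at h
      subst h
      exact ⟨_, (csN_some e _ _).2 (Or.inr ⟨hs, p, rfl, rfl⟩)⟩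
  cs_st e p q h := by
    rcases (csN_some e p q).1 h with ⟨h1, h2, rfl⟩ | ⟨h1, p', rfl, rfl⟩
    · exact ⟨h2.trans (hj e h1).symm, h2.trans h1.symm⟩
    · exact ⟨rfl, rfl⟩
  un_iff e p q := (unN_some e p q).trans (csN_some e p q).symm
  un_uniq e f p p' q h1 h2 := by
    rcases (csN_some e p q).1 h1 with ⟨h3, h4, rfl⟩ | ⟨h3, p1, rfl, rfl⟩
    · rcases (csN_some f p' _).1 h2 with ⟨h5, h6, h7⟩ | ⟨h5, p2, -, h7⟩
      · exact hu e f h3 h5
      · rw [h7] at h4
        exact absurd h4 h5
    · rcases (csN_some f p' _).1 h2 with ⟨h5, h6, h7⟩ | ⟨h5, p2, -, h7⟩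
      · rw [← h7] at h6
        exact absurd h6 h3
      · have h8 : e :: toN p1 = f :: toN p2 := congrArg (fun z : NPTo G j => toN z.2) h7
        simp only [List.cons.injEq] at h8
        exact h8.1

theorem npPD_exc : (npPD hj hu).exc = ∅ := by
  refine Set.eq_empty_iff_forall_notMem.2 ?_
  rintro ⟨x, q⟩ ⟨⟨e, he⟩, h⟩
  cases q with
  | nil =>
    have h1 : unN e (nilN G j) = some (nilN G j) := (unN_some e _ _).2 (Or.inl ⟨he, rfl, rfl⟩)
    have h2 : unN e (nilN G j) = none := h e
    rw [h1] at h2
    exact absurd h2 (by simp)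
  | cons f hf q =>
    have h1 : unN f (⟨G.s f, .cons f hf q⟩ : NPTo G j) = some ⟨G.r f, q⟩ :=
      (unN_some f _ _).2 (Or.inr ⟨hf, q, rfl, rfl⟩)
    have h2 : unN f (⟨G.s f, .cons f hf q⟩ : NPTo G j) = none := h f
    rw [h1] at h2
    exact absurd h2 (by simp)

include hj in
theorem noret {l x : V} (p : Pth G l x) (hx : x = j) : l = j := by
  induction p with
  | nil => exact hx
  | cons e p ih => exact ih (hj e hx)

/-- append an edge -/
def snocN (i : E) (h : G.r i = j) (hs : G.s i ≠ j) : {x : V} → Pth G (G.s i) x → NPth G j x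
  | _, .nil => .cons i hs (h ▸ .nil)
  | _, .cons f q => .cons f (fun hf => hs (noret hj q (hj f hf))) (snocN i h hs q)

theorem toN_snocN (i : E) (h : G.r i = j) (hs : G.s i ≠ j) {x : V} (p : Pth G (G.s i) x) :
    toN (snocN hj i h hs p) = toL p ++ [i] := by
  induction p with
  | nil =>
    subst h
    rfl
  | cons f q ih => simp only [snocN, toN, toL, ih, List.cons_append]

def snocNS (i : E) (h : G.r i = j) (hs : G.s i ≠ j) (q : PTo G (G.s i)) : NPTo G j :=
  ⟨q.1, snocN hj i h hs q.2⟩

theorem snocNS_inj (i : E) (h : G.r i = j) (hs : G.s i ≠ j) :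
    Function.Injective (snocNS (G := G) hj i h hs) := by
  rintro ⟨x, p⟩ ⟨y, q⟩ hpq
  have h1 : toN (snocN hj i h hs p) = toN (snocN hj i h hs q) :=
    congrArg (fun z : NPTo G j => toN z.2) hpq
  rw [toN_snocN, toN_snocN] at h1
  exact toL_inj p q (List.append_cancel_right h1)

theorem snocNS_ne (i : E) (h : G.r i = j) (hs : G.s i ≠ j) (q : PTo G (G.s i)) :
    snocNS hj i h hs q ≠ nilN G j := by
  intro hq
  have := congrArg (fun z : NPTo G j => toN z.2) hq
  simp only [snocNS, toN_snocN, nilN, toN] at this
  simp at this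

theorem snocN_surj {x : V} (p : NPth G j x) : (⟨x, p⟩ : NPTo G j) = nilN G j ∨
    ∃ (i : {e : E // G.r e = j ∧ G.s e ≠ j}) (q : PTo G (G.s i.1)),
      (⟨x, p⟩ : NPTo G j) = snocNS hj i.1 i.2.1 i.2.2 q := by
  induction p with
  | nil => exact Or.inl rfl
  | cons e hs p ih =>
    right
    rcases ih with h | ⟨i, ⟨y, q⟩, h⟩
    · have h1 : toN p = [] := congrArg (fun z : NPTo G j => toN z.2) h
      have h2 : G.r e = j := congrArg Sigma.fst h
      refine ⟨⟨e, h2, hs⟩, ⟨G.s e, .nil⟩, ?_⟩
      refine toN_inj _ _ ?_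
      rw [toN_snocN]
      simp only [toN, toL, h1, List.nil_append]
    · have h1 : toN p = toN (snocN hj i.1 i.2.1 i.2.2 q) := congrArg (fun z : NPTo G j => toN z.2) h
      have h2 : G.r e = y := congrArg Sigma.fst h
      subst h2
      refine ⟨i, ⟨G.s e, .cons e q⟩, ?_⟩
      refine toN_inj _ _ ?_
      rw [toN_snocN]
      simp only [toN, toL, h1, toN_snocN, List.cons_append]

theorem snocN_mor (i : E) (h : G.r i = j) (hs : G.s i ≠ j) :
    PD.Mor (npPD hj hu) (pathPD G (G.s i)) (Function.partialInv (snocNS hj i h hs)) {nilN G j} := by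
  refine mor_of _ _ (snocNS hj i h hs) (snocNS_inj hj i h hs) _ (snocNS_ne hj i h hs) (fun q => rfl) ?_ ?_
  · intro e q q' hq
    obtain ⟨p', rfl, rfl⟩ := (csS_some e q q').1 hq
    exact (csN_some e _ _).2 (Or.inr ⟨fun hf => hs (noret hj p' (hj e hf)), snocN hj i h hs p', rfl, rfl⟩)
  · intro e p q' hp
    obtain ⟨y, q2⟩ := q'
    rcases (csN_some e p _).1 hp with ⟨h1, h2, h3⟩ | ⟨h0, p', rfl, h1⟩
    · rw [← h3] at h2
      exact absurd (noret hj q2 h2) hs
    · have h2 : toN (snocN hj i h hs q2) = e :: toN p' := congrArg (fun z : NPTo G j => toN z.2) h1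
      rw [toN_snocN] at h2
      cases q2 with
      | nil =>
        left
        simp only [toL, List.nil_append, List.cons.injEq] at h2
        exact toN_inj p' _ h2.2.symm
      | cons f q3 =>
        right
        simp only [toL, List.cons_append, List.cons.injEq] at h2
        obtain ⟨rfl, h2⟩ := h2
        refine ⟨⟨G.r f, q3⟩, ?_, ?_⟩
        · refine toN_inj _ _ ?_
          rw [toN_snocN, h2]
        · exact (csS_some f _ _).2 ⟨q3, rfl, rfl⟩

/-- decomposition -/
def psiN : Unit ⊕ (Σ i : {e : E // G.r e = j ∧ G.s e ≠ j}, PTo G (G.s i.1)) → NPTo G j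
  | .inl _ => nilN G j
  | .inr q => snocNS hj q.1.1 q.1.2.1 q.1.2.2 q.2

theorem psiN_bij : Function.Bijective (psiN (G := G) (j := j) hj) := by
  constructor
  · rintro (a | ⟨⟨i, hi⟩, p⟩) (b | ⟨⟨i', hi'⟩, q⟩) h
    · rfl
    · exact absurd h.symm (snocNS_ne _ _ _ _ _)
    · exact absurd h (snocNS_ne _ _ _ _ _)
    · have h1 : toN (snocN hj i hi.1 hi.2 p.2) = toN (snocN hj i' hi'.1 hi'.2 q.2) :=
        congrArg (fun z : NPTo G j => toN z.2) h
      rw [toN_snocN, toN_snocN] at h1
      have h2 : i = i' := by
        have := congrArg List.getLast? h1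
        simpa using this
      subst h2
      have h3 : p = q := snocNS_inj hj i hi.1 hi.2 h
      rw [h3]
  · rintro ⟨x, p⟩
    rcases snocN_surj hj p with h | ⟨i, q, h⟩
    · exact ⟨.inl (), h.symm⟩
    · exact ⟨.inr ⟨i, q⟩, h.symm⟩

end np

end PathOp

section
variable (K : Type u) [Field K] {V E : Type} [Finite V] [Finite E] (G : Gr V E)

/-- existence of the almost representations on all path spaces -/
theorem exists_pathRep : ∃ σ : ∀ l : V, FreeAlgebra K (Gen V E) →ₐ[K] Module.End K (PTo G l →₀ K),
    (∀ l a b, Rel K G a b → FRk (σ l a - σ l b)) ∧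
    (∀ l, (∀ e, G.s e ≠ l) → ∀ a b, Rel K G a b → σ l a = σ l b) ∧
    (∀ l x, ¬ GRch G x l → σ l (FreeAlgebra.ι K (.vx x)) = 0) ∧
    (∀ l, ∃ e : (PTo G l →₀ K) ≃ₗ[K] K × (∀ i : {e : E // G.r e = l}, (PTo G (G.s i.1) →₀ K)),
      ∀ (g : Gen V E) (i : {e : E // G.r e = l}), FRk ((LinearMap.proj i ∘ₗ
        LinearMap.snd K K (∀ i : {e : E // G.r e = l}, (PTo G (G.s i.1) →₀ K)) ∘ₗ
        e.toLinearMap ∘ₗ σ l (FreeAlgebra.ι K g)) - (σ (G.s i.1) (FreeAlgebra.ι K g)) ∘ₗ
        LinearMap.proj i ∘ₗ
        LinearMap.snd K K (∀ i : {e : E // G.r e = l}, (PTo G (G.s i.1) →₀ K)) ∘ₗ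
        e.toLinearMap)) ∧
    (∀ j, (∀ e, G.s e = j → G.r e = j) → (∀ e f, G.s e = j → G.s f = j → e = f) →
      ∃ τ : FreeAlgebra K (Gen V E) →ₐ[K] Module.End K (NPTo G j →₀ K),
        (∀ a b, Rel K G a b → τ a = τ b) ∧
        Module.finrank K (LinearMap.range (τ (FreeAlgebra.ι K (.vx j)))) = 1 ∧
        ∃ e : (NPTo G j →₀ K) ≃ₗ[K]
          K × (∀ i : {e : E // G.r e = j ∧ G.s e ≠ j}, (PTo G (G.s i.1) →₀ K)),
          ∀ (g : Gen V E) (i : {e : E // G.r e = j ∧ G.s e ≠ j}), FRk ((LinearMap.proj i ∘ₗ
            LinearMap.snd K K (∀ i : {e : E // G.r e = j ∧ G.s e ≠ j}, (PTo G (G.s i.1) →₀ K)) ∘ₗ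
            e.toLinearMap ∘ₗ τ (FreeAlgebra.ι K g)) - (σ (G.s i.1) (FreeAlgebra.ι K g)) ∘ₗ
            LinearMap.proj i ∘ₗ
            LinearMap.snd K K (∀ i : {e : E // G.r e = j ∧ G.s e ≠ j}, (PTo G (G.s i.1) →₀ K)) ∘ₗ
            e.toLinearMap)) := by
  refine ⟨fun l => (PathOp.pathPD G l).rep K, ?_, ?_, ?_, ?_, ?_⟩
  · intro l a b h
    exact PathOp.PD.rel_frk K _ ((Set.finite_singleton _).subset (PathOp.pathPD_exc G l)) h
  · intro l hl a b h
    refine PathOp.PD.rel_exact K _ ?_ h
    refine Set.eq_empty_iff_forall_notMem.2 fun q hq => ?_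
    have h1 : q = PathOp.nilS G l := PathOp.pathPD_exc G l hq
    obtain ⟨⟨e, he⟩, -⟩ := hq
    rw [h1] at he
    exact hl e he
  · intro l x hx
    refine PathOp.ext1 fun p => ?_
    rw [PathOp.PD.rep_single K, LinearMap.zero_apply]
    have h1 : p.1 ≠ x := by
      rintro rfl
      exact hx (PathOp.reach_of_path G l p.2)
    simp [PathOp.PD.pf, PathOp.pathPD, h1]
  · intro l
    obtain ⟨e, he⟩ := PathOp.exists_split (K := K) (Equiv.ofBijective _ (PathOp.psi_bij (G := G) (l := l))).symm
      (fun i => Function.partialInv (PathOp.snocS i.1 i.2)) (by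
        intro p i q
        rw [(PathOp.snocS_inj i.1 i.2).isPartialInv q p, Equiv.symm_apply_eq]
        exact eq_comm)
    refine ⟨e, fun g i => ?_⟩
    have h1 := (PathOp.snoc_mor i.1 i.2).frk K g
    rw [← he i] at h1
    exact h1
  · intro j hj hu
    refine ⟨(PathOp.npPD hj hu).rep K, fun a b h => PathOp.PD.rel_exact K _ (PathOp.npPD_exc hj hu) h, ?_, ?_⟩
    · have h1 : LinearMap.range ((PathOp.npPD hj hu).rep K (FreeAlgebra.ι K (.vx j))) =
          Submodule.span K {Finsupp.single (PathOp.nilN G j) (1 : K)} := by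
        refine le_antisymm ?_ ?_
        · rintro _ ⟨v, rfl⟩
          rw [← Finsupp.sum_single v, Finsupp.sum, map_sum]
          refine Submodule.sum_mem _ fun p _ => ?_
          have h1 : Finsupp.single p (v p) = v p • Finsupp.single p (1 : K) := by simp
          rw [h1, map_smul, PathOp.PD.rep_single K]
          refine Submodule.smul_mem _ _ ?_
          by_cases hp : p.1 = j
          · have h2 := PathOp.start_j p hp
            subst h2
            have : (PathOp.npPD hj hu).pf (.vx j) (PathOp.nilN G j) = some (PathOp.nilN G j) := by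
              simp [PathOp.PD.pf, PathOp.npPD, PathOp.nilN]
            rw [this]
            exact Submodule.subset_span rfl
          · have : (PathOp.npPD hj hu).pf (.vx j) p = none := by
              simp [PathOp.PD.pf, PathOp.npPD, hp]
            rw [this]
            exact Submodule.zero_mem _
        · rw [Submodule.span_singleton_le_iff_mem]
          refine ⟨Finsupp.single (PathOp.nilN G j) 1, ?_⟩
          rw [PathOp.PD.rep_single K]
          simp [PathOp.PD.pf, PathOp.npPD, PathOp.nilN]
      rw [h1]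
      exact finrank_span_singleton (by simp)
    · obtain ⟨e, he⟩ := PathOp.exists_split (K := K) (Equiv.ofBijective _ (PathOp.psiN_bij hj)).symm
        (fun i => Function.partialInv (PathOp.snocNS hj i.1 i.2.1 i.2.2)) (by
          intro p i q
          rw [(PathOp.snocNS_inj hj i.1 i.2.1 i.2.2).isPartialInv q p, Equiv.symm_apply_eq]
          exact eq_comm)
      refine ⟨e, fun g i => ?_⟩
      have h1 := (PathOp.snocN_mor hj hu i.1 i.2.1 i.2.2).frk K g
      rw [← he i] at h1
      exact h1

end

end Pool.Agent.Work.MP_2b4d3b_al
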