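import Pool.Agent.Work.MP_2b4d3b_al.AlmRep
import Pool.Agent.Work.MP_2b4d3b_al.PathOp
import Pool.Agent.Work.MP_2b4d3b_al.Ker

/-!
MODULE IndexL. G = mGr A, w = vx j, T = Σ x, Fin (m x), ε = vs K A m, π from exists_quot, μ = π ∘ mkAlgHom.
vs (m + single j c) ~ bs ε (wk w c), so there are x = (x1 | x2), y = (y1 ; y2) with
x1 y1 + x2 y2 = ε, y1 x1 = ε, y1 x2 = 0, y2 x1 = 0, y2 x2 = wk w c, everything normalised
(ε x1 ε = x1, x2 = x2 * wk w c ...). u := x1 + (1 - ε), u' := y1 + (1 - ε): u' u = 1,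
u u' = 1 - x2 y2, and π (x2 y2) = 0. Lift u, u' entrywise to U, U' over the free algebra
(mkAlgHom_surjective). For l ≠ j: σ l (exists_pathRep) kills up to FRk every a with μ a = 0: such a has
mk a in Jd (vx j), so a is a sum of b (ι vx j) c modulo ker mk, and σ l (ι vx j) = 0 (no path from
j to l), frk_of_rel. So opM (σ l) U is Fredholm (idx_fred), κ l := ind (opM (σ l) U) for l ≠ j.
(1) l ≠ j, idx_sum with the decomposition: κ l = ∑ over edges e with r e = l of κ (s e)
  = ∑ x, A x l * κ x (sources are ≠ j). If A l l = 1 this gives ∑ x, off A x l * κ x = 0. If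
  A l l = 0, l is a sink: κ l = 0 (idx_exact) and again ∑ x, off A x l * κ x = 0.
(2) τ for j (exact): V' = opM τ U is injective (u' u = 1) with cokernel of dimension c: the idempotent
  opM τ (lift of x2 y2) has range equivalent (via x2, y2) to (range of τ (ι vx j))^c, of dimension c.
  So ind (opM τ U) = -c (ind_inj) and by idx_sum -c = ∑ over edges e from x ≠ j to j of κ x.
(3) κ x = 0 if x is not in Hs A m: then σ x (ι vx t) = 0 for all t in the support of m, so
  with U0 := ε̂ X ε̂ + (1 - ε̂) (X any lift of x1, ε̂ = diagonal of ι vx): opM (σ x) U0 = id and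
  U0, U have the same image under μ: idx_congr, ind_bij.
Answer: κ' x = - κ x for x ≠ j, κ' j = 0.
-/

set_option linter.unusedVariables false
set_option linter.style.longLine false

namespace Pool.Agent.Work.MP_2b4d3b_al

open Matrix

universe u v w u' v' w'

section ops
variable {K : Type u} [Field K] {L : Type u'} [Ring L] [Algebra K L] {P : Type w}
  [AddCommGroup P] [Module K P]

/-- operators of rectangular matrices under an exact representation -/
private noncomputable def IndexL_op (ρ : L →ₐ[K] Module.End K P) {m n : Type} [Fintype n]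
    (x : Matrix m n L) : (n → P) →ₗ[K] (m → P) :=
  LinearMap.pi fun i => ∑ j, (ρ (x i j)) ∘ₗ LinearMap.proj j

private theorem IndexL_op_apply (ρ : L →ₐ[K] Module.End K P) {m n : Type} [Fintype n]
    (x : Matrix m n L) (v : n → P) (i : m) : IndexL_op ρ x v i = ∑ j, ρ (x i j) (v j) := by
  simp [IndexL_op, LinearMap.sum_apply]

private theorem IndexL_op_mul (ρ : L →ₐ[K] Module.End K P) {m n l : Type} [Fintype n]
    [Fintype l] (x : Matrix m n L) (y : Matrix n l L) (v : l → P) :
    IndexL_op ρ (x * y) v = IndexL_op ρ x (IndexL_op ρ y v) := by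
  funext i
  simp only [IndexL_op_apply, Matrix.mul_apply, map_sum, map_mul, LinearMap.sum_apply,
    Module.End.mul_apply]
  rw [Finset.sum_comm]

private theorem IndexL_op_add (ρ : L →ₐ[K] Module.End K P) {m n : Type} [Fintype n]
    (x y : Matrix m n L) (v : n → P) :
    IndexL_op ρ (x + y) v = IndexL_op ρ x v + IndexL_op ρ y v := by
  funext i
  simp [IndexL_op_apply, Finset.sum_add_distrib]

private theorem IndexL_op_one (ρ : L →ₐ[K] Module.End K P) {m : Type} [Fintype m]
    [DecidableEq m] (v : m → P) : IndexL_op ρ (1 : Matrix m m L) v = v := by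
  funext i
  rw [IndexL_op_apply, Finset.sum_eq_single i]
  · rw [Matrix.one_apply_eq, map_one, Module.End.one_apply]
  · intro j _ hj
    rw [Matrix.one_apply_ne hj.symm, map_zero, LinearMap.zero_apply]
  · intro h
    exact absurd (Finset.mem_univ i) h

private theorem IndexL_op_zero (ρ : L →ₐ[K] Module.End K P) {m n : Type} [Fintype n]
    (v : n → P) : IndexL_op ρ (0 : Matrix m n L) v = 0 := by
  funext i
  simp [IndexL_op_apply]

private theorem IndexL_op_wk (ρ : L →ₐ[K] Module.End K P) (w : L) (c : ℕ) (v : Fin c → P)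
    (i : Fin c) : IndexL_op ρ (wk w c) v i = ρ w (v i) := by
  rw [IndexL_op_apply, Finset.sum_eq_single i]
  · rw [wk, Matrix.diagonal_apply_eq]
  · intro j _ hj
    rw [wk, Matrix.diagonal_apply_ne _ hj.symm, map_zero, LinearMap.zero_apply]
  · intro h
    exact absurd (Finset.mem_univ i) h

/-- the index of an injective operator with complement `x2 y2` equivalent to `c` copies of `w`. -/
private theorem IndexL_exact (ρ : L →ₐ[K] Module.End K P) {T : Type} [Fintype T] [DecidableEq T]
    (u u' : Matrix T T L) (w : L) (c : ℕ) (x2 : Matrix T (Fin c) L) (y2 : Matrix (Fin c) T L)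
    (h1 : u' * u = 1) (h2 : u * u' + x2 * y2 = 1) (h3 : y2 * u = 0) (h4 : y2 * x2 = wk w c)
    (h5 : wk w c * y2 = y2)
    (hr : Module.finrank K (LinearMap.range (ρ w)) = 1) : ind (IndexL_op ρ u) = -(c : ℤ) := by
  have hfd : FiniteDimensional K (LinearMap.range (ρ w)) :=
    Module.finite_of_finrank_pos (by rw [hr]; exact one_pos)
  have hinj : Function.Injective (IndexL_op ρ u) := by
    intro a b hab
    have := congrArg (IndexL_op ρ u') hab
    rwa [← IndexL_op_mul, ← IndexL_op_mul, h1, IndexL_op_one, IndexL_op_one] at this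
  have hker : LinearMap.ker (IndexL_op ρ y2) = LinearMap.range (IndexL_op ρ u) := by
    ext v
    rw [LinearMap.mem_ker]
    constructor
    · intro hv
      refine ⟨IndexL_op ρ u' v, ?_⟩
      have e := IndexL_op_one ρ v
      rw [← h2, IndexL_op_add, IndexL_op_mul, IndexL_op_mul, hv, map_zero, add_zero] at e
      exact e
    · rintro ⟨a, rfl⟩
      rw [← IndexL_op_mul, h3, IndexL_op_zero]
  have hrange : LinearMap.range (IndexL_op ρ y2) = LinearMap.range (IndexL_op ρ (wk w c)) := by
    ext v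
    constructor
    · rintro ⟨a, rfl⟩
      exact ⟨IndexL_op ρ y2 a, by rw [← IndexL_op_mul, h5]⟩
    · rintro ⟨a, rfl⟩
      exact ⟨IndexL_op ρ x2 a, by rw [← IndexL_op_mul, h4]⟩
  -- the range of `wk w c`
  have e1 : Nonempty ((Fin c → LinearMap.range (ρ w)) ≃ₗ[K]
      LinearMap.range (IndexL_op ρ (wk w c))) := by
    set Φ : (Fin c → LinearMap.range (ρ w)) →ₗ[K] (Fin c → P) :=
      LinearMap.pi fun i => (LinearMap.range (ρ w)).subtype ∘ₗ LinearMap.proj i with hΦ
    have hΦa : ∀ v i, Φ v i = (v i : P) := fun v i => rfl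
    have hΦi : Function.Injective Φ := by
      intro a b h
      funext i
      apply Subtype.ext
      rw [← hΦa, h, hΦa]
    refine ⟨(LinearEquiv.ofInjective _ hΦi).trans (LinearEquiv.ofEq _ _ ?_)⟩
    ext v
    constructor
    · rintro ⟨a, rfl⟩
      choose b hb using fun i => (a i).2
      refine ⟨b, ?_⟩
      funext i
      rw [IndexL_op_wk, hb, hΦa]
    · rintro ⟨a, rfl⟩
      refine ⟨fun i => ⟨ρ w (a i), ⟨a i, rfl⟩⟩, ?_⟩
      funext i
      rw [IndexL_op_wk, hΦa]
  obtain ⟨e1⟩ := e1
  have e2 : ((T → P) ⧸ LinearMap.range (IndexL_op ρ u)) ≃ₗ[K]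
      (Fin c → LinearMap.range (ρ w)) :=
    ((Submodule.quotEquivOfEq _ _ hker.symm).trans (IndexL_op ρ y2).quotKerEquivRange).trans
      ((LinearEquiv.ofEq _ _ hrange).trans e1.symm)
  have hfd2 : FiniteDimensional K ((T → P) ⧸ LinearMap.range (IndexL_op ρ u)) :=
    Module.Finite.equiv e2.symm
  rw [ind_inj _ hinj hfd2, e2.finrank_eq, Module.finrank_pi_fintype]
  simp [hr]

end ops

section
variable {K : Type u} [Field K] {V : Type} [Fintype V] [DecidableEq V]

private theorem IndexL_map_mul {R : Type u'} {S : Type v'} [Ring R] [Ring S] [Algebra K R]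
    [Algebra K S] (f : R →ₐ[K] S) {m n l : Type} [Fintype n] (x : Matrix m n R)
    (y : Matrix n l R) : (x * y).map f = x.map f * y.map f := by
  ext i j
  simp [Matrix.mul_apply, map_sum]

/-- sums over edges -/
private theorem IndexL_sum {A : V → V → ℕ} (p : V → V → Prop) [DecidableRel p]
    [Fintype {e : (Σ x y : V, Fin (A x y)) // p e.1 e.2.1}] (f : V → ℤ) :
    ∑ i : {e : (Σ x y : V, Fin (A x y)) // p e.1 e.2.1}, f i.1.1 =
      ∑ x, ∑ y, if p x y then (A x y : ℤ) * f x else 0 := by
  classical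
  have h1 : ∑ e ∈ (Finset.univ : Finset (Σ x y : V, Fin (A x y))).filter (fun e => p e.1 e.2.1),
      f e.1 = ∑ i : {e : (Σ x y : V, Fin (A x y)) // p e.1 e.2.1}, f i.1.1 :=
    Finset.sum_subtype _ (by simp) _
  rw [← h1, Finset.sum_filter, Fintype.sum_sigma]
  refine Finset.sum_congr rfl fun x _ => ?_
  rw [Fintype.sum_sigma]
  refine Finset.sum_congr rfl fun y _ => ?_
  simp only
  split_ifs <;> simp

private theorem IndexL_rch {A : V → V → ℕ} {x y : V} : GRch (mGr A) x y ↔ Rch A x y := by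
  constructor
  · intro h
    induction h with
    | refl => exact Relation.ReflTransGen.refl
    | tail _ h2 ih =>
      obtain ⟨⟨a', b', t⟩, rfl, rfl⟩ := h2
      refine ih.tail ?_
      intro h0
      change A a' b' = 0 at h0
      have := t.2
      omega
  · intro h
    induction h with
    | refl => exact Relation.ReflTransGen.refl
    | @tail a b _ h2 ih => exact ih.tail ⟨⟨a, b, ⟨0, Nat.pos_of_ne_zero h2⟩⟩, rfl, rfl⟩

private theorem IndexL_norch {A : V → V → ℕ} {j l : V} (hj : ∀ y, y ≠ j → A j y = 0)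
    (hl : l ≠ j) : ¬ GRch (mGr A) j l := by
  rw [IndexL_rch]
  intro h
  have : ∀ y, Rch A j y → y = j := by
    intro y hy
    induction hy with
    | refl => rfl
    | tail _ h2 ih =>
      by_contra hne
      rw [ih] at h2
      exact h2 (hj _ hne)
  exact hl (this l h)

private theorem IndexL_ker {A : V → V → ℕ} (j : V)
    (a : FreeAlgebra K (Gen V (Σ x y : V, Fin (A x y))))
    (h : RingQuot.mkAlgHom K (Rel K (mGr A)) a ∈ Jd (vx K (mGr A) j)) :
    RingQuot.mkAlgHom K (fun a b => Rel K (mGr A) a b ∨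
      (a = FreeAlgebra.ι K (.vx j) ∧ b = 0)) a = 0 := by
  set r' : FreeAlgebra K (Gen V (Σ x y : V, Fin (A x y))) →
      FreeAlgebra K (Gen V (Σ x y : V, Fin (A x y))) → Prop := fun a b => Rel K (mGr A) a b ∨
      (a = FreeAlgebra.ι K (.vx j) ∧ b = 0) with hr'
  have hw : ∀ ⦃x y⦄, Rel K (mGr A) x y → RingQuot.mkAlgHom K r' x = RingQuot.mkAlgHom K r' y :=
    fun x y h => RingQuot.mkAlgHom_rel K (Or.inl h)
  have h1 : ∀ b, RingQuot.liftAlgHom K ⟨RingQuot.mkAlgHom K r', hw⟩
      (RingQuot.mkAlgHom K (Rel K (mGr A)) b) = RingQuot.mkAlgHom K r' b := fun b =>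
    RingQuot.liftAlgHom_mkAlgHom_apply K _ hw b
  have h2 : RingQuot.liftAlgHom K ⟨RingQuot.mkAlgHom K r', hw⟩ (vx K (mGr A) j) = 0 := by
    rw [vx, gen, h1]
    have : RingQuot.mkAlgHom K r' (FreeAlgebra.ι K (.vx j)) = RingQuot.mkAlgHom K r' 0 :=
      RingQuot.mkAlgHom_rel K (Or.inr ⟨rfl, rfl⟩)
    rw [this, map_zero]
  have h3 : TwoSidedIdeal.span {vx K (mGr A) j} ≤
      TwoSidedIdeal.ker (RingQuot.liftAlgHom K ⟨RingQuot.mkAlgHom K r', hw⟩) := by
    rw [TwoSidedIdeal.span_le]
    intro x hx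
    rw [Set.mem_singleton_iff] at hx
    rw [hx]
    exact (TwoSidedIdeal.mem_ker _).2 h2
  have h4 : RingQuot.mkAlgHom K (Rel K (mGr A)) a ∈
      TwoSidedIdeal.span {vx K (mGr A) j} := h
  have h5 := (TwoSidedIdeal.mem_ker _).1 (h3 h4)
  rwa [h1] at h5

end

theorem index_lemma (K : Type u) [Field K] {V : Type} [Fintype V] [DecidableEq V]
    (A : V → V → ℕ) (hA : Reduced A) (j : V) (hj : ∀ y, y ≠ j → A j y = 0) (m : V → ℕ)
    (hm : m j = 0) (c : ℕ) (h : IdEq (vs K A m) (vs K A (m + Pi.single j c))) :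
    ∃ κ : V → ℤ, (∀ x, κ x ≠ 0 → x ∈ Hs A m) ∧
      ∀ y, (((Pi.single j c : V → ℕ) y : ℕ) : ℤ) = ∑ x, κ x * (off A x y : ℤ) := by
  classical
  obtain ⟨π, hπ, -, hπk⟩ := exists_quot K A hA j hj
  have hπw : π (vx K (mGr A) j) = 0 := by
    have := hπ (.vx j)
    rw [vx, this, delFn]
    simp
  -- the idempotent equivalence
  have h1 : IdEq (vs K A m) (bs (vs K A m) (wk (vx K (mGr A) j) c)) :=
    (h.trans (vs_add m (Pi.single j c))).trans ((IdEq.refl (vs_idem m)).bsum (vs_single j c))
  obtain ⟨X, Y, hXY, hYX, hXa, hXb, hYa, hYb⟩ := h1.out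
  have hX : vs K A m * X * bs (vs K A m) (wk (vx K (mGr A) j) c) = X := by rw [hXa, hXb]
  have hY : bs (vs K A m) (wk (vx K (mGr A) j) c) * Y * vs K A m = Y := by rw [hYa, hYb]
  clear hXa hXb hYa hYb
  set ε := vs K A m with hε
  set w := vx K (mGr A) j with hw
  have hee : ε * ε = ε := vs_idem m
  have hX' : X = Matrix.fromCols X.toCols₁ X.toCols₂ := (Matrix.fromCols_toCols X).symm
  have hY' : Y = Matrix.fromRows Y.toRows₁ Y.toRows₂ := (Matrix.fromRows_toRows Y).symm
  generalize X.toCols₁ = x1 at hX'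
  generalize X.toCols₂ = x2 at hX'
  generalize Y.toRows₁ = y1 at hY'
  generalize Y.toRows₂ = y2 at hY'
  subst hX' hY'
  rw [Matrix.fromCols_mul_fromRows] at hXY
  rw [Matrix.fromRows_mul_fromCols, bs, Matrix.fromBlocks_inj] at hYX
  obtain ⟨hy1x1, hy1x2, hy2x1, hy2x2⟩ := hYX
  rw [bs, Matrix.mul_fromCols, Matrix.fromCols_mul_fromBlocks, Matrix.fromCols_inj.eq_iff] at hX
  rw [bs, Matrix.fromBlocks_mul_fromRows, Matrix.fromRows_mul, Matrix.fromRows_inj.eq_iff] at hY
  obtain ⟨hx1, hx2⟩ := hX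
  obtain ⟨hy1, hy2⟩ := hY
  simp only [Matrix.mul_zero, Matrix.zero_mul, add_zero, zero_add] at hx1 hx2 hy1 hy2
  have hεx1 : ε * x1 = x1 := by
    rw [← hx1, ← mul_assoc, ← mul_assoc, hee]
  have hx1ε : x1 * ε = x1 := by
    rw [← hx1, mul_assoc, hee]
  have hεy1 : ε * y1 = y1 := by
    rw [← hy1, ← mul_assoc, ← mul_assoc, hee]
  have hy1ε : y1 * ε = y1 := by
    rw [← hy1, mul_assoc, hee]
  have hy2ε : y2 * ε = y2 := by
    rw [← hy2, Matrix.mul_assoc, hee]
  have hww : w * w = w := vx_vx j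
  have hx2w : x2 * wk w c = x2 := by
    rw [← hx2, Matrix.mul_assoc, wk_idem hww]
  have hwy2 : wk w c * y2 = y2 := by
    rw [← hy2, ← Matrix.mul_assoc, ← Matrix.mul_assoc, wk_idem hww]
  set u := x1 + (1 - ε) with hu
  set u' := y1 + (1 - ε) with hu'
  have hu'u : u' * u = 1 := by
    have e : u' * u = y1 * x1 + (y1 - y1 * ε) + (x1 - ε * x1) + (1 - ε - (ε - ε * ε)) := by
      rw [hu, hu']
      simp only [mul_add, add_mul, mul_sub, sub_mul, mul_one, one_mul]
      abel
    rw [e, hy1ε, hεx1, hee, hy1x1]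
    simp
  have huu' : u * u' + x2 * y2 = 1 := by
    have e : u * u' + x2 * y2 =
        (x1 * y1 + x2 * y2) + (x1 - x1 * ε) + (y1 - ε * y1) + (1 - ε - (ε - ε * ε)) := by
      rw [hu, hu']
      simp only [mul_add, add_mul, mul_sub, sub_mul, mul_one, one_mul]
      abel
    rw [e, hx1ε, hεy1, hee, hXY]
    simp
  have hy2u : y2 * u = 0 := by
    rw [hu, Matrix.mul_add, Matrix.mul_sub, hy2x1, Matrix.mul_one, hy2ε]
    simp
  -- lifting to the free algebra
  set mk := RingQuot.mkAlgHom K (Rel K (mGr A)) with hmk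
  have hmks : Function.Surjective mk := RingQuot.mkAlgHom_surjective K _
  set lft := Function.surjInv hmks with hlft
  have hlift : ∀ a, mk (lft a) = a := Function.surjInv_eq hmks
  set U := u.map lft with hU
  set U' := u'.map lft with hU'
  have hUm : U.map mk = u := by
    ext i k; simp [hU, hlift]
  have hUm' : U'.map mk = u' := by
    ext i k; simp [hU', hlift]
  set μ := π.comp mk with hμ
  have hμm : ∀ {a b : Type} (x : Matrix a b (FreeAlgebra K (Gen V (Σ x y : V, Fin (A x y))))),
      x.map μ = (x.map mk).map π := by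
    intro a b x
    ext i k; simp [hμ]
  have hπ1 : ∀ {a : Type} [DecidableEq a], (1 : Matrix a a (LM K A)).map π = 1 := by
    intro a _
    ext i k
    rw [Matrix.map_apply, Matrix.one_apply, Matrix.one_apply]
    split_ifs <;> simp
  have hπwk : (wk w c).map π = 0 := by
    ext i k
    rw [Matrix.map_apply, wk, Matrix.diagonal_apply]
    split_ifs <;> simp [hπw]
  have hUU1 : (U * U').map μ = 1 := by
    rw [hμm, IndexL_map_mul, hUm, hUm', IndexL_map_mul]
    have e := congrArg (fun x => Matrix.map x π) huu'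
    simp only [hπ1] at e
    have e2 : (u * u' + x2 * y2).map π = u.map π * u'.map π := by
      rw [← IndexL_map_mul]
      have e3 : (x2 * y2).map π = 0 := by
        rw [← hwy2, IndexL_map_mul, IndexL_map_mul, hπwk, Matrix.zero_mul, Matrix.mul_zero]
      ext i k
      have e4 := congrFun (congrFun e3 i) k
      rw [Matrix.map_apply, Matrix.zero_apply] at e4
      rw [Matrix.map_apply, Matrix.add_apply, map_add, e4, add_zero, Matrix.map_apply]
    rw [← e2]
    exact e
  have hUU2 : (U' * U).map μ = 1 := by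
    rw [hμm, IndexL_map_mul, hUm, hUm', hu'u, hπ1]
  -- path representations
  obtain ⟨σ, hσ1, hσ2, hσ3, hσ4, hσ5⟩ := exists_pathRep K (mGr A)
  have hσj : ∀ l, l ≠ j → σ l (FreeAlgebra.ι K (.vx j)) = 0 := fun l hl =>
    hσ3 l j (IndexL_norch hj hl)
  have hkerμ : ∀ a, μ a = 0 → RingQuot.mkAlgHom K (fun a b => Rel K (mGr A) a b ∨
      (a = FreeAlgebra.ι K (.vx j) ∧ b = 0)) a = 0 := fun a ha =>
    IndexL_ker j a ((hπk _).1 ha)
  have hfrk : ∀ l, l ≠ j → ∀ a, μ a = 0 → FRk (σ l a) := by
    intro l hl a ha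
    refine frk_of_rel (σ l) ?_ a (hkerμ a ha)
    rintro a b (hab | ⟨rfl, rfl⟩)
    · exact hσ1 l a b hab
    · rw [hσj l hl, map_zero]
      have h0 : ((0 : Module.End K (PTo (mGr A) l →₀ K)) - 0) = 0 := by
        apply LinearMap.ext
        intro v
        simp
      rw [h0]
      exact FRk.zero
  have hexact : ∀ l, l ≠ j → (∀ e, (mGr A).s e ≠ l) → ∀ a, μ a = 0 → σ l a = 0 := by
    intro l hl hs a ha
    have hw' : ∀ ⦃x y⦄, (Rel K (mGr A) x y ∨ (x = FreeAlgebra.ι K (.vx j) ∧ y = 0)) →
        σ l x = σ l y := by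
      rintro x y (hab | ⟨rfl, rfl⟩)
      · exact hσ2 l hs x y hab
      · rw [hσj l hl, map_zero]
    have e := RingQuot.liftAlgHom_mkAlgHom_apply K (σ l) hw' a
    rw [hkerμ a ha, map_zero] at e
    exact e.symm
  have hFred : ∀ l, l ≠ j → Fredh (opM (σ l) U) := fun l hl =>
    idx_fred μ (σ l) (hfrk l hl) U U' hUU1 hUU2
  -- the indices
  set κ₀ : V → ℤ := fun x => if x = j then 0 else ind (opM (σ x) U) with hκ₀
  have hκne : ∀ x, x ≠ j → ind (opM (σ x) U) = κ₀ x := fun x hx => by
    rw [hκ₀]; simp only [if_neg hx]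
  have hκj : κ₀ j = 0 := by rw [hκ₀]; simp
  have hsj : ∀ e, (mGr A).s e = j → (mGr A).r e = j := by
    rintro ⟨x, y, t⟩ (rfl : x = j)
    by_contra hne
    have h0 := hj y hne
    have := t.2
    omega
  -- (1)
  have hsum : ∀ l, l ≠ j → κ₀ l = ∑ x, (A x l : ℤ) * κ₀ x := by
    intro l hl
    obtain ⟨e, he⟩ := hσ4 l
    have hne : ∀ i : {e : (Σ x y : V, Fin (A x y)) // (mGr A).r e = l}, (mGr A).s i.1 ≠ j := by
      intro i hi
      exact hl ((i.2).symm.trans (hsj _ hi))
    have h2 := (idx_sum (σ l) (fun i : {e : (Σ x y : V, Fin (A x y)) // (mGr A).r e = l} =>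
      σ ((mGr A).s i.1)) e he U (fun i => hFred _ (hne i))).2
    rw [hκne l hl] at h2
    rw [h2, Finset.sum_congr rfl (fun i _ => hκne _ (hne i))]
    refine (IndexL_sum (fun _ y => y = l) κ₀).trans ?_
    refine Finset.sum_congr rfl fun x _ => ?_
    simp
  -- (2)
  have hloop : ∀ e f, (mGr A).s e = j → (mGr A).s f = j → e = f := by
    intro e f he hf
    have he' := hsj e he
    have hf' := hsj f hf
    have h1 : A j j ≤ 1 := hA.2.1 j
    obtain ⟨x, y, t⟩ := e
    obtain ⟨x', y', t'⟩ := f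
    change x = j at he
    change y = j at he'
    change x' = j at hf
    change y' = j at hf'
    subst he he' hf hf'
    have h2 := t.2
    have h3 := t'.2
    have : t = t' := Fin.ext (by omega)
    rw [this]
  obtain ⟨τ, hτ1, hτ2, e, he⟩ := hσ5 j hsj hloop
  have hj2 : ∑ x, (off A x j : ℤ) * κ₀ x = -(c : ℤ) := by
    have hne : ∀ i : {e : (Σ x y : V, Fin (A x y)) // (mGr A).r e = j ∧ (mGr A).s e ≠ j},
        (mGr A).s i.1 ≠ j := fun i => i.2.2
    have h2 := (idx_sum τ (fun i : {e : (Σ x y : V, Fin (A x y)) // (mGr A).r e = j ∧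
      (mGr A).s e ≠ j} => σ ((mGr A).s i.1)) e he U (fun i => hFred _ (hne i))).2
    rw [Finset.sum_congr rfl (fun i _ => hκne _ (hne i))] at h2
    have h3 : ∑ i : {e : (Σ x y : V, Fin (A x y)) // (mGr A).r e = j ∧ (mGr A).s e ≠ j},
        κ₀ ((mGr A).s i.1) = ∑ x, (off A x j : ℤ) * κ₀ x := by
      refine (IndexL_sum (fun x y => y = j ∧ x ≠ j) κ₀).trans ?_
      refine Finset.sum_congr rfl fun x _ => ?_
      by_cases hx : x = j
      · simp [hx, hκj]
      · simp [hx, off]
    rw [h3] at h2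
    rw [← h2]
    -- the exact representation
    have hw' : ∀ ⦃x y⦄, Rel K (mGr A) x y → τ x = τ y := fun x y hxy => hτ1 x y hxy
    set ρ : LM K A →ₐ[K] Module.End K (NPTo (mGr A) j →₀ K) := RingQuot.liftAlgHom K ⟨τ, hw'⟩
      with hρ
    have hρm : ∀ a, ρ (mk a) = τ a := fun a => RingQuot.liftAlgHom_mkAlgHom_apply K τ hw' a
    have hop : opM τ U = IndexL_op ρ u := by
      apply LinearMap.ext
      intro v
      funext i
      rw [IndexL_op_apply]
      have : opM τ U v i = ∑ k, τ (U i k) (v k) := by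
        simp [opM, LinearMap.sum_apply]
      rw [this]
      refine Finset.sum_congr rfl fun k _ => ?_
      rw [← hρm, ← hUm, Matrix.map_apply]
    rw [hop]
    refine IndexL_exact ρ u u' w c x2 y2 hu'u huu' hy2u hy2x2 hwy2 ?_
    have : ρ w = τ (FreeAlgebra.ι K (.vx j)) := hρm _
    rw [this]
    exact hτ2
  -- (3)
  have h3 : ∀ x, x ∉ Hs A m → κ₀ x = 0 := by
    intro x hx
    by_cases hxj : x = j
    · rw [hxj, hκj]
    rw [← hκne x hxj]
    set ε' : Matrix (Σ x : V, Fin (m x)) (Σ x : V, Fin (m x))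
      (FreeAlgebra K (Gen V (Σ x y : V, Fin (A x y)))) :=
      Matrix.diagonal fun a => FreeAlgebra.ι K (.vx a.1) with hε'
    have hε'm : ε'.map mk = ε := by
      ext i k
      rw [Matrix.map_apply, hε', hε, vs, Matrix.diagonal_apply, Matrix.diagonal_apply]
      split_ifs
      · rfl
      · rw [map_zero]
    have hσε : opM (σ x) ε' = 0 := by
      apply LinearMap.ext
      intro v
      funext i
      have : opM (σ x) ε' v i = ∑ k, σ x (ε' i k) (v k) := by
        simp [opM, LinearMap.sum_apply]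
      rw [this]
      refine Finset.sum_eq_zero fun k _ => ?_
      rw [hε', Matrix.diagonal_apply]
      split_ifs with hik
      · have h4 : ¬ GRch (mGr A) i.1 x := by
          rw [IndexL_rch]
          intro hr
          refine hx ⟨i.1, ?_, hr⟩
          have := i.2.2
          omega
        rw [hσ3 x i.1 h4, LinearMap.zero_apply]
      · rw [map_zero, LinearMap.zero_apply]
    set X1 := x1.map lft with hX1
    have hX1m : X1.map mk = x1 := by
      ext i k; simp [hX1, hlift]
    set U0 := ε' * X1 * ε' + (1 - ε') with hU0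
    have hU0m : U0.map mk = u := by
      have e1 : U0.map mk = (ε' * X1 * ε').map mk + ((1 : Matrix _ _ _).map mk - ε'.map mk) := by
        ext i k
        rw [Matrix.map_apply, hU0, Matrix.add_apply, map_add, Matrix.sub_apply, map_sub]
        rfl
      have e2 : (1 : Matrix (Σ x : V, Fin (m x)) (Σ x : V, Fin (m x))
          (FreeAlgebra K (Gen V (Σ x y : V, Fin (A x y))))).map mk = 1 := by
        ext i k
        rw [Matrix.map_apply, Matrix.one_apply, Matrix.one_apply]
        split_ifs <;> simp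
      rw [e1, IndexL_map_mul, IndexL_map_mul, hε'm, hX1m, e2, hεx1, hx1ε]
    have hopU0 : opM (σ x) U0 = LinearMap.id := by
      rw [hU0, opM_add, opM_sub, opM_mul, opM_one, hσε]
      apply LinearMap.ext
      intro v
      simp
    have h5 : U.map μ = U0.map μ := by
      rw [hμm, hμm, hUm, hU0m]
    rw [idx_congr μ (σ x) (hfrk x hxj) U U0 h5 (hFred x hxj), hopU0]
    exact (ind_bij _ Function.bijective_id).2
  refine ⟨fun x => - κ₀ x, fun x hx => ?_, fun y => ?_⟩
  · by_contra hne
    exact hx (by simp only; rw [h3 x hne, neg_zero])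
  · by_cases hy : y = j
    · subst hy
      rw [Pi.single_eq_same]
      have e1 : ∑ x, -κ₀ x * (off A x y : ℤ) = - ∑ x, (off A x y : ℤ) * κ₀ x := by
        rw [← Finset.sum_neg_distrib]
        exact Finset.sum_congr rfl fun x _ => by ring
      rw [e1, hj2, neg_neg]
    · rw [Pi.single_eq_of_ne hy]
      have e1 : ∑ x, -κ₀ x * (off A x y : ℤ) = - ∑ x, (off A x y : ℤ) * κ₀ x := by
        rw [← Finset.sum_neg_distrib]
        exact Finset.sum_congr rfl fun x _ => by ring
      have e2 : ∑ x, (A x y : ℤ) * κ₀ x = (A y y : ℤ) * κ₀ y + ∑ x, (off A x y : ℤ) * κ₀ x := by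
        rw [← Finset.add_sum_erase _ _ (Finset.mem_univ y),
          ← Finset.add_sum_erase (a := y) Finset.univ (fun x => (off A x y : ℤ) * κ₀ x)
            (Finset.mem_univ y)]
        have e3 : off A y y = 0 := by simp [off]
        rw [e3]
        simp only [Nat.cast_zero, zero_mul, zero_add]
        congr 1
        refine Finset.sum_congr rfl fun x hx => ?_
        have : x ≠ y := Finset.ne_of_mem_erase hx
        simp [off, this]
      have e3 := hsum y hy
      rw [e2] at e3
      have h01 : A y y = 0 ∨ A y y = 1 := by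
        have := hA.2.1 y
        omega
      rw [e1]
      rcases h01 with h0 | h1
      · -- a sink
        have hsink : ∀ e, (mGr A).s e ≠ y := by
          rintro ⟨a, b, t⟩ (rfl : a = y)
          have h0' := hA.2.2 a h0 b
          have := t.2
          omega
        have h6 : κ₀ y = 0 := by
          rw [← hκne y hy]
          exact idx_exact μ (σ y) (hexact y hy hsink) U U' hUU1 hUU2
        rw [h6, mul_zero, zero_add] at e3
        rw [← e3]
        simp
      · rw [h1] at e3
        push_cast at e3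
        simp only [one_mul] at e3
        have : ∑ x, (off A x y : ℤ) * κ₀ x = 0 := by linarith
        rw [this]
        simp

end Pool.Agent.Work.MP_2b4d3b_al
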