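import Pool.Agent.Work.MP_2b4d3b_al.WD

/-!
MODULE LocUnit (longest of the ring modules). R is a PID.
Columns: W n := column vectors over A w, a free right R-module on n x X (span_c, independence from
dc); rows symmetric (apply the column statement to the opposite ring, or repeat).
Step A. p idempotent n x n, c_1..c_r columns in A w with p c_k = c_k. Then there are m and matrices
C (n x m, entries in A w), D (m x n, entries in w A) with p C = C, D p = D, D C = w on the diagonal
(= wk w m), C D c_k = c_k. Proof: let F be a finite set containing the supports (in n x X) of the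
c_k, U = p (R^F) (f.g. submodule of R^(F') for a finite F' ⊇ F) contains the c_k; let U' be the set
of y in p W with r y in U for some r ≠ 0: contained in R^(F') (saturated), so f.g., and R^(F')/U'
is torsion free f.g., hence free (PID), so U' is a direct summand of R^(F'), with basis b_1..b_m
and functionals β_k on R^(F') (finitely supported) with β_k b_l = δ. C = (b_l), D = (β_k p).
Step A'. the same for rows.
Step B. For finitely many j in p M(J) p: the entries of j are finite sums c x * i r * d y, so by A'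
there is an idempotent e2 with j e2 = j for all j; by A applied to the columns of the j and of ...
choose first e1 with e1 j = j (all j), then e2 with j e2 = j (all j) and e1 e2 = e1; put
e = e2 + (1 - e2) e1 = e1 + e2 - e2 e1: it is idempotent, e j = j = j e, p e = e = e p, entries in Jd.
Step C. any idempotent e with entries in Jd is equivalent to wk w k: apply A with p = e and the
columns spanning e W (finitely many, because e has finite support): e W is f.g. projective, so free.
wk_inj: wk w k ~ wk w l gives matrices over w A w = R with product 1 on both sides; R commutative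
nontrivial (i_one, inj), so k = l (invariant basis number).
mem_Jd: an element of the two-sided ideal generated by w is a finite sum of a w b.
-/

set_option linter.unusedVariables false
set_option linter.style.longLine false
set_option linter.unusedSectionVars false

namespace Pool.Agent.Work.MP_2b4d3b_al

open Matrix

universe u v w u' v' w'

theorem mem_Jd {A : Type u} [Ring A] {w a : A} : a ∈ Jd w ↔
    ∃ (n : ℕ) (x y : Fin n → A), a = ∑ i, x i * w * y i := by
  constructor
  · intro h
    have h' : a ∈ TwoSidedIdeal.span {w} := h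
    induction h' using TwoSidedIdeal.span_induction with
    | mem x hx =>
      refine ⟨1, fun _ => 1, fun _ => 1, ?_⟩
      rw [Set.mem_singleton_iff.1 hx]
      simp
    | zero => exact ⟨0, fun _ => 0, fun _ => 0, by simp⟩
    | add x y hx hy ihx ihy =>
      obtain ⟨n, x1, y1, rfl⟩ := ihx hx
      obtain ⟨m, x2, y2, rfl⟩ := ihy hy
      refine ⟨n + m, Fin.append x1 x2, Fin.append y1 y2, ?_⟩
      rw [Fin.sum_univ_add]
      simp
    | neg x hx ih =>
      obtain ⟨n, x1, y1, rfl⟩ := ih hx
      exact ⟨n, fun i => -x1 i, y1, by simp [Finset.sum_neg_distrib]⟩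
    | left_absorb b x hx ih =>
      obtain ⟨n, x1, y1, rfl⟩ := ih hx
      exact ⟨n, fun i => b * x1 i, y1, by simp only [Finset.mul_sum, mul_assoc]⟩
    | right_absorb b x hx ih =>
      obtain ⟨n, x1, y1, rfl⟩ := ih hx
      exact ⟨n, x1, fun i => y1 i * b, by simp only [Finset.sum_mul, mul_assoc]⟩
  · rintro ⟨n, x, y, rfl⟩
    have hw : w ∈ TwoSidedIdeal.span {w} := TwoSidedIdeal.subset_span (Set.mem_singleton w)
    have : ∑ i, x i * w * y i ∈ TwoSidedIdeal.span {w} :=
      sum_mem fun i _ => TwoSidedIdeal.mul_mem_right _ _ _ (TwoSidedIdeal.mul_mem_left _ _ _ hw)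
    exact this

theorem Jd_mul_left {A : Type u} [Ring A] {w a : A} (b : A) (h : a ∈ Jd w) : b * a ∈ Jd w := by
  have h' : a ∈ TwoSidedIdeal.span {w} := h
  exact TwoSidedIdeal.mul_mem_left _ b a h'

theorem Jd_mul_right {A : Type u} [Ring A] {w a : A} (b : A) (h : a ∈ Jd w) : a * b ∈ Jd w := by
  have h' : a ∈ TwoSidedIdeal.span {w} := h
  exact TwoSidedIdeal.mul_mem_right _ a b h'

theorem Jd_add {A : Type u} [Ring A] {w a b : A} (h : a ∈ Jd w) (h' : b ∈ Jd w) :
    a + b ∈ Jd w := by
  have h1 : a ∈ TwoSidedIdeal.span {w} := h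
  have h2 : b ∈ TwoSidedIdeal.span {w} := h'
  exact add_mem h1 h2

private theorem Jd_sum {A : Type u} [Ring A] {w : A} {ι : Type v} (s : Finset ι) (f : ι → A)
    (h : ∀ i ∈ s, f i ∈ Jd w) : ∑ i ∈ s, f i ∈ Jd w := by
  have : ∑ i ∈ s, f i ∈ TwoSidedIdeal.span {w} := sum_mem fun i hi => h i hi
  exact this

/-- a matrix over a PID: the kernel is a direct summand -/
private theorem ker_split {R : Type u} [CommRing R] [IsDomain R] [IsPrincipalIdealRing R]
    {I : Type v} {J : Type w} [Fintype I] [Fintype J] [DecidableEq J] (Q : Matrix I J R) :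
    ∃ (m : ℕ) (B : Matrix J (Fin m) R) (G : Matrix (Fin m) J R), Q * B = 0 ∧ G * B = 1 ∧
      ∀ (l : Type w') (W : Matrix J l R), Q * W = 0 → B * (G * W) = W := by
  classical
  let f : (J → R) →ₗ[R] (I → R) := Q.mulVecLin
  obtain ⟨s, hs⟩ := Module.projective_lifting_property f.rangeRestrict (LinearMap.id)
    f.surjective_rangeRestrict
  have hs' : ∀ y, f (s (f.rangeRestrict y)) = f y := by
    intro y
    have := LinearMap.congr_fun hs (f.rangeRestrict y)
    exact congrArg Subtype.val this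
  let K := LinearMap.ker f
  let b := Module.finBasis R K
  let π : (J → R) →ₗ[R] K :=
    LinearMap.codRestrict K (LinearMap.id - s ∘ₗ f.rangeRestrict) (by
      intro y
      rw [LinearMap.mem_ker]
      simp only [LinearMap.sub_apply, LinearMap.id_apply, LinearMap.comp_apply, map_sub]
      rw [hs', sub_self])
  have hπ : ∀ y : J → R, (h : f y = 0) → π y = ⟨y, LinearMap.mem_ker.2 h⟩ := by
    intro y h
    apply Subtype.ext
    have h0 : f.rangeRestrict y = 0 := Subtype.ext h
    show y - s (f.rangeRestrict y) = y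
    rw [h0, map_zero, sub_zero]
  let g : (J → R) →ₗ[R] (Fin (Module.finrank R K) → R) := b.equivFun.toLinearMap ∘ₗ π
  have hG : ∀ y : J → R, (LinearMap.toMatrix' g).mulVec y = g y := fun y => by
    rw [← Matrix.toLin'_apply, Matrix.toLin'_toMatrix']
  refine ⟨Module.finrank R K, Matrix.of fun j k => (b k : J → R) j, LinearMap.toMatrix' g,
    ?_, ?_, ?_⟩
  · ext i k
    have h1 : f (b k : J → R) = 0 := LinearMap.mem_ker.1 (b k).2
    exact congrFun h1 i
  · ext k l
    have h1 : f (b l : J → R) = 0 := LinearMap.mem_ker.1 (b l).2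
    have h2 := congrFun (hG (b l : J → R)) k
    have h3 : g (b l : J → R) = Pi.single l 1 := by
      show b.equivFun (π (b l : J → R)) = _
      rw [hπ _ h1]
      funext k
      refine (b.equivFun_self l k).trans ?_
      simp [Pi.single_apply, eq_comm]
    rw [h3] at h2
    rw [Matrix.one_apply]
    refine Eq.trans h2 ?_
    simp [Pi.single_apply]
  · intro l W hW
    ext j t
    have h1 : f (fun j => W j t) = 0 := by
      funext i
      exact congrFun (congrFun hW i) t
    have h2 : ∀ k, (LinearMap.toMatrix' g * W) k t = g (fun j => W j t) k := fun k =>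
      congrFun (hG (fun j => W j t)) k
    rw [Matrix.mul_apply]
    simp only [h2, Matrix.of_apply]
    have h3 : ∑ k, g (fun j => W j t) k • b k = π (fun j => W j t) := b.sum_equivFun _
    have h4 := congrFun (congrArg Subtype.val h3) j
    rw [hπ _ h1] at h4
    simp only [Submodule.coe_sum, Submodule.coe_smul, Finset.sum_apply, Pi.smul_apply,
      smul_eq_mul] at h4
    rw [← h4]
    exact Finset.sum_congr rfl fun k _ => mul_comm _ _

section
variable {A : Type u} [Ring A] {R : Type v} [CommRing R] [IsDomain R] [IsPrincipalIdealRing R]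
  {X : Type w} (D : WD A R X)

/-- the embedding as a non unital ring hom -/
private def WD.h : R →ₙ+* A where
  toFun := D.i
  map_mul' := D.i_mul
  map_zero' := D.i_zero
  map_add' := D.i_add

private theorem WD.h_apply (r : R) : D.h r = D.i r := rfl

private theorem WD.wi (r : R) : D.w * D.i r = D.i r := by
  rw [← D.i_one, ← D.i_mul, one_mul]

private theorem WD.iw (r : R) : D.i r * D.w = D.i r := by
  rw [← D.i_one, ← D.i_mul, mul_one]

/-- the finite local units -/
private noncomputable def WD.e (F : Finset X) : A := ∑ x ∈ F, D.c x * D.d x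

private theorem WD.e_c {F : Finset X} {x : X} (hx : x ∈ F) : D.e F * D.c x = D.c x := by
  classical
  rw [WD.e, Finset.sum_mul, Finset.sum_eq_single x]
  · rw [mul_assoc, D.dc, D.cw]
  · intro y _ hy
    rw [mul_assoc, D.dc' y x hy, mul_zero]
  · intro h
    exact absurd hx h

private theorem WD.d_e {F : Finset X} {x : X} (hx : x ∈ F) : D.d x * D.e F = D.d x := by
  classical
  rw [WD.e, Finset.mul_sum, Finset.sum_eq_single x]
  · rw [← mul_assoc, D.dc, D.wd]
  · intro y _ hy
    rw [← mul_assoc, D.dc' x y (Ne.symm hy), zero_mul]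
  · intro h
    exact absurd hx h

private theorem WD.e_e {F F' : Finset X} (h : F ⊆ F') : D.e F' * D.e F = D.e F := by
  rw [WD.e, WD.e, Finset.mul_sum]
  refine Finset.sum_congr rfl fun x hx => ?_
  rw [← mul_assoc, ← WD.e, D.e_c (h hx)]

private theorem WD.e_e' {F F' : Finset X} (h : F ⊆ F') : D.e F * D.e F' = D.e F := by
  rw [WD.e, WD.e, Finset.sum_mul]
  refine Finset.sum_congr rfl fun x hx => ?_
  rw [mul_assoc, ← WD.e, D.d_e (h hx)]

private theorem WD.lu {z : A} (hz : z ∈ Jd D.w) :
    ∃ F : Finset X, D.e F * z = z ∧ z * D.e F = z := by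
  classical
  obtain ⟨n, x, y, rfl⟩ := mem_Jd.1 hz
  have h1 : ∀ i, ∃ F : Finset X, D.e F * (x i * D.w) = x i * D.w := by
    intro i
    obtain ⟨f, hf⟩ := D.span_c (x i)
    refine ⟨f.support, ?_⟩
    rw [hf, Finsupp.sum, Finset.mul_sum]
    refine Finset.sum_congr rfl fun t ht => ?_
    rw [← mul_assoc, D.e_c ht]
  have h2 : ∀ i, ∃ F : Finset X, D.w * y i * D.e F = D.w * y i := by
    intro i
    obtain ⟨f, hf⟩ := D.span_d (y i)
    refine ⟨f.support, ?_⟩
    rw [hf, Finsupp.sum, Finset.sum_mul]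
    refine Finset.sum_congr rfl fun t ht => ?_
    rw [mul_assoc, D.d_e ht]
  choose F1 hF1 using h1
  choose F2 hF2 using h2
  refine ⟨Finset.univ.biUnion F1 ∪ Finset.univ.biUnion F2, ?_, ?_⟩
  · rw [Finset.mul_sum]
    refine Finset.sum_congr rfl fun i _ => ?_
    have hs : F1 i ⊆ Finset.univ.biUnion F1 ∪ Finset.univ.biUnion F2 :=
      (Finset.subset_biUnion_of_mem F1 (Finset.mem_univ i)).trans Finset.subset_union_left
    rw [← mul_assoc, ← hF1 i, ← mul_assoc, D.e_e hs]
  · rw [Finset.sum_mul]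
    refine Finset.sum_congr rfl fun i _ => ?_
    have hs : F2 i ⊆ Finset.univ.biUnion F1 ∪ Finset.univ.biUnion F2 :=
      (Finset.subset_biUnion_of_mem F2 (Finset.mem_univ i)).trans Finset.subset_union_right
    rw [mul_assoc (x i), ← hF2 i, mul_assoc (x i), mul_assoc (D.w * y i), D.e_e' hs]

private theorem WD.lus {ι : Type v'} (s : Finset ι) (z : ι → A) (hz : ∀ i ∈ s, z i ∈ Jd D.w) :
    ∃ F : Finset X, ∀ i ∈ s, D.e F * z i = z i ∧ z i * D.e F = z i := by
  classical
  have h : ∀ i, ∃ F : Finset X, i ∈ s → D.e F * z i = z i ∧ z i * D.e F = z i := by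
    intro i
    by_cases hi : i ∈ s
    · obtain ⟨F, hF⟩ := D.lu (hz i hi)
      exact ⟨F, fun _ => hF⟩
    · exact ⟨∅, fun h => absurd h hi⟩
  choose F hF using h
  refine ⟨s.biUnion F, fun i hi => ?_⟩
  obtain ⟨h1, h2⟩ := hF i hi
  have hs : F i ⊆ s.biUnion F := Finset.subset_biUnion_of_mem F hi
  constructor
  · rw [← h1, ← mul_assoc, D.e_e hs]
  · rw [← h2, mul_assoc, D.e_e' hs]

variable {n : Type v'} [Fintype n] [DecidableEq n]

/-- scalar matrices -/
private noncomputable def WD.E (n : Type v') [Fintype n] [DecidableEq n] (F : Finset X) :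
    Matrix n n A := Matrix.diagonal fun _ => D.e F

private theorem WD.E_mul {l : Type w'} (F : Finset X) (M : Matrix n l A) :
    D.E n F * M = Matrix.of fun a b => D.e F * M a b := by
  ext a b
  rw [WD.E, Matrix.diagonal_mul, Matrix.of_apply]

private theorem WD.mul_E {l : Type w'} (F : Finset X) (M : Matrix l n A) :
    M * D.E n F = Matrix.of fun a b => M a b * D.e F := by
  ext a b
  rw [WD.E, Matrix.mul_diagonal, Matrix.of_apply]

private theorem WD.luM {l : Type w'} [Fintype l] [DecidableEq l] (M : Matrix n l A)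
    (hM : ∀ a b, M a b ∈ Jd D.w) :
    ∃ F : Finset X, D.E n F * M = M ∧ M * D.E l F = M := by
  obtain ⟨F, hF⟩ := D.lus (Finset.univ : Finset (n × l)) (fun i => M i.1 i.2) fun i _ => hM _ _
  refine ⟨F, ?_, ?_⟩
  · rw [D.E_mul]
    ext a b
    exact (hF (a, b) (Finset.mem_univ _)).1
  · rw [D.mul_E]
    ext a b
    exact (hF (a, b) (Finset.mem_univ _)).2

private noncomputable def WD.cF (n : Type v') [DecidableEq n] (F : Finset X) :
    Matrix n (n × F) A := fun a t => if a = t.1 then D.c t.2 else 0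

private noncomputable def WD.dF (n : Type v') [DecidableEq n] (F : Finset X) :
    Matrix (n × F) n A := fun t a => if t.1 = a then D.d t.2 else 0

private theorem WD.cd (F : Finset X) : D.cF n F * D.dF n F = D.E n F := by
  classical
  ext a b
  rw [Matrix.mul_apply, Fintype.sum_prod_type]
  simp only [WD.cF, WD.dF]
  rw [Finset.sum_eq_single a]
  · simp only [if_true]
    by_cases hab : a = b
    · subst hab
      simp only [if_true]
      rw [WD.E, Matrix.diagonal_apply_eq, WD.e]
      exact Finset.sum_coe_sort F fun x => D.c x * D.d x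
    · simp only [if_neg hab, mul_zero, Finset.sum_const_zero]
      rw [WD.E, Matrix.diagonal_apply_ne _ hab]
  · intro b' _ hb'
    simp only [if_neg (Ne.symm hb'), zero_mul, Finset.sum_const_zero]
  · intro h
    exact absurd (Finset.mem_univ a) h

private theorem WD.dc1 [DecidableEq X] (F : Finset X) :
    D.dF n F * D.cF n F = (1 : Matrix (n × F) (n × F) R).map D.h := by
  ext s t
  rw [Matrix.mul_apply, Finset.sum_eq_single s.1]
  · simp only [WD.cF, WD.dF, if_true, Matrix.map_apply]
    by_cases h1 : s.1 = t.1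
    · rw [if_pos h1]
      by_cases h2 : (s.2 : X) = t.2
      · have : s = t := Prod.ext h1 (Subtype.ext h2)
        rw [this, D.dc, Matrix.one_apply_eq, D.h_apply, D.i_one]
      · have : s ≠ t := fun h => h2 (by rw [h])
        rw [D.dc' _ _ h2, Matrix.one_apply_ne this, D.h_apply, D.i_zero]
    · have : s ≠ t := fun h => h1 (by rw [h])
      rw [if_neg h1, mul_zero, Matrix.one_apply_ne this, D.h_apply, D.i_zero]
  · intro b _ hb
    simp only [WD.dF, if_neg (Ne.symm hb), zero_mul]
  · intro h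
    exact absurd (Finset.mem_univ _) h

private theorem WD.c1 [DecidableEq X] (F : Finset X) :
    D.cF n F * (1 : Matrix (n × F) (n × F) R).map D.h = D.cF n F := by
  ext a t
  rw [Matrix.mul_apply, Finset.sum_eq_single t]
  · rw [Matrix.map_apply, Matrix.one_apply_eq, D.h_apply, D.i_one]
    simp only [WD.cF]
    split_ifs
    · rw [D.cw]
    · rw [zero_mul]
  · intro s _ hs
    rw [Matrix.map_apply, Matrix.one_apply_ne hs, D.h_apply, D.i_zero, mul_zero]
  · intro h
    exact absurd (Finset.mem_univ _) h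

private theorem WD.d1 [DecidableEq X] (F : Finset X) :
    (1 : Matrix (n × F) (n × F) R).map D.h * D.dF n F = D.dF n F := by
  ext t a
  rw [Matrix.mul_apply, Finset.sum_eq_single t]
  · rw [Matrix.map_apply, Matrix.one_apply_eq, D.h_apply, D.i_one]
    simp only [WD.dF]
    split_ifs
    · rw [D.wd]
    · rw [mul_zero]
  · intro s _ hs
    rw [Matrix.map_apply, Matrix.one_apply_ne (Ne.symm hs), D.h_apply, D.i_zero, zero_mul]
  · intro h
    exact absurd (Finset.mem_univ _) h

private theorem WD.coord {l : Type w'} [DecidableEq l] [Fintype l] (F F' : Finset X)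
    (M : Matrix n l A) :
    ∃ Q : Matrix (n × F) (l × F') R, Q.map D.h = D.dF n F * M * D.cF l F' := by
  classical
  have h : ∀ s t, ∃ r, (D.dF n F * M * D.cF l F') s t = D.i r := by
    intro s t
    have e : (D.dF n F * M * D.cF l F') s t = D.d s.2 * M s.1 t.1 * D.c t.2 := by
      rw [Matrix.mul_apply, Finset.sum_eq_single t.1, Matrix.mul_apply, Finset.sum_eq_single s.1]
      · simp only [WD.cF, WD.dF, if_true]
      · intro b _ hb
        simp only [WD.dF, if_neg (Ne.symm hb), zero_mul]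
      · intro h
        exact absurd (Finset.mem_univ _) h
      · intro b _ hb
        simp only [WD.cF, if_neg hb, mul_zero]
      · intro h
        exact absurd (Finset.mem_univ _) h
    rw [e]
    obtain ⟨r, hr⟩ := D.surj (D.d s.2 * M s.1 t.1 * D.c t.2)
    refine ⟨r, ?_⟩
    rw [← hr]
    conv_rhs => rw [mul_assoc, mul_assoc, D.cw, ← mul_assoc, ← mul_assoc, D.wd]
  choose Q hQ using h
  exact ⟨Matrix.of Q, by
    ext s t
    rw [hQ]
    rfl⟩

private theorem WD.h_inj {l : Type w'} {k : Type u'} {Q Q' : Matrix l k R}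
    (h : Q.map D.h = Q'.map D.h) : Q = Q' := by
  ext a b
  exact D.inj (congrFun (congrFun h a) b)

private theorem WD.map0 {l : Type w'} {k : Type u'} : (0 : Matrix l k R).map D.h = 0 := by
  ext a b
  simp

private theorem WD.wk1 (m : ℕ) : (1 : Matrix (Fin m) (Fin m) R).map D.h = wk D.w m := by
  ext a b
  rw [Matrix.map_apply, wk, Matrix.one_apply, Matrix.diagonal_apply]
  split_ifs
  · exact D.i_one
  · exact D.i_zero

private theorem WD.cF_mem (F : Finset X) (a : n) (t : n × F) : D.cF n F a t ∈ Jd D.w := by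
  simp only [WD.cF]
  split_ifs
  · rw [← D.cw]
    exact Jd_mul_left _ (TwoSidedIdeal.subset_span (Set.mem_singleton D.w))
  · exact (TwoSidedIdeal.span {D.w}).zero_mem

private theorem WD.dF_mem (F : Finset X) (t : n × F) (a : n) : D.dF n F t a ∈ Jd D.w := by
  simp only [WD.dF]
  split_ifs
  · rw [← D.wd]
    exact Jd_mul_right _ (TwoSidedIdeal.subset_span (Set.mem_singleton D.w))
  · exact (TwoSidedIdeal.span {D.w}).zero_mem

private theorem WD.colA (p : Matrix n n A) (hp : p * p = p) (F : Finset X) :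
    ∃ (m : ℕ) (C : Matrix n (Fin m) A) (G : Matrix (Fin m) n A), p * C = C ∧ G * p = G ∧
      G * C = wk D.w m ∧ C * wk D.w m = C ∧ wk D.w m * G = G ∧ (∀ a b, C a b ∈ Jd D.w) ∧
      ∀ z : Matrix n n A, (∀ a b, z a b ∈ Jd D.w) → p * z = z → D.E n F * z = z →
        C * G * z = z := by
  classical
  obtain ⟨F', hF', -⟩ := D.luM ((1 - p) * D.cF n F) (fun a b => by
    rw [Matrix.mul_apply]
    exact Jd_sum _ _ fun i _ => Jd_mul_left _ (D.cF_mem F _ _))
  obtain ⟨Q, hQ⟩ := D.coord F' F (1 - p)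
  obtain ⟨m, B, G0, h1, h2, h3⟩ := ker_split Q
  have hC : (1 - p) * (D.cF n F * B.map D.h) = 0 := by
    have e1 : (1 - p) * D.cF n F = D.cF n F' * Q.map D.h := by
      rw [hQ, ← Matrix.mul_assoc, ← Matrix.mul_assoc, D.cd, Matrix.mul_assoc, hF']
    rw [← Matrix.mul_assoc, e1, Matrix.mul_assoc, ← Matrix.map_mul, h1, D.map0, Matrix.mul_zero]
  have hC' : p * (D.cF n F * B.map D.h) = D.cF n F * B.map D.h := by
    rw [Matrix.sub_mul, Matrix.one_mul, sub_eq_zero] at hC
    exact hC.symm
  refine ⟨m, D.cF n F * B.map D.h, G0.map D.h * D.dF n F * p, hC', ?_, ?_, ?_, ?_, ?_, ?_⟩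
  · rw [Matrix.mul_assoc, hp]
  · rw [Matrix.mul_assoc, hC', ← Matrix.mul_assoc, Matrix.mul_assoc (G0.map D.h), D.dc1,
      ← Matrix.map_mul, ← Matrix.map_mul, Matrix.mul_one, h2, D.wk1]
  · rw [← D.wk1, Matrix.mul_assoc, ← Matrix.map_mul, Matrix.mul_one]
  · rw [← D.wk1, ← Matrix.mul_assoc, ← Matrix.mul_assoc, ← Matrix.map_mul, Matrix.one_mul]
  · intro a b
    rw [Matrix.mul_apply]
    exact Jd_sum _ _ fun i _ => Jd_mul_right _ (D.cF_mem F _ _)
  · intro z hz1 hz2 hz3
    obtain ⟨F'', -, hF''⟩ := D.luM z hz1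
    obtain ⟨W, hW⟩ := D.coord F F'' z
    have h4 : Q * W = 0 := by
      apply D.h_inj
      rw [Matrix.map_mul, hQ, hW, D.map0]
      have e1 : D.dF n F' * (1 - p) * D.cF n F * (D.dF n F * z * D.cF n F'') =
          D.dF n F' * ((1 - p) * (D.cF n F * D.dF n F * z)) * D.cF n F'' := by
        simp only [Matrix.mul_assoc]
      rw [e1, D.cd, hz3, Matrix.sub_mul, Matrix.one_mul, hz2, sub_self, Matrix.mul_zero,
        Matrix.zero_mul]
    have h5 := h3 _ W h4
    calc D.cF n F * B.map D.h * (G0.map D.h * D.dF n F * p) * z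
        = D.cF n F * B.map D.h * (G0.map D.h * (D.dF n F * (p * z))) := by
          simp only [Matrix.mul_assoc]
      _ = D.cF n F * B.map D.h * (G0.map D.h * (D.dF n F * (z * D.E n F''))) := by rw [hz2, hF'']
      _ = D.cF n F * (B.map D.h * (G0.map D.h * (D.dF n F * z * D.cF n F''))) * D.dF n F'' := by
          rw [← D.cd]
          simp only [Matrix.mul_assoc]
      _ = D.cF n F * (B * (G0 * W)).map D.h * D.dF n F'' := by
          rw [← hW, Matrix.map_mul, Matrix.map_mul]
      _ = z := by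
          rw [h5, hW]
          have e2 : D.cF n F * (D.dF n F * z * D.cF n F'') * D.dF n F'' =
              D.cF n F * D.dF n F * z * (D.cF n F'' * D.dF n F'') := by
            simp only [Matrix.mul_assoc]
          rw [e2, D.cd, D.cd, hz3, hF'']

private theorem WD.rowA (p : Matrix n n A) (hp : p * p = p) (F : Finset X) :
    ∃ (m : ℕ) (C : Matrix n (Fin m) A) (G : Matrix (Fin m) n A), p * C = C ∧ G * p = G ∧
      G * C = wk D.w m ∧ C * wk D.w m = C ∧ wk D.w m * G = G ∧ (∀ a b, C a b ∈ Jd D.w) ∧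
      ∀ z : Matrix n n A, (∀ a b, z a b ∈ Jd D.w) → z * p = z → z * D.E n F = z →
        z * (C * G) = z := by
  classical
  obtain ⟨F', -, hF'⟩ := D.luM (D.dF n F * (1 - p)) (fun a b => by
    rw [Matrix.mul_apply]
    exact Jd_sum _ _ fun i _ => Jd_mul_right _ (D.dF_mem F _ _))
  obtain ⟨Q, hQ⟩ := D.coord F F' (1 - p)
  obtain ⟨m, B, G0, h1, h2, h3⟩ := ker_split Qᵀ
  have h1' : Bᵀ * Q = 0 := by
    have := congrArg Matrix.transpose h1
    rwa [Matrix.transpose_mul, Matrix.transpose_transpose, Matrix.transpose_zero] at this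
  have h2' : Bᵀ * G0ᵀ = 1 := by
    have := congrArg Matrix.transpose h2
    rwa [Matrix.transpose_mul, Matrix.transpose_one] at this
  have hC : (Bᵀ.map D.h * D.dF n F) * (1 - p) = 0 := by
    have e1 : D.dF n F * (1 - p) = Q.map D.h * D.dF n F' := by
      rw [hQ, Matrix.mul_assoc, D.cd, hF']
    rw [Matrix.mul_assoc, e1, ← Matrix.mul_assoc, ← Matrix.map_mul, h1', D.map0, Matrix.zero_mul]
  have hC' : Bᵀ.map D.h * D.dF n F * p = Bᵀ.map D.h * D.dF n F := by
    rw [Matrix.mul_sub, Matrix.mul_one, sub_eq_zero] at hC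
    exact hC.symm
  refine ⟨m, p * (D.cF n F * G0ᵀ.map D.h), Bᵀ.map D.h * D.dF n F, ?_, hC', ?_, ?_, ?_, ?_, ?_⟩
  · rw [← Matrix.mul_assoc, hp]
  · rw [← Matrix.mul_assoc, hC', ← Matrix.mul_assoc, Matrix.mul_assoc (Bᵀ.map D.h), D.dc1,
      ← Matrix.map_mul, ← Matrix.map_mul, Matrix.mul_one, h2', D.wk1]
  · rw [← D.wk1, Matrix.mul_assoc, Matrix.mul_assoc, ← Matrix.map_mul, Matrix.mul_one]
  · rw [← D.wk1, ← Matrix.mul_assoc, ← Matrix.map_mul, Matrix.one_mul]
  · intro a b
    rw [← Matrix.mul_assoc, Matrix.mul_apply]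
    refine Jd_sum _ _ fun i _ => Jd_mul_right _ ?_
    rw [Matrix.mul_apply]
    exact Jd_sum _ _ fun i _ => Jd_mul_left _ (D.cF_mem F _ _)
  · intro z hz1 hz2 hz3
    obtain ⟨F'', hF'', -⟩ := D.luM z hz1
    obtain ⟨W, hW⟩ := D.coord F'' F z
    have h4 : W * Q = 0 := by
      apply D.h_inj
      rw [Matrix.map_mul, hQ, hW, D.map0]
      have e1 : D.dF n F'' * z * D.cF n F * (D.dF n F * (1 - p) * D.cF n F') =
          D.dF n F'' * (z * (D.cF n F * D.dF n F) * (1 - p)) * D.cF n F' := by
        simp only [Matrix.mul_assoc]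
      rw [e1, D.cd, hz3, Matrix.mul_sub, Matrix.mul_one, hz2, sub_self, Matrix.mul_zero,
        Matrix.zero_mul]
    have h5 : W * (G0ᵀ * Bᵀ) = W := by
      have h6 : Qᵀ * Wᵀ = 0 := by rw [← Matrix.transpose_mul, h4, Matrix.transpose_zero]
      have h7 := congrArg Matrix.transpose (h3 _ Wᵀ h6)
      rw [Matrix.transpose_mul, Matrix.transpose_mul, Matrix.transpose_transpose,
        Matrix.mul_assoc] at h7
      exact h7
    calc z * (p * (D.cF n F * G0ᵀ.map D.h) * (Bᵀ.map D.h * D.dF n F))
        = z * p * D.cF n F * (G0ᵀ.map D.h * Bᵀ.map D.h) * D.dF n F := by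
          simp only [Matrix.mul_assoc]
      _ = D.E n F'' * z * D.cF n F * (G0ᵀ.map D.h * Bᵀ.map D.h) * D.dF n F := by rw [hz2, hF'']
      _ = D.cF n F'' * (D.dF n F'' * z * D.cF n F * (G0ᵀ.map D.h * Bᵀ.map D.h)) * D.dF n F := by
          rw [← D.cd]
          simp only [Matrix.mul_assoc]
      _ = D.cF n F'' * (W * (G0ᵀ * Bᵀ)).map D.h * D.dF n F := by
          rw [← hW, Matrix.map_mul, Matrix.map_mul]
      _ = z := by
          rw [h5, hW]
          have e2 : D.cF n F'' * (D.dF n F'' * z * D.cF n F) * D.dF n F =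
              D.cF n F'' * D.dF n F'' * z * (D.cF n F * D.dF n F) := by
            simp only [Matrix.mul_assoc]
          rw [e2, D.cd, D.cd, hF'', hz3]

end

section
variable {A : Type u} [Ring A] {R : Type v} [CommRing R] [IsDomain R] [IsPrincipalIdealRing R]
  {X : Type w} (D : WD A R X)

theorem WD.idem_wk {n : Type v'} [Fintype n] [DecidableEq n] (e : Matrix n n A) (he : e * e = e)
    (hJ : ∀ a b, e a b ∈ Jd D.w) : ∃ k : ℕ, IdEq e (wk D.w k) := by
  obtain ⟨F, hF, -⟩ := D.luM e hJ
  obtain ⟨m, C, G, h1, h2, h3, h4, h5, -, h7⟩ := D.colA e he F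
  have h8 := h7 e hJ he hF
  rw [Matrix.mul_assoc, h2] at h8
  exact ⟨m, C, G, h8, h3, h1, h5⟩

theorem WD.locUnit {n : Type v'} [Fintype n] [DecidableEq n] (p : Matrix n n A) (hp : p * p = p)
    (L : List (Matrix n n A))
    (hL : ∀ j ∈ L, (∀ a b, j a b ∈ Jd D.w) ∧ p * j = j ∧ j * p = j) :
    ∃ e : Matrix n n A, e * e = e ∧ p * e = e ∧ e * p = e ∧ (∀ a b, e a b ∈ Jd D.w) ∧
      (∀ j ∈ L, e * j = j ∧ j * e = j) ∧ ∃ k : ℕ, IdEq e (wk D.w k) := by
  classical
  have hlist : ∀ L' : List (Matrix n n A), (∀ j ∈ L', ∀ a b, j a b ∈ Jd D.w) →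
      ∃ F : Finset X, ∀ j ∈ L', D.E n F * j = j ∧ j * D.E n F = j := by
    intro L' hL'
    obtain ⟨F, hF⟩ := D.lus (L'.toFinset ×ˢ (Finset.univ : Finset (n × n)))
      (fun i => i.1 i.2.1 i.2.2) (fun i hi => by
        rw [Finset.mem_product] at hi
        exact hL' i.1 (List.mem_toFinset.1 hi.1) _ _)
    refine ⟨F, fun j hj => ⟨?_, ?_⟩⟩
    · rw [D.E_mul]
      ext a b
      exact (hF (j, (a, b)) (by simp [hj])).1
    · rw [D.mul_E]
      ext a b
      exact (hF (j, (a, b)) (by simp [hj])).2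
  obtain ⟨F, hF⟩ := hlist L fun j hj => (hL j hj).1
  obtain ⟨m, C, G, a1, a2, a3, a4, a5, a6, a7⟩ := D.colA p hp F
  have c1 : p * (C * G) = C * G := by rw [← Matrix.mul_assoc, a1]
  have c2 : C * G * p = C * G := by rw [Matrix.mul_assoc, a2]
  have c3 : C * G * (C * G) = C * G := by
    rw [Matrix.mul_assoc, ← Matrix.mul_assoc G, a3, ← Matrix.mul_assoc, a4]
  have c4 : ∀ a b, (C * G) a b ∈ Jd D.w := fun a b => by
    rw [Matrix.mul_apply]
    exact Jd_sum _ _ fun i _ => Jd_mul_right _ (a6 _ _)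
  have c5 : ∀ j ∈ L, C * G * j = j := fun j hj =>
    a7 j (hL j hj).1 (hL j hj).2.1 (hF j hj).1
  obtain ⟨F2, hF2⟩ := hlist ((C * G) :: L) (by
    intro j hj
    rcases List.mem_cons.1 hj with rfl | hj
    · exact c4
    · exact (hL j hj).1)
  obtain ⟨m2, C2, G2, b1, b2, b3, b4, b5, b6, b7⟩ := D.rowA p hp F2
  have d1 : p * (C2 * G2) = C2 * G2 := by rw [← Matrix.mul_assoc, b1]
  have d2 : C2 * G2 * p = C2 * G2 := by rw [Matrix.mul_assoc, b2]
  have d3 : C2 * G2 * (C2 * G2) = C2 * G2 := by
    rw [Matrix.mul_assoc, ← Matrix.mul_assoc G2, b3, ← Matrix.mul_assoc, b4]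
  have d4 : ∀ a b, (C2 * G2) a b ∈ Jd D.w := fun a b => by
    rw [Matrix.mul_apply]
    exact Jd_sum _ _ fun i _ => Jd_mul_right _ (b6 _ _)
  have d5 : ∀ j ∈ L, j * (C2 * G2) = j := fun j hj =>
    b7 j (hL j hj).1 (hL j hj).2.2 (hF2 j (List.mem_cons_of_mem _ hj)).2
  have d6 : C * G * (C2 * G2) = C * G :=
    b7 _ c4 c2 (hF2 _ List.mem_cons_self).2
  generalize C * G = e1 at *
  generalize C2 * G2 = e2 at *
  have he : (e1 + e2 - e2 * e1) * (e1 + e2 - e2 * e1) = e1 + e2 - e2 * e1 := by
    have t1 : e1 * (e2 * e1) = e1 := by rw [← Matrix.mul_assoc, d6, c3]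
    have t2 : e2 * (e2 * e1) = e2 * e1 := by rw [← Matrix.mul_assoc, d3]
    have t3 : e2 * e1 * e1 = e2 * e1 := by rw [Matrix.mul_assoc, c3]
    have t4 : e2 * e1 * e2 = e2 * e1 := by rw [Matrix.mul_assoc, d6]
    have t5 : e2 * e1 * (e2 * e1) = e2 * e1 := by rw [← Matrix.mul_assoc, t4, t3]
    simp only [Matrix.mul_sub, Matrix.mul_add, Matrix.sub_mul, Matrix.add_mul, t1, t2, t3, t4, t5,
      c3, d3, d6]
    abel
  have hJ : ∀ a b, (e1 + e2 - e2 * e1) a b ∈ Jd D.w := by
    intro a b
    rw [Matrix.sub_apply, Matrix.add_apply, sub_eq_add_neg]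
    have h1 : (e2 * e1) a b ∈ Jd D.w := by
      rw [Matrix.mul_apply]
      exact Jd_sum _ _ fun i _ => Jd_mul_right _ (d4 _ _)
    have h2 : -((e2 * e1) a b) ∈ Jd D.w := by
      have := Jd_mul_left (-1) h1
      rwa [neg_one_mul] at this
    exact Jd_add (Jd_add (c4 a b) (d4 a b)) h2
  refine ⟨e1 + e2 - e2 * e1, he, ?_, ?_, hJ, ?_, D.idem_wk _ he hJ⟩
  · rw [Matrix.mul_sub, Matrix.mul_add, c1, d1, ← Matrix.mul_assoc, d1]
  · rw [Matrix.sub_mul, Matrix.add_mul, c2, d2, Matrix.mul_assoc, c2]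
  · intro j hj
    constructor
    · rw [Matrix.sub_mul, Matrix.add_mul, Matrix.mul_assoc, c5 j hj, add_sub_cancel_right]
    · rw [Matrix.mul_sub, Matrix.mul_add, ← Matrix.mul_assoc, d5 j hj, add_sub_cancel_left]

theorem WD.wk_inj (k l : ℕ) (h : IdEq (wk D.w k) (wk D.w l)) : k = l := by
  obtain ⟨x, y, h1, h2, h3, h3', h4, h4'⟩ := h.out
  have hx : ∀ a b, ∃ r, x a b = D.i r := by
    intro a b
    obtain ⟨r, hr⟩ := D.surj (x a b)
    refine ⟨r, ?_⟩
    rw [← hr]
    conv_lhs => rw [← h3', ← h3]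
    simp only [wk, Matrix.mul_diagonal, Matrix.diagonal_mul]
  have hy : ∀ a b, ∃ r, y a b = D.i r := by
    intro a b
    obtain ⟨r, hr⟩ := D.surj (y a b)
    refine ⟨r, ?_⟩
    rw [← hr]
    conv_lhs => rw [← h4', ← h4]
    simp only [wk, Matrix.mul_diagonal, Matrix.diagonal_mul]
  choose x' hx' using hx
  choose y' hy' using hy
  have e1 : (Matrix.of x').map D.h = x := by
    ext a b
    rw [hx']
    rfl
  have e2 : (Matrix.of y').map D.h = y := by
    ext a b
    rw [hy']
    rfl
  have f1 : Matrix.of x' * Matrix.of y' = 1 := by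
    apply D.h_inj
    rw [Matrix.map_mul, e1, e2, h1, D.wk1]
  have f2 : Matrix.of y' * Matrix.of x' = 1 := by
    apply D.h_inj
    rw [Matrix.map_mul, e1, e2, h2, D.wk1]
  have := Matrix.square_of_invertible (Matrix.of x') (Matrix.of y') f1 f2
  simpa using this

end

end Pool.Agent.Work.MP_2b4d3b_al
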