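import Pool.Agent.Work.MP_2b4d3b_al.SFam

/-!
MODULE MoveO. Outsplitting of v0 into two vertices: some v0 emits the edges e of v0 with not C e,
none emits those with C e; an edge e with range v0 gets a second copy inr e with range none.
to the right: x -> some x (x not v0), v0 -> some v0 + none, e -> inl e if r e is not v0,
  e -> inl e + inr e if r e = v0; ghosts = star images.
to the left: some x -> x, some v0 -> sum of e e* over e from v0 with not C e =: q1,
  none -> sum of e e* over e from v0 with C e =: q2 (q1 + q2 = v0, orthogonal),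
  inl e -> e * (image of some (r e)), inr e -> e * q2.
Check the relations, then SI.mk'. V finite is used only for the relation one.
-/

set_option linter.unusedVariables false
set_option linter.style.longLine false

namespace Pool.Agent.Work.MP_2b4d3b_al

open Matrix

universe u v w u' v' w'

open Classical in
/-- the outsplit graph -/
noncomputable def outG {V : Type v} {E : Type w} (G : Gr V E) (v0 : V) (C : E → Prop) :
    Gr (Option V) (E ⊕ {e : E // G.r e = v0}) where
  s := fun e =>
    if G.s (Sum.elim id Subtype.val e) = v0 ∧ C (Sum.elim id Subtype.val e) then none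
    else some (G.s (Sum.elim id Subtype.val e))
  r := Sum.elim (fun e => some (G.r e)) (fun _ => none)

set_option linter.unusedSectionVars false

section
variable {K : Type u} [Field K] [StarRing K] {V : Type v} {E : Type w} [Fintype V] [Fintype E]
  [DecidableEq E] [DecidableEq V] (G : Gr V E) (v0 : V) (C : E → Prop)

/-- the new source of an edge -/
private noncomputable def mo_s (e : E) : Option V := (outG G v0 C).s (Sum.inl e)

private lemma mo_s_inr (i : {e : E // G.r e = v0}) :
    (outG G v0 C).s (Sum.inr i) = mo_s G v0 C i.1 := rfl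

private lemma mo_s_inl (e : E) : (outG G v0 C).s (Sum.inl e) = mo_s G v0 C e := rfl

private lemma mo_pos {e : E} (h : G.s e = v0 ∧ C e) : mo_s G v0 C e = none := if_pos h

private lemma mo_neg {e : E} (h : ¬ (G.s e = v0 ∧ C e)) : mo_s G v0 C e = some (G.s e) := if_neg h

private lemma mo_none (e : E) : mo_s G v0 C e = none ↔ G.s e = v0 ∧ C e := by
  by_cases h : G.s e = v0 ∧ C e
  · simp only [mo_pos G v0 C h, h, and_self]
  · simp only [mo_neg G v0 C h, h, iff_false]
    exact fun h => by cases h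

private lemma mo_some (e : E) (x : V) : mo_s G v0 C e = some x ↔ G.s e = x ∧ ¬ (x = v0 ∧ C e) := by
  by_cases h : G.s e = v0 ∧ C e
  · rw [mo_pos G v0 C h]
    constructor
    · intro h; cases h
    · rintro ⟨rfl, h2⟩
      exact absurd h h2
  · rw [mo_neg G v0 C h, Option.some_inj]
    constructor
    · rintro rfl
      exact ⟨rfl, h⟩
    · exact fun h => h.1

private lemma mo_some_ne (e : E) {x : V} (hx : x ≠ v0) : mo_s G v0 C e = some x ↔ G.s e = x := by
  rw [mo_some]
  exact ⟨fun h => h.1, fun h => ⟨h, fun h' => hx h'.1⟩⟩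

private lemma mo_cases (e : E) : (mo_s G v0 C e = none ∧ G.s e = v0) ∨
    mo_s G v0 C e = some (G.s e) := by
  by_cases h : G.s e = v0 ∧ C e
  · exact Or.inl ⟨(mo_none G v0 C e).2 h, h.1⟩
  · exact Or.inr ((mo_some G v0 C e _).2 ⟨rfl, h⟩)

/-! to the right -/

private noncomputable def mo_P (K : Type u) [Field K] (G : Gr V E) (v0 : V) (C : E → Prop) (x : V) :
    LPA K (outG G v0 C) :=
  vx K (outG G v0 C) (some x) + if x = v0 then vx K (outG G v0 C) none else 0

private noncomputable def mo_a (K : Type u) [Field K] (G : Gr V E) (v0 : V) (C : E → Prop) (e : E) :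
    LPA K (outG G v0 C) :=
  ed K (outG G v0 C) (Sum.inl e) +
    if h : G.r e = v0 then ed K (outG G v0 C) (Sum.inr ⟨e, h⟩) else 0

private lemma mo_P_star (x : V) : star (mo_P K G v0 C x) = mo_P K G v0 C x := by
  unfold mo_P
  by_cases h : x = v0
  · rw [if_pos h, star_add, star_vx, star_vx]
  · rw [if_neg h, add_zero, star_vx]

private lemma mo_P_some (x : V) : mo_P K G v0 C x * vx K (outG G v0 C) (some x) =
    vx K (outG G v0 C) (some x) := by
  unfold mo_P
  by_cases h : x = v0
  · rw [if_pos h, add_mul, vx_vx, vx_ne (by simp), add_zero]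
  · rw [if_neg h, add_zero, vx_vx]

private lemma mo_some_P (x : V) : vx K (outG G v0 C) (some x) * mo_P K G v0 C x =
    vx K (outG G v0 C) (some x) := by
  have := congrArg star (mo_P_some (K := K) G v0 C x)
  rwa [star_mul, mo_P_star, star_vx] at this

private lemma mo_P_none : mo_P K G v0 C v0 * vx K (outG G v0 C) none =
    vx K (outG G v0 C) none := by
  unfold mo_P
  rw [if_pos rfl, add_mul, vx_vx, vx_ne (by simp), zero_add]

private lemma mo_none_P : vx K (outG G v0 C) none * mo_P K G v0 C v0 =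
    vx K (outG G v0 C) none := by
  have := congrArg star (mo_P_none (K := K) G v0 C)
  rwa [star_mul, mo_P_star, star_vx] at this

private lemma mo_P_P (x : V) : mo_P K G v0 C x * mo_P K G v0 C x = mo_P K G v0 C x := by
  by_cases h : x = v0
  · subst h
    have h1 : mo_P K G x C x = vx K (outG G x C) (some x) + vx K (outG G x C) none := by
      unfold mo_P
      rw [if_pos rfl]
    conv_lhs => rw [h1]
    rw [add_mul, mul_add, mul_add, vx_vx, vx_vx, vx_ne (by simp), vx_ne (by simp), h1]
    abel
  · have h1 : mo_P K G v0 C x = vx K (outG G v0 C) (some x) := by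
      unfold mo_P
      rw [if_neg h, add_zero]
    rw [h1, vx_vx]

private lemma mo_P_ne {x y : V} (hxy : x ≠ y) : mo_P K G v0 C x * mo_P K G v0 C y = 0 := by
  have h0 : vx K (outG G v0 C) (some x) * vx K (outG G v0 C) (some y) = 0 :=
    vx_ne (by simpa using hxy)
  have h1 : vx K (outG G v0 C) (some x) * vx K (outG G v0 C) none = 0 := vx_ne (by simp)
  have h2 : vx K (outG G v0 C) none * vx K (outG G v0 C) (some y) = 0 := vx_ne (by simp)
  unfold mo_P
  by_cases hx : x = v0
  · by_cases hy : y = v0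
    · exact absurd (hx.trans hy.symm) hxy
    · rw [if_pos hx, if_neg hy, add_zero, add_mul, h0, h2, add_zero]
  · by_cases hy : y = v0
    · rw [if_neg hx, if_pos hy, add_zero, mul_add, h0, h1, add_zero]
    · rw [if_neg hx, if_neg hy, add_zero, add_zero, h0]

private lemma mo_P_s (e : E) : mo_P K G v0 C (G.s e) * vx K (outG G v0 C) (mo_s G v0 C e) =
    vx K (outG G v0 C) (mo_s G v0 C e) := by
  rcases mo_cases G v0 C e with ⟨h1, h2⟩ | h1
  · rw [h1, h2, mo_P_none]
  · rw [h1, mo_P_some]

private lemma mo_P_inl (e : E) : mo_P K G v0 C (G.s e) * ed K (outG G v0 C) (Sum.inl e) =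
    ed K (outG G v0 C) (Sum.inl e) := by
  have h1 : vx K (outG G v0 C) (mo_s G v0 C e) * ed K (outG G v0 C) (Sum.inl e) =
    ed K (outG G v0 C) (Sum.inl e) := s_ed (K := K) (G := outG G v0 C) (Sum.inl e)
  rw [← h1, ← mul_assoc, mo_P_s]

private lemma mo_P_inr (i : {e : E // G.r e = v0}) :
    mo_P K G v0 C (G.s i.1) * ed K (outG G v0 C) (Sum.inr i) = ed K (outG G v0 C) (Sum.inr i) := by
  have h1 : vx K (outG G v0 C) (mo_s G v0 C i.1) * ed K (outG G v0 C) (Sum.inr i) =
    ed K (outG G v0 C) (Sum.inr i) := s_ed (K := K) (G := outG G v0 C) (Sum.inr i)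
  rw [← h1, ← mul_assoc, mo_P_s]

private lemma mo_inl_r (e : E) : ed K (outG G v0 C) (Sum.inl e) * vx K (outG G v0 C) (some (G.r e)) =
    ed K (outG G v0 C) (Sum.inl e) := ed_r (K := K) (G := outG G v0 C) (Sum.inl e)

private lemma mo_inr_r (i : {e : E // G.r e = v0}) :
    ed K (outG G v0 C) (Sum.inr i) * vx K (outG G v0 C) none =
    ed K (outG G v0 C) (Sum.inr i) := ed_r (K := K) (G := outG G v0 C) (Sum.inr i)

private lemma mo_inl_none (e : E) : ed K (outG G v0 C) (Sum.inl e) * vx K (outG G v0 C) none = 0 := by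
  rw [← mo_inl_r, mul_assoc, vx_ne (by simp), mul_zero]

private lemma mo_inr_some (i : {e : E // G.r e = v0}) (x : V) :
    ed K (outG G v0 C) (Sum.inr i) * vx K (outG G v0 C) (some x) = 0 := by
  rw [← mo_inr_r, mul_assoc, vx_ne (by simp), mul_zero]

/-- edges with different ranges -/
private lemma mo_lr (e : E) (i : {e : E // G.r e = v0}) :
    ed K (outG G v0 C) (Sum.inl e) * gh K (outG G v0 C) (Sum.inr i) = 0 := by
  have h1 : vx K (outG G v0 C) none * gh K (outG G v0 C) (Sum.inr i) =
    gh K (outG G v0 C) (Sum.inr i) := r_gh (K := K) (G := outG G v0 C) (Sum.inr i)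
  rw [← h1, ← mul_assoc, mo_inl_none, zero_mul]

private lemma mo_rl (e : E) (i : {e : E // G.r e = v0}) :
    ed K (outG G v0 C) (Sum.inr i) * gh K (outG G v0 C) (Sum.inl e) = 0 := by
  have := congrArg star (mo_lr (K := K) G v0 C e i)
  rwa [star_mul, star_ed, star_gh, star_zero] at this

private lemma mo_star_a (e : E) : star (mo_a K G v0 C e) = gh K (outG G v0 C) (Sum.inl e) +
    if h : G.r e = v0 then gh K (outG G v0 C) (Sum.inr ⟨e, h⟩) else 0 := by
  unfold mo_a
  rw [star_add, star_ed]
  by_cases h : G.r e = v0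
  · rw [dif_pos h, dif_pos h, star_ed]
  · rw [dif_neg h, dif_neg h, star_zero]

private lemma mo_ge (e : E) : star (mo_a K G v0 C e) * mo_a K G v0 C e = mo_P K G v0 C (G.r e) := by
  rw [mo_star_a]
  have h0 : gh K (outG G v0 C) (Sum.inl e) * ed K (outG G v0 C) (Sum.inl e) =
    vx K (outG G v0 C) (some (G.r e)) := gh_ed (K := K) (G := outG G v0 C) (Sum.inl e)
  unfold mo_a mo_P
  by_cases h : G.r e = v0
  · have h1 : gh K (outG G v0 C) (Sum.inr ⟨e, h⟩) * ed K (outG G v0 C) (Sum.inr ⟨e, h⟩) =
      vx K (outG G v0 C) none := gh_ed (K := K) (G := outG G v0 C) (Sum.inr ⟨e, h⟩)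
    rw [dif_pos h, dif_pos h, if_pos h, add_mul, mul_add, mul_add, h0, h1, gh_ed_ne (by simp),
      gh_ed_ne (by simp)]
    abel
  · rw [dif_neg h, dif_neg h, if_neg h, add_zero, add_zero, add_zero, h0]

private lemma mo_gf {e f : E} (hef : e ≠ f) : star (mo_a K G v0 C e) * mo_a K G v0 C f = 0 := by
  rw [mo_star_a]
  unfold mo_a
  have h0 : gh K (outG G v0 C) (Sum.inl e) * ed K (outG G v0 C) (Sum.inl f) = 0 :=
    gh_ed_ne (fun h => hef (Sum.inl.inj h))
  have h1 : ∀ i, gh K (outG G v0 C) (Sum.inl e) * ed K (outG G v0 C) (Sum.inr i) = 0 :=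
    fun i => gh_ed_ne (by simp)
  have h2 : ∀ i, gh K (outG G v0 C) (Sum.inr i) * ed K (outG G v0 C) (Sum.inl f) = 0 :=
    fun i => gh_ed_ne (by simp)
  have h3 : ∀ (h : G.r e = v0) (h' : G.r f = v0), gh K (outG G v0 C) (Sum.inr ⟨e, h⟩) *
      ed K (outG G v0 C) (Sum.inr ⟨f, h'⟩) = 0 := by
    intro h h'
    refine gh_ed_ne fun he => hef ?_
    exact congrArg Subtype.val (Sum.inr.inj he)
  by_cases h : G.r e = v0 <;> by_cases h' : G.r f = v0
  · rw [dif_pos h, dif_pos h', add_mul, mul_add, mul_add, h0, h1, h2, h3]; simp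
  · rw [dif_pos h, dif_neg h', add_zero, add_mul, h0, h2]; simp
  · rw [dif_neg h, dif_pos h', add_zero, mul_add, h0, h1]; simp
  · rw [dif_neg h, dif_neg h', add_zero, add_zero, h0]

private lemma mo_c (e : E) : mo_a K G v0 C e * star (mo_a K G v0 C e) =
    ed K (outG G v0 C) (Sum.inl e) * gh K (outG G v0 C) (Sum.inl e) +
    if h : G.r e = v0 then ed K (outG G v0 C) (Sum.inr ⟨e, h⟩) * gh K (outG G v0 C) (Sum.inr ⟨e, h⟩)
      else 0 := by
  rw [mo_star_a]
  unfold mo_a
  by_cases h : G.r e = v0
  · rw [dif_pos h, dif_pos h, dif_pos h, add_mul, mul_add, mul_add, mo_lr, mo_rl]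
    abel
  · rw [dif_neg h, dif_neg h, dif_neg h, add_zero, add_zero, add_zero]

private lemma mo_D (x' : Option V) (hx : ∃ e, mo_s G v0 C e = x') : vx K (outG G v0 C) x' =
    ∑ e, if mo_s G v0 C e = x' then mo_a K G v0 C e * star (mo_a K G v0 C e) else 0 := by
  obtain ⟨e0, he0⟩ := hx
  rw [ck_if (K := K) (G := outG G v0 C) x' ⟨Sum.inl e0, he0⟩, Fintype.sum_sum_type]
  have h1 : ∀ e, (if mo_s G v0 C e = x' then mo_a K G v0 C e * star (mo_a K G v0 C e) else 0) =
      (if mo_s G v0 C e = x' then ed K (outG G v0 C) (Sum.inl e) *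
        gh K (outG G v0 C) (Sum.inl e) else 0) +
      if h : G.r e = v0 then (if mo_s G v0 C e = x' then ed K (outG G v0 C) (Sum.inr ⟨e, h⟩) *
        gh K (outG G v0 C) (Sum.inr ⟨e, h⟩) else 0) else 0 := by
    intro e
    rw [mo_c]
    by_cases hs : mo_s G v0 C e = x'
    · simp only [if_pos hs]
    · simp only [if_neg hs]
      simp
  rw [Finset.sum_congr rfl fun e _ => h1 e, Finset.sum_add_distrib]
  congr 1
  rw [sum_dif_sub (fun e => G.r e = v0) fun i => if mo_s G v0 C i.1 = x' then
    ed K (outG G v0 C) (Sum.inr i) * gh K (outG G v0 C) (Sum.inr i) else 0]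
  rfl

private noncomputable def mo_F (h1 : ∃ e, G.s e = v0 ∧ ¬ C e) (h2 : ∃ e, G.s e = v0 ∧ C e) :
    Fam K G (LPA K (outG G v0 C)) :=
  sFam (mo_P K G v0 C) (mo_a K G v0 C) (mo_P_star G v0 C) (mo_P_P G v0 C)
    (fun x y h => mo_P_ne G v0 C h)
    (fun e => by
      unfold mo_a
      by_cases h : G.r e = v0
      · rw [dif_pos h, mul_add, mo_P_inl, mo_P_inr G v0 C ⟨e, h⟩]
      · rw [dif_neg h, add_zero, mo_P_inl])
    (fun e => by
      unfold mo_a
      have h0 : ed K (outG G v0 C) (Sum.inl e) * mo_P K G v0 C (G.r e) =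
          ed K (outG G v0 C) (Sum.inl e) := by
        rw [← mo_inl_r, mul_assoc, mo_some_P]
      by_cases h : G.r e = v0
      · rw [dif_pos h, add_mul, h0]
        congr 1
        rw [h, ← mo_inr_r, mul_assoc, mo_none_P]
      · rw [dif_neg h, add_zero, h0])
    (mo_ge G v0 C) (fun e f h => mo_gf G v0 C h)
    (if_ck fun x hx => by
      by_cases h : x = v0
      · subst h
        have h3 : mo_P K G x C x = vx K (outG G x C) (some x) + vx K (outG G x C) none := by
          unfold mo_P
          rw [if_pos rfl]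
        obtain ⟨e1, he1, he1'⟩ := h1
        obtain ⟨e2, he2, he2'⟩ := h2
        rw [h3, mo_D G x C (some x) ⟨e1, (mo_some _ _ _ _ _).2 ⟨he1, fun h => he1' h.2⟩⟩,
          mo_D G x C none ⟨e2, (mo_none _ _ _ _).2 ⟨he2, he2'⟩⟩, ← Finset.sum_add_distrib]
        refine Finset.sum_congr rfl fun e _ => ?_
        by_cases hs : G.s e = x
        · rw [if_pos hs]
          by_cases hC : C e
          · rw [if_neg, if_pos, zero_add]
            · exact (mo_none _ _ _ _).2 ⟨hs, hC⟩
            · rw [mo_some]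
              exact fun h => h.2 ⟨rfl, hC⟩
          · rw [if_pos, if_neg, add_zero]
            · rw [mo_none]
              exact fun h => hC h.2
            · exact (mo_some _ _ _ _ _).2 ⟨hs, fun h => hC h.2⟩
        · rw [if_neg hs, if_neg, if_neg, add_zero]
          · rw [mo_none]
            exact fun h => hs h.1
          · rw [mo_some]
            exact fun h => hs h.1
      · have h3 : mo_P K G v0 C x = vx K (outG G v0 C) (some x) := by
          unfold mo_P
          rw [if_neg h, add_zero]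
        obtain ⟨e, he⟩ := hx
        rw [h3, mo_D G v0 C (some x) ⟨e, (mo_some_ne _ _ _ _ h).2 he⟩]
        refine Finset.sum_congr rfl fun e _ => ?_
        simp only [mo_some_ne G v0 C e h])
    (fun T hT => by
      have hT' : T = Finset.univ := Finset.eq_univ_iff_forall.2 hT
      subst hT'
      rw [one_sum (K := K) (G := outG G v0 C) Finset.univ (fun x => Finset.mem_univ x),
        Fintype.sum_option]
      unfold mo_P
      rw [Finset.sum_add_distrib, add_comm]
      congr 1
      simp)

/-! to the left -/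

private noncomputable def mo_q (K : Type u) [Field K] (G : Gr V E) (v0 : V) (C : E → Prop)
    (x' : Option V) : LPA K G :=
  ∑ e, if mo_s G v0 C e = x' then ed K G e * gh K G e else 0

private noncomputable def mo_Q (K : Type u) [Field K] (G : Gr V E) (v0 : V) (C : E → Prop) :
    Option V → LPA K G
  | some x => if x = v0 then mo_q K G v0 C (some v0) else vx K G x
  | none => mo_q K G v0 C none

private lemma mo_q_ed (x' : Option V) (e : E) : mo_q K G v0 C x' * ed K G e =
    if mo_s G v0 C e = x' then ed K G e else 0 := by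
  unfold mo_q
  rw [Finset.sum_mul, Finset.sum_eq_single e]
  · by_cases h : mo_s G v0 C e = x'
    · rw [if_pos h, if_pos h, mul_assoc, gh_ed, ed_r]
    · rw [if_neg h, if_neg h, zero_mul]
  · intro f _ hf
    by_cases h : mo_s G v0 C f = x'
    · rw [if_pos h, mul_assoc, gh_ed_ne hf, mul_zero]
    · rw [if_neg h, zero_mul]
  · intro h
    exact absurd (Finset.mem_univ e) h

private lemma mo_q_star (x' : Option V) : star (mo_q K G v0 C x') = mo_q K G v0 C x' := by
  unfold mo_q
  rw [star_sum]
  refine Finset.sum_congr rfl fun e _ => ?_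
  by_cases h : mo_s G v0 C e = x'
  · rw [if_pos h, star_mul, star_ed, star_gh]
  · rw [if_neg h, star_zero]

private lemma mo_q_q (x' y' : Option V) : mo_q K G v0 C x' * mo_q K G v0 C y' =
    if x' = y' then mo_q K G v0 C x' else 0 := by
  conv_lhs => rw [show mo_q K G v0 C y' = ∑ e, if mo_s G v0 C e = y' then ed K G e * gh K G e else 0
    from rfl]
  rw [Finset.mul_sum]
  by_cases hxy : x' = y'
  · subst hxy
    rw [if_pos rfl]
    conv_rhs => rw [mo_q]
    refine Finset.sum_congr rfl fun e _ => ?_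
    by_cases h : mo_s G v0 C e = x'
    · rw [if_pos h, ← mul_assoc, mo_q_ed, if_pos h]
    · rw [if_neg h, mul_zero]
  · rw [if_neg hxy]
    refine Finset.sum_eq_zero fun e _ => ?_
    by_cases h : mo_s G v0 C e = y'
    · rw [if_pos h, ← mul_assoc, mo_q_ed, if_neg, zero_mul]
      rw [h]
      exact fun h => hxy h.symm
    · rw [if_neg h, mul_zero]

private lemma mo_vx_q {x : V} (hx : x ≠ v0) {x' : Option V} (h : x' = some v0 ∨ x' = none) :
    vx K G x * mo_q K G v0 C x' = 0 := by
  unfold mo_q
  rw [Finset.mul_sum]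
  refine Finset.sum_eq_zero fun e _ => ?_
  by_cases hs : mo_s G v0 C e = x'
  · have h2 : G.s e = v0 := by
      rcases h with h | h
      · rw [h, mo_some] at hs
        exact hs.1
      · rw [h, mo_none] at hs
        exact hs.1
    rw [if_pos hs, ← s_ed (K := K) (G := G) e, mul_assoc, ← mul_assoc, vx_ne, zero_mul]
    rw [h2]
    exact hx
  · rw [if_neg hs, mul_zero]

private lemma mo_Q_star (x' : Option V) : star (mo_Q K G v0 C x') = mo_Q K G v0 C x' := by
  rcases x' with _ | x
  · exact mo_q_star G v0 C none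
  · show star (if x = v0 then _ else _) = if x = v0 then _ else _
    by_cases h : x = v0
    · rw [if_pos h, mo_q_star]
    · rw [if_neg h, star_vx]

private lemma mo_Q_some {x : V} (h : x ≠ v0) : mo_Q K G v0 C (some x) = vx K G x := if_neg h
private lemma mo_Q_v0 : mo_Q K G v0 C (some v0) = mo_q K G v0 C (some v0) := if_pos rfl
private lemma mo_Q_none : mo_Q K G v0 C none = mo_q K G v0 C none := rfl

private lemma mo_Q_vv (x' : Option V) : mo_Q K G v0 C x' * mo_Q K G v0 C x' = mo_Q K G v0 C x' := by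
  rcases x' with _ | x
  · rw [mo_Q_none, mo_q_q, if_pos rfl]
  · by_cases h : x = v0
    · rw [h, mo_Q_v0, mo_q_q, if_pos rfl]
    · rw [mo_Q_some G v0 C h, vx_vx]

private lemma mo_Q_vw {x' y' : Option V} (hxy : x' ≠ y') :
    mo_Q K G v0 C x' * mo_Q K G v0 C y' = 0 := by
  have key : ∀ {x : V} (hx : x ≠ v0) {x' : Option V} (h : x' = some v0 ∨ x' = none),
      mo_q K G v0 C x' * vx K G x = 0 := by
    intro x hx x' h
    have := congrArg star (mo_vx_q (K := K) G v0 C hx h)
    rwa [star_mul, star_vx, mo_q_star, star_zero] at this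
  rcases x' with _ | x
  · rcases y' with _ | y
    · exact absurd rfl hxy
    · by_cases h : y = v0
      · rw [h, mo_Q_none, mo_Q_v0, mo_q_q, if_neg (by simp)]
      · rw [mo_Q_none, mo_Q_some G v0 C h, key h (Or.inr rfl)]
  · by_cases h : x = v0
    · subst h
      rcases y' with _ | y
      · rw [mo_Q_none, mo_Q_v0, mo_q_q, if_neg (by simp)]
      · have hy : y ≠ x := fun e => hxy (by rw [e])
        rw [mo_Q_v0, mo_Q_some G x C hy, key hy (Or.inl rfl)]
    · rw [mo_Q_some G v0 C h]
      rcases y' with _ | y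
      · rw [mo_Q_none, mo_vx_q G v0 C h (Or.inr rfl)]
      · by_cases h' : y = v0
        · rw [h', mo_Q_v0, mo_vx_q G v0 C h (Or.inl rfl)]
        · rw [mo_Q_some G v0 C h', vx_ne]
          exact fun e => hxy (by rw [e])

private lemma mo_Q_ed (e : E) : mo_Q K G v0 C (mo_s G v0 C e) * ed K G e = ed K G e := by
  rcases mo_cases G v0 C e with ⟨h1, h2⟩ | h1
  · rw [h1, mo_Q_none, mo_q_ed, if_pos h1]
  · by_cases h : G.s e = v0
    · rw [h1, h, mo_Q_v0, mo_q_ed, if_pos]
      rw [h1, h]
    · rw [h1, mo_Q_some G v0 C h, s_ed]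

private lemma mo_vx_eq (h1 : ∃ e, G.s e = v0 ∧ ¬ C e) (x : V) :
    vx K G x = mo_Q K G v0 C (some x) + if x = v0 then mo_Q K G v0 C none else 0 := by
  by_cases h : x = v0
  · subst h
    obtain ⟨e1, he1, -⟩ := h1
    rw [if_pos rfl, mo_Q_v0, mo_Q_none, ck_if (K := K) (G := G) x ⟨e1, he1⟩, mo_q, mo_q,
      ← Finset.sum_add_distrib]
    refine Finset.sum_congr rfl fun e _ => ?_
    by_cases hs : G.s e = x
    · rw [if_pos hs]
      by_cases hC : C e
      · rw [if_neg, if_pos, zero_add]
        · exact (mo_none _ _ _ _).2 ⟨hs, hC⟩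
        · rw [mo_some]
          exact fun h => h.2 ⟨rfl, hC⟩
      · rw [if_pos, if_neg, add_zero]
        · rw [mo_none]
          exact fun h => hC h.2
        · exact (mo_some _ _ _ _ _).2 ⟨hs, fun h => hC h.2⟩
    · rw [if_neg hs, if_neg, if_neg, add_zero]
      · rw [mo_none]
        exact fun h => hs h.1
      · rw [mo_some]
        exact fun h => hs h.1
  · rw [if_neg h, add_zero, mo_Q_some G v0 C h]

private lemma mo_vx_Q (h1 : ∃ e, G.s e = v0 ∧ ¬ C e) (x : V) :
    vx K G x * mo_Q K G v0 C (some x) = mo_Q K G v0 C (some x) := by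
  rw [mo_vx_eq G v0 C h1 x, add_mul, mo_Q_vv]
  by_cases h : x = v0
  · rw [if_pos h, mo_Q_vw G v0 C (by simp), add_zero]
  · rw [if_neg h, zero_mul, add_zero]

private lemma mo_vx_Qn (h1 : ∃ e, G.s e = v0 ∧ ¬ C e) :
    vx K G v0 * mo_Q K G v0 C none = mo_Q K G v0 C none := by
  rw [mo_vx_eq G v0 C h1 v0, if_pos rfl, add_mul, mo_Q_vv, mo_Q_vw G v0 C (by simp), zero_add]

private noncomputable def mo_b (K : Type u) [Field K] (G : Gr V E) (v0 : V) (C : E → Prop) :
    E ⊕ {e : E // G.r e = v0} → LPA K G :=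
  Sum.elim (fun e => ed K G e * mo_Q K G v0 C (some (G.r e)))
    (fun i => ed K G i.1 * mo_Q K G v0 C none)

/-- uniform description of the edges -/
private lemma mo_b_eq (h1 : ∃ e, G.s e = v0 ∧ ¬ C e) (e' : E ⊕ {e : E // G.r e = v0}) :
    ∃ e, e = Sum.elim id Subtype.val e' ∧ (outG G v0 C).s e' = mo_s G v0 C e ∧
      mo_b K G v0 C e' = ed K G e * mo_Q K G v0 C ((outG G v0 C).r e') ∧
      vx K G (G.r e) * mo_Q K G v0 C ((outG G v0 C).r e') = mo_Q K G v0 C ((outG G v0 C).r e') := by
  rcases e' with e | i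
  · exact ⟨e, rfl, rfl, rfl, mo_vx_Q G v0 C h1 _⟩
  · refine ⟨i.1, rfl, rfl, rfl, ?_⟩
    rw [i.2]
    exact mo_vx_Qn G v0 C h1

private noncomputable def mo_F' (h1 : ∃ e, G.s e = v0 ∧ ¬ C e) (h2 : ∃ e, G.s e = v0 ∧ C e) :
    Fam K (outG G v0 C) (LPA K G) :=
  sFam (mo_Q K G v0 C) (mo_b K G v0 C) (mo_Q_star G v0 C) (mo_Q_vv G v0 C)
    (fun x y h => mo_Q_vw G v0 C h)
    (fun e' => by
      obtain ⟨e, -, he, hb, -⟩ := mo_b_eq (K := K) G v0 C h1 e'
      rw [he, hb, ← mul_assoc, mo_Q_ed])
    (fun e' => by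
      obtain ⟨e, -, he, hb, -⟩ := mo_b_eq (K := K) G v0 C h1 e'
      rw [hb, mul_assoc, mo_Q_vv])
    (fun e' => by
      obtain ⟨e, -, he, hb, hv⟩ := mo_b_eq (K := K) G v0 C h1 e'
      rw [hb, star_mul, star_ed, mo_Q_star, mul_assoc, ← mul_assoc (gh K G e), gh_ed, hv, mo_Q_vv])
    (fun e' f' hef => by
      obtain ⟨e, hee, he, hb, hv⟩ := mo_b_eq (K := K) G v0 C h1 e'
      obtain ⟨f, hff, hf, hb', hv'⟩ := mo_b_eq (K := K) G v0 C h1 f'
      rw [hb, hb', star_mul, star_ed, mo_Q_star, mul_assoc, ← mul_assoc (gh K G e)]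
      by_cases h : e = f
      · subst h
        rw [gh_ed, hv', mo_Q_vw]
        intro hr
        apply hef
        rcases e' with e' | i <;> rcases f' with f' | i'
        · congr 1
          exact (hee.symm.trans hff)
        · exact absurd hr (by intro h; cases h)
        · exact absurd hr (by intro h; cases h)
        · congr 1
          exact Subtype.ext (hee.symm.trans hff)
      · rw [gh_ed_ne h, zero_mul, mul_zero])
    (if_ck fun x' hx' => by
      have hq : mo_Q K G v0 C x' = ∑ e, if mo_s G v0 C e = x' then ed K G e * gh K G e else 0 := by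
        rcases x' with _ | x
        · rfl
        · by_cases h : x = v0
          · rw [h, mo_Q_v0, mo_q]
          · have hx : ∃ e, G.s e = x := by
              obtain ⟨e', he'⟩ := hx'
              obtain ⟨e, -, he, -, -⟩ := mo_b_eq (K := K) G v0 C h1 e'
              rw [he, mo_some_ne G v0 C e h] at he'
              exact ⟨e, he'⟩
            rw [mo_Q_some G v0 C h, ck_if (K := K) (G := G) x hx]
            refine Finset.sum_congr rfl fun e _ => ?_
            simp only [mo_some_ne G v0 C e h]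
      rw [hq, Fintype.sum_sum_type]
      have h3 : ∀ e, (if mo_s G v0 C e = x' then ed K G e * gh K G e else 0) =
          (if mo_s G v0 C e = x' then (ed K G e * mo_Q K G v0 C (some (G.r e))) *
            star (ed K G e * mo_Q K G v0 C (some (G.r e))) else 0) +
          if h : G.r e = v0 then (if mo_s G v0 C e = x' then (ed K G e * mo_Q K G v0 C none) *
            star (ed K G e * mo_Q K G v0 C none) else 0) else 0 := by
        intro e
        by_cases hs : mo_s G v0 C e = x'
        · simp only [if_pos hs]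
          rw [star_mul, star_mul, mo_Q_star, mo_Q_star, star_ed, mul_assoc, ← mul_assoc (mo_Q _ _ _ _ _),
            mo_Q_vv, mul_assoc (ed K G e), ← mul_assoc (mo_Q K G v0 C none), mo_Q_vv]
          conv_lhs => rw [← ed_r (K := K) (G := G) e, mul_assoc, mo_vx_eq G v0 C h1 (G.r e)]
          by_cases h : G.r e = v0
          · rw [if_pos h, dif_pos h, add_mul, mul_add]
          · rw [if_neg h, dif_neg h, add_zero, add_zero]
        · simp only [if_neg hs]
          simp
      rw [Finset.sum_congr rfl fun e _ => h3 e, Finset.sum_add_distrib]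
      congr 1
      rw [sum_dif_sub (fun e => G.r e = v0) fun i => if mo_s G v0 C i.1 = x' then
        (ed K G i.1 * mo_Q K G v0 C none) * star (ed K G i.1 * mo_Q K G v0 C none) else 0]
      rfl)
    (fun T hT => by
      have hT' : T = Finset.univ := Finset.eq_univ_iff_forall.2 hT
      subst hT'
      rw [one_sum (K := K) (G := G) Finset.univ (fun x => Finset.mem_univ x),
        Fintype.sum_option, Finset.sum_congr rfl fun x _ => mo_vx_eq G v0 C h1 x,
        Finset.sum_add_distrib, add_comm]
      congr 1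
      simp)

end

theorem SI.moveO {K : Type u} [Field K] [StarRing K] {V : Type v} {E : Type w} [Finite V]
    [Finite E] (G : Gr V E) (v0 : V) (C : E → Prop) (h1 : ∃ e, G.s e = v0 ∧ ¬ C e)
    (h2 : ∃ e, G.s e = v0 ∧ C e) :
    SI K (LPA K G) (LPA K (outG G v0 C)) := by
  classical
  have := Fintype.ofFinite E
  have := Fintype.ofFinite V
  have key : ∀ x' : Option V, x' = some v0 ∨ x' = none →
      (mo_F (K := K) G v0 C h1 h2).lift (mo_q K G v0 C x') = vx K (outG G v0 C) x' := by
    intro x' hx'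
    have hex : ∃ e, mo_s G v0 C e = x' := by
      rcases hx' with rfl | rfl
      · obtain ⟨e, he, he'⟩ := h1
        exact ⟨e, (mo_some _ _ _ _ _).2 ⟨he, fun h => he' h.2⟩⟩
      · obtain ⟨e, he⟩ := h2
        exact ⟨e, (mo_none _ _ _ _).2 he⟩
    rw [mo_D G v0 C x' hex, mo_q, map_sum]
    refine Finset.sum_congr rfl fun e _ => ?_
    by_cases hs : mo_s G v0 C e = x'
    · rw [if_pos hs, if_pos hs, map_mul, Fam.lift_ed, Fam.lift_gh]
      rfl
    · rw [if_neg hs, if_neg hs, map_zero]
  have key2 : ∀ x' : Option V,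
      (mo_F (K := K) G v0 C h1 h2).lift (mo_Q K G v0 C x') = vx K (outG G v0 C) x' := by
    intro x'
    rcases x' with _ | x
    · exact key none (Or.inr rfl)
    · by_cases h : x = v0
      · rw [h, mo_Q_v0]
        exact key _ (Or.inl rfl)
      · rw [mo_Q_some G v0 C h, Fam.lift_vx]
        show mo_P K G v0 C x = _
        unfold mo_P
        rw [if_neg h, add_zero]
  refine SI.ofFam (mo_F G v0 C h1 h2) (mo_F' G v0 C h1 h2) (mo_P_star G v0 C) (fun e => rfl)
    (mo_Q_star G v0 C) (fun e => rfl) (fun x => ?_) (fun e => ?_) key2 (fun e' => ?_)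
  · show (mo_F' G v0 C h1 h2).lift (mo_P K G v0 C x) = _
    rw [mo_vx_eq G v0 C h1 x]
    unfold mo_P
    rw [map_add, Fam.lift_vx]
    congr 1
    by_cases h : x = v0
    · rw [if_pos h, if_pos h, Fam.lift_vx]
      rfl
    · rw [if_neg h, if_neg h, map_zero]
  · show (mo_F' G v0 C h1 h2).lift (mo_a K G v0 C e) = _
    conv_rhs => rw [← ed_r (K := K) (G := G) e, mo_vx_eq G v0 C h1 (G.r e), mul_add]
    unfold mo_a
    rw [map_add, Fam.lift_ed]
    congr 1
    by_cases h : G.r e = v0
    · rw [dif_pos h, if_pos h, Fam.lift_ed]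
      rfl
    · rw [dif_neg h, if_neg h, map_zero, mul_zero]
  · rcases e' with e | i
    · show (mo_F G v0 C h1 h2).lift (ed K G e * mo_Q K G v0 C (some (G.r e))) = _
      rw [map_mul, Fam.lift_ed, key2]
      show mo_a K G v0 C e * _ = _
      unfold mo_a
      by_cases h : G.r e = v0
      · rw [dif_pos h, add_mul, mo_inl_r, mo_inr_some, add_zero]
      · rw [dif_neg h, add_zero, mo_inl_r]
    · show (mo_F G v0 C h1 h2).lift (ed K G i.1 * mo_Q K G v0 C none) = _
      rw [map_mul, Fam.lift_ed, key2]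
      show mo_a K G v0 C i.1 * _ = _
      unfold mo_a
      rw [dif_pos i.2, add_mul, mo_inl_none, zero_add]
      exact mo_inr_r G v0 C i

end Pool.Agent.Work.MP_2b4d3b_al
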