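import Pool.Agent.Work.MP_2b4d3b_al.Perm
import Pool.Agent.Work.MP_2b4d3b_al.MoveO

/-!
MODULE MatO. Matrix form of the outsplitting of j with row j = a1 + a2.
Apply SI.moveO to mGr A with C e := (the number of e is at least a1 (r e)), i.e. the edge
⟨j, y, t⟩ has C iff a1 y ≤ t; then SI.toMat.
-/

set_option linter.unusedVariables false
set_option linter.style.longLine false

namespace Pool.Agent.Work.MP_2b4d3b_al

open Matrix

universe u v w u' v' w'

/-- row j split as a1 + a2, the new vertex none emits a2 -/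
def outM {V : Type} [DecidableEq V] (A : V → V → ℕ) (j : V) (a1 a2 : V → ℕ) :
    Option V → Option V → ℕ
  | some x, some y => if x = j then a1 y else A x y
  | some x, none => if x = j then a1 j else A x j
  | none, some y => a2 y
  | none, none => a2 j

/-- the edges that go to the new vertex -/
def matOC {V : Type} (A : V → V → ℕ) (a1 : V → ℕ) (e : Σ x y : V, Fin (A x y)) : Prop :=
  a1 e.2.1 ≤ e.2.2.1

def matOCnt {V : Type} [DecidableEq V] (A : V → V → ℕ) (j : V) (a1 a2 : V → ℕ) :
    Option V → V → ℕ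
  | some x, y => if x = j then a1 y else A x y
  | none, y => a2 y

theorem matO_pos {V : Type} (A : V → V → ℕ) (j : V) (a1 : V → ℕ) (e : Σ x y : V, Fin (A x y))
    (h : (mGr A).s e = j ∧ matOC A a1 e) :
    (outG (mGr A) j (matOC A a1)).s (Sum.inl e) = none := if_pos h

theorem matO_neg {V : Type} (A : V → V → ℕ) (j : V) (a1 : V → ℕ) (e : Σ x y : V, Fin (A x y))
    (h : ¬ ((mGr A).s e = j ∧ matOC A a1 e)) :
    (outG (mGr A) j (matOC A a1)).s (Sum.inl e) = some ((mGr A).s e) := if_neg h

theorem matO_cnt {V : Type} [DecidableEq V] (A : V → V → ℕ) (j : V) (a1 a2 : V → ℕ)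
    (hA : ∀ y, A j y = a1 y + a2 y) (P : Option V) (y : V) :
    Nonempty ({e : (Σ x y : V, Fin (A x y)) //
      (outG (mGr A) j (matOC A a1)).s (Sum.inl e) = P ∧
      (mGr A).r e = y} ≃ Fin (matOCnt A j a1 a2 P y)) := by
  rcases P with _ | x
  · -- the new vertex
    refine ⟨{ toFun := fun e => ?_, invFun := fun t => ?_, left_inv := ?_, right_inv := ?_ }⟩
    · refine ⟨e.1.2.2.1 - a1 y, ?_⟩
      obtain ⟨⟨x', y', t⟩, h1, h2⟩ := e
      have h3 : y' = y := h2
      subst h3
      by_cases h : (mGr A).s ⟨x', y', t⟩ = j ∧ matOC A a1 ⟨x', y', t⟩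
      · have h4 : x' = j := h.1
        subst h4
        have h5 : a1 y' ≤ t.1 := h.2
        have h6 := t.2
        have h7 := hA y'
        change t.1 - a1 y' < a2 y'
        omega
      · rw [matO_neg A j a1 _ h] at h1
        exact absurd h1 (by simp)
    · refine ⟨⟨j, y, ⟨a1 y + t.1, ?_⟩⟩, ?_, rfl⟩
      · have h6 : t.1 < a2 y := t.2
        have h7 := hA y
        omega
      · exact matO_pos A j a1 _ ⟨rfl, Nat.le_add_right _ _⟩
    · rintro ⟨⟨x', y', t⟩, h1, h2⟩
      have h3 : y' = y := h2
      subst h3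
      by_cases h : (mGr A).s ⟨x', y', t⟩ = j ∧ matOC A a1 ⟨x', y', t⟩
      · have h4 : x' = j := h.1
        subst h4
        have h5 : a1 y' ≤ t.1 := h.2
        apply Subtype.ext
        have : (⟨a1 y' + (t.1 - a1 y'), by have := t.2; omega⟩ : Fin (A x' y')) = t :=
          Fin.ext (by simp; omega)
        simp only
        congr 2
      · rw [matO_neg A j a1 _ h] at h1
        exact absurd h1 (by simp)
    · intro t
      apply Fin.ext
      simp
  · by_cases hx : x = j
    · subst hx
      refine ⟨{ toFun := fun e => ?_, invFun := fun t => ?_, left_inv := ?_, right_inv := ?_ }⟩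
      · refine ⟨e.1.2.2.1, ?_⟩
        obtain ⟨⟨x', y', t⟩, h1, h2⟩ := e
        have h3 : y' = y := h2
        subst h3
        by_cases h : (mGr A).s ⟨x', y', t⟩ = x ∧ matOC A a1 ⟨x', y', t⟩
        · rw [matO_pos A x a1 _ h] at h1
          exact absurd h1 (by simp)
        · rw [matO_neg A x a1 _ h] at h1
          have h4 : x' = x := Option.some.inj h1
          subst h4
          have h5 : ¬ (a1 y' ≤ t.1) := fun hh => h ⟨rfl, hh⟩
          change t.1 < if x' = x' then a1 y' else A x' y'
          rw [if_pos rfl]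
          omega
      · have h6 : t.1 < a1 y := by
          have := t.2
          simpa [matOCnt] using this
        refine ⟨⟨x, y, ⟨t.1, ?_⟩⟩, ?_, rfl⟩
        · have h7 := hA y
          omega
        · exact matO_neg A x a1 _ (by
            rintro ⟨_, hh⟩
            have : a1 y ≤ t.1 := hh
            omega)
      · rintro ⟨⟨x', y', t⟩, h1, h2⟩
        have h3 : y' = y := h2
        subst h3
        by_cases h : (mGr A).s ⟨x', y', t⟩ = x ∧ matOC A a1 ⟨x', y', t⟩
        · rw [matO_pos A x a1 _ h] at h1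
          exact absurd h1 (by simp)
        · rw [matO_neg A x a1 _ h] at h1
          have h4 : x' = x := Option.some.inj h1
          subst h4
          rfl
      · intro t
        rfl
    · have hc : matOCnt A j a1 a2 (some x) y = A x y := by simp [matOCnt, hx]
      rw [hc]
      refine ⟨{ toFun := fun e => ?_, invFun := fun t => ?_, left_inv := ?_, right_inv := ?_ }⟩
      · refine ⟨e.1.2.2.1, ?_⟩
        obtain ⟨⟨x', y', t⟩, h1, h2⟩ := e
        have h3 : y' = y := h2
        subst h3
        by_cases h : (mGr A).s ⟨x', y', t⟩ = j ∧ matOC A a1 ⟨x', y', t⟩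
        · rw [matO_pos A j a1 _ h] at h1
          exact absurd h1 (by simp)
        · rw [matO_neg A j a1 _ h] at h1
          have h4 : x' = x := Option.some.inj h1
          subst h4
          exact t.2
      · refine ⟨⟨x, y, t⟩, ?_, rfl⟩
        exact matO_neg A j a1 _ (fun hh => hx hh.1)
      · rintro ⟨⟨x', y', t⟩, h1, h2⟩
        have h3 : y' = y := h2
        subst h3
        by_cases h : (mGr A).s ⟨x', y', t⟩ = j ∧ matOC A a1 ⟨x', y', t⟩
        · rw [matO_pos A j a1 _ h] at h1
          exact absurd h1 (by simp)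
        · rw [matO_neg A j a1 _ h] at h1
          have h4 : x' = x := Option.some.inj h1
          subst h4
          rfl
      · intro t
        rfl

theorem SI.matO {K : Type u} [Field K] [StarRing K] {V : Type} [Fintype V] [DecidableEq V]
    (A : V → V → ℕ) (j : V) (a1 a2 : V → ℕ) (hA : ∀ y, A j y = a1 y + a2 y)
    (h1 : ∃ y, a1 y ≠ 0) (h2 : ∃ y, a2 y ≠ 0) :
    SI K (LM K A) (LM K (outM A j a1 a2)) := by
  classical
  refine (SI.moveO (mGr A) j (matOC A a1) ?_ ?_).trans ?_
  · obtain ⟨y, hy⟩ := h1
    refine ⟨⟨j, y, ⟨0, ?_⟩⟩, rfl, ?_⟩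
    · have := hA y; omega
    · intro hh
      have : a1 y ≤ 0 := hh
      omega
  · obtain ⟨y, hy⟩ := h2
    refine ⟨⟨j, y, ⟨a1 y, ?_⟩⟩, rfl, le_refl _⟩
    have := hA y; omega
  · refine SI.toMat _ _ fun P Q => ?_
    obtain ⟨e1⟩ := (⟨Equiv.subtypeSum⟩ : Nonempty ({e : (Σ x y : V, Fin (A x y)) ⊕
        {e : (Σ x y : V, Fin (A x y)) // (mGr A).r e = j} //
        (outG (mGr A) j (matOC A a1)).s e = P ∧ (outG (mGr A) j (matOC A a1)).r e = Q} ≃ _))
    rcases Q with _ | y
    · -- range none: only inr
      obtain ⟨e2⟩ := matO_cnt A j a1 a2 hA P j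
      have hc : matOCnt A j a1 a2 P j = outM A j a1 a2 P none := by
        rcases P with _ | x <;> rfl
      have em : IsEmpty {a : (Σ x y : V, Fin (A x y)) //
          (outG (mGr A) j (matOC A a1)).s (Sum.inl a) = P ∧
          (outG (mGr A) j (matOC A a1)).r (Sum.inl a) = none} :=
        ⟨fun a => by
          have h3 : (some ((mGr A).r a.1) : Option V) = none := a.2.2
          exact absurd h3 (by simp)⟩
      refine ⟨e1.trans ((Equiv.emptySum _ _).trans (Equiv.trans ?_ (e2.trans (finCongr hc))))⟩
      exact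
        { toFun := fun a => ⟨a.1.1, a.2.1, a.1.2⟩
          invFun := fun a => ⟨⟨a.1, a.2.2⟩, a.2.1, rfl⟩
          left_inv := fun a => rfl
          right_inv := fun a => rfl }
    · obtain ⟨e2⟩ := matO_cnt A j a1 a2 hA P y
      have hc : matOCnt A j a1 a2 P y = outM A j a1 a2 P (some y) := by
        rcases P with _ | x <;> rfl
      have em : IsEmpty {a : {e : (Σ x y : V, Fin (A x y)) // (mGr A).r e = j} //
          (outG (mGr A) j (matOC A a1)).s (Sum.inr a) = P ∧
          (outG (mGr A) j (matOC A a1)).r (Sum.inr a) = some y} :=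
        ⟨fun a => by
          have h3 : (none : Option V) = some y := a.2.2
          exact absurd h3 (by simp)⟩
      refine ⟨e1.trans ((Equiv.sumEmpty _ _).trans (Equiv.trans ?_ (e2.trans (finCongr hc))))⟩
      exact
        { toFun := fun a => ⟨a.1, a.2.1, Option.some.inj a.2.2⟩
          invFun := fun a => ⟨a.1, a.2.1, congrArg some a.2.2⟩
          left_inv := fun a => rfl
          right_inv := fun a => rfl }

end Pool.Agent.Work.MP_2b4d3b_al
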