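import Pool.Agent.Work.MP_2b4d3b_al.MatX
import Pool.Agent.Work.MP_2b4d3b_al.MatO

/-!
MODULE MacA.
absorb: k has no loop and is not a sink; expand all edges into k (repeat SI.matX (x,k), M x k times,
  for every x ≠ k; each step lowers M x k by one and adds row k to row x; row k is unchanged).
merge: SI.matO for srcM A (b+c) at none with a1 = (none ↦ 0, some ↦ b), a2 = (none ↦ 0, some ↦ c):
  outM (srcM A (b+c)) none a1 a2 = srcM (srcM A b) (Option.elim · 0 c) by cases.
add_src: from merge (b = 0: then b + c = c ≠ 0).
-/

set_option linter.unusedVariables false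
set_option linter.style.longLine false

namespace Pool.Agent.Work.MP_2b4d3b_al

open Matrix

universe u v w u' v' w'

/-- t x of the edges from x to k are expanded -/
def macAT {W : Type} [DecidableEq W] (M : W → W → ℕ) (k : W) (t : W → ℕ) : W → W → ℕ :=
  fun x y => if x = k then M k y else if y = k then M x k - t x else M x y + t x * M k y

theorem macAT_step {W : Type} [DecidableEq W] (M : W → W → ℕ) (k : W) (h0 : M k k = 0)
    (t : W → ℕ) (x : W) (hx : x ≠ k) (ht : t x + 1 ≤ M x k) :
    rowX (macAT M k t) x k = macAT M k (fun y => if y = x then t x + 1 else t y) := by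
  funext a y
  unfold rowX macAT
  by_cases hax : a = x
  · subst hax
    by_cases hy : y = k
    · subst hy
      simp [hx, h0]
      omega
    · simp [hx, hy]
      ring
  · by_cases hak : a = k
    · subst hak
      simp [hax]
    · by_cases hy : y = k
      · subst hy
        simp [hax, hak]
      · simp [hax, hak, hy]

theorem macAT_all {K : Type u} [Field K] [StarRing K] {W : Type} [Fintype W] [DecidableEq W]
    (M : W → W → ℕ) (k : W) (h0 : M k k = 0) (h1 : ∃ y, M k y ≠ 0) (n : ℕ) :
    ∀ t : W → ℕ, (∀ x, t x ≤ M x k) → ∑ x, t x = n → SI K (LM K M) (LM K (macAT M k t)) := by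
  induction n with
  | zero =>
    intro t ht hs
    have h2 : ∀ x, t x = 0 := fun x => by
      rw [Finset.sum_eq_zero_iff] at hs
      exact hs x (Finset.mem_univ _)
    have h3 : macAT M k t = M := by
      funext x y
      unfold macAT
      by_cases hx : x = k
      · subst hx
        simp
      · by_cases hy : y = k
        · subst hy
          simp [hx, h2]
        · simp [hx, hy, h2]
    rw [h3]
    exact SI.refl _
  | succ n ih =>
    intro t ht hs
    have h2 : ∃ x, t x ≠ 0 := by
      by_contra hcon
      push Not at hcon
      rw [Finset.sum_eq_zero (fun x _ => hcon x)] at hs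
      omega
    obtain ⟨x, hx⟩ := h2
    have hxk : x ≠ k := by
      rintro rfl
      have := ht x
      omega
    let t' : W → ℕ := fun y => if y = x then t x - 1 else t y
    have ht' : ∀ y, t' y ≤ M y k := by
      intro y
      by_cases hy : y = x
      · subst hy
        have := ht y
        simp only [t', if_true]
        omega
      · simp only [t', if_neg hy]
        exact ht y
    have hs' : ∑ y, t' y = n := by
      have h3 : ∑ y, t y = ∑ y, (t' y + if y = x then 1 else 0) := by
        refine Finset.sum_congr rfl fun y _ => ?_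
        by_cases hy : y = x
        · subst hy
          simp only [t', if_true]
          omega
        · simp only [t', if_neg hy]
          rfl
      rw [Finset.sum_add_distrib, Finset.sum_ite_eq' Finset.univ x] at h3
      simp only [Finset.mem_univ, if_true] at h3
      omega
    have h4 := ih t' ht' hs'
    have h5 : t' x + 1 = t x := by
      simp only [t', if_true]
      omega
    have h6 : (fun y => if y = x then t' x + 1 else t' y) = t := by
      funext y
      by_cases hy : y = x
      · subst hy
        rw [if_pos rfl, h5]
      · rw [if_neg hy]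
        simp only [t', if_neg hy]
    have h7 := macAT_step M k h0 t' x hxk (by rw [h5]; exact ht x)
    rw [h6] at h7
    refine h4.trans ?_
    rw [← h7]
    refine SI.matX _ x k hxk ?_ ?_
    · unfold macAT
      rw [if_neg hxk, if_pos rfl]
      have := ht x
      omega
    · obtain ⟨y, hy⟩ := h1
      refine ⟨y, ?_⟩
      unfold macAT
      rw [if_pos rfl]
      exact hy

theorem SI.absorb {K : Type u} [Field K] [StarRing K] {W : Type} [Fintype W] [DecidableEq W]
    (M : W → W → ℕ) (k : W) (h0 : M k k = 0) (h1 : ∃ y, M k y ≠ 0) :
    SI K (LM K M) (LM K (fun x y => if x = k then M k y else if y = k then 0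
      else M x y + M x k * M k y)) := by
  have h := macAT_all (K := K) M k h0 h1 _ (fun x => M x k) (fun x => le_refl _) rfl
  have h2 : macAT M k (fun x => M x k) = (fun x y => if x = k then M k y else if y = k then 0
      else M x y + M x k * M k y) := by
    funext x y
    unfold macAT
    simp
  rw [h2] at h
  exact h

theorem macA_merge {V : Type} [DecidableEq V] (A : V → V → ℕ) (b c : V → ℕ) :
    outM (srcM A (b + c)) none (fun y => Option.elim y 0 b) (fun y => Option.elim y 0 c) =
      srcM (srcM A b) (fun y => Option.elim y 0 c) := by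
  funext x y
  rcases x with _ | _ | x <;> rcases y with _ | _ | y <;> simp [outM, srcM]

theorem SI.merge {K : Type u} [Field K] [StarRing K] {V : Type} [Fintype V] [DecidableEq V]
    (A : V → V → ℕ) (b c : V → ℕ) (hb : b ≠ 0) (hc : c ≠ 0) :
    SI K (LM K (srcM (srcM A b) (fun y => Option.elim y 0 c))) (LM K (srcM A (b + c))) := by
  rw [← macA_merge]
  refine (SI.matO _ _ _ _ ?_ ?_ ?_).symm
  · rintro (_ | y)
    · rfl
    · rfl
  · obtain ⟨y, hy⟩ := Function.ne_iff.1 hb
    exact ⟨some y, hy⟩
  · obtain ⟨y, hy⟩ := Function.ne_iff.1 hc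
    exact ⟨some y, hy⟩

theorem Has.add_src {K : Type u} [Field K] [StarRing K] {X : Type u'} [Ring X] [Algebra K X]
    [Star X] {V : Type} [Fintype V] [DecidableEq V] {A : V → V → ℕ} {b c : V → ℕ} (hc : c ≠ 0)
    (h : (b = 0 ∧ SI K X (LM K (srcM A c))) ∨
      (b ≠ 0 ∧ SI K X (LM K (srcM (srcM A b) (fun y => Option.elim y 0 c))))) :
    Has K X A (b + c) := by
  rcases h with ⟨h1, h2⟩ | ⟨h1, h2⟩
  · refine Or.inr ?_
    subst h1
    rw [zero_add]
    exact ⟨hc, h2⟩
  · refine Or.inr ⟨?_, h2.trans (SI.merge A b c h1 hc)⟩
    intro h3
    obtain ⟨y, hy⟩ := Function.ne_iff.1 hc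
    have h4 : b y + c y = 0 := congrFun h3 y
    exact hy (by simp only [Pi.zero_apply]; omega)

end Pool.Agent.Work.MP_2b4d3b_al
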