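import Pool.Agent.Work.MP_2b4d3b_al.MacA
import Pool.Agent.Work.MP_2b4d3b_al.MacB

/-!
MODULE MacE. Elimination of a vertex k without loop which is not a sink: SI.absorb at k (at some k if
b ≠ 0); now k is a source with row A k; identify V with Option {v // v ≠ k} (resp. Option V with
Option (Option {v // v ≠ k}), k going to the outer none, the old source to some none) by SI.perm,
then Has.add_src with c = A k restricted.
-/

set_option linter.unusedVariables false
set_option linter.style.longLine false

namespace Pool.Agent.Work.MP_2b4d3b_al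

open Matrix

universe u v w u' v' w'

/-- the eliminated matrix -/
def macEM {V : Type} (A : V → V → ℕ) (k : V) : {v : V // v ≠ k} → {v : V // v ≠ k} → ℕ :=
  fun x y => A x y + A x k * A k y

/-- the vertex k goes to none -/
def macEq {V : Type} [DecidableEq V] (k : V) : Option {v : V // v ≠ k} ≃ V where
  toFun w := Option.elim w k Subtype.val
  invFun v := if h : v = k then none else some ⟨v, h⟩
  left_inv w := by
    rcases w with _ | ⟨v, hv⟩
    · simp
    · simp [hv]
  right_inv v := by
    by_cases h : v = k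
    · simp [h]
    · simp [h]

/-- the old source goes to some none -/
def macEq2 {V : Type} [DecidableEq V] (k : V) : Option (Option {v : V // v ≠ k}) ≃ Option V where
  toFun w := Option.elim w (some k) (fun w => Option.elim w none (fun v => some v.1))
  invFun v := Option.elim v (some none) (fun v => if h : v = k then none else some (some ⟨v, h⟩))
  left_inv w := by
    rcases w with _ | _ | ⟨v, hv⟩
    · simp
    · simp
    · simp [hv]
  right_inv v := by
    rcases v with _ | v
    · simp
    · by_cases h : v = k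
      · simp [h]
      · simp [h]

theorem macE_core {K : Type u} [Field K] [StarRing K] {V : Type} [Fintype V] [DecidableEq V]
    (A : V → V → ℕ) (k : V) (h0 : A k k = 0) (h1 : ∃ y, A k y ≠ 0) :
    SI K (LM K A) (LM K (srcM (macEM A k) (fun y => A k y))) := by
  refine (SI.absorb A k h0 h1).trans (SI.perm (macEq k) ?_).symm
  rintro (_ | ⟨x, hx⟩) (_ | ⟨y, hy⟩)
  · simp [macEq, srcM, h0]
  · simp [macEq, srcM]
  · simp [macEq, srcM, hx]
  · simp [macEq, srcM, macEM, hx, hy]

theorem macE_core2 {K : Type u} [Field K] [StarRing K] {V : Type} [Fintype V] [DecidableEq V]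
    (A : V → V → ℕ) (b : V → ℕ) (k : V) (h0 : A k k = 0) (h1 : ∃ y, A k y ≠ 0) :
    SI K (LM K (srcM A b)) (LM K (srcM (srcM (macEM A k)
      (fun y : {v : V // v ≠ k} => b y + b k * A k y))
      (fun y => Option.elim y 0 (fun y : {v : V // v ≠ k} => A k y)))) := by
  obtain ⟨z, hz⟩ := h1
  refine (SI.absorb (srcM A b) (some k) h0 ⟨some z, hz⟩).trans (SI.perm (macEq2 k) ?_).symm
  rintro (_ | _ | ⟨x, hx⟩) (_ | _ | ⟨y, hy⟩)
  · simp [macEq2, srcM, h0]
  · simp [macEq2, srcM]
  · simp [macEq2, srcM]
  · simp [macEq2, srcM]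
  · simp [macEq2, srcM]
  · simp [macEq2, srcM, hy]
  · simp [macEq2, srcM, hx]
  · simp [macEq2, srcM, hx]
  · simp [macEq2, srcM, macEM, hx, hy]

theorem Has.elim {K : Type u} [Field K] [StarRing K] {X : Type u'} [Ring X] [Algebra K X] [Star X]
    {V : Type} [Fintype V] [DecidableEq V] {A : V → V → ℕ} {b : V → ℕ} (k : V)
    (h0 : A k k = 0) (h1 : ∃ y, A k y ≠ 0) (h : Has K X A b) :
    Has K X (fun x y : {v : V // v ≠ k} => A x y + A x k * A k y)
      (fun y : {v : V // v ≠ k} => b y + (1 + b k) * A k y) := by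
  have hc : (fun y : {v : V // v ≠ k} => A k y) ≠ 0 := by
    obtain ⟨z, hz⟩ := h1
    have hzk : z ≠ k := by
      rintro rfl
      exact hz h0
    intro h2
    exact hz (congrFun h2 ⟨z, hzk⟩)
  have e0 : (fun y : {v : V // v ≠ k} => b y + (1 + b k) * A k y) =
      (fun y : {v : V // v ≠ k} => b y + b k * A k y) + (fun y : {v : V // v ≠ k} => A k y) := by
    funext y
    simp only [Pi.add_apply]
    ring
  rw [e0]
  refine Has.add_src hc ?_
  rcases h with ⟨h3, h4⟩ | ⟨h3, h4⟩
  · refine Or.inl ⟨?_, h4.trans (macE_core A k h0 h1)⟩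
    rw [h3]
    funext y
    simp
  · refine Or.inr ⟨?_, h4.trans (macE_core2 A b k h0 h1)⟩
    by_cases hbk : b k = 0
    · obtain ⟨y, hy⟩ := Function.ne_iff.1 h3
      have hy' : b y ≠ 0 := hy
      have hyk : y ≠ k := by
        rintro rfl
        exact hy' hbk
      intro h5
      have h6 : b y + b k * A k y = 0 := congrFun h5 ⟨y, hyk⟩
      omega
    · obtain ⟨z, hz⟩ := h1
      have hzk : z ≠ k := by
        rintro rfl
        exact hz h0
      intro h5
      have h6 : b z + b k * A k z = 0 := congrFun h5 ⟨z, hzk⟩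
      have h7 : 0 < b k * A k z := Nat.mul_pos (Nat.pos_of_ne_zero hbk) (Nat.pos_of_ne_zero hz)
      omega

end Pool.Agent.Work.MP_2b4d3b_al
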