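import Pool.Agent.Work.MP_2b4d3b_al.MonChar

/-!
MODULE MonIso. From mutually inverse monoid maps to a bijection and unipotent matrices.
We write x ≥ y for Rch A x y (an order, by Reduced), ↓x = {y | x ≥ y} = Hs (single x 1).
The map n ↦ n S = (fun k => ∑ x, n x * S x k) sends Meq A to Meq A' by h1, Meq.add (and sends
Hs-inclusions to Hs-inclusions); same for S'.
1. By h2, ↓x = union of Hs A (S' k), k in supp (S x). Choose k = σ x in supp (S x) with x in
Hs A (S' k); then Hs A (S' k) = ↓x. By h2' ↓k = union of Hs A' (S l), l in supp (S' k); choose l with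
Hs A' (S l) = ↓k. l ≤ x since l in supp (S' k). supp (S l) contains k (k is the greatest element of
↓k = down-closure of supp (S l)), so Hs A (S' k) is contained in ↓l (h2 for l), so x ≤ l, so l = x.
Hence Hs A' (S x) = ↓(σ x), Hs A (S' (σ x)) = ↓x. So σ is injective, symmetric argument: bijective
with inverse σ', and it is an order isomorphism (x ≥ y gives by Meq.reach and the map that
Hs A' (S x) contains Hs A' (S y)).
2. The coordinate x is invariant under Meq on vectors n with Hs n = ↓x. So h2 gives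
1 = ∑ k, S x k * S' k x, hence S x (σ x) = 1. If S x k ≠ 0 then k in Hs A' (S x) = ↓(σ x).
3. h1 and Meq.char: for A x x = 1 there is P x : V' → ℤ supported on ↓(σ x) with
∑ z, off A x z * S z k = ∑ l, P x l * off A' l k. If x is minimal take P x = single (σ x) 1 (both
sides 0). If x is not minimal (then A x x = 1): take j covered by x (x > j, nothing between). Then
off A x j ≠ 0 and at k = σ j the left side is off A x j, the right side is
P x (σ x) * off A' (σ x) (σ j). By symmetry (S', h1') off A' (σ x) (σ j) is divisible by off A x j,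
so P x (σ x) = 1.
4. diagonals: not minimal: both 1. minimal: σ x minimal, S x = single (σ x) 1, use h4.
-/

set_option linter.unusedVariables false
set_option linter.style.longLine false
set_option linter.unusedSectionVars false

namespace Pool.Agent.Work.MP_2b4d3b_al

open Matrix

universe u v w u' v' w'

private theorem rch_rho {V : Type} {A : V → V → ℕ} (hA : Reduced A) : ∃ ρ : V → ℕ,
    ∀ x y, Rch A x y → x ≠ y → ρ y < ρ x := by
  obtain ⟨⟨ρ, hρ⟩, -, -⟩ := hA
  refine ⟨ρ, fun x y h => ?_⟩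
  induction h with
  | refl => exact fun h => absurd rfl h
  | @tail y z hxy hyz ih =>
    intro hxz
    by_cases h1 : y = z
    · subst h1
      exact ih hxz
    · have h2 := hρ y z h1 hyz
      by_cases h3 : x = y
      · subst h3
        exact h2
      · exact h2.trans (ih h3)

private theorem rch_anti {V : Type} {A : V → V → ℕ} (hA : Reduced A) {x y : V} (h : Rch A x y)
    (h' : Rch A y x) : x = y := by
  obtain ⟨ρ, hρ⟩ := rch_rho hA
  by_contra hne
  exact lt_irrefl _ ((hρ x y h hne).trans (hρ y x h' (Ne.symm hne)))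

private theorem rch_min {V : Type} {A : V → V → ℕ} {j : V} (hj : ∀ y, y ≠ j → A j y = 0) {y : V}
    (h : Rch A j y) : y = j := by
  induction h with
  | refl => rfl
  | @tail y z _ hyz ih =>
    subst ih
    by_contra hne
    exact hyz (hj z hne)

/-- the first nontrivial step of a path -/
private theorem rch_head {V : Type} {A : V → V → ℕ} {x j : V} (h : Rch A x j) (hne : x ≠ j) :
    ∃ z, z ≠ x ∧ A x z ≠ 0 ∧ Rch A z j := by
  induction h using Relation.ReflTransGen.head_induction_on with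
  | refl => exact absurd rfl hne
  | @head y z hyz hzj ih =>
    by_cases h : z = y
    · subst h
      exact ih hne
    · exact ⟨z, h, hyz, hzj⟩

section
variable {V V' : Type} [Fintype V] [DecidableEq V] [Fintype V'] [DecidableEq V']
  {A : V → V → ℕ} {A' : V' → V' → ℕ}

private theorem rch_one {x y : V} (h : off A x y ≠ 0) : x ≠ y ∧ Rch A x y := by
  unfold off at h
  split_ifs at h with h1
  · exact absurd rfl h
  · exact ⟨h1, Relation.ReflTransGen.single h⟩

private theorem loop1 (hA : Reduced A) {x y : V} (h : A x y ≠ 0) : A x x = 1 := by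
  have h1 := hA.2.1 x
  have h2 := hA.2.2 x
  by_contra hc
  exact h (h2 (by omega) y)

private theorem mem_Hs_single (x y : V) : y ∈ Hs A (Pi.single x 1) ↔ Rch A x y := by
  constructor
  · rintro ⟨z, hz, hzy⟩
    have : z = x := by
      by_contra hne
      exact hz (by simp [hne])
    rw [← this]
    exact hzy
  · intro h
    exact ⟨x, by simp, h⟩

private theorem Hs_closed {n : V → ℕ} {x y : V} (h : x ∈ Hs A n) (h' : Rch A x y) : y ∈ Hs A n := by
  obtain ⟨z, hz, hzx⟩ := h
  exact ⟨z, hz, hzx.trans h'⟩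

private theorem mem_Hs_comb (a : V' → ℕ) (T : V' → V → ℕ) (y : V) :
    y ∈ Hs A (fun y => ∑ k, a k * T k y) ↔ ∃ k, a k ≠ 0 ∧ y ∈ Hs A (T k) := by
  constructor
  · rintro ⟨z, hz, hzy⟩
    obtain ⟨k, -, hk⟩ := Finset.exists_ne_zero_of_sum_ne_zero hz
    exact ⟨k, left_ne_zero_of_mul hk, z, right_ne_zero_of_mul hk, hzy⟩
  · rintro ⟨k, hk, z, hz, hzy⟩
    refine ⟨z, ?_, hzy⟩
    intro h0
    have := (Finset.sum_eq_zero_iff.1 h0) k (Finset.mem_univ k)
    exact mul_ne_zero hk hz this

/-- the matrix map respects equality in the monoids -/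
private theorem meq_map (S : V → V' → ℕ)
    (h1 : ∀ x, A x x = 1 → Meq A' (S x) (S x + fun k => ∑ z, off A x z * S z k))
    {n m : V → ℕ} (h : Meq A n m) :
    Meq A' (fun k => ∑ x, n x * S x k) (fun k => ∑ x, m x * S x k) := by
  induction h with
  | rel n m h =>
    obtain ⟨x, hx, hl, rfl⟩ := h
    have h := Meq.add (fun k => ∑ z, (n z - if z = x then 1 else 0) * S z k) (h1 x hl)
    have key : ∀ k, ∑ z, n z * S z k =
        S x k + ∑ z, (n z - if z = x then 1 else 0) * S z k := by
      intro k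
      have : ∀ z, n z * S z k =
          (if z = x then S x k else 0) + (n z - if z = x then 1 else 0) * S z k := by
        intro z
        by_cases hz : z = x
        · subst hz
          simp only [if_true]
          obtain ⟨c, hc⟩ := Nat.exists_eq_add_of_le hx
          rw [hc, Nat.add_sub_cancel_left]
          ring
        · simp [hz]
      rw [Finset.sum_congr rfl fun z _ => this z, Finset.sum_add_distrib]
      simp
    have e1 : (fun k => ∑ z, n z * S z k) =
        S x + fun k => ∑ z, (n z - if z = x then 1 else 0) * S z k := by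
      funext k
      exact key k
    have e2 : (fun k => ∑ z, (n + off A x) z * S z k) =
        (S x + fun k => ∑ z, off A x z * S z k) +
          fun k => ∑ z, (n z - if z = x then 1 else 0) * S z k := by
      funext k
      simp only [Pi.add_apply, add_mul, Finset.sum_add_distrib]
      rw [key k]
      ring
    rw [e1, e2]
    exact h
  | refl n => exact Relation.EqvGen.refl _
  | symm n m h ih => exact Relation.EqvGen.symm _ _ ih
  | trans n m l h1 h2 ih1 ih2 => exact Relation.EqvGen.trans _ _ _ ih1 ih2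

/-- step 1 -/
private theorem exists_partner (hA : Reduced A) (hA' : Reduced A') (S : V → V' → ℕ)
    (S' : V' → V → ℕ)
    (h2 : ∀ x, Meq A (Pi.single x 1) (fun y => ∑ k, S x k * S' k y))
    (h2' : ∀ k, Meq A' (Pi.single k 1) (fun l => ∑ x, S' k x * S x l)) (x : V) :
    ∃ k, (∀ l, l ∈ Hs A' (S x) ↔ Rch A' k l) ∧ (∀ y, y ∈ Hs A (S' k) ↔ Rch A x y) := by
  have g2 : ∀ x y, Rch A x y ↔ ∃ k, S x k ≠ 0 ∧ y ∈ Hs A (S' k) := by
    intro x y
    rw [← mem_Hs_comb, ← ((Meq.char hA _ _).1 (h2 x)).1, mem_Hs_single]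
  have g2' : ∀ k l, Rch A' k l ↔ ∃ x, S' k x ≠ 0 ∧ l ∈ Hs A' (S x) := by
    intro x y
    rw [← mem_Hs_comb, ← ((Meq.char hA' _ _).1 (h2' x)).1, mem_Hs_single]
  obtain ⟨k, hk, hxk⟩ := (g2 x x).1 Relation.ReflTransGen.refl
  have e1 : ∀ y, y ∈ Hs A (S' k) ↔ Rch A x y := fun y =>
    ⟨fun h => (g2 x y).2 ⟨k, hk, h⟩, fun h => Hs_closed hxk h⟩
  obtain ⟨l, hl, hkl⟩ := (g2' k k).1 Relation.ReflTransGen.refl
  have e2 : ∀ y, y ∈ Hs A' (S l) ↔ Rch A' k y := fun y =>
    ⟨fun h => (g2' k y).2 ⟨l, hl, h⟩, fun h => Hs_closed hkl h⟩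
  have e3 : Rch A x l := (e1 l).1 ⟨l, hl, Relation.ReflTransGen.refl⟩
  have e4 : S l k ≠ 0 := by
    obtain ⟨k', hk', hk'k⟩ := hkl
    have : Rch A' k k' := (e2 k').1 ⟨k', hk', Relation.ReflTransGen.refl⟩
    have := rch_anti hA' this hk'k
    rw [this]
    exact hk'
  have e5 : Rch A l x := (g2 l x).2 ⟨k, e4, hxk⟩
  have e6 : x = l := rch_anti hA e3 e5
  subst e6
  exact ⟨k, e2, e1⟩

/-- step 1, order -/
private theorem order_map (hA : Reduced A) (hA' : Reduced A') (S : V → V' → ℕ)
    (h1 : ∀ x, A x x = 1 → Meq A' (S x) (S x + fun k => ∑ z, off A x z * S z k)) (σ : V → V')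
    (hσ : ∀ x l, l ∈ Hs A' (S x) ↔ Rch A' (σ x) l) {x y : V} (h : Rch A x y) :
    Rch A' (σ x) (σ y) := by
  by_cases hxy : x = y
  · subst hxy
    exact Relation.ReflTransGen.refl
  obtain ⟨r, hr⟩ := Meq.reach hA x y h hxy (Pi.single x 1) (by simp) 1
  have h3 := ((Meq.char hA' _ _).1 (meq_map S h1 hr)).1
  have h4 : (fun k => ∑ z, (Pi.single x 1 : V → ℕ) z * S z k) = S x := by
    funext k
    simp [Pi.single_apply]
  rw [h4] at h3
  rw [← hσ, h3, mem_Hs_comb]
  refine ⟨y, ?_, (hσ y (σ y)).2 Relation.ReflTransGen.refl⟩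
  rw [Pi.add_apply, Pi.single_eq_same]
  omega

/-- step 2: invariance of the top coordinate -/
private theorem top_eq (hA : Reduced A) {x : V} {n m : V → ℕ}
    (hn : ∀ y, y ∈ Hs A n → Rch A x y) (h : Meq A n m) : n x = m x := by
  obtain ⟨-, κ, h1, h2⟩ := (Meq.char hA _ _).1 h
  have h3 := h2 x
  have h4 : ∑ z, κ z * (off A z x : ℤ) = 0 := by
    apply Finset.sum_eq_zero
    intro z _
    by_contra hc
    have g1 : κ z ≠ 0 := left_ne_zero_of_mul hc
    have g2 : off A z x ≠ 0 := by
      have := right_ne_zero_of_mul hc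
      exact_mod_cast this
    obtain ⟨g3, g4⟩ := rch_one g2
    exact g3 (rch_anti hA g4 (hn z (h1 z g1)))
  rw [h4] at h3
  have h5 : (m x : ℤ) = n x := by linarith
  exact_mod_cast h5.symm

/-- step 3 -/
private theorem exists_kappa (hA' : Reduced A') (S : V → V' → ℕ)
    (h1 : ∀ x, A x x = 1 → Meq A' (S x) (S x + fun k => ∑ z, off A x z * S z k)) (σ : V ≃ V')
    (hiso : ∀ x y, Rch A x y ↔ Rch A' (σ x) (σ y)) (hA : Reduced A)
    (hσ : ∀ x l, l ∈ Hs A' (S x) ↔ Rch A' (σ x) l) (hS : ∀ x, S x (σ x) = 1) {x j : V}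
    (hxj : x ≠ j) (hr : Rch A x j)
    (hcov : ∀ z, z ≠ x → Rch A x z → Rch A z j → z = j) :
    ∃ κ : V' → ℤ, (∀ k, κ k ≠ 0 → Rch A' (σ x) k) ∧
      (∀ k, ∑ z, (off A x z : ℤ) * (S z k : ℤ) = ∑ l, κ l * (off A' l k : ℤ)) ∧
      (off A x j : ℤ) = κ (σ x) * (off A' (σ x) (σ j) : ℤ) ∧ off A x j ≠ 0 := by
  have hxj1 : A x j ≠ 0 := by
    obtain ⟨z, h1, h2, h3⟩ := rch_head hr hxj
    have := hcov z h1 (Relation.ReflTransGen.single h2) h3
    rw [← this]
    exact h2
  obtain ⟨-, κ, g1, g2⟩ := (Meq.char hA' _ _).1 (h1 x (loop1 hA hxj1))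
  have g3 : ∀ k, ∑ z, (off A x z : ℤ) * (S z k : ℤ) = ∑ l, κ l * (off A' l k : ℤ) := by
    intro k
    rw [← g2 k]
    simp only [Pi.add_apply]
    push_cast
    ring
  have g4 : ∀ k, κ k ≠ 0 → Rch A' (σ x) k := fun k hk => (hσ x k).1 (g1 k hk)
  refine ⟨κ, g4, g3, ?_, by simpa [off, hxj] using hxj1⟩
  have g5 := g3 (σ j)
  have e1 : ∑ z, (off A x z : ℤ) * (S z (σ j) : ℤ) = (off A x j : ℤ) := by
    rw [Finset.sum_eq_single j]
    · rw [hS j]
      simp
    · intro z _ hz
      by_contra hc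
      have c1 : off A x z ≠ 0 := by
        have := left_ne_zero_of_mul hc
        exact_mod_cast this
      have c2 : S z (σ j) ≠ 0 := by
        have := right_ne_zero_of_mul hc
        exact_mod_cast this
      obtain ⟨c3, c4⟩ := rch_one c1
      have c5 : Rch A z j := (hiso z j).2
        ((hσ z (σ j)).1 ⟨σ j, c2, Relation.ReflTransGen.refl⟩)
      exact hz (hcov z (Ne.symm c3) c4 c5)
    · intro h
      exact absurd (Finset.mem_univ j) h
  have e2 : ∑ l, κ l * (off A' l (σ j) : ℤ) = κ (σ x) * (off A' (σ x) (σ j) : ℤ) := by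
    rw [Finset.sum_eq_single (σ x)]
    · intro l _ hl
      by_contra hc
      have c1 : κ l ≠ 0 := left_ne_zero_of_mul hc
      have c2 : off A' l (σ j) ≠ 0 := by
        have := right_ne_zero_of_mul hc
        exact_mod_cast this
      obtain ⟨c3, c4⟩ := rch_one c2
      have c5 := g4 l c1
      obtain ⟨z, rfl⟩ := σ.surjective l
      have c6 : Rch A x z := (hiso x z).2 c5
      have c7 : Rch A z j := (hiso z j).2 c4
      have c8 := hcov z (fun h => hl (by rw [h])) c6 c7
      exact c3 (by rw [c8])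
    · intro h
      exact absurd (Finset.mem_univ _) h
  rw [← e1, g5, e2]

private theorem min_iff (hA : Reduced A) (hA' : Reduced A') (σ : V ≃ V')
    (hiso : ∀ x y, Rch A x y ↔ Rch A' (σ x) (σ y)) (x : V) (h : ∀ y, y ≠ x → A x y = 0) :
    ∀ k, k ≠ σ x → A' (σ x) k = 0 := by
  intro k hk
  by_contra hc
  obtain ⟨z, rfl⟩ := σ.surjective k
  have h1 : Rch A x z := (hiso x z).2 (Relation.ReflTransGen.single hc)
  have := rch_min h h1
  exact hk (by rw [this])

end

theorem mon_iso {V V' : Type} [Fintype V] [DecidableEq V] [Fintype V'] [DecidableEq V']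
    (A : V → V → ℕ) (A' : V' → V' → ℕ) (hA : Reduced A) (hA' : Reduced A')
    (S : V → V' → ℕ) (S' : V' → V → ℕ)
    (h1 : ∀ x, A x x = 1 → Meq A' (S x) (S x + fun k => ∑ z, off A x z * S z k))
    (h1' : ∀ k, A' k k = 1 → Meq A (S' k) (S' k + fun x => ∑ z, off A' k z * S' z x))
    (h2 : ∀ x, Meq A (Pi.single x 1) (fun y => ∑ k, S x k * S' k y))
    (h2' : ∀ k, Meq A' (Pi.single k 1) (fun l => ∑ x, S' k x * S x l))
    (h4 : ∀ x k, (∀ y, y ≠ x → A x y = 0) → (∀ y, y ≠ k → A' k y = 0) → S x = Pi.single k 1 →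
      (A x x = 0 ↔ A' k k = 0)) :
    ∃ σ : V ≃ V', (∀ x y, Rch A x y ↔ Rch A' (σ x) (σ y)) ∧ (∀ x, A x x = A' (σ x) (σ x)) ∧
      (∀ x, S x (σ x) = 1) ∧ (∀ x k, S x k ≠ 0 → Rch A' (σ x) k) ∧
      ∃ P : V → V' → ℤ, (∀ x, P x (σ x) = 1) ∧ (∀ x k, P x k ≠ 0 → Rch A' (σ x) k) ∧
        ∀ x k, ∑ z, (off A x z : ℤ) * (S z k : ℤ) = ∑ l, P x l * (off A' l k : ℤ) := by
  choose f hf1 hf2 using exists_partner hA hA' S S' h2 h2'
  choose g hg1 hg2 using exists_partner hA' hA S' S h2' h2
  have hgf : ∀ x, g (f x) = x := by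
    intro x
    have e : ∀ y, Rch A (g (f x)) y ↔ Rch A x y := fun y => (hg1 (f x) y).symm.trans (hf2 x y)
    exact rch_anti hA ((e x).2 Relation.ReflTransGen.refl) ((e _).1 Relation.ReflTransGen.refl)
  have hfg : ∀ k, f (g k) = k := by
    intro x
    have e : ∀ y, Rch A' (f (g x)) y ↔ Rch A' x y := fun y => (hf1 (g x) y).symm.trans (hg2 x y)
    exact rch_anti hA' ((e x).2 Relation.ReflTransGen.refl) ((e _).1 Relation.ReflTransGen.refl)
  let σ : V ≃ V' := ⟨f, g, hgf, hfg⟩
  have hσ : ∀ x l, l ∈ Hs A' (S x) ↔ Rch A' (σ x) l := hf1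
  have hσ' : ∀ k y, y ∈ Hs A (S' k) ↔ Rch A (σ.symm k) y := hg1
  have hiso : ∀ x y, Rch A x y ↔ Rch A' (σ x) (σ y) := by
    intro x y
    refine ⟨order_map hA hA' S h1 σ hσ, fun h => ?_⟩
    have := order_map hA' hA S' h1' σ.symm hσ' h
    simpa using this
  have hiso' : ∀ k l, Rch A' k l ↔ Rch A (σ.symm k) (σ.symm l) := by
    intro k l
    rw [hiso]
    simp
  have hsupp : ∀ x, S x (σ x) ≠ 0 := by
    intro x
    obtain ⟨k', hk', hk'k⟩ := (hσ x (σ x)).2 Relation.ReflTransGen.refl
    have h5 : Rch A' (σ x) k' := (hσ x k').1 ⟨k', hk', Relation.ReflTransGen.refl⟩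
    have h6 := rch_anti hA' h5 hk'k
    rw [h6]
    exact hk'
  have hsupp' : ∀ k, S' k (σ.symm k) ≠ 0 := by
    intro x
    obtain ⟨k', hk', hk'k⟩ := (hσ' x (σ.symm x)).2 Relation.ReflTransGen.refl
    have h5 : Rch A (σ.symm x) k' := (hσ' x k').1 ⟨k', hk', Relation.ReflTransGen.refl⟩
    have h6 := rch_anti hA h5 hk'k
    rw [h6]
    exact hk'
  have hone : ∀ x, S x (σ x) = 1 ∧ S' (σ x) x = 1 := by
    intro x
    have h5 := top_eq hA (x := x) (fun y hy => (mem_Hs_single x y).1 hy) (h2 x)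
    rw [Pi.single_eq_same] at h5
    have h6 := Finset.single_le_sum (f := fun k => S x k * S' k x) (fun k _ => Nat.zero_le _)
      (Finset.mem_univ (σ x))
    rw [← h5] at h6
    have h7 := hsupp x
    have h8 := hsupp' (σ x)
    rw [Equiv.symm_apply_apply] at h8
    have h9 : S x (σ x) * S' (σ x) x = 1 :=
      le_antisymm h6 (Nat.one_le_iff_ne_zero.2 (mul_ne_zero h7 h8))
    exact ⟨Nat.eq_one_of_mul_eq_one_right h9, Nat.eq_one_of_mul_eq_one_left h9⟩
  have hdiag : ∀ x, A x x = A' (σ x) (σ x) := by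
    intro x
    by_cases hx : ∀ y, y ≠ x → A x y = 0
    · have hx' := min_iff hA hA' σ hiso x hx
      have hS : S x = Pi.single (σ x) 1 := by
        funext k
        by_cases hk : k = σ x
        · subst hk
          rw [Pi.single_eq_same]
          exact (hone x).1
        · rw [Pi.single_eq_of_ne hk]
          by_contra hc
          exact hk (rch_min hx' ((hσ x k).1 ⟨k, hc, Relation.ReflTransGen.refl⟩))
      have h5 := h4 x (σ x) hx hx' hS
      have h6 := hA.2.1 x
      have h7 := hA'.2.1 (σ x)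
      omega
    · push Not at hx
      obtain ⟨y, hy1, hy2⟩ := hx
      have h5 : Rch A' (σ x) (σ y) := (hiso x y).1 (Relation.ReflTransGen.single hy2)
      obtain ⟨z, -, hz, -⟩ := rch_head h5 (fun h => hy1 (σ.injective h).symm)
      rw [loop1 hA hy2, loop1 hA' hz]
  refine ⟨σ, hiso, hdiag, fun x => (hone x).1,
    fun x k hk => (hσ x k).1 ⟨k, hk, Relation.ReflTransGen.refl⟩, ?_⟩
  have hP : ∀ x, ∃ κ : V' → ℤ, κ (σ x) = 1 ∧ (∀ k, κ k ≠ 0 → Rch A' (σ x) k) ∧
      ∀ k, ∑ z, (off A x z : ℤ) * (S z k : ℤ) = ∑ l, κ l * (off A' l k : ℤ) := by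
    intro x
    by_cases hx : ∀ y, y ≠ x → A x y = 0
    · have hx' := min_iff hA hA' σ hiso x hx
      refine ⟨Pi.single (σ x) 1, by simp, ?_, ?_⟩
      · intro k hk
        have : k = σ x := by
          by_contra hne
          exact hk (by simp [hne])
        rw [this]
        exact Relation.ReflTransGen.refl
      · intro k
        have e1 : ∀ z, off A x z = 0 := by
          intro z
          unfold off
          split_ifs with h
          · rfl
          · exact hx z (Ne.symm h)
        have e2 : ∀ z, off A' (σ x) z = 0 := by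
          intro z
          unfold off
          split_ifs with h
          · rfl
          · exact hx' z (Ne.symm h)
        simp [e1, Pi.single_apply, e2]
    · push Not at hx
      obtain ⟨y, hy1, hy2⟩ := hx
      obtain ⟨ρ, hρ⟩ := rch_rho hA
      have hne : ∃ j, x ≠ j ∧ Rch A x j := ⟨y, Ne.symm hy1, Relation.ReflTransGen.single hy2⟩
      obtain ⟨j, ⟨hj1, hj2⟩, hj3⟩ : ∃ j, (x ≠ j ∧ Rch A x j) ∧
          ∀ z, (x ≠ z ∧ Rch A x z) → ρ z ≤ ρ j := by
        classical
        obtain ⟨j, hj, hmax⟩ := Finset.exists_max_image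
          (Finset.univ.filter fun j => x ≠ j ∧ Rch A x j) ρ
          ⟨y, by simpa using ⟨Ne.symm hy1, Relation.ReflTransGen.single hy2⟩⟩
        exact ⟨j, by simpa using hj, fun z hz => hmax z (by simpa using hz)⟩
      have hcov : ∀ z, z ≠ x → Rch A x z → Rch A z j → z = j := by
        intro z hz1 hz2 hz3
        by_contra hc
        exact absurd (hj3 z ⟨Ne.symm hz1, hz2⟩) (not_le.2 (hρ z j hz3 hc))
      obtain ⟨κ, k1, k2, k3, k4⟩ := exists_kappa hA' S h1 σ hiso hA hσ (fun x => (hone x).1)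
        hj1 hj2 hcov
      have hone' : ∀ k, S' k (σ.symm k) = 1 := by
        intro k
        have := (hone (σ.symm k)).2
        rwa [Equiv.apply_symm_apply] at this
      obtain ⟨κ', -, -, l3, -⟩ := exists_kappa hA S' h1' σ.symm hiso' hA' hσ' hone'
        (x := σ x) (j := σ j) (fun h => hj1 (σ.injective h)) ((hiso x j).1 hj2) (by
          intro k hk1 hk2 hk3
          obtain ⟨z, rfl⟩ := σ.surjective k
          rw [hcov z (fun h => hk1 (by rw [h])) ((hiso x z).2 hk2) ((hiso z j).2 hk3)])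
      rw [Equiv.symm_apply_apply, Equiv.symm_apply_apply] at l3
      refine ⟨κ, ?_, k1, k2⟩
      have p1 : (0 : ℤ) < off A x j := by
        have := Nat.pos_of_ne_zero k4
        exact_mod_cast this
      have p2 : κ (σ x) * κ' x = 1 := by
        have : κ (σ x) * κ' x * (off A x j : ℤ) = 1 * (off A x j : ℤ) := by
          rw [one_mul]
          conv_rhs => rw [k3, l3]
          ring
        exact mul_right_cancel₀ p1.ne' this
      have p3 : 0 < κ (σ x) := by
        rw [k3] at p1
        by_contra hc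
        have h0 : (0 : ℤ) ≤ off A' (σ x) (σ j) := Int.natCast_nonneg _
        nlinarith
      have p4 : IsUnit (κ (σ x)) := IsUnit.of_mul_eq_one _ p2
      rcases Int.isUnit_iff.1 p4 with h | h
      · exact h
      · omega
  choose P hP1 hP2 hP3 using hP
  exact ⟨P, hP1, hP2, hP3⟩

end Pool.Agent.Work.MP_2b4d3b_al
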