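import Pool.Agent.Work.MP_2b4d3b_al.Cor
import Pool.Agent.Work.MP_2b4d3b_al.Surj
import Pool.Agent.Work.MP_2b4d3b_al.Inj

/-!
MODULE Transfer. φ : X ≃+* X', corners C (Θ, ι) and C' (Θ', ι'). For x in V, p x := ι (vx x) in X,
S x := the vertex vector (surj) of the idempotent matrix Θ' (φ (p x)). For n : V → ℕ put
F n := flat ((vs K A n).map (Θ' ∘ φ ∘ ι)) = block diagonal of the Θ' (φ (p x)) ~ vs (∑ x, n x * S x ·)
(vs_block). vs n ~ vs m implies F n ~ F m (IdEq.map, IdEq.flatten), so by inj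
Meq A n m → Meq A' (n S) (m S) (with MonEasy). Same for φ.symm: S'.
(1) Meq A (single x 1) (single x 1 + off A x) if A x x = 1.
(2) vs (S x) ~ Θ' (φ (p x)); map by ι', φ.symm, Θ: vs (S x S') ~ Θ-image of φ.symm of ι' Θ' (φ (p x)) ~
  Θ (p x) (h2 of C' for φ (p x), then map) ~ vs (single x 1) (h1). inj.
(3) vs (1 + b) ~ Θ 1; map ι: ι Θ 1 ~ 1 (h2); φ, Θ': ~ Θ' 1 ~ vs (1 + b'). inj.
(4) S x = single k 1: Θ' (φ (p x)) ~ vs (single k 1) ~ Θ' (ι' (vx k)); map ι' and h2: φ (p x) and ι' (vx k)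
  are equivalent 1 x 1 idempotents of X', DivC is invariant under this equivalence (a ↦ y a x) and
  under the ring isomorphism φ; h4 twice.
-/

set_option linter.unusedVariables false
set_option linter.style.longLine false

namespace Pool.Agent.Work.MP_2b4d3b_al

open Matrix

universe u v w u' v' w'

/-- the composite Θ' ∘ φ ∘ ι -/
private def trG {R : Type u} {X : Type u'} {X' : Type v'} {S : Type v} [Ring R] [Ring X] [Ring X']
    [Ring S] (ι : R →ₙ+* X) (φ : X ≃+* X') (Θ : X' →ₙ+* S) : R →ₙ+* S where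
  toFun a := Θ (φ (ι a))
  map_mul' a b := by simp only [map_mul]
  map_zero' := by simp only [map_zero]
  map_add' a b := by simp only [map_add]

private def trH {X : Type u'} {X' : Type v'} {S : Type v} [Ring X] [Ring X']
    [Ring S] (φ : X ≃+* X') (Θ : X' →ₙ+* S) : X →ₙ+* S where
  toFun a := Θ (φ a)
  map_mul' a b := by simp only [map_mul]
  map_zero' := by simp only [map_zero]
  map_add' a b := by simp only [map_add]

private theorem tr_unit {R : Type u} [Ring R] {T : Type} [Fintype T] [DecidableEq T]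
    (q : Matrix T T R) (hq : q * q = q) :
    IdEq (flat ((Matrix.of fun (_ _ : Unit) => q : Matrix Unit Unit (Matrix T T R)))) q := by
  refine IdEq.symm (IdEq.reindex (Equiv.punitProd T).symm hq fun a b => ?_)
  rfl

/-- block diagonal matrices -/
private theorem tr_block {K₁ : Type u} [Field K₁] {K₂ : Type v} [Field K₂]
    {V V' : Type} [Fintype V] [DecidableEq V] [Fintype V']
    [DecidableEq V'] {A : V → V → ℕ} {A' : V' → V' → ℕ} {T' : Type} [Fintype T'] [DecidableEq T']
    (G : LM K₁ A →ₙ+* Matrix T' T' (LM K₂ A')) (S : V → V' → ℕ)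
    (hS : ∀ x, IdEq (G (vx K₁ (mGr A) x)) (vs K₂ A' (S x))) (n : V → ℕ) :
    IdEq (flat ((vs K₁ A n).map G)) (vs K₂ A' (fun k => ∑ x, n x * S x k)) := by
  have h := vs_block (fun x => G (vx K₁ (mGr A) x)) S hS n
  have h2 : (vs K₁ A n).map G = Matrix.diagonal fun a : (Σ x : V, Fin (n x)) =>
      G (vx K₁ (mGr A) a.1) := by
    unfold vs
    rw [Matrix.diagonal_map (map_zero G)]
  rw [h2]
  exact h

private theorem tr_key {K₁ : Type u} [Field K₁] {K₂ : Type v} [Field K₂]
    {V V' : Type} [Fintype V] [DecidableEq V] [Fintype V']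
    [DecidableEq V'] {A : V → V → ℕ} {A' : V' → V' → ℕ} (hA' : Reduced A')
    {T' : Type} [Fintype T'] [DecidableEq T']
    (G : LM K₁ A →ₙ+* Matrix T' T' (LM K₂ A')) (S : V → V' → ℕ)
    (hS : ∀ x, IdEq (G (vx K₁ (mGr A) x)) (vs K₂ A' (S x))) (n m : V → ℕ)
    (h : IdEq (vs K₁ A n) (vs K₁ A m)) :
    Meq A' (fun k => ∑ x, n x * S x k) (fun k => ∑ x, m x * S x k) :=
  inj (K := K₂) A' hA' _ _
    (((tr_block G S hS n).symm.trans (h.map G).flatten).trans (tr_block G S hS m))

private theorem tr_loop {K₁ : Type u} [Field K₁] {K₂ : Type v} [Field K₂]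
    {V V' : Type} [Fintype V] [DecidableEq V] [Fintype V']
    [DecidableEq V'] {A : V → V → ℕ} {A' : V' → V' → ℕ} (hA' : Reduced A')
    {T' : Type} [Fintype T'] [DecidableEq T']
    (G : LM K₁ A →ₙ+* Matrix T' T' (LM K₂ A')) (S : V → V' → ℕ)
    (hS : ∀ x, IdEq (G (vx K₁ (mGr A) x)) (vs K₂ A' (S x))) (x : V) (hx : A x x = 1) :
    Meq A' (S x) (S x + fun k => ∑ z, off A x z * S z k) := by
  have h1 : Meq A (Pi.single x 1) (Pi.single x 1 + off A x) :=
    Relation.EqvGen.rel _ _ ⟨x, by simp, hx, rfl⟩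
  have h2 := tr_key hA' G S hS _ _ (MonEasy (K := K₁) h1)
  have e1 : (fun k => ∑ z, (Pi.single x 1 : V → ℕ) z * S z k) = S x := by
    funext k
    rw [Finset.sum_eq_single x]
    · simp
    · intro z _ hz; simp [hz]
    · simp
  have e2 : (fun k => ∑ z, (Pi.single x 1 + off A x : V → ℕ) z * S z k)
      = S x + fun k => ∑ z, off A x z * S z k := by
    rw [← e1]
    funext k
    simp only [Pi.add_apply, add_mul, Finset.sum_add_distrib]
  rwa [e1, e2] at h2

/-- composition of the two directions on an idempotent element p of X -/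
private theorem tr_comp {K₁ : Type u} [Field K₁] {K₂ : Type v} [Field K₂] {X : Type u'} [Ring X]
    {X' : Type v'} [Ring X'] (φ : X ≃+* X') {V V' : Type} [Fintype V] [DecidableEq V] [Fintype V']
    [DecidableEq V'] {A : V → V → ℕ} {A' : V' → V' → ℕ}
    {T' : Type} [Fintype T'] [DecidableEq T'] {T : Type} [Fintype T] [DecidableEq T]
    (Θ : X →ₙ+* Matrix T T (LM K₁ A)) (Θ' : X' →ₙ+* Matrix T' T' (LM K₂ A'))
    (ι' : LM K₂ A' →ₙ+* X')
    (h2' : ∀ p : X', p * p = p → IdEq ((Θ' p).map ι') (Matrix.of fun (_ _ : Unit) => p))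
    (S' : V' → V → ℕ)
    (hS' : ∀ k, IdEq (Θ (φ.symm (ι' (vx K₂ (mGr A') k)))) (vs K₁ A (S' k)))
    (p : X) (hp : p * p = p) (n : V' → ℕ) (h : IdEq (Θ' (φ p)) (vs K₂ A' n)) :
    IdEq (Θ p) (vs K₁ A (fun y => ∑ k, n k * S' k y)) := by
  have hp' : φ p * φ p = φ p := by rw [← map_mul, hp]
  have hΘ : Θ p * Θ p = Θ p := by rw [← map_mul, hp]
  have h3 := ((h2' (φ p) hp').map (trH φ.symm Θ)).flatten
  have h4 := (h.map (trG ι' φ.symm Θ)).flatten
  have h5 := tr_block (trG ι' φ.symm Θ) S' hS' n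
  have e1 : (Matrix.of fun (_ _ : Unit) => φ p).map (trH φ.symm Θ)
      = Matrix.of fun (_ _ : Unit) => Θ p := by
    ext a b i j
    change Θ (φ.symm (φ p)) i j = Θ p i j
    rw [φ.symm_apply_apply]
  rw [e1] at h3
  have h6 := (tr_unit (Θ p) hΘ).symm.trans h3.symm
  exact (h6.trans h4).trans h5

private theorem divC_of {X : Type u} [Ring X] {p q a b : X} (hp : p * p = p) (hq : q * q = q)
    (h1 : a * b = p) (h2 : b * a = q) (h : DivC p) : DivC q := by
  intro c hc hc0
  have e1 : p * a * (c * (b * p)) = a * c * b := by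
    calc p * a * (c * (b * p)) = (a * b) * a * ((q * c * q) * (b * (a * b))) := by
          rw [h1, hc]
      _ = a * (b * a) * (q * c * q * ((b * a) * b)) := by simp only [mul_assoc]
      _ = a * (q * q * c * (q * q)) * b := by rw [h2]; simp only [mul_assoc]
      _ = a * (q * c * q) * b := by rw [hq]
      _ = a * c * b := by rw [hc]
  have e1' : p * (a * c * b) * p = a * c * b := by
    rw [← e1]
    calc p * (p * a * (c * (b * p))) * p = (p * p) * a * (c * (b * (p * p))) := by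
          simp only [mul_assoc]
      _ = _ := by rw [hp]
  have e2 : b * (a * c * b) * a = c := by
    calc b * (a * c * b) * a = (b * a) * c * (b * a) := by simp only [mul_assoc]
      _ = c := by rw [h2, hc]
  have hne : a * c * b ≠ 0 := by
    intro h0
    rw [h0] at e2
    apply hc0
    rw [← e2]; simp
  obtain ⟨d, hd1, hd2⟩ := h _ e1' hne
  refine ⟨b * d * a, ?_, ?_⟩
  · have hbd : q * b * (d * (a * q)) = b * d * a := by
      calc q * b * (d * (a * q)) = (b * a) * b * ((p * d * p) * (a * (b * a))) := by rw [h2, hd1]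
        _ = b * (a * b) * (p * d * p * ((a * b) * a)) := by simp only [mul_assoc]
        _ = b * (p * p * d * (p * p)) * a := by rw [h1]; simp only [mul_assoc]
        _ = b * (p * d * p) * a := by rw [hp]
        _ = b * d * a := by rw [hd1]
    calc q * (b * d * a) * q = q * b * (d * (a * q)) := by simp only [mul_assoc]
      _ = _ := hbd
  · have hpd : p * d = d := by
      conv_lhs => rw [← hd1]
      rw [← mul_assoc, ← mul_assoc, hp, hd1]
    calc c * (b * d * a) = b * (a * c * b) * a * (b * d * a) := by rw [e2]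
      _ = b * (a * c * b) * ((a * b) * d) * a := by simp only [mul_assoc]
      _ = b * ((a * c * b) * d) * a := by rw [h1, hpd]; simp only [mul_assoc]
      _ = b * (a * b) * a := by rw [hd2, h1]
      _ = (b * a) * (b * a) := by simp only [mul_assoc]
      _ = q := by rw [h2, hq]

private theorem divC_iff {X : Type u} [Ring X] {p q : X}
    (h : IdEq (Matrix.of fun (_ _ : Unit) => p) (Matrix.of fun (_ _ : Unit) => q)) :
    DivC p ↔ DivC q := by
  have hp : p * p = p := by
    have := congr_fun (congr_fun h.left ()) ()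
    simpa [Matrix.mul_apply] using this
  have hq : q * q = q := by
    have := congr_fun (congr_fun h.symm.left ()) ()
    simpa [Matrix.mul_apply] using this
  obtain ⟨x, y, h1, h2, -, -⟩ := h
  have h1' : x () () * y () () = p := by
    have := congr_fun (congr_fun h1 ()) ()
    simpa [Matrix.mul_apply] using this
  have h2' : y () () * x () () = q := by
    have := congr_fun (congr_fun h2 ()) ()
    simpa [Matrix.mul_apply] using this
  exact ⟨divC_of hp hq h1' h2', divC_of hq hp h2' h1'⟩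

private theorem divC_map {X : Type u} {X' : Type v} [Ring X] [Ring X'] (φ : X ≃+* X') {p : X}
    (h : DivC p) : DivC (φ p) := by
  intro a ha ha0
  obtain ⟨b, hb1, hb2⟩ := h (φ.symm a) (by
    apply φ.injective; simp [ha]) (by simpa using ha0)
  refine ⟨φ b, by rw [← map_mul, ← map_mul, hb1], ?_⟩
  rw [← hb2]; simp

theorem transfer {K₁ : Type u} [Field K₁] {K₂ : Type v} [Field K₂] {X : Type u'} [Ring X]
    {X' : Type v'} [Ring X'] (φ : X ≃+* X') {V V' : Type} [Fintype V] [DecidableEq V] [Fintype V']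
    [DecidableEq V'] (A : V → V → ℕ) (A' : V' → V' → ℕ) (b : V → ℕ) (b' : V' → ℕ)
    (hA : Reduced A) (hA' : Reduced A') (hX : HasR K₁ X A b) (hX' : HasR K₂ X' A' b') :
    ∃ (S : V → V' → ℕ) (S' : V' → V → ℕ),
      (∀ x, A x x = 1 → Meq A' (S x) (S x + fun k => ∑ z, off A x z * S z k)) ∧
      (∀ k, A' k k = 1 → Meq A (S' k) (S' k + fun x => ∑ z, off A' k z * S' z x)) ∧
      (∀ x, Meq A (Pi.single x 1) (fun y => ∑ k, S x k * S' k y)) ∧
      (∀ k, Meq A' (Pi.single k 1) (fun l => ∑ x, S' k x * S x l)) ∧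
      Meq A' (fun k => ∑ x, (1 + b x) * S x k) (1 + b') ∧
      (∀ x k, (∀ y, y ≠ x → A x y = 0) → (∀ y, y ≠ k → A' k y = 0) → S x = Pi.single k 1 →
        (A x x = 0 ↔ A' k k = 0)) := by
  obtain ⟨T, fT, dT, Θ, ι, h1, h2, h3, h4⟩ := exists_cor hX
  obtain ⟨T', fT', dT', Θ', ι', h1', h2', h3', h4'⟩ := exists_cor hX'
  have hpx : ∀ x, ι (vx K₁ (mGr A) x) * ι (vx K₁ (mGr A) x) = ι (vx K₁ (mGr A) x) := fun x => by
    rw [← map_mul, vx_vx]
  have hpx' : ∀ x, ι' (vx K₂ (mGr A') x) * ι' (vx K₂ (mGr A') x) = ι' (vx K₂ (mGr A') x) :=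
    fun x => by rw [← map_mul, vx_vx]
  have hS : ∀ x, ∃ n, IdEq (Θ' (φ (ι (vx K₁ (mGr A) x)))) (vs K₂ A' n) := fun x =>
    surj A' hA' _ (by rw [← map_mul, ← map_mul, hpx])
  have hS' : ∀ x, ∃ n, IdEq (Θ (φ.symm (ι' (vx K₂ (mGr A') x)))) (vs K₁ A n) := fun x =>
    surj A hA _ (by rw [← map_mul, ← map_mul, hpx'])
  choose S hS using hS
  choose S' hS' using hS'
  refine ⟨S, S', fun x hx => tr_loop hA' (trG ι φ Θ') S hS x hx,
    fun k hk => tr_loop hA (trG ι' φ.symm Θ) S' hS' k hk, ?_, ?_, ?_, ?_⟩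
  · intro x
    have := tr_comp φ Θ Θ' ι' h2' S' hS' _ (hpx x) (S x) (hS x)
    exact inj (K := K₁) A hA _ _ ((h1 x).symm.trans this)
  · intro k
    have hS2 : ∀ x, IdEq (Θ' (φ.symm.symm (ι (vx K₁ (mGr A) x)))) (vs K₂ A' (S x)) := hS
    have := tr_comp φ.symm Θ' Θ ι h2 S hS2 _ (hpx' k) (S' k) (hS' k)
    exact inj (K := K₂) A' hA' _ _ ((h1' k).symm.trans this)
  · have hS2 : ∀ x, IdEq (Θ' (φ.symm.symm (ι (vx K₁ (mGr A) x)))) (vs K₂ A' (S x)) := hS
    have h5 : IdEq (Θ (φ.symm (1 : X'))) (vs K₁ A (1 + b)) := by rw [map_one]; exact h3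
    have := tr_comp φ.symm Θ' Θ ι h2 S hS2 1 (mul_one 1) (1 + b) h5
    exact inj (K := K₂) A' hA' _ _ (this.symm.trans h3')
  · intro x k hx hk hSx
    have h5 : IdEq (Θ' (φ (ι (vx K₁ (mGr A) x)))) (Θ' (ι' (vx K₂ (mGr A') k))) := by
      have := hS x
      rw [hSx] at this
      exact this.trans (h1' k).symm
    have hp' : φ (ι (vx K₁ (mGr A) x)) * φ (ι (vx K₁ (mGr A) x)) = φ (ι (vx K₁ (mGr A) x)) := by
      rw [← map_mul, hpx]
    have h6 := ((h2' _ hp').symm.trans (h5.map ι')).trans (h2' _ (hpx' k))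
    rw [← h4 x hx (hA.2.1 x), ← h4' k hk (hA'.2.1 k), ← divC_iff h6]
    refine ⟨divC_map φ, fun h => ?_⟩
    have := divC_map φ.symm h
    simpa using this

end Pool.Agent.Work.MP_2b4d3b_al
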