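import Pool.Agent.Work.MP_2b4d3b_al.Elim
import Pool.Agent.Work.MP_2b4d3b_al.CombFinal
import Pool.Agent.Work.MP_2b4d3b_al.MonIso
import Pool.Agent.Work.MP_2b4d3b_al.Transfer
import Pool.Agent.Work.MP_2b4d3b_al.DCInv

/-!
MODULE Main (helper21).
-/

set_option linter.unusedVariables false
set_option linter.style.longLine false

namespace Pool.Agent.Work.MP_2b4d3b_al

open Matrix

universe u v w u' v' w'

theorem main {V : Type v} {E : Type w} {V' : Type v'} {E' : Type w'} [Finite V] [Finite E]
    [Finite V'] [Finite E'] (G : Gr V E) (G' : Gr V' E') (hG : DisjCycles G)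
    (K₁ K₂ : Type u) [Field K₁] [Field K₂]
    (h : Nonempty (LPA K₁ G ≃+* LPA K₂ G')) (K : Type u) [Field K] [StarRing K] :
    SI K (LPA K G) (LPA K G') := by
  classical
  have hG' : DisjCycles G' := h.elim fun φ => dc_inv G G' hG K₁ K₂ φ
  obtain ⟨n, A, b, hA, hX⟩ := exists_reduced.{u} G hG
  obtain ⟨n', A', b', hA', hX'⟩ := exists_reduced.{u} G' hG'
  obtain ⟨φ⟩ := h
  have hR : HasR K₁ (LPA K₁ G) A b := by
    let _ : StarRing K₁ := starRingOfComm
    exact (hX K₁).toR
  have hR' : HasR K₂ (LPA K₂ G') A' b' := by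
    let _ : StarRing K₂ := starRingOfComm
    exact (hX' K₂).toR
  obtain ⟨S, S', h1, h1', h2, h2', h3, h4⟩ := transfer φ A A' b b' hA hA' hR hR'
  obtain ⟨σ, hr, hd, hS1, hS2, P, hP1, hP2, hSP⟩ := mon_iso A A' hA hA' S S' h1 h1' h2 h2' h4
  -- transport A' to V = Fin n along σ
  let A2 : Fin n → Fin n → ℕ := fun x y => A' (σ x) (σ y)
  let b2 : Fin n → ℕ := fun x => b' (σ x)
  have hrch : ∀ x y, Rch A2 x y ↔ Rch A' (σ x) (σ y) := by
    intro x y
    constructor
    · intro h
      induction h with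
      | refl => exact Relation.ReflTransGen.refl
      | tail _ h1 ih => exact ih.tail h1
    · intro h
      have : ∀ z, Rch A' (σ x) z → Rch A2 x (σ.symm z) := by
        intro z hz
        induction hz with
        | refl =>
          rw [Equiv.symm_apply_apply]
          exact Relation.ReflTransGen.refl
        | tail _ h1 ih =>
          refine ih.tail ?_
          simpa [A2] using h1
      simpa using this _ h
  have hA2 : Reduced A2 := by
    obtain ⟨⟨ρ, hρ⟩, h5, h6⟩ := hA'
    exact ⟨⟨fun x => ρ (σ x), fun x y hxy hne => hρ _ _ (fun hh => hxy (σ.injective hh)) hne⟩,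
      fun x => h5 _, fun x hx y => h6 _ hx _⟩
  have hoff : ∀ x y, off A2 x y = off A' (σ x) (σ y) := by
    intro x y
    simp [off, A2, σ.injective.eq_iff]
  have hend : Has K (LPA K G) A2 b2 := by
    have hrr : ∀ x y, Rch A x y ↔ Rch A2 x y := fun x y => (hr x y).trans (hrch x y).symm
    obtain ⟨hH, t, ht0, ht⟩ := (Meq.char hA' _ _).1 h3
    refine comb_final A A2 hA hA2 hrr hd (fun x y => S x (σ y)) (fun x y => P x (σ y)) hS1
      (fun x y hxy => (hr x y).2 (hS2 x _ hxy)) hP1 (fun x y hxy => (hr x y).2 (hP2 x _ hxy)) ?_ b b2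
      (fun x => - t (σ x)) ?_ K _ (hX K)
    · intro x y
      rw [hSP x (σ y)]
      simp only [hoff]
      exact (Equiv.sum_comp σ (fun l => P x l * (off A' l (σ y) : ℤ))).symm
    · intro y
      have h7 := ht (σ y)
      have h8 : ∑ x, (- t (σ x)) * (off A2 x y : ℤ) = - ∑ l, t l * (off A' l (σ y) : ℤ) := by
        simp only [hoff]
        rw [← Equiv.sum_comp σ (fun l => t l * (off A' l (σ y) : ℤ)), ← Finset.sum_neg_distrib]
        exact Finset.sum_congr rfl fun x _ => by ring
      rw [h8, ← h7]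
      simp only [b2, Pi.add_apply, Pi.one_apply]
      push_cast
      ring
  have hend' : Has K (LPA K G) A' b' := Has.perm σ hend (fun x y => rfl) (fun x => rfl)
  have hX2 := hX' K
  rcases hend' with ⟨h0, hs⟩ | ⟨h0, hs⟩ <;> rcases hX2 with ⟨h0', hs'⟩ | ⟨h0', hs'⟩
  · exact hs.trans hs'.symm
  · exact absurd h0 h0'
  · exact absurd h0' h0
  · exact hs.trans hs'.symm

/-- the version for algebra isomorphisms: the second graph may have infinitely many edges -/
theorem main_alg {V : Type v} {E : Type w} {V' : Type v'} {E' : Type w'} [Finite V] [Finite E]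
    [Finite V'] (G : Gr V E) (G' : Gr V' E') (hG : DisjCycles G) (K : Type u) [Field K]
    [StarRing K] (h : Nonempty (LPA K G ≃ₐ[K] LPA K G')) : SI K (LPA K G) (LPA K G') := by
  obtain ⟨f⟩ := h
  have _ : Finite E' := RJ.finite_edges K f.toAlgHom f.surjective
  exact main G G' hG K K ⟨f.toRingEquiv⟩ K

end Pool.Agent.Work.MP_2b4d3b_al
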