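import Pool.Agent.Work.MP_2b4d3b_al.SFam

/-!
MODULE MoveX. Expansion of one edge f0 (not starting at its own range, range regular):
f0 is replaced by the paths f0 g, g an edge starting at r f0.
to the right: x -> x, e -> inl e (e not f0), f0 -> sum over g of (inr g) * gh (inl g)
  (g is not f0 since s g = r f0 is not s f0), ghosts = star images.
to the left: inl e -> e, inr g -> f0 g. Check the relations, then SI.mk'.
Use Finite E (Fintype.ofFinite) for the sums; classical everywhere.
-/

set_option linter.unusedVariables false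
set_option linter.style.longLine false

namespace Pool.Agent.Work.MP_2b4d3b_al

open Matrix

universe u v w u' v' w'

/-- the expanded graph -/
def expG {V : Type v} {E : Type w} (G : Gr V E) (f0 : E) :
    Gr V ({e : E // e ≠ f0} ⊕ {g : E // G.s g = G.r f0}) where
  s := Sum.elim (fun e => G.s e) (fun _ => G.s f0)
  r := Sum.elim (fun e => G.r e) (fun g => G.r g)

set_option linter.unusedSectionVars false

section
variable {K : Type u} [Field K] [StarRing K] {V : Type v} {E : Type w} [Fintype E] [DecidableEq E]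
  [DecidableEq V] (G : Gr V E) (f0 : E) (h : G.s f0 ≠ G.r f0)

private lemma mx_ne {G : Gr V E} {f0 : E} (h : G.s f0 ≠ G.r f0) (g : {g : E // G.s g = G.r f0}) :
    g.1 ≠ f0 := by
  intro e
  apply h
  rw [← g.2, e]

/-- image of an edge -/
private noncomputable def mx_a (K : Type u) [Field K] (G : Gr V E) (f0 : E)
    (h : G.s f0 ≠ G.r f0) (e : E) : LPA K (expG G f0) :=
  if he : e ≠ f0 then ed K (expG G f0) (Sum.inl ⟨e, he⟩) else
    ∑ g : {g : E // G.s g = G.r f0}, ed K (expG G f0) (Sum.inr g) *
      gh K (expG G f0) (Sum.inl ⟨g.1, mx_ne h g⟩)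

private lemma mx_a_ne {e : E} (he : e ≠ f0) :
    mx_a K G f0 h e = ed K (expG G f0) (Sum.inl ⟨e, he⟩) := dif_pos he

private lemma mx_a_eq : mx_a K G f0 h f0 = ∑ g : {g : E // G.s g = G.r f0},
    ed K (expG G f0) (Sum.inr g) * gh K (expG G f0) (Sum.inl ⟨g.1, mx_ne h g⟩) :=
  dif_neg (fun h => h rfl)

private lemma mx_star_a_eq : star (mx_a K G f0 h f0) = ∑ g : {g : E // G.s g = G.r f0},
    ed K (expG G f0) (Sum.inl ⟨g.1, mx_ne h g⟩) * gh K (expG G f0) (Sum.inr g) := by
  rw [mx_a_eq, star_sum]
  refine Finset.sum_congr rfl fun g _ => ?_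
  rw [star_mul, star_gh, star_ed]

/-- a f0 star (a f0) -/
private lemma mx_aa : mx_a K G f0 h f0 * star (mx_a K G f0 h f0) =
    ∑ g : {g : E // G.s g = G.r f0}, ed K (expG G f0) (Sum.inr g) * gh K (expG G f0) (Sum.inr g) := by
  rw [mx_star_a_eq, mx_a_eq, Finset.sum_mul]
  refine Finset.sum_congr rfl fun g _ => ?_
  rw [Finset.mul_sum, Finset.sum_eq_single g]
  · have h1 := gh_ed (K := K) (G := expG G f0) (Sum.inl ⟨g.1, mx_ne h g⟩)
    have h2 := r_gh (K := K) (G := expG G f0) (Sum.inr g)
    calc _ = ed K (expG G f0) (Sum.inr g) * (gh K (expG G f0) (Sum.inl ⟨g.1, mx_ne h g⟩) *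
          ed K (expG G f0) (Sum.inl ⟨g.1, mx_ne h g⟩)) * gh K (expG G f0) (Sum.inr g) := by
          simp only [mul_assoc]
      _ = ed K (expG G f0) (Sum.inr g) * (vx K (expG G f0) ((expG G f0).r (Sum.inr g)) *
          gh K (expG G f0) (Sum.inr g)) := by rw [h1, mul_assoc]; rfl
      _ = _ := by rw [h2]
  · intro g' _ hg'
    have h1 : gh K (expG G f0) (Sum.inl ⟨g.1, mx_ne h g⟩) *
          ed K (expG G f0) (Sum.inl ⟨g'.1, mx_ne h g'⟩) = 0 := by
      refine gh_ed_ne ?_
      intro e
      apply hg'
      have := Sum.inl.inj e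
      exact Subtype.ext (congrArg (fun z : {e : E // e ≠ f0} => z.1) this).symm
    calc _ = ed K (expG G f0) (Sum.inr g) * (gh K (expG G f0) (Sum.inl ⟨g.1, mx_ne h g⟩) *
          ed K (expG G f0) (Sum.inl ⟨g'.1, mx_ne h g'⟩)) * gh K (expG G f0) (Sum.inr g') := by
          simp only [mul_assoc]
      _ = 0 := by rw [h1, mul_zero, zero_mul]
  · intro hg
    exact absurd (Finset.mem_univ g) hg

/-- star (a f0) a f0 -/
private lemma mx_sa (hreg : ∃ g, G.s g = G.r f0) :
    star (mx_a K G f0 h f0) * mx_a K G f0 h f0 = vx K (expG G f0) (G.r f0) := by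
  have hS : ∀ e', e' ∈ (Finset.univ : Finset {g : E // G.s g = G.r f0}).map
      ⟨fun g => (Sum.inl ⟨g.1, mx_ne h g⟩ : {e : E // e ≠ f0} ⊕ {g : E // G.s g = G.r f0}), by
        intro g g' e
        have := Sum.inl.inj e
        exact Subtype.ext (congrArg (fun z : {e : E // e ≠ f0} => z.1) this)⟩ ↔
      (expG G f0).s e' = G.r f0 := by
    intro e'
    rw [Finset.mem_map]
    constructor
    · rintro ⟨g, -, rfl⟩
      exact g.2
    · intro he'
      rcases e' with e | g
      · exact ⟨⟨e.1, he'⟩, Finset.mem_univ _, rfl⟩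
      · exact absurd he' h
  obtain ⟨g0, hg0⟩ := hreg
  rw [ck_sum (K := K) (G := expG G f0) (G.r f0) _ hS
    ⟨_, Finset.mem_map_of_mem _ (Finset.mem_univ ⟨g0, hg0⟩)⟩, Finset.sum_map, mx_star_a_eq, mx_a_eq,
    Finset.sum_mul]
  refine Finset.sum_congr rfl fun g _ => ?_
  rw [Finset.mul_sum, Finset.sum_eq_single g]
  · have h1 := gh_ed (K := K) (G := expG G f0) (Sum.inr g)
    have h2 := r_gh (K := K) (G := expG G f0) (Sum.inl ⟨g.1, mx_ne h g⟩)
    calc _ = ed K (expG G f0) (Sum.inl ⟨g.1, mx_ne h g⟩) * (gh K (expG G f0) (Sum.inr g) *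
          ed K (expG G f0) (Sum.inr g)) * gh K (expG G f0) (Sum.inl ⟨g.1, mx_ne h g⟩) := by
          simp only [mul_assoc]
      _ = ed K (expG G f0) (Sum.inl ⟨g.1, mx_ne h g⟩) *
          (vx K (expG G f0) ((expG G f0).r (Sum.inl ⟨g.1, mx_ne h g⟩)) *
          gh K (expG G f0) (Sum.inl ⟨g.1, mx_ne h g⟩)) := by rw [h1, mul_assoc]; rfl
      _ = _ := by rw [h2]; rfl
  · intro g' _ hg'
    have h1 : gh K (expG G f0) (Sum.inr g) * ed K (expG G f0) (Sum.inr g') = 0 :=
      gh_ed_ne fun e => hg' (Sum.inr.inj e).symm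
    calc _ = ed K (expG G f0) (Sum.inl ⟨g.1, mx_ne h g⟩) * (gh K (expG G f0) (Sum.inr g) *
          ed K (expG G f0) (Sum.inr g')) * gh K (expG G f0) (Sum.inl ⟨g'.1, mx_ne h g'⟩) := by
          simp only [mul_assoc]
      _ = 0 := by rw [h1, mul_zero, zero_mul]
  · intro hg
    exact absurd (Finset.mem_univ g) hg

/-- the family to the right -/
private noncomputable def mx_F (hreg : ∃ g, G.s g = G.r f0) : Fam K G (LPA K (expG G f0)) :=
  sFam (fun x => vx K (expG G f0) x) (mx_a K G f0 h) (fun x => star_vx _) (fun x => vx_vx _)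
    (fun x y hxy => vx_ne hxy)
    (fun e => by
      by_cases he : e = f0
      · subst he
        rw [mx_a_eq, Finset.mul_sum]
        refine Finset.sum_congr rfl fun g _ => ?_
        have h1 := s_ed (K := K) (G := expG G e) (Sum.inr g)
        rw [← mul_assoc]
        exact congrArg (· * _) h1
      · rw [mx_a_ne G f0 h he]
        exact s_ed (K := K) (G := expG G f0) (Sum.inl ⟨e, he⟩))
    (fun e => by
      by_cases he : e = f0
      · subst he
        rw [mx_a_eq, Finset.sum_mul]
        refine Finset.sum_congr rfl fun g _ => ?_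
        have h1 := gh_s (K := K) (G := expG G e) (Sum.inl ⟨g.1, mx_ne h g⟩)
        have h2 : (expG G e).s (Sum.inl ⟨g.1, mx_ne h g⟩) = G.r e := g.2
        rw [h2] at h1
        rw [mul_assoc, h1]
      · rw [mx_a_ne G f0 h he]
        exact ed_r (K := K) (G := expG G f0) (Sum.inl ⟨e, he⟩))
    (fun e => by
      by_cases he : e = f0
      · subst he
        exact mx_sa G e h hreg
      · rw [mx_a_ne G f0 h he, star_ed]
        exact gh_ed (K := K) (G := expG G f0) (Sum.inl ⟨e, he⟩))
    (fun e f hef => by
      by_cases he : e = f0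
      · subst he
        rw [mx_star_a_eq, mx_a_ne G e h hef.symm, Finset.sum_mul]
        refine Finset.sum_eq_zero fun g _ => ?_
        rw [mul_assoc, gh_ed_ne (by intro e; cases e), mul_zero]
      · by_cases hf : f = f0
        · subst hf
          rw [mx_a_eq, mx_a_ne G f h hef, Finset.mul_sum, star_ed]
          refine Finset.sum_eq_zero fun g _ => ?_
          rw [← mul_assoc, gh_ed_ne (by intro e; cases e), zero_mul]
        · rw [mx_a_ne G f0 h he, mx_a_ne G f0 h hf, star_ed]
          refine gh_ed_ne fun e' => hef ?_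
          exact congrArg (fun z : {e : E // e ≠ f0} => z.1) (Sum.inl.inj e'))
    (if_ck fun x hx => by
      have hx' : ∃ e', (expG G f0).s e' = x := by
        obtain ⟨e, he⟩ := hx
        by_cases hef : e = f0
        · obtain ⟨g, hg⟩ := hreg
          exact ⟨Sum.inr ⟨g, hg⟩, by rw [← he, hef]; rfl⟩
        · exact ⟨Sum.inl ⟨e, hef⟩, he⟩
      rw [ck_if (K := K) (G := expG G f0) x hx', Fintype.sum_sum_type,
        Fintype.sum_eq_add_sum_subtype_ne _ f0, add_comm]
      congr 1
      · by_cases hx : G.s f0 = x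
        · have h2 : ∀ g : {g : E // G.s g = G.r f0}, (expG G f0).s (Sum.inr g) = x := fun _ => hx
          simp only [h2, if_true]
          rw [if_pos hx, mx_aa]
        · have h2 : ∀ g : {g : E // G.s g = G.r f0}, ¬ (expG G f0).s (Sum.inr g) = x := fun _ => hx
          simp only [h2, if_false]
          rw [if_neg hx, Finset.sum_const_zero]
      · refine Finset.sum_congr rfl fun e _ => ?_
        rw [mx_a_ne G f0 h e.2, star_ed]
        rfl)
    (fun T hT => one_sum (K := K) (G := expG G f0) T hT)

/-- image of an edge to the left -/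
private noncomputable def mx_b (K : Type u) [Field K] (G : Gr V E) (f0 : E) :
    {e : E // e ≠ f0} ⊕ {g : E // G.s g = G.r f0} → LPA K G :=
  Sum.elim (fun e => ed K G e) (fun g => ed K G f0 * ed K G g)

private lemma mx_sub (hreg : ∃ g, G.s g = G.r f0) :
    ∑ g : {g : E // G.s g = G.r f0}, ed K G g * gh K G g = vx K G (G.r f0) := by
  rw [ck_if (K := K) (G := G) _ hreg, sum_if_sub]

/-- the family to the left -/
private noncomputable def mx_F' (hreg : ∃ g, G.s g = G.r f0) : Fam K (expG G f0) (LPA K G) :=
  sFam (fun x => vx K G x) (mx_b K G f0) (fun x => star_vx _) (fun x => vx_vx _)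
    (fun x y hxy => vx_ne hxy)
    (fun e => by
      rcases e with e | g
      · exact s_ed (K := K) (G := G) e.1
      · show vx K G (G.s f0) * (ed K G f0 * ed K G g) = ed K G f0 * ed K G g
        rw [← mul_assoc, s_ed])
    (fun e => by
      rcases e with e | g
      · exact ed_r (K := K) (G := G) e.1
      · show (ed K G f0 * ed K G g) * vx K G (G.r g) = ed K G f0 * ed K G g
        rw [mul_assoc, ed_r])
    (fun e => by
      rcases e with e | g
      · show star (ed K G e.1) * ed K G e.1 = vx K G (G.r e.1)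
        rw [star_ed, gh_ed]
      · show star (ed K G f0 * ed K G g) * (ed K G f0 * ed K G g) = vx K G (G.r g)
        rw [star_mul, star_ed, star_ed]
        calc gh K G g * gh K G f0 * (ed K G f0 * ed K G g)
            = gh K G g * ((gh K G f0 * ed K G f0) * ed K G g) := by simp only [mul_assoc]
          _ = gh K G g * (vx K G (G.s g) * ed K G g) := by rw [gh_ed, g.2]
          _ = _ := by rw [s_ed, gh_ed])
    (fun e f hef => by
      rcases e with e | g
      · rcases f with f | g'
        · show star (ed K G e.1) * ed K G f.1 = 0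
          rw [star_ed, gh_ed_ne]
          intro h
          exact hef (congrArg Sum.inl (Subtype.ext h))
        · show star (ed K G e.1) * (ed K G f0 * ed K G g') = 0
          rw [star_ed, ← mul_assoc, gh_ed_ne e.2, zero_mul]
      · rcases f with f | g'
        · show star (ed K G f0 * ed K G g) * ed K G f.1 = 0
          rw [star_mul, star_ed, star_ed, mul_assoc, gh_ed_ne f.2.symm, mul_zero]
        · show star (ed K G f0 * ed K G g) * (ed K G f0 * ed K G g') = 0
          have hne : g.1 ≠ g'.1 := fun h => hef (congrArg Sum.inr (Subtype.ext h))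
          rw [star_mul, star_ed, star_ed]
          calc gh K G g * gh K G f0 * (ed K G f0 * ed K G g')
              = gh K G g * ((gh K G f0 * ed K G f0) * ed K G g') := by simp only [mul_assoc]
            _ = gh K G g * (vx K G (G.s g') * ed K G g') := by rw [gh_ed, g'.2]
            _ = _ := by rw [s_ed, gh_ed_ne hne])
    (if_ck fun x hx => by
      have hx' : ∃ e, G.s e = x := by
        obtain ⟨e | g, he⟩ := hx
        · exact ⟨e.1, he⟩
        · exact ⟨f0, he⟩
      rw [ck_if (K := K) (G := G) x hx', Fintype.sum_sum_type,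
        Fintype.sum_eq_add_sum_subtype_ne _ f0, add_comm]
      congr 1
      · refine Finset.sum_congr rfl fun e _ => ?_
        show _ = if G.s e.1 = x then ed K G e.1 * star (ed K G e.1) else 0
        rw [star_ed]
      by_cases hx : G.s f0 = x
      · have h2 : ∀ g : {g : E // G.s g = G.r f0}, (expG G f0).s (Sum.inr g) = x := fun _ => hx
        simp only [h2, if_true]
        rw [if_pos hx]
        have h3 : ∀ g : {g : E // G.s g = G.r f0}, mx_b K G f0 (Sum.inr g) *
            star (mx_b K G f0 (Sum.inr g)) = ed K G f0 * (ed K G g * gh K G g) * gh K G f0 := by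
          intro g
          show (ed K G f0 * ed K G g) * star (ed K G f0 * ed K G g) = _
          rw [star_mul, star_ed, star_ed]
          simp only [mul_assoc]
        simp only [h3]
        rw [← Finset.sum_mul, ← Finset.mul_sum, mx_sub G f0 hreg, ed_r]
      · have h2 : ∀ g : {g : E // G.s g = G.r f0}, ¬ (expG G f0).s (Sum.inr g) = x := fun _ => hx
        simp only [h2, if_false]
        rw [if_neg hx, Finset.sum_const_zero])
    (fun T hT => one_sum (K := K) (G := G) T hT)

end

theorem SI.moveX {K : Type u} [Field K] [StarRing K] {V : Type v} {E : Type w} [Finite E]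
    (G : Gr V E) (f0 : E) (h : G.s f0 ≠ G.r f0) (hreg : ∃ g, G.s g = G.r f0) :
    SI K (LPA K G) (LPA K (expG G f0)) := by
  classical
  have := Fintype.ofFinite E
  refine SI.ofFam (mx_F G f0 h hreg) (mx_F' G f0 hreg) (fun x => star_vx _) (fun e => rfl)
    (fun x => star_vx _) (fun e => rfl) (fun x => ?_) (fun e => ?_) (fun x => ?_) (fun e => ?_)
  · exact Fam.lift_vx _ _
  · show (mx_F' G f0 hreg).lift (mx_a K G f0 h e) = ed K G e
    by_cases he : e = f0
    · subst he
      rw [mx_a_eq, map_sum]
      have h1 : ∀ g : {g : E // G.s g = G.r e}, (mx_F' (K := K) G e hreg).lift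
          (ed K (expG G e) (Sum.inr g) * gh K (expG G e) (Sum.inl ⟨g.1, mx_ne h g⟩)) =
          ed K G e * (ed K G g * gh K G g) := by
        intro g
        rw [map_mul, Fam.lift_ed, Fam.lift_gh]
        show (ed K G e * ed K G g) * star (ed K G g.1) = _
        rw [star_ed, mul_assoc]
      rw [Finset.sum_congr rfl fun g _ => h1 g, ← Finset.mul_sum, mx_sub G e hreg, ed_r]
    · rw [mx_a_ne G f0 h he, Fam.lift_ed]
      rfl
  · exact Fam.lift_vx _ _
  · rcases e with e | g
    · show (mx_F G f0 h hreg).lift (ed K G e.1) = _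
      rw [Fam.lift_ed]
      exact mx_a_ne G f0 h e.2
    · show (mx_F G f0 h hreg).lift (ed K G f0 * ed K G g) = _
      rw [map_mul, Fam.lift_ed, Fam.lift_ed]
      show mx_a K G f0 h f0 * mx_a K G f0 h g = _
      rw [mx_a_eq, mx_a_ne G f0 h (mx_ne h g), Finset.sum_mul, Finset.sum_eq_single g]
      · rw [mul_assoc, gh_ed]
        exact ed_r (K := K) (G := expG G f0) (Sum.inr g)
      · intro g' _ hg'
        rw [mul_assoc, gh_ed_ne, mul_zero]
        intro e'
        apply hg'
        exact Subtype.ext (congrArg (fun z : {e : E // e ≠ f0} => z.1) (Sum.inl.inj e'))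
      · intro hg
        exact absurd (Finset.mem_univ g) hg

end Pool.Agent.Work.MP_2b4d3b_al
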