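import Pool.Agent.Work.MP_2b4d3b_al.Perm
import Pool.Agent.Work.MP_2b4d3b_al.MoveX

/-!
MODULE MatX. Matrix form of the edge expansion: row i becomes row i - e_j + row j.
Apply SI.moveX to mGr A with f0 = ⟨i, j, 0⟩ and SI.toMat to expG: the number of edges from x to y
of expG is rowX A i j x y (count with Fintype.card; subtypes of sums and sigmas).
-/

set_option linter.unusedVariables false
set_option linter.style.longLine false

namespace Pool.Agent.Work.MP_2b4d3b_al

open Matrix

universe u v w u' v' w'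

/-- one edge from i to j is replaced by the edges i to r g for the edges g leaving j -/
def rowX {V : Type} [DecidableEq V] (A : V → V → ℕ) (i j : V) : V → V → ℕ := fun x y =>
  if x = i then A i y + A j y - (if y = j then 1 else 0) else A x y

/-- edges of mGr A from x to y -/
def matXEdge {V : Type} (A : V → V → ℕ) (x y : V) :
    {e : (Σ x y : V, Fin (A x y)) // (mGr A).s e = x ∧ (mGr A).r e = y} ≃ Fin (A x y) where
  toFun e := Fin.cast (congrArg₂ A e.2.1 e.2.2) e.1.2.2
  invFun t := ⟨⟨x, y, t⟩, rfl, rfl⟩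
  left_inv := by
    rintro ⟨⟨x', y', t⟩, h1, h2⟩
    cases h1
    cases h2
    rfl
  right_inv t := rfl

theorem matX_card {V : Type} (A : V → V → ℕ) (x y : V) :
    Nat.card {e : (Σ x y : V, Fin (A x y)) // (mGr A).s e = x ∧ (mGr A).r e = y} = A x y := by
  rw [Nat.card_congr (matXEdge A x y), Nat.card_eq_fintype_card, Fintype.card_fin]

instance matX_fin {V : Type} (A : V → V → ℕ) (x y : V) :
    Finite {e : (Σ x y : V, Fin (A x y)) // (mGr A).s e = x ∧ (mGr A).r e = y} :=
  Finite.of_equiv _ (matXEdge A x y).symm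

theorem matX_remove {α : Type} (p : α → Prop) [Finite {a // p a}] (a0 : α) (h : p a0) :
    Nat.card {a : {a // a ≠ a0} // p a.1} = Nat.card {a // p a} - 1 := by
  classical
  have : Fintype {a // p a} := Fintype.ofFinite _
  have e : {a : {a // a ≠ a0} // p a.1} ≃ {a : {a // p a} // a ≠ ⟨a0, h⟩} :=
    { toFun := fun a => ⟨⟨a.1.1, a.2⟩, fun hh => a.1.2 (congrArg Subtype.val hh)⟩
      invFun := fun a => ⟨⟨a.1.1, fun hh => a.2 (Subtype.ext hh)⟩, a.1.2⟩
      left_inv := fun a => rfl
      right_inv := fun a => rfl }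
  rw [Nat.card_congr e, Nat.card_eq_fintype_card, Nat.card_eq_fintype_card,
    Fintype.card_subtype_compl, Fintype.card_subtype_eq]

theorem matX_remove' {α : Type} (p : α → Prop) (a0 : α) (h : ¬ p a0) :
    Nat.card {a : {a // a ≠ a0} // p a.1} = Nat.card {a // p a} := by
  refine Nat.card_congr
    { toFun := fun a => ⟨a.1.1, a.2⟩
      invFun := fun a => ⟨⟨a.1, fun hh => h (hh ▸ a.2)⟩, a.2⟩
      left_inv := fun a => rfl
      right_inv := fun a => rfl }

theorem SI.matX {K : Type u} [Field K] [StarRing K] {V : Type} [Fintype V] [DecidableEq V]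
    (A : V → V → ℕ) (i j : V) (hij : i ≠ j) (h1 : 1 ≤ A i j) (h2 : ∃ y, A j y ≠ 0) :
    SI K (LM K A) (LM K (rowX A i j)) := by
  classical
  let f0 : (Σ x y : V, Fin (A x y)) := ⟨i, j, ⟨0, h1⟩⟩
  have hs0 : (mGr A).s f0 = i := rfl
  have hr0 : (mGr A).r f0 = j := rfl
  refine (SI.moveX (mGr A) f0 (by rw [hs0, hr0]; exact hij) ?_).trans ?_
  · obtain ⟨y, hy⟩ := h2
    exact ⟨⟨j, y, ⟨0, Nat.pos_of_ne_zero hy⟩⟩, rfl⟩
  · refine SI.toMat _ _ fun x y => ?_
    have hc : Nat.card {e : {e : (Σ x y : V, Fin (A x y)) // e ≠ f0} ⊕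
        {g : (Σ x y : V, Fin (A x y)) // (mGr A).s g = (mGr A).r f0} //
        (expG (mGr A) f0).s e = x ∧ (expG (mGr A) f0).r e = y} = rowX A i j x y := by
      rw [Nat.card_congr Equiv.subtypeSum]
      have hA : Nat.card {a : {e : (Σ x y : V, Fin (A x y)) // e ≠ f0} //
          (expG (mGr A) f0).s (Sum.inl a) = x ∧ (expG (mGr A) f0).r (Sum.inl a) = y} =
          if x = i ∧ y = j then A x y - 1 else A x y := by
        change Nat.card {a : {e : (Σ x y : V, Fin (A x y)) // e ≠ f0} //
          (mGr A).s a.1 = x ∧ (mGr A).r a.1 = y} = _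
        split_ifs with h
        · rw [matX_remove (fun e => (mGr A).s e = x ∧ (mGr A).r e = y) f0
            ⟨by rw [hs0, h.1], by rw [hr0, h.2]⟩, matX_card]
        · rw [matX_remove' (fun e => (mGr A).s e = x ∧ (mGr A).r e = y) f0
            (fun hh => h ⟨by rw [← hh.1, hs0], by rw [← hh.2, hr0]⟩), matX_card]
      have hB : Nat.card {a : {g : (Σ x y : V, Fin (A x y)) // (mGr A).s g = (mGr A).r f0} //
          (expG (mGr A) f0).s (Sum.inr a) = x ∧ (expG (mGr A) f0).r (Sum.inr a) = y} =
          if x = i then A j y else 0 := by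
        change Nat.card {a : {g : (Σ x y : V, Fin (A x y)) // (mGr A).s g = (mGr A).r f0} //
          i = x ∧ (mGr A).r a.1 = y} = _
        split_ifs with h
        · rw [← matX_card A j y]
          refine Nat.card_congr
            { toFun := fun a => ⟨a.1.1, by rw [a.1.2, hr0], a.2.2⟩
              invFun := fun a => ⟨⟨a.1, by rw [a.2.1, hr0]⟩, h.symm, a.2.2⟩
              left_inv := fun a => rfl
              right_inv := fun a => rfl }
        · have : IsEmpty {a : {g : (Σ x y : V, Fin (A x y)) // (mGr A).s g = (mGr A).r f0} //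
              i = x ∧ (mGr A).r a.1 = y} := ⟨fun a => h a.2.1.symm⟩
          exact Nat.card_of_isEmpty
      have f1 : Finite {a : {e : (Σ x y : V, Fin (A x y)) // e ≠ f0} //
          (expG (mGr A) f0).s (Sum.inl a) = x ∧ (expG (mGr A) f0).r (Sum.inl a) = y} := by
        infer_instance
      have f2 : Finite {a : {g : (Σ x y : V, Fin (A x y)) // (mGr A).s g = (mGr A).r f0} //
          (expG (mGr A) f0).s (Sum.inr a) = x ∧ (expG (mGr A) f0).r (Sum.inr a) = y} := by
        infer_instance
      rw [Nat.card_sum, hA, hB]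
      unfold rowX
      by_cases hx : x = i
      · subst hx
        by_cases hy : y = j
        · subst hy
          simp
          omega
        · simp [hy]
      · simp [hx]
    exact ⟨Finite.equivFinOfCardEq hc⟩

end Pool.Agent.Work.MP_2b4d3b_al
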