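import Pool.Agent.Work.MP_2b4d3b_al.Sat

/-!
MODULE RStar. Row i := row i + sum over j ≠ i of P i j * row j (off-diagonal parts, old rows j).
Process the vertices i in order of decreasing ρ (ρ from Reduced; ρ is strictly decreasing along
Rch): when i is processed the rows j with Rch i j, j ≠ i are still the old ones; each addition is
Has.row i j (A i j ≠ 0 by saturation and stays so; if j is a sink then off A j = 0 and nothing has to
be done). Suggested formal device: for a finset D closed upwards (or list sorted by ρ) prove
Has A ↔ Has A_D where A_D has new rows for i in D and old rows otherwise, by induction.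
-/

set_option linter.unusedVariables false
set_option linter.style.longLine false

namespace Pool.Agent.Work.MP_2b4d3b_al

open Matrix

universe u v w u' v' w'

private theorem rs_rho {V : Type} {A : V → V → ℕ} (hA : Reduced A) : ∃ ρ : V → ℕ,
    ∀ x y, Rch A x y → x ≠ y → ρ y < ρ x := by
  obtain ⟨⟨ρ, hρ⟩, -, -⟩ := hA
  refine ⟨ρ, fun x y h => ?_⟩
  induction h with
  | refl => exact fun h => absurd rfl h
  | @tail y z hxy hyz ih =>
    intro hxz
    by_cases h1 : y = z
    · subst h1
      exact ih hxz
    · have h2 := hρ y z h1 hyz
      by_cases h3 : x = y
      · subst h3
        exact h2
      · exact h2.trans (ih h3)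

section
variable {K : Type u} [Field K] [StarRing K] {X : Type u'} [Ring X] [Algebra K X] [Star X]
  {V : Type} [Fintype V] [DecidableEq V] {b : V → ℕ}

private theorem row_iter {M : V → V → ℕ} {i j : V} (hij : i ≠ j) (h1 : 1 ≤ M i j)
    (hl : M j j = 1) (c : ℕ) : Has K X M b ↔
      Has K X (fun x y => if x = i then M i y + c * off M j y else M x y) b := by
  induction c with
  | zero =>
    have : (fun x y => if x = i then M i y + 0 * off M j y else M x y) = M := by
      funext x y
      split_ifs with h
      · rw [h, zero_mul, add_zero]
      · rfl
    rw [this]
  | succ c ih =>
    rw [ih, Has.row i j hij]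
    · have : rowX (fun x y => if x = i then M i y + c * off M j y else M x y) i j =
          fun x y => if x = i then M i y + (c + 1) * off M j y else M x y := by
        funext x y
        unfold rowX
        by_cases hx : x = i
        · simp only [if_pos hx, if_neg (Ne.symm hij), if_true]
          by_cases hy : y = j
          · subst hy
            simp only [if_true, off, hl]
            omega
          · have h2 : off M j y = M j y := by simp [off, Ne.symm hy]
            simp only [if_neg hy, h2]
            ring_nf
            omega
        · simp only [if_neg hx]
      rw [this]
    · simp only [if_true]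
      omega
    · refine ⟨j, ?_⟩
      simp only [if_neg (Ne.symm hij), hl]
      exact one_ne_zero

private theorem row_all {M : V → V → ℕ} {a : V} (p : V → ℕ) (t : Finset V) (ha : a ∉ t)
    (ht : ∀ z ∈ t, p z ≠ 0 → off M z = 0 ∨ (1 ≤ M a z ∧ M z z = 1)) : Has K X M b ↔
      Has K X (fun x y => if x = a then M a y + ∑ z ∈ t, p z * off M z y else M x y) b := by
  induction t using Finset.induction_on with
  | empty =>
    have : (fun x y => if x = a then M a y + ∑ z ∈ (∅ : Finset V), p z * off M z y else M x y) =
        M := by
      funext x y
      split_ifs with h
      · simp [h]
      · rfl
    rw [this]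
  | insert z t hz ih =>
    have haz : a ≠ z := fun h => ha (by rw [h]; exact Finset.mem_insert_self z t)
    rw [ih (fun h => ha (Finset.mem_insert_of_mem h)) fun w hw => ht w (Finset.mem_insert_of_mem hw)]
    have h1 := ht z (Finset.mem_insert_self z t)
    have e : ∀ y, M a y + ∑ w ∈ insert z t, p w * off M w y =
        M a y + ∑ w ∈ t, p w * off M w y + p z * off M z y := by
      intro y
      rw [Finset.sum_insert hz]
      ring
    by_cases hp : p z = 0
    · simp only [e, hp, zero_mul, add_zero]
    · rcases h1 hp with h2 | ⟨h2, h3⟩
      · simp only [e, h2, Pi.zero_apply, mul_zero, add_zero]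
      · rw [row_iter (i := a) (j := z) haz (by simp only [if_true]; omega)
          (by simp only [if_neg (Ne.symm haz)]; exact h3) (p z)]
        have e2 : off (fun x y => if x = a then M a y + ∑ z ∈ t, p z * off M z y else M x y) z =
            off M z := by
          funext y
          simp only [off, if_neg (Ne.symm haz)]
        have e3 : (fun x y => if x = a then
            (fun x y => if x = a then M a y + ∑ z ∈ t, p z * off M z y else M x y) a y + p z *
              off (fun x y => if x = a then M a y + ∑ z ∈ t, p z * off M z y else M x y) z y
            else (fun x y => if x = a then M a y + ∑ z ∈ t, p z * off M z y else M x y) x y) =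
            fun x y => if x = a then M a y + ∑ w ∈ insert z t, p w * off M w y else M x y := by
          funext x y
          rw [e2]
          by_cases hx : x = a
          · simp only [if_pos hx, if_true, e]
          · simp only [if_neg hx]
        rw [e3]

end

theorem rstar {V : Type} [Fintype V] [DecidableEq V] (A A' P : V → V → ℕ) (hA : Reduced A)
    (hs : Saturated A) (hP1 : ∀ x, P x x = 1) (hP2 : ∀ x y, P x y ≠ 0 → Rch A x y)
    (hA' : ∀ x y, off A' x y = ∑ z, P x z * off A z y) (hd : ∀ x, A' x x = A x x)
    (K : Type u) [Field K] [StarRing K] (X : Type u') [Ring X] [Algebra K X] [Star X]
    (b : V → ℕ) : Has K X A b ↔ Has K X A' b := by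
  classical
  obtain ⟨ρ, hρ⟩ := rs_rho hA
  have key : ∀ s : Finset V, Has K X A b ↔ Has K X (fun x y => if x ∈ s then A' x y else A x y) b := by
    intro s
    induction s using Finset.induction_on_min_value ρ with
    | empty => simp
    | insert a s ha hmin ih =>
      rw [ih]
      have hrow : ∀ z, z ≠ a → P a z ≠ 0 → z ∉ s := by
        intro z hz hp hzs
        have h1 := hρ a z (hP2 a z hp) (Ne.symm hz)
        have h2 := hmin z hzs
        omega
      have hoff : ∀ z, z ∉ s → off (fun x y => if x ∈ s then A' x y else A x y) z = off A z := by
        intro z hz
        funext y
        simp only [off, if_neg hz]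
      rw [row_all (a := a) (P a) (Finset.univ.erase a) (Finset.notMem_erase a _)]
      · have e : (fun x y => if x = a then
            (fun x y => if x ∈ s then A' x y else A x y) a y +
              ∑ z ∈ Finset.univ.erase a, P a z *
                off (fun x y => if x ∈ s then A' x y else A x y) z y
            else (fun x y => if x ∈ s then A' x y else A x y) x y) =
            fun x y => if x ∈ insert a s then A' x y else A x y := by
          funext x y
          by_cases hx : x = a
          · subst hx
            simp only [if_true, if_neg ha, Finset.mem_insert_self]
            have e1 : ∑ z ∈ Finset.univ.erase x, P x z *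
                off (fun x y => if x ∈ s then A' x y else A x y) z y =
                ∑ z ∈ Finset.univ.erase x, P x z * off A z y := by
              refine Finset.sum_congr rfl fun z hz => ?_
              by_cases hp : P x z = 0
              · rw [hp, zero_mul, zero_mul]
              · rw [hoff z (hrow z (Finset.ne_of_mem_erase hz) hp)]
            rw [e1]
            have e2 := hA' x y
            rw [← Finset.add_sum_erase _ _ (Finset.mem_univ x), hP1, one_mul] at e2
            by_cases hxy : x = y
            · subst hxy
              have e3 : off A' x x = 0 := by simp [off]
              rw [hd]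
              omega
            · have e3 : off A' x y = A' x y := by simp [off, hxy]
              have e4 : off A x y = A x y := by simp [off, hxy]
              omega
          · simp only [Finset.mem_insert, hx, false_or, if_false]
        rw [e]
      · intro z hz hp
        have hza : z ≠ a := Finset.ne_of_mem_erase hz
        have hzs := hrow z hza hp
        rw [hoff z hzs]
        by_cases hl : A z z = 0
        · left
          funext y
          simp only [off, Pi.zero_apply]
          split_ifs
          · rfl
          · exact hA.2.2 z hl y
        · right
          simp only [if_neg ha, if_neg hzs]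
          have h1 := hs a z (Ne.symm hza) (hP2 a z hp)
          have h2 := hA.2.1 z
          omega
  have := key Finset.univ
  simpa using this

end Pool.Agent.Work.MP_2b4d3b_al
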