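import Pool.Agent.Work.MP_2b4d3b_al.Defs

/-!
Helper for Perm, MoveX, MoveO: families compatible with the involution, and a criterion for SI
which needs only the vertices and edges.
-/

set_option linter.unusedVariables false
set_option linter.style.longLine false

namespace Pool.Agent.Work.MP_2b4d3b_al

open Matrix

universe u v w u' v' w'

section
variable {K : Type u} [Field K] [StarRing K] {V : Type v} {E : Type w} {G : Gr V E}
  {V' : Type v'} {E' : Type w'} {G' : Gr V' E'}

/-- A family with ghosts the star images of the edges. -/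
noncomputable def sFam (p : V → LPA K G') (a : E → LPA K G') (hp : ∀ x, star (p x) = p x)
    (vv : ∀ x, p x * p x = p x) (vw : ∀ x y, x ≠ y → p x * p y = 0)
    (se : ∀ e, p (G.s e) * a e = a e) (er : ∀ e, a e * p (G.r e) = a e)
    (ge : ∀ e, star (a e) * a e = p (G.r e)) (gf : ∀ e f, e ≠ f → star (a e) * a f = 0)
    (ck : ∀ (x : V) (S : Finset E), (∀ e, e ∈ S ↔ G.s e = x) → S.Nonempty →
      p x = ∑ e ∈ S, a e * star (a e))
    (one : ∀ T : Finset V, (∀ x, x ∈ T) → (1 : LPA K G') = ∑ x ∈ T, p x) :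
    Fam K G (LPA K G') where
  p := p
  a := a
  b e := star (a e)
  vv := vv
  vw := vw
  se := se
  er := er
  rg e := by
    have := congrArg star (er e)
    rwa [star_mul, hp] at this
  gs e := by
    have := congrArg star (se e)
    rwa [star_mul, hp] at this
  ge := ge
  gf := gf
  ck := ck
  one := one

theorem Fam.lift_star (F : Fam K G (LPA K G')) (hp : ∀ x, star (F.p x) = F.p x)
    (hb : ∀ e, F.b e = star (F.a e)) (x : LPA K G) : F.lift (star x) = star (F.lift x) := by
  induction x using LPA.ind with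
  | hK k => rw [star_alg, AlgHom.commutes, AlgHom.commutes, star_alg]
  | hv x => rw [star_vx, Fam.lift_vx, hp]
  | he e => rw [star_ed, Fam.lift_gh, Fam.lift_ed, hb]
  | hg e => rw [star_gh, Fam.lift_gh, Fam.lift_ed, hb, star_star]
  | hadd a b h1 h2 => rw [star_add, map_add, h1, h2, map_add, star_add]
  | hmul a b h1 h2 => rw [star_mul, map_mul, h1, h2, map_mul, star_mul]

theorem SI.ofFam (F : Fam K G (LPA K G')) (F' : Fam K G' (LPA K G))
    (hp : ∀ x, star (F.p x) = F.p x) (hb : ∀ e, F.b e = star (F.a e))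
    (hp' : ∀ x, star (F'.p x) = F'.p x) (hb' : ∀ e, F'.b e = star (F'.a e))
    (c1 : ∀ x, F'.lift (F.p x) = vx K G x) (c2 : ∀ e, F'.lift (F.a e) = ed K G e)
    (d1 : ∀ x, F.lift (F'.p x) = vx K G' x) (d2 : ∀ e, F.lift (F'.a e) = ed K G' e) :
    SI K (LPA K G) (LPA K G') := by
  refine SI.mk' F.lift F'.lift ?_ ?_ ?_ ?_
  · refine hom_ext (fun x => ?_) (fun e => ?_) (fun e => ?_)
    · rw [AlgHom.comp_apply, Fam.lift_vx, c1]; rfl
    · rw [AlgHom.comp_apply, Fam.lift_ed, c2]; rfl
    · rw [AlgHom.comp_apply, Fam.lift_gh, hb, F'.lift_star hp' hb', c2, star_ed]; rfl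
  · refine hom_ext (fun x => ?_) (fun e => ?_) (fun e => ?_)
    · rw [AlgHom.comp_apply, Fam.lift_vx, d1]; rfl
    · rw [AlgHom.comp_apply, Fam.lift_ed, d2]; rfl
    · rw [AlgHom.comp_apply, Fam.lift_gh, hb', F.lift_star hp hb, d2, star_ed]; rfl
  · intro x
    rw [Fam.lift_vx, hp]
  · intro e
    rw [Fam.lift_ed, Fam.lift_gh, hb]

omit [StarRing K] in
theorem ck_if [Fintype E] [DecidableEq V] (x : V) (hx : ∃ e, G.s e = x) :
    vx K G x = ∑ e, if G.s e = x then ed K G e * gh K G e else 0 := by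
  obtain ⟨e, he⟩ := hx
  rw [ck_sum (K := K) (G := G) x (Finset.univ.filter fun e => G.s e = x) (fun e => by simp)
    ⟨e, by simpa using he⟩, Finset.sum_filter]

/-- the relation ck from the form with if -/
theorem if_ck {A : Type u'} [AddCommMonoid A] [Fintype E] [DecidableEq V] {p : V → A} {c : E → A}
    (h : ∀ x, (∃ e, G.s e = x) → p x = ∑ e, if G.s e = x then c e else 0)
    (x : V) (S : Finset E) (hS : ∀ e, e ∈ S ↔ G.s e = x) (hne : S.Nonempty) :
    p x = ∑ e ∈ S, c e := by
  classical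
  obtain ⟨e, he⟩ := hne
  rw [h x ⟨e, (hS e).1 he⟩, ← Finset.sum_filter]
  refine Finset.sum_congr ?_ fun _ _ => rfl
  ext e
  rw [hS]
  simp

theorem sum_if_sub {A : Type u'} [AddCommMonoid A] {I : Type w'} [Fintype I] (P : I → Prop)
    [DecidablePred P] (c : I → A) : (∑ i, if P i then c i else 0) = ∑ i : {i // P i}, c i := by
  classical
  rw [← Finset.sum_filter]
  exact Finset.sum_subtype _ (fun i => by simp) c

theorem sum_dif_sub {A : Type u'} [AddCommMonoid A] {I : Type w'} [Fintype I] (P : I → Prop)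
    [DecidablePred P] (c : {i // P i} → A) :
    (∑ i, if h : P i then c ⟨i, h⟩ else 0) = ∑ i : {i // P i}, c i := by
  classical
  have h1 : (∑ i, if h : P i then c ⟨i, h⟩ else 0) =
      ∑ i, if P i then (if h : P i then c ⟨i, h⟩ else 0) else 0 := by
    refine Finset.sum_congr rfl fun i _ => ?_
    by_cases h : P i
    · rw [if_pos h]
    · rw [if_neg h, dif_neg h]
  rw [h1, sum_if_sub P fun i => if h : P i then c ⟨i, h⟩ else 0]
  exact Finset.sum_congr rfl fun i _ => dif_pos i.2

end

end Pool.Agent.Work.MP_2b4d3b_al
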