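import Pool.Agent.Work.MP_2b4d3b_al.MacB

/-!
MODULE Sat. Saturation by row moves: as long as there are x, z, y distinct with A x z ≠ 0,
A z y ≠ 0, A x y = 0, apply Has.row x z (z has a loop by Reduced, so rowX A x z adds off A z to row
x: row x - e_z + row z with A z z = 1): the number of pairs with A x y ≠ 0 grows, Rch, Reduced and
the diagonal are unchanged (same ρ works up to using ρ x = number of vertices reachable from x, or
keep the old ρ: the new entries x y have Rch A x y), P is multiplied by the elementary matrix.
When no such triple exists, Rch A x y and x ≠ y give A x y ≠ 0.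
-/

set_option linter.unusedVariables false
set_option linter.style.longLine false

namespace Pool.Agent.Work.MP_2b4d3b_al

open Matrix

universe u v w u' v' w'

def Saturated {V : Type} (A : V → V → ℕ) : Prop := ∀ x y, x ≠ y → Rch A x y → A x y ≠ 0

private theorem sat_of_no {V : Type} {A : V → V → ℕ}
    (h : ¬ ∃ x z y, x ≠ z ∧ z ≠ y ∧ x ≠ y ∧ A x z ≠ 0 ∧ A z y ≠ 0 ∧ A x y = 0) : Saturated A := by
  intro x y hxy hr
  have key : x = y ∨ A x y ≠ 0 := by
    clear hxy
    induction hr with
    | refl => exact Or.inl rfl
    | @tail z y hr hstep ih =>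
      rcases ih with rfl | ih
      · exact Or.inr hstep
      · by_cases h1 : x = y
        · exact Or.inl h1
        · right
          intro h2
          by_cases h3 : z = y
          · subst h3
            exact ih h2
          · by_cases h4 : x = z
            · subst h4
              exact hstep h2
            · exact h ⟨x, z, y, h4, h3, h1, ih, hstep, h2⟩
  exact key.resolve_left hxy

/-- `ρ` decreases along paths. -/
private theorem sat_rho {V : Type} {A : V → V → ℕ} {ρ : V → ℕ}
    (hρ : ∀ x y, x ≠ y → A x y ≠ 0 → ρ y < ρ x) {x y : V} (h : Rch A x y) : x = y ∨ ρ y < ρ x := by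
  induction h with
  | refl => exact Or.inl rfl
  | @tail z y _ hs ih =>
    by_cases h1 : z = y
    · subst h1
      exact ih
    · have h2 := hρ z y h1 hs
      rcases ih with rfl | ih
      · exact Or.inr h2
      · exact Or.inr (h2.trans ih)

private theorem sat_step {V : Type} [Fintype V] [DecidableEq V] (A : V → V → ℕ)
    (hA : Reduced A) {i j : V} (hij : i ≠ j) (h1 : A i j ≠ 0) (h2 : ∃ y, y ≠ j ∧ A j y ≠ 0) :
    Reduced (rowX A i j) ∧ (∀ x y, Rch (rowX A i j) x y ↔ Rch A x y) ∧
      (∀ x, rowX A i j x x = A x x) ∧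
      (∀ x y, off (rowX A i j) x y = off A x y + if x = i then off A j y else 0) ∧
      (∀ x y, A x y ≠ 0 → rowX A i j x y ≠ 0) ∧ (∀ y, A j y ≠ 0 → rowX A i j i y ≠ 0) := by
  obtain ⟨⟨ρ, hρ⟩, hd1, hd2⟩ := hA
  have hjj : A j j = 1 := by
    obtain ⟨y, -, hy⟩ := h2
    have h3 : A j j ≠ 0 := fun h => hy (hd2 j h y)
    have := hd1 j
    omega
  have hji : A j i = 0 := by
    by_contra h
    have h3 := hρ j i hij.symm h
    have h4 := hρ i j hij h1
    omega
  -- entries
  have he : ∀ x y, rowX A i j x y = if x = i then A i y + (if y = j then 0 else A j y) else A x y := by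
    intro x y
    simp only [rowX]
    split_ifs with h3 h4
    · subst h4
      omega
    · omega
    · rfl
  have hdiag : ∀ x, rowX A i j x x = A x x := by
    intro x
    rw [he]
    split_ifs with h3 h4
    · subst h3; rfl
    · subst h3; omega
    · rfl
  have hup : ∀ x y, A x y ≠ 0 → rowX A i j x y ≠ 0 := by
    intro x y h
    rw [he]
    split_ifs with h3 h4
    · subst h3; omega
    · subst h3; omega
    · exact h
  have hdown : ∀ x y, rowX A i j x y ≠ 0 → A x y ≠ 0 ∨ (x = i ∧ y ≠ j ∧ A j y ≠ 0) := by
    intro x y h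
    rw [he] at h
    split_ifs at h with h3 h4
    · subst h3; left; omega
    · subst h3
      by_cases h5 : A x y = 0
      · right
        exact ⟨rfl, h4, by omega⟩
      · exact Or.inl h5
    · exact Or.inl h
  refine ⟨⟨⟨ρ, ?_⟩, ?_, ?_⟩, ?_, hdiag, ?_, hup, ?_⟩
  · intro x y hxy h
    rcases hdown x y h with h3 | ⟨rfl, h3, h4⟩
    · exact hρ x y hxy h3
    · exact (hρ j y h3.symm h4).trans (hρ x j hij h1)
  · intro x
    rw [hdiag]
    exact hd1 x
  · intro x hx y
    rw [hdiag] at hx
    by_contra h
    rcases hdown x y h with h3 | ⟨rfl, h3, h4⟩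
    · exact h3 (hd2 x hx y)
    · exact h1 (hd2 x hx j)
  · intro x y
    constructor
    · intro h
      induction h with
      | refl => exact Relation.ReflTransGen.refl
      | tail _ hs ih =>
        rcases hdown _ _ hs with h3 | ⟨rfl, h3, h4⟩
        · exact ih.tail h3
        · exact (ih.tail h1).tail h4
    · intro h
      induction h with
      | refl => exact Relation.ReflTransGen.refl
      | tail _ hs ih => exact ih.tail (hup _ _ hs)
  · intro x y
    simp only [off]
    by_cases h3 : x = y
    · subst h3
      rw [if_pos rfl, if_pos rfl]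
      by_cases h4 : x = i
      · subst h4
        rw [if_pos rfl, if_neg hij.symm, hji]
      · rw [if_neg h4]
    · rw [if_neg h3, if_neg h3, he]
      by_cases h4 : x = i
      · subst h4
        rw [if_pos rfl, if_pos rfl]
        by_cases h5 : y = j
        · subst h5
          simp
        · rw [if_neg h5, if_neg (fun h => h5 h.symm)]
      · rw [if_neg h4, if_neg h4, add_zero]
  · intro y hy
    rw [he, if_pos rfl]
    by_cases h5 : y = j
    · subst h5
      rw [if_pos rfl]
      exact h1
    · rw [if_neg h5]
      omega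

private theorem sat_aux {V : Type} [Fintype V] [DecidableEq V] (N : ℕ) : ∀ (A : V → V → ℕ),
    Reduced A → (Finset.univ.filter fun p : V × V => A p.1 p.2 = 0).card = N →
    ∃ (A' P : V → V → ℕ), Reduced A' ∧ Saturated A' ∧
      (∀ x y, Rch A' x y ↔ Rch A x y) ∧ (∀ x, A' x x = A x x) ∧ (∀ x, P x x = 1) ∧
      (∀ x y, P x y ≠ 0 → Rch A x y) ∧ (∀ x y, off A' x y = ∑ z, P x z * off A z y) ∧
      ∀ (K : Type u) [Field K] [StarRing K] (X : Type u') [Ring X] [Algebra K X] [Star X]
        (b : V → ℕ), Has K X A b ↔ Has K X A' b := by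
  induction N using Nat.strong_induction_on with
  | _ N ih =>
    intro A hA hN
    by_cases hex : ∃ x z y, x ≠ z ∧ z ≠ y ∧ x ≠ y ∧ A x z ≠ 0 ∧ A z y ≠ 0 ∧ A x y = 0
    · obtain ⟨i, j, y0, hij, hjy, hiy, h1, h2, h3⟩ := hex
      obtain ⟨s1, s2, s3, s4, s5, s6⟩ := sat_step A hA hij h1 ⟨y0, hjy.symm, h2⟩
      have hlt : (Finset.univ.filter fun p : V × V => rowX A i j p.1 p.2 = 0).card < N := by
        rw [← hN]
        apply Finset.card_lt_card
        rw [Finset.ssubset_iff_of_subset]
        · refine ⟨(i, y0), ?_, ?_⟩
          · rw [Finset.mem_filter]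
            exact ⟨Finset.mem_univ _, h3⟩
          · rw [Finset.mem_filter]
            rintro ⟨-, h⟩
            exact s6 y0 h2 h
        · intro p hp
          rw [Finset.mem_filter] at hp ⊢
          refine ⟨Finset.mem_univ _, ?_⟩
          by_contra h
          exact s5 p.1 p.2 h hp.2
      obtain ⟨A', P, t1, t2, t3, t4, t5, t6, t7, t8⟩ := ih _ hlt (rowX A i j) s1 rfl
      obtain ⟨⟨ρ, hρ⟩, hd1, hd2⟩ := hA
      refine ⟨A', fun x y => P x y + if y = j then P x i else 0, t1, t2,
        fun x y => (t3 x y).trans (s2 x y), fun x => (t4 x).trans (s3 x), ?_, ?_, ?_, ?_⟩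
      · intro x
        simp only
        rw [t5]
        split_ifs with h4
        · subst h4
          have h5 : P x i = 0 := by
            by_contra h
            have h6 := sat_rho hρ ((s2 _ _).1 (t6 x i h))
            rcases h6 with h6 | h6
            · exact hij h6.symm
            · have h7 := hρ i x hij h1
              omega
          rw [h5]
        · rfl
      · intro x y h
        by_cases h4 : P x y = 0
        · simp only [h4, zero_add] at h
          split_ifs at h with h5
          · subst h5
            exact ((s2 _ _).1 (t6 x i h)).tail h1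
          · exact absurd rfl h
        · exact (s2 _ _).1 (t6 x y h4)
      · intro x y
        rw [t7]
        simp only [s4, add_mul, mul_add, Finset.sum_add_distrib]
        congr 1
        simp only [mul_ite, mul_zero, ite_mul, zero_mul, Finset.sum_ite_eq', Finset.mem_univ,
          if_true]
      · intro K _ _ X _ _ _ b
        exact (Has.row i j hij (Nat.one_le_iff_ne_zero.2 h1) ⟨y0, h2⟩).trans (t8 K X b)
    · refine ⟨A, fun x y => if x = y then 1 else 0, hA, sat_of_no hex, fun _ _ => Iff.rfl,
        fun _ => rfl, fun x => if_pos rfl, ?_, ?_, fun K _ _ X _ _ _ b => Iff.rfl⟩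
      · intro x y h
        by_cases h4 : x = y
        · subst h4
          exact Relation.ReflTransGen.refl
        · exact absurd (if_neg h4) h
      · intro x y
        simp only [ite_mul, one_mul, zero_mul, Finset.sum_ite_eq, Finset.mem_univ, if_true]

theorem exists_saturated {V : Type} [Fintype V] [DecidableEq V] (A : V → V → ℕ)
    (hA : Reduced A) : ∃ (A' P : V → V → ℕ), Reduced A' ∧ Saturated A' ∧
      (∀ x y, Rch A' x y ↔ Rch A x y) ∧ (∀ x, A' x x = A x x) ∧ (∀ x, P x x = 1) ∧
      (∀ x y, P x y ≠ 0 → Rch A x y) ∧ (∀ x y, off A' x y = ∑ z, P x z * off A z y) ∧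
      ∀ (K : Type u) [Field K] [StarRing K] (X : Type u') [Ring X] [Algebra K X] [Star X]
        (b : V → ℕ), Has K X A b ↔ Has K X A' b :=
  sat_aux _ A hA rfl

end Pool.Agent.Work.MP_2b4d3b_al
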