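import Pool.Agent.Work.MP_2b4d3b_al.IdB

/-!
Structure data of the ideal generated by w (fixed file, nothing to prove): w A w is a commutative
ring R, A w is free over it on the c x, w A is free on the d x, d x * c y = w or 0.
-/

set_option linter.unusedVariables false
set_option linter.style.longLine false

namespace Pool.Agent.Work.MP_2b4d3b_al

open Matrix

universe u v w u' v' w'

/-- structure of the ideal generated by the idempotent w -/
structure WD (A : Type u) [Ring A] (R : Type v) [CommRing R] (X : Type w) where
  w : A
  ww : w * w = w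
  c : X → A
  d : X → A
  cw : ∀ x, c x * w = c x
  wd : ∀ x, w * d x = d x
  dc : ∀ x, d x * c x = w
  dc' : ∀ x y, x ≠ y → d x * c y = 0
  i : R → A
  i_add : ∀ r s, i (r + s) = i r + i s
  i_mul : ∀ r s, i (r * s) = i r * i s
  i_one : i 1 = w
  i_zero : i 0 = 0
  inj : Function.Injective i
  surj : ∀ a, ∃ r, w * a * w = i r
  span_c : ∀ a, ∃ f : X →₀ R, a * w = f.sum fun x r => c x * i r
  span_d : ∀ a, ∃ f : X →₀ R, w * a = f.sum fun x r => i r * d x

end Pool.Agent.Work.MP_2b4d3b_al
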