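import Pool.Agent.Work.MP_2b4d3b_al.WD

/-!
Part of MODULE WStruct (helper21): paths that never leave j, the path operators, spans.
-/

set_option linter.unusedVariables false
set_option linter.style.longLine false

namespace Pool.Agent.Work.MP_2b4d3b_al

open Matrix

universe u v w u' v' w'

namespace WS

section
variable {V E : Type} (G : Gr V E) (j : V)

/-- paths ending at j which do not use an edge with source j -/
inductive NP : V → Type
  | nil : NP j
  | cons (e : E) (h : G.s e ≠ j) (p : NP (G.r e)) : NP (G.s e)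

abbrev X := Σ x, NP G j x

end

section
variable {V E : Type} {G : Gr V E} {j : V}

def nl (G : Gr V E) (j : V) : X G j := ⟨j, .nil⟩

def cn (e : E) (h : G.s e ≠ j) (x : X G j) (hx : x.1 = G.r e) : X G j :=
  ⟨G.s e, .cons e h (hx ▸ x.2)⟩

theorem cn_mk (e : E) (h : G.s e ≠ j) (q : NP G j (G.r e)) (hx : (⟨G.r e, q⟩ : X G j).1 = G.r e) :
    cn e h ⟨G.r e, q⟩ hx = ⟨G.s e, .cons e h q⟩ := rfl

theorem X.cases {P : X G j → Prop} (h0 : P (nl G j))
    (h1 : ∀ e h x hx, P (cn e h x hx)) (x : X G j) : P x := by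
  obtain ⟨v, p⟩ := x
  cases p with
  | nil => exact h0
  | cons e h q => exact h1 e h ⟨_, q⟩ rfl

theorem X.ind {P : X G j → Prop} (h0 : P (nl G j))
    (h1 : ∀ e h x hx, P x → P (cn e h x hx)) (x : X G j) : P x := by
  obtain ⟨v, p⟩ := x
  induction p with
  | nil => exact h0
  | cons e h q ih => exact h1 e h ⟨_, q⟩ rfl ih

def un : X G j → Option (E × X G j)
  | ⟨_, .nil⟩ => none
  | ⟨_, .cons e _ q⟩ => some (e, ⟨G.r e, q⟩)

theorem un_nl : un (nl G j) = none := rfl

theorem un_cn (e : E) (h : G.s e ≠ j) (x : X G j) (hx : x.1 = G.r e) :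
    un (cn e h x hx) = some (e, x) := by
  obtain ⟨v, q⟩ := x
  cases hx
  rfl

theorem cn_fst (e : E) (h : G.s e ≠ j) (x : X G j) (hx : x.1 = G.r e) :
    (cn e h x hx).1 = G.s e := rfl

theorem nl_fst : (nl G j).1 = j := rfl

theorem cn_inj {e f : E} {h : G.s e ≠ j} {h' : G.s f ≠ j} {x y : X G j} {hx : x.1 = G.r e}
    {hy : y.1 = G.r f} (hh : cn e h x hx = cn f h' y hy) : e = f ∧ x = y := by
  have := congrArg un hh
  rw [un_cn, un_cn] at this
  simpa using this

theorem eq_nl {x : X G j} (h : x.1 = j) : x = nl G j := by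
  induction x using X.cases with
  | h0 => rfl
  | h1 e h' x hx => exact absurd h h'

theorem nl_ne_cn (e : E) (h : G.s e ≠ j) (x : X G j) (hx : x.1 = G.r e) :
    nl G j ≠ cn e h x hx := by
  intro hh
  have := congrArg un hh
  rw [un_cn, un_nl] at this
  simp at this

variable (K : Type u) [Field K]

/-- product of the edges -/
noncomputable def cP : ∀ {v : V}, NP G j v → LPA K G
  | _, .nil => vx K G j
  | _, .cons e _ q => ed K G e * cP q

noncomputable def dP : ∀ {v : V}, NP G j v → LPA K G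
  | _, .nil => vx K G j
  | _, .cons e _ q => dP q * gh K G e

noncomputable def c (x : X G j) : LPA K G := cP K x.2
noncomputable def d (x : X G j) : LPA K G := dP K x.2

theorem c_nl : c K (nl G j) = vx K G j := rfl
theorem d_nl : d K (nl G j) = vx K G j := rfl

theorem c_cn (e : E) (h : G.s e ≠ j) (x : X G j) (hx : x.1 = G.r e) :
    c K (cn e h x hx) = ed K G e * c K x := by
  obtain ⟨v, q⟩ := x
  cases hx
  rfl

theorem d_cn (e : E) (h : G.s e ≠ j) (x : X G j) (hx : x.1 = G.r e) :
    d K (cn e h x hx) = d K x * gh K G e := by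
  obtain ⟨v, q⟩ := x
  cases hx
  rfl

theorem v_c (x : X G j) : vx K G x.1 * c K x = c K x := by
  induction x using X.cases with
  | h0 => rw [c_nl]; exact vx_vx _
  | h1 e h x hx => rw [c_cn, cn_fst, ← mul_assoc, s_ed]

theorem v_c_ne (v : V) (x : X G j) (h : v ≠ x.1) : vx K G v * c K x = 0 := by
  rw [← v_c, ← mul_assoc, vx_ne h, zero_mul]

theorem d_v (x : X G j) : d K x * vx K G x.1 = d K x := by
  induction x using X.cases with
  | h0 => rw [d_nl]; exact vx_vx _
  | h1 e h x hx => rw [d_cn, cn_fst, mul_assoc, gh_s]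

theorem d_v_ne (v : V) (x : X G j) (h : v ≠ x.1) : d K x * vx K G v = 0 := by
  rw [← d_v, mul_assoc, vx_ne h.symm, mul_zero]

theorem c_w (x : X G j) : c K x * vx K G j = c K x := by
  induction x using X.ind with
  | h0 => rw [c_nl]; exact vx_vx _
  | h1 e h x hx ih => rw [c_cn, mul_assoc, ih]

theorem w_d (x : X G j) : vx K G j * d K x = d K x := by
  induction x using X.ind with
  | h0 => rw [d_nl]; exact vx_vx _
  | h1 e h x hx ih => rw [d_cn, ← mul_assoc, ih]

theorem d_c (x : X G j) : d K x * c K x = vx K G j := by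
  induction x using X.ind with
  | h0 => rw [d_nl, c_nl]; exact vx_vx _
  | h1 e h x hx ih =>
    rw [d_cn, c_cn, mul_assoc, ← mul_assoc (gh K G e), gh_ed, ← hx, v_c, ih]

theorem d_c_ne (x y : X G j) (hne : x ≠ y) : d K x * c K y = 0 := by
  induction x using X.ind generalizing y with
  | h0 =>
    rw [d_nl]
    refine v_c_ne K _ _ ?_
    intro h
    exact hne (eq_nl h.symm).symm
  | h1 e h x hx ih =>
    induction y using X.cases with
    | h0 => rw [c_nl]; exact d_v_ne K _ _ (fun hh => h hh.symm)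
    | h1 f h' y hy =>
      rw [d_cn, c_cn, mul_assoc, ← mul_assoc (gh K G e)]
      by_cases hef : e = f
      · subst hef
        rw [gh_ed, ← hy, v_c]
        apply ih
        rintro rfl
        exact hne rfl
      · rw [gh_ed_ne hef, zero_mul, mul_zero]

/-! ### Spans -/

theorem gen_cases {P : LPA K G → Prop} (hK : ∀ k : K, P (algebraMap K _ k))
    (hv : ∀ x, P (vx K G x)) (he : ∀ e, P (ed K G e)) (hg : ∀ e, P (gh K G e))
    (hadd : ∀ a b, P a → P b → P (a + b)) (hmul : ∀ a b, P a → P b → P (a * b)) (a : LPA K G) :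
    P a := LPA.ind hK hv he hg hadd hmul a

theorem span_left (hs : ∀ e, G.s e = j → G.r e = j) (Z : Set (LPA K G))
    (hZ : ∀ z ∈ Z, vx K G j * z = z) (hZe : ∀ e, G.s e = j → ∀ z ∈ Z, ed K G e * z ∈ Z)
    (hZg : ∀ e, G.s e = j → ∀ z ∈ Z, gh K G e * z ∈ Z)
    (hZk : ∀ (k : K), ∀ z ∈ Z, algebraMap K _ k * z ∈ Z) (a y : LPA K G)
    (hy : y ∈ AddSubmonoid.closure {y | ∃ (x : X G j) (z : LPA K G), z ∈ Z ∧ y = c K x * z}) :
    a * y ∈ AddSubmonoid.closure {y | ∃ (x : X G j) (z : LPA K G), z ∈ Z ∧ y = c K x * z} := by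
  set S := AddSubmonoid.closure {y | ∃ (x : X G j) (z : LPA K G), z ∈ Z ∧ y = c K x * z} with hS
  have key : ∀ b : LPA K G, (∀ (x : X G j), ∀ z ∈ Z, b * (c K x * z) ∈ S) →
      ∀ y ∈ S, b * y ∈ S := by
    intro b hb y hy
    induction hy using AddSubmonoid.closure_induction with
    | mem y hy =>
      obtain ⟨x, z, hz, rfl⟩ := hy
      exact hb x z hz
    | zero => rw [mul_zero]; exact S.zero_mem
    | add y z _ _ h1 h2 => rw [mul_add]; exact S.add_mem h1 h2
  have mem : ∀ (x : X G j), ∀ z ∈ Z, c K x * z ∈ S := fun x z hz =>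
    AddSubmonoid.subset_closure ⟨x, z, hz, rfl⟩
  have nlz : ∀ z ∈ Z, c K (nl G j) * z = z := fun z hz => by rw [c_nl, hZ z hz]
  revert y
  refine LPA.ind (P := fun a => ∀ y, y ∈ S → a * y ∈ S) ?_ ?_ ?_ ?_ ?_ ?_ a
  · intro k
    refine key _ fun x z hz => ?_
    rw [← mul_assoc, Algebra.commutes, mul_assoc]
    exact mem _ _ (hZk k z hz)
  · intro v
    refine key _ fun x z hz => ?_
    rw [← mul_assoc]
    by_cases hv : v = x.1
    · rw [hv, v_c]; exact mem _ _ hz
    · rw [v_c_ne K _ _ hv, zero_mul]; exact S.zero_mem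
  · intro e
    refine key _ fun x z hz => ?_
    rw [← mul_assoc]
    by_cases hv : G.r e = x.1
    · by_cases hse : G.s e = j
      · have hx : x = nl G j := eq_nl (by rw [← hv]; exact hs e hse)
        subst hx
        rw [mul_assoc, nlz z hz, ← nlz _ (hZe e hse z hz)]
        exact mem _ _ (hZe e hse z hz)
      · rw [← c_cn K e hse x hv.symm]
        exact mem _ _ hz
    · rw [← ed_r, mul_assoc (ed K G e), v_c_ne K _ _ hv, mul_zero, zero_mul]; exact S.zero_mem
  · intro e
    refine key _ fun x z hz => ?_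
    induction x using X.cases with
    | h0 =>
      rw [nlz z hz]
      by_cases hse : G.s e = j
      · rw [← nlz _ (hZg e hse z hz)]
        exact mem _ _ (hZg e hse z hz)
      · rw [← hZ z hz, ← mul_assoc, ← gh_s, mul_assoc (gh K G e), vx_ne hse, mul_zero, zero_mul]
        exact S.zero_mem
    | h1 f h x hx =>
      rw [c_cn]
      by_cases hef : e = f
      · subst hef
        rw [← mul_assoc, ← mul_assoc, gh_ed, ← hx, v_c]
        exact mem _ _ hz
      · rw [← mul_assoc, ← mul_assoc, gh_ed_ne hef, zero_mul, zero_mul]; exact S.zero_mem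
  · intro a b ha hb y hy
    rw [add_mul]
    exact S.add_mem (ha y hy) (hb y hy)
  · intro a b ha hb y hy
    rw [mul_assoc]
    exact ha _ (hb y hy)

theorem span_right (hs : ∀ e, G.s e = j → G.r e = j) (Z : Set (LPA K G))
    (hZ : ∀ z ∈ Z, z * vx K G j = z) (hZe : ∀ e, G.s e = j → ∀ z ∈ Z, z * ed K G e ∈ Z)
    (hZg : ∀ e, G.s e = j → ∀ z ∈ Z, z * gh K G e ∈ Z)
    (hZk : ∀ (k : K), ∀ z ∈ Z, z * algebraMap K _ k ∈ Z) (a y : LPA K G)
    (hy : y ∈ AddSubmonoid.closure {y | ∃ (x : X G j) (z : LPA K G), z ∈ Z ∧ y = z * d K x}) :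
    y * a ∈ AddSubmonoid.closure {y | ∃ (x : X G j) (z : LPA K G), z ∈ Z ∧ y = z * d K x} := by
  set S := AddSubmonoid.closure {y | ∃ (x : X G j) (z : LPA K G), z ∈ Z ∧ y = z * d K x} with hS
  have key : ∀ b : LPA K G, (∀ (x : X G j), ∀ z ∈ Z, (z * d K x) * b ∈ S) →
      ∀ y ∈ S, y * b ∈ S := by
    intro b hb y hy
    induction hy using AddSubmonoid.closure_induction with
    | mem y hy =>
      obtain ⟨x, z, hz, rfl⟩ := hy
      exact hb x z hz
    | zero => rw [zero_mul]; exact S.zero_mem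
    | add y z _ _ h1 h2 => rw [add_mul]; exact S.add_mem h1 h2
  have mem : ∀ (x : X G j), ∀ z ∈ Z, z * d K x ∈ S := fun x z hz =>
    AddSubmonoid.subset_closure ⟨x, z, hz, rfl⟩
  have nlz : ∀ z ∈ Z, z * d K (nl G j) = z := fun z hz => by rw [d_nl, hZ z hz]
  revert y
  refine LPA.ind (P := fun a => ∀ y, y ∈ S → y * a ∈ S) ?_ ?_ ?_ ?_ ?_ ?_ a
  · intro k
    refine key _ fun x z hz => ?_
    rw [mul_assoc, ← Algebra.commutes, ← mul_assoc]
    exact mem _ _ (hZk k z hz)
  · intro v
    refine key _ fun x z hz => ?_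
    rw [mul_assoc]
    by_cases hv : v = x.1
    · rw [hv, d_v]; exact mem _ _ hz
    · rw [d_v_ne K _ _ hv, mul_zero]; exact S.zero_mem
  · intro e
    refine key _ fun x z hz => ?_
    induction x using X.cases with
    | h0 =>
      rw [nlz z hz]
      by_cases hse : G.s e = j
      · rw [← nlz _ (hZe e hse z hz)]
        exact mem _ _ (hZe e hse z hz)
      · rw [← hZ z hz, mul_assoc, ← s_ed, ← mul_assoc (vx K G j), vx_ne (Ne.symm hse), zero_mul, mul_zero]
        exact S.zero_mem
    | h1 f h x hx =>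
      rw [d_cn]
      by_cases hef : f = e
      · subst hef
        rw [mul_assoc, mul_assoc, gh_ed, ← hx, d_v]
        exact mem _ _ hz
      · rw [mul_assoc, mul_assoc, gh_ed_ne hef, mul_zero, mul_zero]; exact S.zero_mem
  · intro e
    refine key _ fun x z hz => ?_
    rw [mul_assoc]
    by_cases hv : G.r e = x.1
    · by_cases hse : G.s e = j
      · have hx : x = nl G j := eq_nl (by rw [← hv]; exact hs e hse)
        subst hx
        rw [← mul_assoc, nlz z hz, ← nlz _ (hZg e hse z hz)]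
        exact mem _ _ (hZg e hse z hz)
      · rw [← d_cn K e hse x hv.symm]
        exact mem _ _ hz
    · rw [← r_gh, ← mul_assoc (d K x), d_v_ne K _ _ hv, zero_mul, mul_zero]; exact S.zero_mem
  · intro a b ha hb y hy
    rw [mul_add]
    exact S.add_mem (ha y hy) (hb y hy)
  · intro a b ha hb y hy
    rw [← mul_assoc]
    exact hb _ (ha y hy)

theorem c_reach (x : X G j) : GRch G x.1 j := by
  induction x using X.ind with
  | h0 => exact Relation.ReflTransGen.refl
  | h1 e h x hx ih =>
    exact Relation.ReflTransGen.head ⟨e, rfl, hx.symm⟩ ih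

theorem reach_ne (hs : ∀ e, G.s e = j → G.r e = j) (v : V) (a : LPA K G)
    (h : vx K G v * a * vx K G j ≠ 0) : GRch G v j := by
  have hm := span_left (j := j) K hs {z | vx K G j * z = z} (fun z hz => hz)
    (fun e he z hz => by
      change vx K G j * (ed K G e * z) = ed K G e * z
      rw [← mul_assoc, ← he, s_ed])
    (fun e he z hz => by
      change vx K G j * (gh K G e * z) = gh K G e * z
      conv_lhs => rw [← hs e he]
      rw [← mul_assoc, r_gh])
    (fun k z hz => by
      change vx K G j * (algebraMap K _ k * z) = algebraMap K _ k * z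
      rw [← mul_assoc, ← Algebra.commutes, mul_assoc, hz]) a (vx K G j)
    (AddSubmonoid.subset_closure ⟨nl G j, vx K G j, vx_vx j, by rw [c_nl, vx_vx]⟩)
  rw [mul_assoc] at h
  by_contra hcon
  apply h
  clear h
  generalize a * vx K G j = y at hm
  induction hm using AddSubmonoid.closure_induction with
  | mem y hy =>
    obtain ⟨x, z, hz, rfl⟩ := hy
    rw [← mul_assoc, v_c_ne, zero_mul]
    rintro rfl
    exact hcon (c_reach x)
  | zero => rw [mul_zero]
  | add y z _ _ h1 h2 => rw [mul_add, h1, h2, add_zero]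

end

end WS

end Pool.Agent.Work.MP_2b4d3b_al
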