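import Pool.Agent.Work.MP_2b4d3b_al.WSa

/-!
Part of MODULE WStruct (helper21): the representation on paths that never leave j.
-/

set_option linter.unusedVariables false
set_option linter.style.longLine false

namespace Pool.Agent.Work.MP_2b4d3b_al

open Matrix

universe u v w u' v' w'

namespace WS

section
variable {V E : Type} [Finite V] [Finite E] {G : Gr V E} {j : V} (K : Type u) [Field K] {R : Type v} [CommRing R]
  [Algebra K R] (t t' : R)

open Classical in
noncomputable def fv (v : V) (x : X G j) : X G j →₀ R :=
  if x.1 = v then Finsupp.single x 1 else 0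

open Classical in
noncomputable def fe (t : R) (e : E) (x : X G j) : X G j →₀ R :=
  if h : x.1 = G.r e then
    (if h' : G.s e = j then Finsupp.single x t else Finsupp.single (cn e h' x h) 1) else 0

open Classical in
noncomputable def fg (t' : R) (e : E) (x : X G j) : X G j →₀ R :=
  match un x with
  | none => if G.s e = j then Finsupp.single x t' else 0
  | some (f, y) => if f = e then Finsupp.single y 1 else 0

noncomputable def L (f : X G j → (X G j →₀ R)) : Module.End R (X G j →₀ R) :=
  Finsupp.linearCombination R f

omit [Finite V] [Finite E] in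
theorem L_single (f : X G j → (X G j →₀ R)) (x : X G j) (r : R) :
    L f (Finsupp.single x r) = r • f x := by
  simp [L]

omit [Finite V] [Finite E] in
theorem L_ext {f g : Module.End R (X G j →₀ R)}
    (h : ∀ x, f (Finsupp.single x 1) = g (Finsupp.single x 1)) : f = g := by
  apply Finsupp.lhom_ext'
  intro x
  apply LinearMap.ext_ring
  simpa using h x

open Classical in
omit [Finite V] [Finite E] in
theorem fg_nl (e : E) : fg (j := j) t' e (nl G j) = if G.s e = j then Finsupp.single (nl G j) t' else 0 := by
  simp [fg, un_nl]

open Classical in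
omit [Finite V] [Finite E] in
theorem fg_cn (e f : E) (h : G.s f ≠ j) (x : X G j) (hx : x.1 = G.r f) :
    fg t' e (cn f h x hx) = if f = e then Finsupp.single x 1 else 0 := by
  simp [fg, un_cn]

omit [Finite V] [Finite E] in
theorem fg_ne (e : E) (x : X G j) (h : x.1 ≠ G.s e) : fg t' e x = 0 := by
  induction x using X.cases with
  | h0 => rw [fg_nl, if_neg]; exact fun hh => h hh.symm
  | h1 f h' x hx =>
    rw [fg_cn, if_neg]
    rintro rfl
    exact h rfl

omit [Finite V] [Finite E] in
theorem fe_ne (e : E) (x : X G j) (h : x.1 ≠ G.r e) : fe t e x = 0 := by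
  simp [fe, h]

omit [Finite V] [Finite E] in
theorem fe_lp (e : E) (x : X G j) (h : x.1 = G.r e) (h' : G.s e = j) :
    fe t e x = Finsupp.single x t := by
  simp [fe, h, h']

omit [Finite V] [Finite E] in
theorem fe_cn (e : E) (x : X G j) (h : x.1 = G.r e) (h' : G.s e ≠ j) :
    fe t e x = Finsupp.single (cn e h' x h) 1 := by
  simp [fe, h, h']

omit [Finite V] [Finite E] in
theorem fv_eq (v : V) (x : X G j) (h : x.1 = v) : fv (R := R) v x = Finsupp.single x 1 := by
  simp [fv, h]

omit [Finite V] [Finite E] in
theorem fv_ne (v : V) (x : X G j) (h : x.1 ≠ v) : fv (R := R) v x = 0 := by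
  simp [fv, h]

noncomputable def fam (hs : ∀ e, G.s e = j → G.r e = j)
    (hu : ∀ e f, G.s e = j → G.s f = j → e = f) (tt : t * t' = 1) :
    Fam K G (Module.End R (X G j →₀ R)) where
  p v := L (fv v)
  a e := L (fe t e)
  b e := L (fg t' e)
  vv v := L_ext fun x => by
    rw [Module.End.mul_apply, L_single, one_smul]
    by_cases h : x.1 = v
    · rw [fv_eq _ _ h, L_single, one_smul, fv_eq _ _ h]
    · rw [fv_ne _ _ h, map_zero]
  vw v v' hne := L_ext fun x => by
    rw [Module.End.mul_apply, L_single, one_smul, LinearMap.zero_apply]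
    by_cases h : x.1 = v'
    · rw [fv_eq _ _ h, L_single, one_smul, fv_ne _ _ (by rw [h]; exact hne.symm)]
    · rw [fv_ne _ _ h, map_zero]
  se e := L_ext fun x => by
    rw [Module.End.mul_apply, L_single, one_smul]
    by_cases h : x.1 = G.r e
    · by_cases h' : G.s e = j
      · rw [fe_lp _ _ _ h h', L_single, fv_eq]
        · simp
        · rw [h, h']; exact hs e h'
      · rw [fe_cn _ _ _ h h', L_single, fv_eq, one_smul]
        rfl
    · rw [fe_ne _ _ _ h, map_zero]
  er e := L_ext fun x => by
    rw [Module.End.mul_apply, L_single, one_smul, L_single, one_smul]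
    by_cases h : x.1 = G.r e
    · rw [fv_eq _ _ h, L_single, one_smul]
    · rw [fv_ne _ _ h, map_zero, fe_ne _ _ _ h]
  rg e := L_ext fun x => by
    rw [Module.End.mul_apply, L_single, one_smul]
    induction x using X.cases with
    | h0 =>
      rw [fg_nl]
      by_cases h' : G.s e = j
      · rw [if_pos h', L_single, fv_eq]
        · simp
        · exact (hs e h').symm
      · rw [if_neg h', map_zero]
    | h1 f h x hx =>
      rw [fg_cn]
      by_cases h' : f = e
      · subst h'
        rw [if_pos rfl, L_single, fv_eq _ _ hx, one_smul]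
      · rw [if_neg h', map_zero]
  gs e := L_ext fun x => by
    rw [Module.End.mul_apply, L_single, one_smul, L_single, one_smul]
    by_cases h : x.1 = G.s e
    · rw [fv_eq _ _ h, L_single, one_smul]
    · rw [fv_ne _ _ h, map_zero, fg_ne _ _ _ h]
  ge e := L_ext fun x => by
    rw [Module.End.mul_apply, L_single, one_smul, L_single, one_smul]
    by_cases h : x.1 = G.r e
    · rw [fv_eq _ _ h]
      by_cases h' : G.s e = j
      · rw [fe_lp _ _ _ h h', L_single]
        have hx : x = nl G j := eq_nl (by rw [h]; exact hs e h')
        subst hx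
        rw [fg_nl, if_pos h', Finsupp.smul_single, smul_eq_mul, tt]
      · rw [fe_cn _ _ _ h h', L_single, fg_cn, if_pos rfl, one_smul]
    · rw [fv_ne _ _ h, fe_ne _ _ _ h, map_zero]
  gf e f hne := L_ext fun x => by
    rw [Module.End.mul_apply, L_single, one_smul, LinearMap.zero_apply]
    by_cases h : x.1 = G.r f
    · by_cases h' : G.s f = j
      · rw [fe_lp _ _ _ h h', L_single]
        have hx : x = nl G j := eq_nl (by rw [h]; exact hs f h')
        subst hx
        rw [fg_nl, if_neg, smul_zero]
        intro h2
        exact hne (hu e f h2 h')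
      · rw [fe_cn _ _ _ h h', L_single, fg_cn, if_neg (Ne.symm hne), smul_zero]
    · rw [fe_ne _ _ _ h, map_zero]
  ck v S hS hne := L_ext fun x => by
    rw [L_single, one_smul, LinearMap.sum_apply]
    by_cases h : x.1 = v
    · rw [fv_eq _ _ h]
      induction x using X.cases with
      | h0 =>
        have hj : j = v := h
        obtain ⟨e0, he0⟩ := hne
        have h0 : G.s e0 = j := by rw [hj]; exact (hS e0).1 he0
        rw [Finset.sum_eq_single_of_mem e0 he0]
        · rw [Module.End.mul_apply, L_single, one_smul, fg_nl, if_pos h0, L_single,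
            fe_lp _ _ _ (show (nl G j).1 = G.r e0 from (hs e0 h0).symm) h0, Finsupp.smul_single,
            smul_eq_mul, mul_comm, tt]
        · intro e he hee
          exact absurd (hu e e0 (by rw [hj]; exact (hS e).1 he) h0) hee
      | h1 f h' x hx =>
        have hf : f ∈ S := (hS f).2 h
        rw [Finset.sum_eq_single_of_mem f hf]
        · rw [Module.End.mul_apply, L_single, one_smul, fg_cn, if_pos rfl, L_single, one_smul,
            fe_cn _ _ _ hx h']
        · intro e he hee
          rw [Module.End.mul_apply, L_single, one_smul, fg_cn, if_neg (Ne.symm hee), map_zero]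
    · rw [fv_ne _ _ h]
      symm
      refine Finset.sum_eq_zero fun e he => ?_
      rw [Module.End.mul_apply, L_single, one_smul, fg_ne, map_zero]
      rw [(hS e).1 he]
      exact h
  one T hT := L_ext fun x => by
    rw [LinearMap.sum_apply, Finset.sum_eq_single_of_mem x.1 (hT _)]
    · rw [L_single, one_smul, fv_eq _ _ rfl, Module.End.one_apply]
    · intro v hv hne
      rw [L_single, one_smul, fv_ne _ _ (Ne.symm hne)]

end

end WS

end Pool.Agent.Work.MP_2b4d3b_al
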