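import Pool.Agent.Work.MP_2b4d3b_al.WSb

/-!
Part of MODULE WStruct (helper21): assembly of the structure data.
-/

set_option linter.unusedVariables false
set_option linter.style.longLine false

namespace Pool.Agent.Work.MP_2b4d3b_al

open Matrix

universe u v w u' v' w'

namespace WS

theorem build {V E : Type} {G : Gr V E} {j : V} {K : Type u} [Field K] {R : Type v} [CommRing R]
    [Algebra K R] (hs : ∀ e, G.s e = j → G.r e = j) (t t' : R) (i : R → LPA K G)
    (i_add : ∀ r s, i (r + s) = i r + i s) (i_mul : ∀ r s, i (r * s) = i r * i s)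
    (i_one : i 1 = vx K G j) (i_zero : i 0 = 0)
    (ied : ∀ e, G.s e = j → ∀ r, ed K G e * i r = i (t * r))
    (ige : ∀ e, G.s e = j → ∀ r, gh K G e * i r = i (t' * r))
    (ied' : ∀ e, G.s e = j → ∀ r, i r * ed K G e = i (t * r))
    (ige' : ∀ e, G.s e = j → ∀ r, i r * gh K G e = i (t' * r))
    (ik : ∀ (k : K) r, algebraMap K (LPA K G) k * i r = i (algebraMap K R k * r))
    (inj : Function.Injective i) : ∃ D : WD (LPA K G) R (X G j), D.w = vx K G j := by
  classical
  have wi : ∀ r, vx K G j * i r = i r := fun r => by rw [← i_one, ← i_mul, one_mul]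
  have iw : ∀ r, i r * vx K G j = i r := fun r => by rw [← i_one, ← i_mul, mul_one]
  have spc : ∀ a, ∃ f : X G j →₀ R, a * vx K G j = f.sum fun x r => c K x * i r := by
    intro a
    have hm := span_left (j := j) K hs (Set.range i)
      (by rintro _ ⟨r, rfl⟩; exact wi r)
      (by rintro e he _ ⟨r, rfl⟩; exact ⟨_, (ied e he r).symm⟩)
      (by rintro e he _ ⟨r, rfl⟩; exact ⟨_, (ige e he r).symm⟩)
      (by rintro k _ ⟨r, rfl⟩; exact ⟨_, (ik k r).symm⟩) a (vx K G j)
      (AddSubmonoid.subset_closure ⟨nl G j, vx K G j, ⟨1, i_one⟩, by rw [c_nl, vx_vx]⟩)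
    generalize a * vx K G j = y at hm
    induction hm using AddSubmonoid.closure_induction with
    | mem y hy =>
      obtain ⟨x, z, ⟨r, rfl⟩, rfl⟩ := hy
      refine ⟨Finsupp.single x r, ?_⟩
      rw [Finsupp.sum_single_index]
      rw [i_zero, mul_zero]
    | zero => exact ⟨0, by simp⟩
    | add y z _ _ h1 h2 =>
      obtain ⟨f, rfl⟩ := h1
      obtain ⟨g, rfl⟩ := h2
      refine ⟨f + g, ?_⟩
      rw [Finsupp.sum_add_index']
      · intro x; rw [i_zero, mul_zero]
      · intro x r s; rw [i_add, mul_add]
  have spd : ∀ a, ∃ f : X G j →₀ R, vx K G j * a = f.sum fun x r => i r * d K x := by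
    intro a
    have hm := span_right (j := j) K hs (Set.range i)
      (by rintro _ ⟨r, rfl⟩; exact iw r)
      (by rintro e he _ ⟨r, rfl⟩; exact ⟨_, (ied' e he r).symm⟩)
      (by rintro e he _ ⟨r, rfl⟩; exact ⟨_, (ige' e he r).symm⟩)
      (by
        rintro k _ ⟨r, rfl⟩
        exact ⟨_, by rw [← Algebra.commutes]; exact (ik k r).symm⟩) a (vx K G j)
      (AddSubmonoid.subset_closure ⟨nl G j, vx K G j, ⟨1, i_one⟩, by rw [d_nl, vx_vx]⟩)
    generalize vx K G j * a = y at hm
    induction hm using AddSubmonoid.closure_induction with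
    | mem y hy =>
      obtain ⟨x, z, ⟨r, rfl⟩, rfl⟩ := hy
      refine ⟨Finsupp.single x r, ?_⟩
      rw [Finsupp.sum_single_index]
      rw [i_zero, zero_mul]
    | zero => exact ⟨0, by simp⟩
    | add y z _ _ h1 h2 =>
      obtain ⟨f, rfl⟩ := h1
      obtain ⟨g, rfl⟩ := h2
      refine ⟨f + g, ?_⟩
      rw [Finsupp.sum_add_index']
      · intro x; rw [i_zero, zero_mul]
      · intro x r s; rw [i_add, add_mul]
  refine ⟨WD.mk (vx K G j) (vx_vx j) (c K) (d K) (c_w K) (w_d K) (d_c K)
    (fun x y h => d_c_ne K x y h) i i_add i_mul i_one i_zero inj ?_ spc spd, rfl⟩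
  intro a
  obtain ⟨f, hf⟩ := spc a
  refine ⟨f (nl G j), ?_⟩
  rw [mul_assoc, hf, Finsupp.sum, Finset.mul_sum]
  by_cases hm : nl G j ∈ f.support
  · rw [Finset.sum_eq_single_of_mem _ hm]
    · rw [c_nl, ← mul_assoc, vx_vx, wi]
    · intro x _ hx
      rw [← mul_assoc, ← d_nl, d_c_ne K _ _ (Ne.symm hx), zero_mul]
  · rw [Finsupp.notMem_support_iff.1 hm, i_zero]
    refine Finset.sum_eq_zero fun x hx => ?_
    rw [← mul_assoc, ← d_nl, d_c_ne K _ _, zero_mul]
    rintro rfl
    exact hm hx

/-- no edge leaves j -/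
theorem build0 {V E : Type} [Finite V] [Finite E] {G : Gr V E} {j : V} (K : Type u) [Field K]
    (h0 : ∀ e, G.s e ≠ j) : ∃ D : WD (LPA K G) K (X G j), D.w = vx K G j := by
  refine build (R := K) (fun e he => absurd he (h0 e)) 1 1
    (fun r => algebraMap K _ r * vx K G j) ?_ ?_ ?_ ?_ ?_ ?_ ?_ ?_ ?_ ?_
  · intro r s; rw [map_add, add_mul]
  · intro r s
    rw [map_mul, mul_assoc, mul_assoc, ← mul_assoc (vx K G j), ← Algebra.commutes,
      mul_assoc (algebraMap K (LPA K G) s), vx_vx]
  · rw [map_one, one_mul]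
  · rw [map_zero, zero_mul]
  · intro e he; exact absurd he (h0 e)
  · intro e he; exact absurd he (h0 e)
  · intro e he; exact absurd he (h0 e)
  · intro e he; exact absurd he (h0 e)
  · intro k r
    rw [← mul_assoc, ← map_mul]; rfl
  · intro r s hrs
    have hF := congrArg (fun a => (fam (G := G) (j := j) K (1 : K) 1 (fun e he => absurd he (h0 e))
      (fun e f he _ => absurd he (h0 e)) (one_mul 1)).lift a (Finsupp.single (nl G j) 1)) hrs
    simp only [map_mul, AlgHom.commutes, Fam.lift_vx, Module.End.mul_apply] at hF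
    have h1 : ∀ r : K, (algebraMap K (Module.End K (X G j →₀ K)) r)
        ((fam (G := G) (j := j) K (1 : K) 1 (fun e he => absurd he (h0 e))
      (fun e f he _ => absurd he (h0 e)) (one_mul 1)).p j (Finsupp.single (nl G j) 1)) =
        Finsupp.single (nl G j) r := by
      intro r
      change r • (L (fv j) (Finsupp.single (nl G j) 1)) = _
      rw [L_single, fv_eq _ _ nl_fst, one_smul, Finsupp.smul_single, smul_eq_mul, mul_one]
    rw [h1, h1] at hF
    exact Finsupp.single_injective _ hF

open LaurentPolynomial in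
/-- exactly one edge, a loop, leaves j -/
theorem build1 {V E : Type} [Finite V] [Finite E] {G : Gr V E} {j : V} (K : Type u) [Field K]
    (hs : ∀ e, G.s e = j → G.r e = j) (hu : ∀ e f, G.s e = j → G.s f = j → e = f)
    (e0 : E) (he0 : G.s e0 = j) :
    ∃ D : WD (LPA K G) (LaurentPolynomial K) (X G j), D.w = vx K G j := by
  classical
  set p := vx K G j with hp
  set a := ed K G e0 with ha
  set b := gh K G e0 with hb
  have hr0 := hs e0 he0
  have pp : p * p = p := vx_vx j
  have pa : p * a = a := by rw [hp, ← he0]; exact s_ed e0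
  have ap : a * p = a := by
    have := ed_r (K := K) (G := G) e0
    rwa [hr0] at this
  have pb : p * b = b := by
    have := r_gh (K := K) (G := G) e0
    rwa [hr0] at this
  have bp : b * p = b := by
    have := gh_s (K := K) (G := G) e0
    rwa [he0] at this
  have ba : b * a = p := by
    have := gh_ed (K := K) (G := G) e0
    rwa [hr0] at this
  have ab : a * b = p := by
    have := ck_sum (K := K) (G := G) j {e0} (fun e => by
      rw [Finset.mem_singleton]
      exact ⟨fun h => by rw [h, he0], fun h => hu _ _ h he0⟩) ⟨e0, Finset.mem_singleton_self _⟩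
    rw [Finset.sum_singleton] at this
    exact this.symm
  have uv : (a + (1 - p)) * (b + (1 - p)) = 1 := by
    have h1 : a * (1 - p) = 0 := by rw [mul_sub, mul_one, ap, sub_self]
    have h2 : (1 - p) * b = 0 := by rw [sub_mul, one_mul, pb, sub_self]
    have h3 : (1 - p) * (1 - p) = 1 - p := by
      rw [mul_sub, mul_one, sub_mul, one_mul, pp, sub_self, sub_zero]
    rw [add_mul, mul_add, mul_add, h1, h2, h3, ab]; abel
  have vu : (b + (1 - p)) * (a + (1 - p)) = 1 := by
    have h1 : b * (1 - p) = 0 := by rw [mul_sub, mul_one, bp, sub_self]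
    have h2 : (1 - p) * a = 0 := by rw [sub_mul, one_mul, pa, sub_self]
    have h3 : (1 - p) * (1 - p) = 1 - p := by
      rw [mul_sub, mul_one, sub_mul, one_mul, pp, sub_self, sub_zero]
    rw [add_mul, mul_add, mul_add, h1, h2, h3, ba]; abel
  let U : (LPA K G)ˣ := ⟨a + (1 - p), b + (1 - p), uv, vu⟩
  let Φ : LaurentPolynomial K →ₐ[K] LPA K G :=
    AddMonoidAlgebra.lift K (LPA K G) ℤ ((Units.coeHom (LPA K G)).comp (zpowersHom (LPA K G)ˣ U))
  have hT : ∀ n : ℤ, Φ (T n) = ((U ^ n : (LPA K G)ˣ) : LPA K G) := by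
    intro n
    simp only [Φ, T]
    rw [AddMonoidAlgebra.lift_single]
    simp
  have hT1 : Φ (T 1) = a + (1 - p) := by rw [hT, zpow_one]
  have hTm : Φ (T (-1)) = b + (1 - p) := by rw [hT, _root_.zpow_neg_one]; rfl
  have hC : ∀ k : K, Φ (C k) = algebraMap K _ k := by
    intro k
    rw [C_eq_algebraMap]
    exact Φ.commutes k
  have hUp : Commute (U : LPA K G) p := by
    change (a + (1 - p)) * p = p * (a + (1 - p))
    rw [add_mul, mul_add, ap, pa, sub_mul, mul_sub, one_mul, mul_one]
  have comm : ∀ f, Φ f * p = p * Φ f := by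
    intro f
    induction f using LaurentPolynomial.induction_on' with
    | add f g hf hg => rw [map_add, add_mul, mul_add, hf, hg]
    | C_mul_T n k =>
      rw [map_mul, hC, hT, mul_assoc, (hUp.units_zpow_left n).eq, ← mul_assoc, Algebra.commutes,
        mul_assoc]
  -- the representation
  have hd : (T 1 : LaurentPolynomial K) * T (-1) = 1 := by rw [← T_add]; exact T_zero
  have hrep : ∀ f, (fam (G := G) (j := j) K (T 1 : LaurentPolynomial K) (T (-1)) hs hu hd).lift
      (Φ f) (Finsupp.single (nl G j) 1) = Finsupp.single (nl G j) f := by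
    set ρ := (fam (G := G) (j := j) K (T 1 : LaurentPolynomial K) (T (-1)) hs hu hd).lift with hρ
    have hp1 : ∀ r, ρ p (Finsupp.single (nl G j) r) = Finsupp.single (nl G j) r := by
      intro r
      rw [hρ, hp, Fam.lift_vx]
      change L (fv j) _ = _
      rw [L_single, fv_eq _ _ nl_fst, Finsupp.smul_single, smul_eq_mul, mul_one]
    have ha1 : ∀ r, ρ a (Finsupp.single (nl G j) r) = Finsupp.single (nl G j) (r * T 1) := by
      intro r
      rw [hρ, ha, Fam.lift_ed]
      change L (fe (T 1) e0) _ = _
      rw [L_single, fe_lp _ _ _ (by rw [hr0, nl_fst]) he0, Finsupp.smul_single, smul_eq_mul]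
    have hb1 : ∀ r, ρ b (Finsupp.single (nl G j) r) = Finsupp.single (nl G j) (r * T (-1)) := by
      intro r
      rw [hρ, hb, Fam.lift_gh]
      change L (fg (T (-1)) e0) _ = _
      rw [L_single, fg_nl, if_pos he0, Finsupp.smul_single, smul_eq_mul]
    have hU1 : ∀ r, ρ (U : LPA K G) (Finsupp.single (nl G j) r) =
        Finsupp.single (nl G j) (r * T 1) := by
      intro r
      change ρ (a + (1 - p)) _ = _
      rw [map_add, map_sub, map_one, LinearMap.add_apply, LinearMap.sub_apply, ha1, hp1,
        Module.End.one_apply, sub_self, add_zero]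
    have hV1 : ∀ r, ρ ((U⁻¹ : (LPA K G)ˣ) : LPA K G) (Finsupp.single (nl G j) r) =
        Finsupp.single (nl G j) (r * T (-1)) := by
      intro r
      change ρ (b + (1 - p)) _ = _
      rw [map_add, map_sub, map_one, LinearMap.add_apply, LinearMap.sub_apply, hb1, hp1,
        Module.End.one_apply, sub_self, add_zero]
    have hn : ∀ n : ℤ, ∀ r, ρ ((U ^ n : (LPA K G)ˣ) : LPA K G) (Finsupp.single (nl G j) r) =
        Finsupp.single (nl G j) (r * T n) := by
      intro n
      induction n using Int.induction_on with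
      | zero =>
        intro r
        rw [_root_.zpow_zero, Units.val_one, map_one, Module.End.one_apply, T_zero, mul_one]
      | succ n ih =>
        intro r
        rw [_root_.zpow_add_one, Units.val_mul, map_mul, Module.End.mul_apply, hU1, ih, mul_assoc,
          ← T_add, add_comm]
      | pred n ih =>
        intro r
        rw [_root_.zpow_sub_one, Units.val_mul, map_mul, Module.End.mul_apply, hV1, ih, mul_assoc,
          ← T_add, sub_eq_add_neg, add_comm]
    intro f
    induction f using LaurentPolynomial.induction_on' with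
    | add f g hf hg => rw [map_add, map_add, LinearMap.add_apply, hf, hg, Finsupp.single_add]
    | C_mul_T n k =>
      rw [map_mul, map_mul, hC, hT, Module.End.mul_apply, hn, one_mul, AlgHom.commutes,
        Module.algebraMap_end_apply, Finsupp.smul_single, smul_eq_C_mul]
  refine build (R := LaurentPolynomial K) hs (T 1) (T (-1)) (fun f => Φ f * p) ?_ ?_ ?_ ?_ ?_ ?_ ?_ ?_
    ?_ ?_
  · intro r s; rw [map_add, add_mul]
  · intro r s
    rw [map_mul, mul_assoc, mul_assoc, ← mul_assoc p, ← comm s, mul_assoc (Φ s), pp]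
  · rw [map_one, one_mul]
  · rw [map_zero, zero_mul]
  · intro e he r
    have : e = e0 := hu _ _ he he0
    subst this
    change a * (Φ r * p) = Φ (T 1 * r) * p
    rw [map_mul, hT1, mul_assoc (a + (1 - p)), comm, ← mul_assoc (a + (1 - p)), add_mul, ap, sub_mul,
      one_mul, pp, sub_self, add_zero, ← mul_assoc, ap]
  · intro e he r
    have : e = e0 := hu _ _ he he0
    subst this
    change b * (Φ r * p) = Φ (T (-1) * r) * p
    rw [map_mul, hTm, mul_assoc (b + (1 - p)), comm, ← mul_assoc (b + (1 - p)), add_mul, bp, sub_mul,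
      one_mul, pp, sub_self, add_zero, ← mul_assoc, bp]
  · intro e he r
    have : e = e0 := hu _ _ he he0
    subst this
    change (Φ r * p) * a = Φ (T 1 * r) * p
    rw [mul_comm (T 1) r, map_mul, hT1, mul_assoc, mul_assoc, pa, add_mul, ap, sub_mul,
      one_mul, pp, sub_self, add_zero]
  · intro e he r
    have : e = e0 := hu _ _ he he0
    subst this
    change (Φ r * p) * b = Φ (T (-1) * r) * p
    rw [mul_comm (T (-1)) r, map_mul, hTm, mul_assoc, mul_assoc, pb, add_mul, bp, sub_mul,
      one_mul, pp, sub_self, add_zero]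
  · intro k r
    change _ * (Φ r * p) = Φ (_ * r) * p
    rw [map_mul, AlgHom.commutes, mul_assoc]
  · intro r s hrs
    have h1 := congrArg (fun z => (fam (G := G) (j := j) K (T 1 : LaurentPolynomial K) (T (-1)) hs hu
      hd).lift z (Finsupp.single (nl G j) 1)) hrs
    have hp1 : ∀ r, (fam (G := G) (j := j) K (T 1 : LaurentPolynomial K) (T (-1)) hs hu hd).lift p
        (Finsupp.single (nl G j) r) = Finsupp.single (nl G j) r := by
      intro r
      rw [hp, Fam.lift_vx]
      change L (fv j) _ = _
      rw [L_single, fv_eq _ _ nl_fst, Finsupp.smul_single, smul_eq_mul, mul_one]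
    simp only [map_mul, Module.End.mul_apply, hp1, hrep] at h1
    exact Finsupp.single_injective _ h1

/-! ### K[T, 1/T] is a PID and no field -/

section Laurent

variable (K : Type u) [Field K]

theorem lau_domain : IsDomain (LaurentPolynomial K) :=
  inferInstance

theorem lau_pid : IsPrincipalIdealRing (LaurentPolynomial K) := by
  refine ⟨fun I => ?_⟩
  have h := IsLocalization.map_under (Submonoid.powers (Polynomial.X : Polynomial K))
    (LaurentPolynomial K) I
  obtain ⟨f, hf⟩ := (IsPrincipalIdealRing.principal (I.under (Polynomial K))).principal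
  refine ⟨algebraMap _ _ f, ?_⟩
  rw [← h, hf]
  exact (Ideal.map_span _ _).trans (by rw [Set.image_singleton])

theorem lau_not_field : ¬ IsField (LaurentPolynomial K) := by
  intro h
  let φ : LaurentPolynomial K →ₐ[K] K := AddMonoidAlgebra.lift K K ℤ 1
  have h1 : φ (LaurentPolynomial.T 1 - 1) = 0 := by
    rw [map_sub, map_one, LaurentPolynomial.T, AddMonoidAlgebra.lift_single]
    simp
  have h2 : (LaurentPolynomial.T 1 - 1 : LaurentPolynomial K) ≠ 0 := by
    intro h0
    have := congrArg (fun f : LaurentPolynomial K => f.coeff 1) (sub_eq_zero.1 h0)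
    rw [← LaurentPolynomial.T_zero] at this
    simp only [LaurentPolynomial.T_apply] at this
    simp at this
  obtain ⟨b, hb⟩ := h.mul_inv_cancel h2
  have := congrArg φ hb
  rw [map_mul, h1, zero_mul, map_one] at this
  exact zero_ne_one this

end Laurent

end WS

end Pool.Agent.Work.MP_2b4d3b_al
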